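import Pool.Agent.H681.MD.Stm2
import Pool.Graph.R_pool_sql_team_seeded_1acbe0a2.Y752.QF.Final3

set_option autoImplicit false

/-! Project MD (helper681), third wave: bounds which are summable over the twist `M`. -/

namespace Pool.Agent.H681.MD

open MeasureTheory Set Filter Complex
open Pool.Agent.N879.QM
open scoped ENNReal

noncomputable section

/-- B1r: the majorant with the factor `M1^{-1/2}` -/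
def S_B1r : Prop := ∀ k : ℕ, ∃ U : ℕ → ℕ → ℝ, (∀ M b, 0 ≤ U M b) ∧
  (∀ M : ℕ, 1 ≤ M → ∀ (β : Fin k → ℝ) (b : ℕ), ‖alM M β b‖ ≤ U M b) ∧
  ∀ δ ε : ℝ, 0 < δ → δ ≤ 1 / 4 → 0 < ε → ∃ C : ℝ, 0 < C ∧ ∀ M : ℕ, 1 ≤ M → ∀ S : Finset ℕ,
    ∑ b ∈ S, U M b * (b : ℝ) ^ (1 / 2 - δ) ≤ C * (M : ℝ) ^ ε / Real.sqrt (M1 M)

/-- B3r: the box sum and the partial sum of the coefficients, with the factor `M1^{-1/2}` -/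
def S_B3r : Prop := ∀ (k : ℕ) (ε : ℝ), 0 < ε → ∃ C : ℝ, 0 < C ∧ ∀ (M N Y : ℕ) (A : ℝ), 1 ≤ M → 1 ≤ N →
  M1 M * N ^ 2 ≤ Y → (Y : ℝ) ≤ A →
  ∫⁻ β, ENNReal.ofReal (‖SM k M Y β - ∑ m ∈ Finset.Icc 1 N, gM M β m‖ ^ 2) ∂(mS k A) ≤
    ENNReal.ofReal (C * A ^ k * A ^ ε / (Real.sqrt (M1 M) * N))

/-- PS2: partial summation and the Cauchy-Schwarz inequality. `G n = ∑_{m < n} a_m - n R`. -/
def S_PS2 : Prop := ∀ (a : ℕ → ℂ) (R : ℂ) (Y X : ℕ), 1 ≤ Y → Y ≤ X → ∀ w : ℂ, 1 / 2 ≤ w.re →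
  ‖∑ n ∈ Finset.Ico Y X, a n * (n : ℂ) ^ (-w) - R * ∑ n ∈ Finset.Ico Y X, (n : ℂ) ^ (-w)‖ ^ 2 ≤
    16 * (1 + ‖w‖) ^ 2 * (Y : ℝ) ^ (1 - 2 * w.re) * (1 + Real.log X) *
      (‖∑ m ∈ Finset.range X, a m - (X : ℂ) * R‖ ^ 2 / X + ‖∑ m ∈ Finset.range Y, a m - (Y : ℂ) * R‖ ^ 2 / Y +
        ∑ n ∈ Finset.Icc 1 X, ‖∑ m ∈ Finset.range n, a m - (n : ℂ) * R‖ ^ 2 / (n : ℝ) ^ 2)

end

end Pool.Agent.H681.MD
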