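import Pool.Agent.H681.MD.MTM
import Pool.Agent.H681.MD.Stm4

set_option autoImplicit false

/-!
Project MD: the box sum with a twist against the main term, in mean square, uniformly in the twist.
-/

namespace Pool.Agent.H681.MD

open Complex MeasureTheory Set Filter
open scoped BigOperators ENNReal
open Pool.Agent.N879.QM Pool.Agent.N879.QM.Coef

noncomputable section

variable {k : ℕ}

lemma M1_ge (M : ℕ) : 1 ≤ M1 M := by
  unfold M1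
  have : 0 < ∏ p ∈ M.primeFactors.filter (fun p => Odd (M.factorization p)), p := by
    refine Finset.prod_pos fun p hp => ?_
    exact (Nat.prime_of_mem_primeFactors (Finset.mem_filter.1 hp).1).pos
  exact this

/-- the box and the main term, in mean square -/
theorem FintMr (hB1 : S_B1r) (hB2 : S_B2) (hB3 : S_B3r) (k : ℕ) : ∃ A₀ : ℝ, 3 ≤ A₀ ∧ ∀ ε : ℝ, 0 < ε →
    ∃ C : ℝ, 0 < C ∧ ∀ (M : ℕ) (A : ℝ), 1 ≤ M → A₀ ≤ A → (M1 M : ℝ) ≤ A →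
    ∫⁻ β in Gd k A, ENNReal.ofReal (‖SM k M ⌊A⌋₊ β - MTM M (im β)‖ ^ 2) ∂(mS k A) ≤
      ENNReal.ofReal (C * (M : ℝ) ^ ε * A ^ k * A ^ (ε - 1 / 2)) := by
  obtain ⟨U, hU0, hU, hUS⟩ := hB1 k
  obtain ⟨A₀, hA₀, hG⟩ := GintM k
  refine ⟨A₀, hA₀, fun ε hε => ?_⟩
  obtain ⟨C1, hC1, h1⟩ := hG ε hε
  obtain ⟨C2, hC2, h2⟩ := hB3 k ε hε
  have hδ0 : 0 < min (ε / 4) (1 / 4 : ℝ) := lt_min (by positivity) (by norm_num)
  obtain ⟨C3, hC3, h3⟩ := hUS (min (ε / 4) (1 / 4)) (ε / 2) hδ0 (min_le_right _ _) (by positivity)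
  refine ⟨(2 * C2 + 2 * (C1 * C3 ^ 2)) * 2, by positivity, ?_⟩
  intro M A hM hA hMA
  have hA3 : 3 ≤ A := hA₀.trans hA
  have hA1 : 1 ≤ A := by linarith
  have hA0 : 0 < A := by linarith
  have hMr1 : (1 : ℝ) ≤ M := by exact_mod_cast hM
  have hMr0 : (0 : ℝ) < M := by linarith
  obtain ⟨m, hm⟩ : ∃ m : ℝ, m = (M1 M : ℝ) := ⟨_, rfl⟩
  rw [← hm] at hMA
  have hM1 : (1 : ℝ) ≤ m := by rw [hm]; exact_mod_cast M1_ge M
  have hM0 : (0 : ℝ) < m := by linarith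
  obtain ⟨R, hR⟩ : ∃ R : ℝ, R = A / m := ⟨_, rfl⟩
  have hR1 : 1 ≤ R := by rw [hR, le_div_iff₀ hM0]; linarith
  have hR0 : 0 < R := by linarith
  set N : ℕ := ⌊√R⌋₊ with hN
  have hs1 : 1 ≤ √R := Real.one_le_sqrt.2 hR1
  have hN1 : 1 ≤ N := Nat.le_floor (by simpa using hs1)
  have hN1r : (1 : ℝ) ≤ N := by exact_mod_cast hN1
  have hN0 : (0 : ℝ) < N := by linarith
  have hNs : (N : ℝ) ≤ √R := Nat.floor_le (by positivity)
  have hNR : (N : ℝ) ^ 2 ≤ R := by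
    calc (N : ℝ) ^ 2 ≤ √R ^ 2 := pow_le_pow_left₀ hN0.le hNs 2
      _ = R := Real.sq_sqrt hR0.le
  have hRA : R ≤ A := by
    rw [hR, div_le_iff₀ hM0]
    nlinarith
  have hNA : (N : ℝ) ^ 2 ≤ A := hNR.trans hRA
  have hNY : M1 M * N ^ 2 ≤ ⌊A⌋₊ := by
    refine Nat.le_floor ?_
    push_cast
    rw [← hm]
    calc m * (N : ℝ) ^ 2 ≤ m * R := mul_le_mul_of_nonneg_left hNR hM0.le
      _ = A := by rw [hR]; field_simp
  have hYA : ((⌊A⌋₊ : ℕ) : ℝ) ≤ A := Nat.floor_le hA0.le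
  have hs2 : √R / 2 ≤ N := by
    have := Nat.lt_floor_add_one √R
    rw [← hN] at this
    linarith
  have hsm0 : 0 < √m := Real.sqrt_pos.2 hM0
  obtain ⟨K, hK⟩ : ∃ K : ℝ, K = C3 * (M : ℝ) ^ (ε / 2) / √m := ⟨_, rfl⟩
  have hK0 : 0 < K := by rw [hK]; positivity
  have h3' : ∀ S : Finset ℕ, ∑ b ∈ S, U M b * (b : ℝ) ^ (1 / 2 - min (ε / 4) (1 / 4)) ≤ K := by
    intro S
    rw [hK, hm]
    exact h3 M hM S
  have b1 := h1 (fun β b => alM M β b) (fun β => AkM M (im β)) (U M) K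
    (fun b => meas_alM M b) (meas_AkM hB2 hM) hK0 (hU0 M) (hU M hM) h3'
    (fun β N' hN' => alM_tail hB2 hM (min_le_right _ _) (hU0 M) (hU M hM) h3' β hN') N A hA hN1 hNA
  have b2 : ∫⁻ β in Gd k A, ENNReal.ofReal (‖SM k M ⌊A⌋₊ β - GNM M N β‖ ^ 2) ∂(mS k A) ≤
      ENNReal.ofReal (C2 * A ^ k * A ^ ε / (√m * N)) := by
    rw [hm]
    exact (setLIntegral_le_lintegral _ _).trans (h2 M N ⌊A⌋₊ A hM hN1 hNY hYA)
  have hMT : ∀ β : Fin k → ℝ, MTM M (im β) = AkM M (im β) * ∏ r : Pr k, riemannZeta (pp β r) := by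
    intro β
    unfold MTM
    congr 1
    refine Finset.prod_congr rfl fun r _ => ?_
    congr 1
    unfold pp Pool.Agent.N879.QM.im
    ring
  have b1' : ∫⁻ β in Gd k A, ENNReal.ofReal (‖GNM M N β - MTM M (im β)‖ ^ 2) ∂(mS k A) ≤
      ENNReal.ofReal (C1 * K ^ 2 * A ^ k * A ^ ε / N) := by
    refine le_trans (le_of_eq ?_) b1
    refine lintegral_congr fun β => ?_
    rw [norm_sub_rev, hMT, GNM_eq]
  have b3 := lint_add_sq (h := fun β => SM k M ⌊A⌋₊ β - MTM M (im β)) ((meas_SM M _).sub (meas_GNM M N))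
    ((meas_GNM M N).sub (meas_MTM hB2 hM)) (by positivity) (by positivity) b2 b1' fun β => by
      simp only [Pi.sub_apply]
      ring
  refine b3.trans (ENNReal.ofReal_le_ofReal ?_)
  have hMe1 : 1 ≤ (M : ℝ) ^ ε := Real.one_le_rpow hMr1 hε.le
  have e0 : ((M : ℝ) ^ (ε / 2)) ^ 2 = (M : ℝ) ^ ε := by
    rw [← Real.rpow_natCast, ← Real.rpow_mul hMr0.le]
    congr 1
    push_cast
    ring
  have hsmm : √m * √m = m := Real.mul_self_sqrt hM0.le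
  have hsm1 : 1 ≤ √m := Real.one_le_sqrt.2 hM1
  have h4 : A ^ ε / (√m * N) ≤ 2 * A ^ (ε - 1 / 2) := by
    rw [div_le_iff₀ (by positivity)]
    have e1 : A ^ (ε - 1 / 2) * √A = A ^ ε := by
      rw [Real.sqrt_eq_rpow, ← Real.rpow_add hA0]
      congr 1
      ring
    have e2 : √m * √R = √A := by
      rw [← Real.sqrt_mul hM0.le, hR]
      congr 1
      field_simp
    calc A ^ ε = 2 * A ^ (ε - 1 / 2) * (√m * (√R / 2)) := by
          rw [← e1, ← e2]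
          ring
      _ ≤ 2 * A ^ (ε - 1 / 2) * (√m * N) := by gcongr
  have h5 : K ^ 2 * A ^ ε / N ≤ C3 ^ 2 * (M : ℝ) ^ ε * (2 * A ^ (ε - 1 / 2)) := by
    have e3 : K ^ 2 * A ^ ε / N = C3 ^ 2 * (M : ℝ) ^ ε * (A ^ ε / (√m * N)) / √m := by
      rw [hK, _root_.div_pow, mul_pow, e0, Real.sq_sqrt hM0.le]
      have : m = √m * √m := hsmm.symm
      field_simp
      rw [Real.sq_sqrt hM0.le]
    rw [e3]
    refine (div_le_self (by positivity) hsm1).trans ?_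
    exact mul_le_mul_of_nonneg_left h4 (by positivity)
  calc 2 * (C2 * A ^ k * A ^ ε / (√m * N)) + 2 * (C1 * K ^ 2 * A ^ k * A ^ ε / N) =
        2 * C2 * A ^ k * (A ^ ε / (√m * N)) + 2 * C1 * A ^ k * (K ^ 2 * A ^ ε / N) := by ring
    _ ≤ 2 * C2 * A ^ k * (2 * A ^ (ε - 1 / 2)) + 2 * C1 * A ^ k * (C3 ^ 2 * (M : ℝ) ^ ε * (2 * A ^ (ε - 1 / 2))) := by
        gcongr
    _ ≤ 2 * C2 * A ^ k * (2 * A ^ (ε - 1 / 2)) * (M : ℝ) ^ ε +
        2 * C1 * A ^ k * (C3 ^ 2 * (M : ℝ) ^ ε * (2 * A ^ (ε - 1 / 2))) := by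
        have : 2 * C2 * A ^ k * (2 * A ^ (ε - 1 / 2)) ≤ 2 * C2 * A ^ k * (2 * A ^ (ε - 1 / 2)) * (M : ℝ) ^ ε :=
          le_mul_of_one_le_right (by positivity) hMe1
        linarith
    _ = _ := by ring

end

end Pool.Agent.H681.MD
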