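import Pool.Agent.H681.MD.Sum1
import Pool.Agent.H681.MD.MTMr
import Pool.Agent.H681.QF.MT

set_option autoImplicit false

/-!
Project MD: the assembly, first part.
-/

namespace Pool.Agent.H681.MD

open MeasureTheory Set Filter Complex Topology
open Pool.Agent.Y752.QF
open Pool.Agent.Y532.QF
open scoped ENNReal

noncomputable section

variable {k : ℕ}

lemma mS_cub (H : ℝ) : Pool.Agent.N879.QM.mS k H = cub k H := by
  have h3 : Pool.Agent.N879.QM.mS k H = (volume : Measure (Fin k → ℝ)).restrict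
      (Set.univ.pi fun _ => Icc (-H) H) := by
    unfold Pool.Agent.N879.QM.mS
    rw [volume_pi, Measure.restrict_pi_pi]
  rw [h3, cub]
  congr 1
  ext γ
  rw [Set.mem_pi]
  show (∀ i ∈ univ, γ i ∈ Icc (-H) H) ↔ ∀ j, |γ j| ≤ H
  simp only [mem_univ, forall_true_left, mem_Icc, abs_le]

lemma SM_DM (M Y : ℕ) (γ : Fin k → ℝ) : SM k M Y γ = DM k M Y γ := by
  unfold SM DM
  unfold Pool.Agent.N879.QM.tup
  refine Finset.sum_congr rfl fun n _ => ?_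
  split_ifs with h
  · rfl
  · simp

/-- cube and good set -/
def mg (k : ℕ) (H : ℝ) : Measure (Fin k → ℝ) := (cub k H).restrict (Pool.Agent.N879.QM.Gd k H)

lemma mg_le (H : ℝ) : mg k H ≤ cub k H := Measure.restrict_le_self

lemma lsq_add {Ω : Type*} [MeasurableSpace Ω] {μ : Measure Ω} {f g h : Ω → ℂ} (hf : Measurable f)
    (hh : ∀ x, h x = f x + g x) :
    ∫⁻ x, ENNReal.ofReal (‖h x‖ ^ 2) ∂μ ≤ 2 * ∫⁻ x, ENNReal.ofReal (‖f x‖ ^ 2) ∂μ +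
      2 * ∫⁻ x, ENNReal.ofReal (‖g x‖ ^ 2) ∂μ := by
  have hm1 : Measurable fun x => ENNReal.ofReal (‖f x‖ ^ 2) := (hf.norm.pow_const 2).ennreal_ofReal
  have e1 : ∀ x, ENNReal.ofReal (‖h x‖ ^ 2) ≤ 2 * ENNReal.ofReal (‖f x‖ ^ 2) + 2 * ENNReal.ofReal (‖g x‖ ^ 2) := by
    intro x
    have h3 : ‖h x‖ ^ 2 ≤ 2 * ‖f x‖ ^ 2 + 2 * ‖g x‖ ^ 2 := by
      rw [hh]
      have := norm_add_le (f x) (g x)
      nlinarith [norm_nonneg (f x + g x), norm_nonneg (f x), norm_nonneg (g x), sq_nonneg (‖f x‖ - ‖g x‖)]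
    refine (ENNReal.ofReal_le_ofReal h3).trans ?_
    rw [ENNReal.ofReal_add (by positivity) (by positivity), ENNReal.ofReal_mul (by norm_num),
      ENNReal.ofReal_mul (by norm_num)]
    norm_num
  refine (lintegral_mono e1).trans ?_
  rw [lintegral_add_left (hm1.const_mul 2), lintegral_const_mul' _ _ (by norm_num),
    lintegral_const_mul' _ _ (by norm_num)]

lemma WE_add {Z : ℕ} {μ : Measure (Fin k → ℝ)} {G1 G2 G : ℕ → (Fin k → ℝ) → ℂ}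
    (h1 : ∀ M, 1 ≤ M → Measurable (G1 M)) (h : ∀ M γ, G M γ = G1 M γ + G2 M γ) :
    WE Z μ G ≤ 2 * WE Z μ G1 + 2 * WE Z μ G2 := by
  unfold WE
  rw [Finset.mul_sum, Finset.mul_sum, ← Finset.sum_add_distrib]
  refine Finset.sum_le_sum fun M hM => ?_
  refine (mul_le_mul_right (lsq_add (g := G2 M) (h1 M (Finset.mem_Icc.1 hM).1) (h M)) _).trans (le_of_eq ?_)
  ring

lemma WE_mono {Z : ℕ} {μ ν : Measure (Fin k → ℝ)} (h : μ ≤ ν) (G : ℕ → (Fin k → ℝ) → ℂ) :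
    WE Z μ G ≤ WE Z ν G := by
  unfold WE
  exact Finset.sum_le_sum fun M _ => mul_le_mul_right (lintegral_mono' h le_rfl) _

lemma WE_smul {Z : ℕ} {μ : Measure (Fin k → ℝ)} (c : ℂ) (G : ℕ → (Fin k → ℝ) → ℂ) :
    WE Z μ (fun M γ => c * G M γ) = ENNReal.ofReal (‖c‖ ^ 2) * WE Z μ G := by
  unfold WE
  rw [Finset.mul_sum]
  refine Finset.sum_congr rfl fun M _ => ?_
  have e : ∀ γ, ENNReal.ofReal (‖c * G M γ‖ ^ 2) = ENNReal.ofReal (‖c‖ ^ 2) * ENNReal.ofReal (‖G M γ‖ ^ 2) := by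
    intro γ
    rw [norm_mul, mul_pow, ENNReal.ofReal_mul (by positivity)]
  simp_rw [e]
  rw [lintegral_const_mul' _ _ ENNReal.ofReal_ne_top]
  ring

lemma WE_le {Z : ℕ} {μ : Measure (Fin k → ℝ)} {G : ℕ → (Fin k → ℝ) → ℂ} {K : ℝ} (hK : 0 ≤ K)
    (h : ∀ M, 1 ≤ M → M ≤ Z → ∫⁻ γ, ENNReal.ofReal (‖G M γ‖ ^ 2) ∂μ ≤ ENNReal.ofReal K) :
    WE Z μ G ≤ ENNReal.ofReal ((1 + Real.log Z) * K) := by
  unfold WE
  calc ∑ M ∈ Finset.Icc 1 Z, ENNReal.ofReal ((M : ℝ)⁻¹) * ∫⁻ γ, ENNReal.ofReal (‖G M γ‖ ^ 2) ∂μ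
      ≤ ∑ M ∈ Finset.Icc 1 Z, ENNReal.ofReal ((M : ℝ)⁻¹ * K) := by
        refine Finset.sum_le_sum fun M hM => ?_
        obtain ⟨h1, h2⟩ := Finset.mem_Icc.1 hM
        rw [ENNReal.ofReal_mul (by positivity)]
        exact mul_le_mul_right (h M h1 h2) _
    _ = ENNReal.ofReal (∑ M ∈ Finset.Icc 1 Z, (M : ℝ)⁻¹ * K) :=
        (ENNReal.ofReal_sum_of_nonneg fun M _ => by positivity).symm
    _ ≤ _ := by
        refine ENNReal.ofReal_le_ofReal ?_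
        rw [← Finset.sum_mul]
        exact mul_le_mul_of_nonneg_right (Pool.Agent.H681.QF.P.harm Z) hK

lemma lgp {ε : ℝ} (hε : 0 < ε) : ∃ C : ℝ, 0 < C ∧ ∀ X : ℕ, 1 ≤ X →
    1 + Real.log (X : ℝ) ≤ C * (X : ℝ) ^ ε := by
  obtain ⟨C, hC, h⟩ := Pool.Agent.H681.QF.P.logpow 1 hε
  refine ⟨C, by linarith, fun X hX => ?_⟩
  have hX1 : (1 : ℝ) ≤ X := by exact_mod_cast hX
  have h1 := h (X : ℝ) hX1
  rwa [pow_one] at h1

/-- the main term -/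
def TT (M : ℕ) (γ : Fin k → ℝ) : ℂ := MTM M (Pool.Agent.N879.QM.im γ)

/-- the sum over the family -/
def Sm (b : Bool) (n M : ℕ) (γ : Fin k → ℝ) : ℂ := ∑ p ∈ QFs b n, cv p M * aL p γ

lemma Sm_cont (b : Bool) (n M : ℕ) : Continuous fun γ : Fin k → ℝ => Sm b n M γ :=
  continuous_finsetSum _ fun _ hp => continuous_const.mul (aL_cont hp)

/-- the box sum and the main term, summed over the twists -/
theorem mtE (hB1 : S_B1r) (hB2 : S_B2) (hB3 : S_B3r) (k : ℕ) {ε : ℝ} (hε : 0 < ε) : ∃ C A₀ : ℝ, 0 < C ∧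
    3 ≤ A₀ ∧ ∀ (Z : ℕ) (H : ℝ), 1 ≤ Z → (Z : ℝ) ≤ H → A₀ ≤ H →
    WE Z (mg k H) (fun M γ => DM k M ⌊H⌋₊ γ - TT M γ) ≤
      ENNReal.ofReal ((1 + Real.log Z) * (C * (Z : ℝ) ^ ε * H ^ k * H ^ (ε - 1 / 2))) := by
  obtain ⟨A₀, hA₀, h⟩ := FintMr hB1 hB2 hB3 k
  obtain ⟨C, hC, h1⟩ := h ε hε
  refine ⟨C, A₀, hC, hA₀, ?_⟩
  intro Z H hZ hZH hH
  have hH0 : 0 < H := by linarith
  have hZ0 : (0 : ℝ) < Z := by exact_mod_cast hZ
  refine WE_le (by positivity) fun M hM hMZ => ?_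
  have hM0 : (0 : ℝ) < M := by exact_mod_cast hM
  have hMZr : (M : ℝ) ≤ Z := by exact_mod_cast hMZ
  have h2 : (M1 M : ℝ) ≤ H := by
    have h3 : M1 M ≤ M := Nat.le_of_dvd hM (by
      unfold M1
      exact (Finset.prod_dvd_prod_of_subset _ _ _ (Finset.filter_subset _ _)).trans
        (Nat.prod_primeFactors_dvd M))
    have h4 : (M1 M : ℝ) ≤ M := by exact_mod_cast h3
    linarith
  have h3 := h1 M H hM hH h2
  simp only [SM_DM, mS_cub] at h3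
  refine h3.trans (ENNReal.ofReal_le_ofReal ?_)
  gcongr

/-- one product of `L`-values -/
theorem aLsq (k : ℕ) (hk : 1 ≤ k) {η : ℝ} (hη : 0 < η) (A : ℝ) {ε : ℝ} (hε : 0 < ε) :
    ∃ (C : ℝ) (X0 : ℕ), 0 < C ∧ 1 ≤ X0 ∧
    ∀ (b : Bool) (X : ℕ) (H : ℝ) (p : DC), X0 ≤ X → p ∈ QFs b X → (X : ℝ) ^ (1 + η) ≤ H → H ≤ (X : ℝ) ^ A →
    ∫⁻ γ, ENNReal.ofReal (‖aL p γ‖ ^ 2) ∂(cub k H) ≤
      ENNReal.ofReal (C * (X : ℝ) ^ ε * (1 + (X : ℝ) ^ 2 / H) * H ^ k) := by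
  classical
  obtain ⟨C1, X1, hC1, h1⟩ := sqO' k hk η A ε hη hε
  obtain ⟨C2, hC2, h2⟩ := sqW k A ε hε
  refine ⟨2 * C1 + 2 * C2, max X1 1, by positivity, le_max_right _ _, ?_⟩
  intro b X H p hX hp hH1 hH2
  have hX1' : X1 ≤ X := (le_max_left _ _).trans hX
  have hX1n : 1 ≤ X := (le_max_right _ _).trans hX
  have hX1r : (1 : ℝ) ≤ X := by exact_mod_cast hX1n
  have hX0 : (0 : ℝ) < X := by linarith
  have hH1r : 1 ≤ H := le_trans (Real.one_le_rpow hX1r (by linarith)) hH1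
  have hH0 : 0 < H := by linarith
  have h3 := h1 b X H hX1' hH1 hH2 (fun q => if q = p then 1 else 0)
  have e1 : ∀ γ : Fin k → ℝ, ∑ q ∈ QFs b X, (if q = p then (1 : ℂ) else 0) * (aL q γ - aP ⌊H⌋₊ q γ) =
      aL p γ - aP ⌊H⌋₊ p γ := by
    intro γ
    rw [Finset.sum_eq_single p]
    · simp
    · intro q _ hq
      simp [hq]
    · intro hp'
      exact absurd hp hp'
  have e2 : ∑ q ∈ QFs b X, ‖(if q = p then (1 : ℂ) else 0)‖ ^ 2 = 1 := by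
    rw [Finset.sum_eq_single p]
    · simp
    · intro q _ hq
      simp [hq]
    · intro hp'
      exact absurd hp hp'
  simp_rw [e1] at h3
  rw [e2, mul_one] at h3
  have hY1 : 1 ≤ ⌊H⌋₊ := Nat.le_floor (by simpa using hH1r)
  have hYH : ((⌊H⌋₊ : ℕ) : ℝ) ≤ H := Nat.floor_le hH0.le
  have h4 := h2 X ⌊H⌋₊ H p hX1n hY1 hYH (hYH.trans hH2)
  have h5 := Pool.Agent.N879.QM.lint_add_sq (h := fun γ => aL p γ) ((aL_cont hp).sub (aP_cont _ p)).measurable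
    (aP_cont ⌊H⌋₊ p).measurable (by positivity) (by positivity) h3 h4 (fun γ => by
      simp only [Pi.sub_apply]
      ring)
  refine h5.trans (ENNReal.ofReal_le_ofReal ?_)
  have hD : 1 ≤ 1 + (X : ℝ) ^ 2 / H := by
    have : 0 ≤ (X : ℝ) ^ 2 / H := by positivity
    linarith
  calc 2 * (C1 * (X : ℝ) ^ ε * (1 + (X : ℝ) ^ 2 / H) * H ^ k) + 2 * (C2 * (X : ℝ) ^ ε * H ^ k) ≤
        2 * (C1 * (X : ℝ) ^ ε * (1 + (X : ℝ) ^ 2 / H) * H ^ k) +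
        2 * (C2 * (X : ℝ) ^ ε * H ^ k) * (1 + (X : ℝ) ^ 2 / H) :=
        add_le_add le_rfl (le_mul_of_one_le_right (by positivity) hD)
    _ = _ := by ring

lemma QFs_sub {b : Bool} {n X : ℕ} (h : n ≤ X) : QFs b n ⊆ QFs b X := by
  intro p hp
  rw [mem_QFs Pool.Agent.Y845.QF.IN] at hp ⊢
  obtain ⟨h1, h2, h3⟩ := hp
  exact ⟨h1, h2.trans h, h3⟩

/-- the sum over the family, trivial bound -/
theorem SmB (k : ℕ) (hk : 1 ≤ k) {η : ℝ} (hη : 0 < η) (A : ℝ) {ε : ℝ} (hε : 0 < ε) :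
    ∃ (C : ℝ) (X0 : ℕ), 0 < C ∧ 1 ≤ X0 ∧
    ∀ (b : Bool) (X n : ℕ) (H : ℝ), X0 ≤ X → n ≤ X → (X : ℝ) ^ (1 + η) ≤ H → H ≤ (X : ℝ) ^ A →
    WE X (cub k H) (fun M γ => Sm b n M γ) ≤
      ENNReal.ofReal (C * (n : ℝ) ^ 2 * (X : ℝ) ^ ε * (1 + (X : ℝ) ^ 2 / H) * H ^ k) := by
  obtain ⟨C1, X0, hC1, hX0, h1⟩ := aLsq k hk hη A (half_pos hε)
  obtain ⟨C2, hC2, h2⟩ := lgp (half_pos hε)
  refine ⟨C1 * C2, X0, by positivity, hX0, ?_⟩
  intro b X n H hX hn hH1 hH2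
  have hX1n : 1 ≤ X := hX0.trans hX
  have hX1r : (1 : ℝ) ≤ X := by exact_mod_cast hX1n
  have hXp : (0 : ℝ) < X := by linarith
  have hH1r : 1 ≤ H := le_trans (Real.one_le_rpow hX1r (by linarith)) hH1
  have hH0 : 0 < H := by linarith
  have h3 := WE_le (Z := X) (μ := cub k H) (G := fun M γ => Sm b n M γ)
    (K := (n : ℝ) ^ 2 * (C1 * (X : ℝ) ^ (ε / 2) * (1 + (X : ℝ) ^ 2 / H) * H ^ k)) (by positivity) (fun M _ _ => by
      have e1 : ∀ γ : Fin k → ℝ, ENNReal.ofReal (‖Sm b n M γ‖ ^ 2) ≤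
          ENNReal.ofReal n * ∑ p ∈ QFs b n, ENNReal.ofReal (‖aL p γ‖ ^ 2) := by
        intro γ
        rw [← ENNReal.ofReal_sum_of_nonneg (fun _ _ => by positivity), ← ENNReal.ofReal_mul (by positivity)]
        refine ENNReal.ofReal_le_ofReal ?_
        unfold Sm
        have g1 : ‖∑ p ∈ QFs b n, cv p M * aL p γ‖ ≤ ∑ p ∈ QFs b n, ‖aL p γ‖ := by
          refine (norm_sum_le _ _).trans (Finset.sum_le_sum fun p _ => ?_)
          rw [norm_mul]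
          have := mul_le_mul_of_nonneg_right (cv_le p M) (norm_nonneg (aL p γ))
          simpa using this
        have g2 : (∑ p ∈ QFs b n, ‖aL p γ‖) ^ 2 ≤ ((QFs b n).card : ℝ) * ∑ p ∈ QFs b n, ‖aL p γ‖ ^ 2 :=
          sq_sum_le_card_mul_sum_sq
        have g3 : ((QFs b n).card : ℝ) ≤ n := by
          exact_mod_cast card_QFs Pool.Agent.Y845.QF.IN b n
        calc ‖∑ p ∈ QFs b n, cv p M * aL p γ‖ ^ 2 ≤ (∑ p ∈ QFs b n, ‖aL p γ‖) ^ 2 :=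
              pow_le_pow_left₀ (norm_nonneg _) g1 2
          _ ≤ _ := g2
          _ ≤ _ := mul_le_mul_of_nonneg_right g3 (Finset.sum_nonneg fun _ _ => by positivity)
      refine (lintegral_mono e1).trans ?_
      have hm : ∀ p ∈ QFs b n, AEMeasurable (fun γ : Fin k → ℝ => ENNReal.ofReal (‖aL p γ‖ ^ 2)) (cub k H) :=
        fun p hp => ((aL_cont hp).norm.pow 2).measurable.ennreal_ofReal.aemeasurable
      rw [lintegral_const_mul' _ _ ENNReal.ofReal_ne_top, lintegral_finsetSum' _ hm]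
      calc ENNReal.ofReal n * ∑ p ∈ QFs b n, ∫⁻ γ, ENNReal.ofReal (‖aL p γ‖ ^ 2) ∂(cub k H)
          ≤ ENNReal.ofReal n * ∑ _p ∈ QFs b n, ENNReal.ofReal (C1 * (X : ℝ) ^ (ε / 2) * (1 + (X : ℝ) ^ 2 / H) * H ^ k) :=
            mul_le_mul_right (Finset.sum_le_sum fun p hp => h1 b X H p hX (QFs_sub hn hp) hH1 hH2) _
        _ ≤ ENNReal.ofReal n * (ENNReal.ofReal n * ENNReal.ofReal (C1 * (X : ℝ) ^ (ε / 2) * (1 + (X : ℝ) ^ 2 / H) * H ^ k)) := by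
            refine mul_le_mul_right ?_ _
            rw [Finset.sum_const, nsmul_eq_mul]
            refine mul_le_mul_left ?_ _
            rw [ENNReal.ofReal_natCast]
            exact_mod_cast card_QFs Pool.Agent.Y845.QF.IN b n
        _ = _ := by
            rw [← ENNReal.ofReal_mul (by positivity), ← ENNReal.ofReal_mul (by positivity)]
            congr 1
            ring)
  refine h3.trans (ENNReal.ofReal_le_ofReal ?_)
  have e3 : (X : ℝ) ^ ε = (X : ℝ) ^ (ε / 2) * (X : ℝ) ^ (ε / 2) := by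
    rw [← Real.rpow_add hXp]
    congr 1
    ring
  calc (1 + Real.log (X : ℝ)) * ((n : ℝ) ^ 2 * (C1 * (X : ℝ) ^ (ε / 2) * (1 + (X : ℝ) ^ 2 / H) * H ^ k)) ≤
        (C2 * (X : ℝ) ^ (ε / 2)) * ((n : ℝ) ^ 2 * (C1 * (X : ℝ) ^ (ε / 2) * (1 + (X : ℝ) ^ 2 / H) * H ^ k)) :=
        mul_le_mul_of_nonneg_right (h2 X hX1n) (by positivity)
    _ = _ := by
        rw [e3]
        ring

end

end Pool.Agent.H681.MD
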