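import Pool.Agent.H681.MD.Stm4
import Pool.Agent.H681.QF.Maj
import Pool.Graph.R_seed8.H510R2.Div

set_option autoImplicit false

/-! Project MD (helper681), B1r: a majorant of the coefficients of the twisted arithmetic factor, with the
factor `M1 M ^ (-1/2)` (modification of `B1` of helper155) -/

namespace Pool.Agent.H405.MD

open Complex Filter Topology
open scoped BigOperators
open Pool.Agent.N879.QM Pool.Agent.N879.QM.Eul Pool.Agent.H681.MD Pool.Agent.H681.QF.E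

noncomputable section

/-! ### Convolutions and coprime products -/

theorem conv_split (f f1 f2 g : ℕ → ℂ) {m n : ℕ} (cop : m.Coprime n)
    (hf : ∀ a b, a ∣ m → b ∣ n → f (a * b) = f1 a * f2 b)
    (hg : ∀ a b, a ∣ m → b ∣ n → g (a * b) = g a * g b) :
    ∑ p ∈ (m * n).divisorsAntidiagonal, f p.1 * g p.2 =
      (∑ p ∈ m.divisorsAntidiagonal, f1 p.1 * g p.2) *
        ∑ p ∈ n.divisorsAntidiagonal, f2 p.1 * g p.2 := by
  rw [Finset.sum_mul_sum, ← Finset.sum_product']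
  symm
  apply Finset.sum_nbij fun ((i, j), k, l) ↦ (i * k, j * l)
  · rintro ⟨⟨a1, a2⟩, ⟨b1, b2⟩⟩ h
    simp only [Nat.mem_divisorsAntidiagonal, Ne, Finset.mem_product] at h
    rcases h with ⟨⟨rfl, ha⟩, ⟨rfl, hb⟩⟩
    simp only [Nat.mem_divisorsAntidiagonal, mul_eq_zero, Ne]
    constructor
    · ring
    rw [mul_eq_zero] at *
    exact not_or_intro ha hb
  · simp only [Set.InjOn, Finset.mem_coe, Nat.mem_divisorsAntidiagonal, Finset.mem_product,
      Prod.mk_inj]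
    rintro ⟨⟨a1, a2⟩, ⟨b1, b2⟩⟩ ⟨⟨rfl, ha⟩, ⟨rfl, hb⟩⟩ ⟨⟨c1, c2⟩, ⟨d1, d2⟩⟩ hcd h
    ext
    · trans Nat.gcd (a1 * a2) (a1 * b1)
      · rw [Nat.gcd_mul_left, cop.coprime_mul_left.coprime_mul_right_right.gcd_eq_one, mul_one]
      · rw [← hcd.1.1, ← hcd.2.1] at cop
        rw [← hcd.1.1, h.1, Nat.gcd_mul_left, cop.coprime_mul_left.coprime_mul_right_right.gcd_eq_one,
          mul_one]
    · trans Nat.gcd (a1 * a2) (a2 * b2)
      · rw [mul_comm, Nat.gcd_mul_left, cop.coprime_mul_right.coprime_mul_left_right.gcd_eq_one,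
          mul_one]
      · rw [← hcd.1.1, ← hcd.2.1] at cop
        rw [← hcd.1.1, h.2, mul_comm, Nat.gcd_mul_left,
          cop.coprime_mul_right.coprime_mul_left_right.gcd_eq_one, mul_one]
    · trans Nat.gcd (b1 * b2) (a1 * b1)
      · rw [mul_comm, Nat.gcd_mul_right,
          cop.coprime_mul_right.coprime_mul_left_right.symm.gcd_eq_one, one_mul]
      · rw [← hcd.1.1, ← hcd.2.1] at cop
        rw [← hcd.2.1, h.1, mul_comm c1 d1, Nat.gcd_mul_left,
          cop.coprime_mul_right.coprime_mul_left_right.symm.gcd_eq_one, mul_one]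
    · trans Nat.gcd (b1 * b2) (a2 * b2)
      · rw [Nat.gcd_mul_right, cop.coprime_mul_left.coprime_mul_right_right.symm.gcd_eq_one, one_mul]
      · rw [← hcd.1.1, ← hcd.2.1] at cop
        rw [← hcd.2.1, h.2, Nat.gcd_mul_right,
          cop.coprime_mul_left.coprime_mul_right_right.symm.gcd_eq_one, one_mul]
  · simp only [Set.SurjOn, Set.subset_def, Finset.mem_coe, Nat.mem_divisorsAntidiagonal,
      Finset.mem_product, Set.mem_image]
    rintro ⟨b1, b2⟩ h
    use ((b1.gcd m, b2.gcd m), (b1.gcd n, b2.gcd n))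
    rw [← cop.gcd_mul _, ← cop.gcd_mul _, ← h.1, Nat.gcd_mul_gcd_of_coprime_of_mul_eq_mul cop h.1,
      Nat.gcd_mul_gcd_of_coprime_of_mul_eq_mul cop.symm _]
    · rw [Ne, mul_eq_zero, not_or] at h
      simp [h.2.1, h.2.2]
    rw [mul_comm n m, h.1]
  · simp only [Nat.mem_divisorsAntidiagonal, Finset.mem_product]
    rintro ⟨⟨a1, a2⟩, ⟨b1, b2⟩⟩ ⟨⟨h1, ha⟩, ⟨h2, hb⟩⟩
    rw [hf a1 b1 (h1 ▸ Dvd.intro _ rfl) (h2 ▸ Dvd.intro _ rfl),
      hg a2 b2 (h1 ▸ Dvd.intro_left _ rfl) (h2 ▸ Dvd.intro_left _ rfl)]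
    ring

/-! ### The number of divisors -/

/-- the number of divisors -/
def tau (n : ℕ) : ℝ := (n.divisors.card : ℝ)

theorem tau_nonneg (n : ℕ) : 0 ≤ tau n := Nat.cast_nonneg _

theorem tau_mono {a n : ℕ} (hn : n ≠ 0) (h : a ∣ n) : tau a ≤ tau n := by
  unfold tau
  exact_mod_cast Finset.card_le_card (Nat.divisors_subset_of_dvd hn h)

theorem one_le_tau {n : ℕ} (hn : n ≠ 0) : 1 ≤ tau n := by
  have h := tau_mono hn (one_dvd n)
  have h1 : tau 1 = 1 := by unfold tau; simp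
  rwa [h1] at h

theorem tau_mul (a b : ℕ) : tau (a * b) ≤ tau a * tau b := by
  unfold tau
  rw [Nat.divisors_mul]
  exact_mod_cast Finset.card_mul_le

theorem tau_pow_prime {p : ℕ} (hp : p.Prime) (v : ℕ) : tau (p ^ v) = (v : ℝ) + 1 := by
  unfold tau
  rw [Nat.divisors_prime_pow hp, Finset.card_map, Finset.card_range]
  push_cast
  ring

theorem tau_prod {ι : Type} (s : Finset ι) (g : ι → ℕ) : tau (∏ i ∈ s, g i) ≤ ∏ i ∈ s, tau (g i) := by
  classical
  induction s using Finset.induction_on with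
  | empty => unfold tau; simp
  | insert i s hi ih =>
    rw [Finset.prod_insert hi, Finset.prod_insert hi]
    exact (tau_mul _ _).trans (mul_le_mul_of_nonneg_left ih (tau_nonneg _))

/-- bounds by powers of the number of divisors -/
def Bd (c a : ℝ) (i : ℕ) (f : ArithmeticFunction ℂ) : Prop :=
  ∀ n : ℕ, n ≠ 0 → ‖f n‖ ≤ c * (tau n ^ i * (n : ℝ) ^ (-a))

theorem Bd.mul {c c' a : ℝ} {i j : ℕ} {f g : ArithmeticFunction ℂ} (hc : 0 ≤ c) (hc' : 0 ≤ c')
    (hf : Bd c a i f) (hg : Bd c' a j g) : Bd (c * c') a (i + j + 1) (f * g) := by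
  intro n hn
  rw [ArithmeticFunction.mul_apply]
  have h1 : ∀ p ∈ n.divisorsAntidiagonal,
      ‖f p.1 * g p.2‖ ≤ c * c' * (tau n ^ (i + j) * (n : ℝ) ^ (-a)) := by
    intro p hp
    have hp' := Nat.mem_divisorsAntidiagonal.1 hp
    have h10 : p.1 ≠ 0 := by
      intro h0
      rw [h0, zero_mul] at hp'
      exact hp'.2 hp'.1.symm
    have h20 : p.2 ≠ 0 := by
      intro h0
      rw [h0, mul_zero] at hp'
      exact hp'.2 hp'.1.symm
    have d1 : p.1 ∣ n := Dvd.intro _ hp'.1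
    have d2 : p.2 ∣ n := Dvd.intro_left _ hp'.1
    have t1 := tau_nonneg p.1
    have t2 := tau_nonneg p.2
    have t3 := tau_nonneg n
    have m1 := tau_mono hn d1
    have m2 := tau_mono hn d2
    rw [norm_mul]
    calc ‖f p.1‖ * ‖g p.2‖ ≤ (c * (tau p.1 ^ i * (p.1 : ℝ) ^ (-a))) *
          (c' * (tau p.2 ^ j * (p.2 : ℝ) ^ (-a))) :=
          mul_le_mul (hf _ h10) (hg _ h20) (norm_nonneg _) (by positivity)
      _ = c * c' * ((tau p.1 ^ i * tau p.2 ^ j) * ((p.1 : ℝ) * (p.2 : ℝ)) ^ (-a)) := by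
          rw [Real.mul_rpow (Nat.cast_nonneg _) (Nat.cast_nonneg _)]
          ring
      _ = c * c' * ((tau p.1 ^ i * tau p.2 ^ j) * (n : ℝ) ^ (-a)) := by
          rw [← Nat.cast_mul, hp'.1]
      _ ≤ c * c' * (tau n ^ (i + j) * (n : ℝ) ^ (-a)) := by
          rw [pow_add]
          gcongr
  refine (norm_sum_le_of_le _ h1).trans (le_of_eq ?_)
  rw [Finset.sum_const, nsmul_eq_mul, ← Nat.map_div_right_divisors, Finset.card_map, pow_succ]
  unfold tau
  ring

theorem bd_pw {a : ℝ} {s : ℂ} (hs : s.re = -a) : Bd 1 a 0 (pw s) := by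
  intro n hn
  rw [pw_apply s hn, Complex.norm_natCast_cpow_of_pos (Nat.pos_of_ne_zero hn), hs]
  simp

theorem bd_one (a : ℝ) : Bd 1 a 0 (1 : ArithmeticFunction ℂ) := by
  intro n hn
  rw [ArithmeticFunction.one_apply]
  split_ifs with h
  · rw [h]
    simp
  · rw [norm_zero]
    positivity

theorem bd_T : ∀ {k : ℕ} (s : Fin k → ℂ), (∀ j, (s j).re = -(1 / 2 : ℝ)) → Bd 1 (1 / 2) k (T s)
  | 0, s, _ => by
      rw [T_nil]
      exact bd_one _
  | k + 1, s, hs => by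
      rw [T_succ]
      have h := Bd.mul zero_le_one zero_le_one (bd_pw (hs 0)) (bd_T (fun j => s j.succ) fun j => hs j.succ)
      rw [mul_one, zero_add] at h
      exact h

theorem bd_mu {s : ℂ} (hs : s.re = 1) : Bd 1 1 0 (muA s) := by
  intro n hn
  rw [muA_apply, norm_mul, Complex.norm_natCast_cpow_of_pos (Nat.pos_of_ne_zero hn), Complex.neg_re,
    hs, pow_zero, one_mul, one_mul]
  have h1 : ‖((ArithmeticFunction.moebius n : ℤ) : ℂ)‖ ≤ 1 := by
    rw [Complex.norm_intCast]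
    exact_mod_cast ArithmeticFunction.abs_moebius_le_one
  exact mul_le_of_le_one_left (by positivity) h1

theorem bd_Mu {k : ℕ} (β : Fin k → ℝ) (s : Finset (Pr k)) :
    Bd 1 1 s.card (∏ r ∈ s, muA (pp β r)) := by
  classical
  induction s using Finset.induction_on with
  | empty =>
    rw [Finset.prod_empty]
    exact bd_one _
  | insert i s hi ih =>
    rw [Finset.prod_insert hi, Finset.card_insert_of_notMem hi]
    have h1 : (pp β i).re = 1 := by unfold pp; simp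
    have h := Bd.mul zero_le_one zero_le_one (bd_mu h1) ih
    rw [mul_one, zero_add] at h
    exact h

/-! ### The coefficients -/

theorem M1_dvd {M : ℕ} : M1 M ∣ M := by
  unfold M1
  exact (Finset.prod_dvd_prod_of_subset _ _ _ (Finset.filter_subset _ _)).trans
    (Nat.prod_primeFactors_dvd M)

theorem M1_pos {M : ℕ} (hM : 1 ≤ M) : 0 < M1 M := Nat.pos_of_dvd_of_pos M1_dvd hM

theorem af_nonneg (n : ℕ) : 0 ≤ af n := by
  unfold af
  exact Finset.prod_nonneg fun p _ => by positivity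

theorem af_le_one (n : ℕ) : af n ≤ 1 := by
  unfold af
  refine Finset.prod_le_one (fun p _ => by positivity) fun p _ => ?_
  rw [div_le_one (by positivity)]
  linarith

theorem gM_apply {k : ℕ} {M : ℕ} (β : Fin k → ℝ) {m : ℕ} (hm : m ≠ 0) :
    gM M β m = (af (M * m) : ℂ) * T (sx β) (M1 M * m ^ 2) := by
  show (if m = 0 then 0 else (af (M * m) : ℂ) * ∑ n ∈ Nat.finMulAntidiag k (M1 M * m ^ 2), cx n β) = _
  rw [if_neg hm]
  rfl

theorem sx_re {k : ℕ} (β : Fin k → ℝ) (j : Fin k) : (sx β j).re = -(1 / 2 : ℝ) := by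
  unfold sx pt
  simp

/-- the constant -/
def KK (k M : ℕ) : ℝ := tau M ^ k / Real.sqrt (M1 M)

theorem KK_nonneg (k M : ℕ) : 0 ≤ KK k M :=
  div_nonneg (pow_nonneg (tau_nonneg M) k) (Real.sqrt_nonneg _)

theorem bd_gM {k : ℕ} {M : ℕ} (hM : 1 ≤ M) (β : Fin k → ℝ) : Bd (KK k M) 1 (2 * k) (gM M β) := by
  intro m hm
  have hM1 : M1 M ≠ 0 := (M1_pos hM).ne'
  have hn : M1 M * m ^ 2 ≠ 0 := mul_ne_zero hM1 (pow_ne_zero 2 hm)
  rw [gM_apply β hm, norm_mul, Complex.norm_real, Real.norm_of_nonneg (af_nonneg _)]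
  have h1 := bd_T (sx β) (sx_re β) _ hn
  rw [one_mul] at h1
  have ht : tau (M1 M * m ^ 2) ≤ tau M * tau m ^ 2 := by
    refine (tau_mul _ _).trans ?_
    have h2 : tau (m ^ 2) ≤ tau m ^ 2 := by
      rw [pow_two, pow_two]
      exact tau_mul _ _
    exact mul_le_mul (tau_mono (by omega) M1_dvd) h2 (tau_nonneg _) (tau_nonneg _)
  have hm0 : (0 : ℝ) < m := by exact_mod_cast Nat.pos_of_ne_zero hm
  have hM0 : (0 : ℝ) < (M1 M : ℝ) := by exact_mod_cast M1_pos hM
  have hr : ((M1 M * m ^ 2 : ℕ) : ℝ) ^ (-(1 / 2) : ℝ) =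
      1 / Real.sqrt (M1 M) * (m : ℝ) ^ (-1 : ℝ) := by
    have e : (m : ℝ) ^ (-1 : ℝ) = ((m ^ 2 : ℕ) : ℝ) ^ (-(1 / 2) : ℝ) := by
      rw [Nat.cast_pow, ← Real.rpow_natCast, ← Real.rpow_mul hm0.le]
      norm_num
    rw [e, Nat.cast_mul, Real.mul_rpow hM0.le (by positivity), Real.rpow_neg hM0.le,
      ← Real.sqrt_eq_rpow]
    congr 1
    exact (one_div _).symm
  calc af (M * m) * ‖T (sx β) (M1 M * m ^ 2)‖ ≤ 1 * ‖T (sx β) (M1 M * m ^ 2)‖ :=
        mul_le_mul_of_nonneg_right (af_le_one _) (norm_nonneg _)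
    _ ≤ tau (M1 M * m ^ 2) ^ k * ((M1 M * m ^ 2 : ℕ) : ℝ) ^ (-(1 / 2) : ℝ) := by
        rw [one_mul]
        exact h1
    _ ≤ (tau M * tau m ^ 2) ^ k * (1 / Real.sqrt (M1 M) * (m : ℝ) ^ (-1 : ℝ)) := by
        rw [hr]
        exact mul_le_mul_of_nonneg_right (pow_le_pow_left₀ (tau_nonneg _) ht k) (by positivity)
    _ = KK k M * (tau m ^ (2 * k) * (m : ℝ) ^ (-1 : ℝ)) := by
        unfold KK
        rw [mul_pow, ← pow_mul]
        ring

/-- the exponent -/
def EE (k : ℕ) : ℕ := 2 * k + Fintype.card (Pr k) + 1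

theorem alM_bd {k : ℕ} {M : ℕ} (hM : 1 ≤ M) (β : Fin k → ℝ) :
    Bd (KK k M) 1 (EE k) (alM M β) := by
  have h := Bd.mul (KK_nonneg k M) zero_le_one (bd_gM hM β) (bd_Mu β Finset.univ)
  rw [mul_one, Finset.card_univ] at h
  exact h

theorem Mu_mult {k : ℕ} (β : Fin k → ℝ) :
    (∏ r : Pr k, muA (pp β r) : ArithmeticFunction ℂ).IsMultiplicative :=
  Finset.prod_induction _ (fun f : ArithmeticFunction ℂ => f.IsMultiplicative)
    (fun _ _ ha hb => ha.mul hb) ArithmeticFunction.isMultiplicative_one fun _ _ => muA_mult _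

theorem alM_split {k : ℕ} {M : ℕ} (β : Fin k → ℝ) {u v : ℕ} (hu : u ≠ 0) (hv : v ≠ 0)
    (huv : u.Coprime v) (hMv : M.Coprime v) : alM M β (u * v) = alM M β u * al β v := by
  unfold alM al
  rw [ArithmeticFunction.mul_apply, ArithmeticFunction.mul_apply, ArithmeticFunction.mul_apply]
  refine conv_split (fun n => gM M β n) (fun n => gM M β n) (fun n => gA β n)
    (fun n => (∏ r : Pr k, muA (pp β r) : ArithmeticFunction ℂ) n) huv ?_ ?_
  · intro a b ha hb
    have ha0 : a ≠ 0 := fun h => hu (Nat.eq_zero_of_zero_dvd (h ▸ ha))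
    have hb0 : b ≠ 0 := fun h => hv (Nat.eq_zero_of_zero_dvd (h ▸ hb))
    have hab : a.Coprime b := Nat.Coprime.of_dvd ha hb huv
    have hMb : M.Coprime b := Nat.Coprime.coprime_dvd_right hb hMv
    have h1b : (M1 M).Coprime b := Nat.Coprime.coprime_dvd_left M1_dvd hMb
    show gM M β (a * b) = gM M β a * gA β b
    rw [gM_apply β (mul_ne_zero ha0 hb0), gM_apply β ha0, gA_apply β hb0]
    have e1 : M * (a * b) = M * a * b := by ring
    have e2 : M1 M * (a * b) ^ 2 = M1 M * a ^ 2 * b ^ 2 := by ring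
    have c1 : (M * a).Coprime b := Nat.Coprime.mul_left hMb hab
    have c2 : (M1 M * a ^ 2).Coprime (b ^ 2) :=
      Nat.Coprime.pow_right 2 (Nat.Coprime.mul_left h1b (Nat.Coprime.pow_left 2 hab))
    rw [e1, e2, af_mul c1, (T_mult _).map_mul_of_coprime c2]
    push_cast
    ring
  · intro a b ha hb
    exact (Mu_mult β).map_mul_of_coprime (Nat.Coprime.of_dvd ha hb huv)

theorem al_pp_bd {k : ℕ} (β : Fin k → ℝ) {p : ℕ} (hp : p.Prime) (v : ℕ) :
    ‖al β (p ^ v)‖ ≤ bd k p v := by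
  rcases v with - | - | v
  · rw [pow_zero, (al_mult β).map_one]
    simp [bd]
  · exact al_prime_bd β hp
  · exact al_bd β hp (v + 2)

/-- the local factors of the majorant -/
def lw (k M p v : ℕ) : ℝ := if p ∣ M then ((v : ℝ) + 1) ^ EE k * ((p : ℝ)⁻¹) ^ v else bd k p v

theorem lw_nonneg (k M p v : ℕ) : 0 ≤ lw k M p v := by
  unfold lw
  split_ifs
  · positivity
  · exact bd_nonneg k p v

theorem lw_zero (k M p : ℕ) : lw k M p 0 = 1 := by
  unfold lw
  split_ifs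
  · simp
  · rfl

/-- the multiplicative part of the majorant -/
def VV (k M b : ℕ) : ℝ := if b = 0 then 0 else b.factorization.prod (lw k M)

theorem VV_nonneg (k M b : ℕ) : 0 ≤ VV k M b := by
  unfold VV
  split_ifs
  · exact le_rfl
  · exact Finset.prod_nonneg fun p _ => lw_nonneg k M p _

theorem VV_one (k M : ℕ) : VV k M 1 = 1 := by
  unfold VV
  simp

theorem VV_mul (k M : ℕ) {m n : ℕ} (h : m.Coprime n) : VV k M (m * n) = VV k M m * VV k M n := by
  unfold VV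
  rcases eq_or_ne m 0 with hm | hm
  · simp [hm]
  rcases eq_or_ne n 0 with hn | hn
  · simp [hn]
  rw [if_neg (mul_ne_zero hm hn), if_neg hm, if_neg hn, Nat.factorization_mul_of_coprime h,
    Finsupp.prod_add_index_of_disjoint (Nat.Coprime.disjoint_primeFactors h)]

theorem VV_pow (k M : ℕ) {p : ℕ} (hp : p.Prime) (v : ℕ) : VV k M (p ^ v) = lw k M p v := by
  unfold VV
  rw [if_neg (pow_ne_zero v hp.ne_zero), Nat.Prime.factorization_pow hp,
    Finsupp.prod_single_index (lw_zero k M p)]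

theorem alM_le {k : ℕ} {M : ℕ} (hM : 1 ≤ M) (β : Fin k → ℝ) (b : ℕ) :
    ‖alM M β b‖ ≤ KK k M * VV k M b := by
  rcases eq_or_ne b 0 with hb | hb
  · subst hb
    rw [ArithmeticFunction.map_zero, norm_zero]
    exact mul_nonneg (KK_nonneg _ _) (VV_nonneg _ _ _)
  set s : Finset ℕ := b.primeFactors.filter (fun p => p ∣ M) with hs
  set s' : Finset ℕ := b.primeFactors.filter (fun p => ¬ p ∣ M) with hs'
  set e : ℕ → ℕ := fun p => b.factorization p with he
  set u : ℕ := ∏ p ∈ s, p ^ e p with hu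
  set v : ℕ := ∏ p ∈ s', p ^ e p with hv
  have hps : ∀ p ∈ s, p.Prime := fun p hp => Nat.prime_of_mem_primeFactors (Finset.mem_filter.1 hp).1
  have hps' : ∀ p ∈ s', p.Prime := fun p hp => Nat.prime_of_mem_primeFactors (Finset.mem_filter.1 hp).1
  have huv : u * v = b := by
    rw [hu, hv, hs, hs', Finset.prod_filter_mul_prod_filter_not]
    have h := Nat.prod_factorization_pow_eq_self hb
    rw [Finsupp.prod, Nat.support_factorization] at h
    exact h
  have hu0 : u ≠ 0 := fun h => hb (by rw [← huv, h, zero_mul])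
  have hv0 : v ≠ 0 := fun h => hb (by rw [← huv, h, mul_zero])
  have cuv : u.Coprime v := by
    rw [hu, hv]
    refine Nat.Coprime.prod_left fun p hp => Nat.Coprime.prod_right fun q hq => ?_
    refine Nat.Coprime.pow _ _ ((Nat.coprime_primes (hps p hp) (hps' q hq)).2 ?_)
    rintro rfl
    exact (Finset.mem_filter.1 hq).2 (Finset.mem_filter.1 hp).2
  have cMv : M.Coprime v := by
    rw [hv]
    refine Nat.Coprime.prod_right fun q hq => Nat.Coprime.pow_right _ ?_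
    exact ((Nat.Prime.coprime_iff_not_dvd (hps' q hq)).2 (Finset.mem_filter.1 hq).2).symm
  have h1 : ‖alM M β u‖ ≤ KK k M * ∏ p ∈ s, (((e p : ℝ) + 1) ^ EE k * ((p : ℝ)⁻¹) ^ e p) := by
    refine (alM_bd hM β u hu0).trans ?_
    refine mul_le_mul_of_nonneg_left ?_ (KK_nonneg _ _)
    rw [Finset.prod_mul_distrib, Finset.prod_pow]
    refine mul_le_mul ?_ (le_of_eq ?_) (by positivity) ?_
    · refine pow_le_pow_left₀ (tau_nonneg _) ?_ _
      rw [hu]
      refine (tau_prod _ _).trans (le_of_eq ?_)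
      exact Finset.prod_congr rfl fun p hp => tau_pow_prime (hps p hp) _
    · rw [Real.rpow_neg_one, hu, Nat.cast_prod, ← Finset.prod_inv_distrib]
      refine Finset.prod_congr rfl fun p _ => ?_
      rw [Nat.cast_pow, inv_pow]
    · exact pow_nonneg (Finset.prod_nonneg fun p _ => by positivity) _
  have h2 : ‖al β v‖ ≤ ∏ p ∈ s', bd k p (e p) := by
    rw [hv, ArithmeticFunction.IsMultiplicative.map_prod (fun p => p ^ e p) (al_mult β) s', norm_prod]
    · exact Finset.prod_le_prod (fun _ _ => norm_nonneg _) fun p hp => al_pp_bd β (hps' p hp) _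
    · intro p hp q hq hpq
      exact Nat.Coprime.pow _ _ ((Nat.coprime_primes (hps' p hp) (hps' q hq)).2 hpq)
  have h3 : VV k M b = (∏ p ∈ s, (((e p : ℝ) + 1) ^ EE k * ((p : ℝ)⁻¹) ^ e p)) *
      ∏ p ∈ s', bd k p (e p) := by
    unfold VV
    rw [if_neg hb]
    show ∏ p ∈ b.primeFactors, lw k M p (e p) = _
    rw [← Finset.prod_filter_mul_prod_filter_not b.primeFactors (fun p => p ∣ M)]
    congr 1
    · refine Finset.prod_congr rfl fun p hp => ?_
      unfold lw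
      rw [if_pos (Finset.mem_filter.1 hp).2]
    · refine Finset.prod_congr rfl fun p hp => ?_
      unfold lw
      rw [if_neg (Finset.mem_filter.1 hp).2]
  rw [← huv, alM_split β hu0 hv0 cuv cMv, norm_mul, huv, h3, ← mul_assoc]
  refine mul_le_mul h1 h2 (norm_nonneg _) ?_
  exact mul_nonneg (KK_nonneg _ _) (Finset.prod_nonneg fun p _ => by positivity)

/-! ### The sum of the majorant -/

/-- the terms of the local series at the primes dividing `M` -/
def bt (k v : ℕ) : ℝ := ((v : ℝ) + 1) ^ EE k * q1 ^ v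

theorem bt_nonneg (k v : ℕ) : 0 ≤ bt k v := by
  unfold bt
  have := q1_pos
  positivity

theorem bt_summable (k : ℕ) : Summable (bt k) := by
  have h1 : Summable fun n : ℕ => (n : ℝ) ^ (EE k) * q1 ^ n :=
    summable_pow_mul_geometric_of_norm_lt_one (EE k)
      (by rw [Real.norm_of_nonneg q1_pos.le]; exact q1_lt)
  have h2 := ((summable_nat_add_iff 1).2 h1).mul_left (q1⁻¹)
  refine h2.congr fun v => ?_
  unfold bt
  have hq := q1_pos.ne'
  rw [pow_succ q1 v]
  push_cast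
  field_simp

/-- the sum -/
def BB (k : ℕ) : ℝ := ∑' v, bt k v

theorem one_le_BB (k : ℕ) : 1 ≤ BB k := by
  have h := (bt_summable k).sum_le_tsum {0} (fun v _ => bt_nonneg k v)
  rw [Finset.sum_singleton] at h
  have h1 : bt k 0 = 1 := by unfold bt; simp
  rwa [h1] at h

/-- with weights -/
def WV (k M : ℕ) (a : ℝ) (m : ℕ) : ℝ := VV k M m * (m : ℝ) ^ a

theorem WV_nonneg (k M : ℕ) (a : ℝ) (m : ℕ) : 0 ≤ WV k M a m := by
  unfold WV
  have := VV_nonneg k M m
  positivity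

theorem WV_one (k M : ℕ) (a : ℝ) : WV k M a 1 = 1 := by
  unfold WV
  rw [VV_one]
  simp

theorem WV_mul (k M : ℕ) (a : ℝ) {m n : ℕ} (h : m.Coprime n) :
    WV k M a (m * n) = WV k M a m * WV k M a n := by
  unfold WV
  rw [VV_mul k M h, Nat.cast_mul, Real.mul_rpow (Nat.cast_nonneg m) (Nat.cast_nonneg n)]
  ring

theorem WV_bad (k M : ℕ) {δ : ℝ} (hδ0 : 0 < δ) {p : ℕ} (hp : p.Prime) (hM : p ∣ M) (v : ℕ) :
    WV k M (1 / 2 - δ) (p ^ v) ≤ bt k v := by
  have hp0 : (0 : ℝ) < p := by exact_mod_cast hp.pos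
  have hp1 : (1 : ℝ) ≤ p := by exact_mod_cast hp.one_lt.le
  have hp2 : (2 : ℝ) ≤ p := by exact_mod_cast hp.two_le
  have hinv : ((p : ℝ)⁻¹) = (p : ℝ) ^ (-1 : ℝ) := (Real.rpow_neg_one _).symm
  unfold WV bt
  rw [VV_pow k M hp]
  unfold lw
  rw [if_pos hM]
  have h2 : ((p : ℝ)⁻¹) ^ v * ((p ^ v : ℕ) : ℝ) ^ (1 / 2 - δ) = ((p : ℝ) ^ (-(1 / 2 + δ) : ℝ)) ^ v := by
    rw [hinv, Nat.cast_pow, ← Real.rpow_natCast, ← Real.rpow_natCast, ← Real.rpow_natCast,
      ← Real.rpow_mul hp0.le, ← Real.rpow_mul hp0.le, ← Real.rpow_mul hp0.le, ← Real.rpow_add hp0]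
    congr 1
    ring
  have h3 : ((p : ℝ) ^ (-(1 / 2 + δ) : ℝ)) ^ v ≤ q1 ^ v := by
    refine pow_le_pow_left₀ (by positivity) ?_ v
    calc (p : ℝ) ^ (-(1 / 2 + δ) : ℝ) ≤ (p : ℝ) ^ (-(1 / 2) : ℝ) :=
          Real.rpow_le_rpow_of_exponent_le hp1 (by linarith)
      _ ≤ q1 := Real.rpow_le_rpow_of_nonpos two_pos hp2 (by norm_num)
  rw [mul_assoc, h2]
  exact mul_le_mul_of_nonneg_left h3 (by positivity)

theorem WV_local (k M : ℕ) {δ : ℝ} (hδ0 : 0 < δ) (hδ : δ ≤ 1 / 4) {p : ℕ} (hp : p.Prime) :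
    Summable (fun v => WV k M (1 / 2 - δ) (p ^ v)) ∧
      ∑' v, WV k M (1 / 2 - δ) (p ^ v) ≤ (if p ∣ M then BB k else 1) *
        (1 + CE1 k * (p : ℝ) ^ (-(1 + 2 * δ) : ℝ)) := by
  have hce : 0 ≤ CE1 k * (p : ℝ) ^ (-(1 + 2 * δ) : ℝ) := by
    have := CE1_nonneg k
    positivity
  by_cases hM : p ∣ M
  · rw [if_pos hM]
    have h1 : Summable (fun v => WV k M (1 / 2 - δ) (p ^ v)) :=
      Summable.of_nonneg_of_le (fun v => WV_nonneg k M _ _) (fun v => WV_bad k M hδ0 hp hM v)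
        (bt_summable k)
    refine ⟨h1, ?_⟩
    have h2 := Summable.tsum_le_tsum (fun v => WV_bad k M hδ0 hp hM v) h1 (bt_summable k)
    refine h2.trans ?_
    have h3 := one_le_BB k
    show BB k ≤ BB k * (1 + CE1 k * (p : ℝ) ^ (-(1 + 2 * δ) : ℝ))
    nlinarith
  · rw [if_neg hM, one_mul]
    have h1 := WU_local k hδ0 hδ hp
    have h2 : (fun v => WV k M (1 / 2 - δ) (p ^ v)) = fun v => WU k (1 / 2 - δ) (p ^ v) := by
      funext v
      unfold WV WU
      rw [VV_pow k M hp, U_pow k hp]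
      unfold lw
      rw [if_neg hM]
    rw [h2]
    exact h1

theorem WV_sum (k : ℕ) {M : ℕ} (hM : 1 ≤ M) {δ : ℝ} (hδ0 : 0 < δ) (hδ : δ ≤ 1 / 4) (S : Finset ℕ) :
    ∑ m ∈ S, WV k M (1 / 2 - δ) m ≤ BB k ^ M.primeFactors.card * CC1 k δ := by
  classical
  set N : ℕ := S.sup id + 1 with hN
  have hz : Summable fun n : ℕ => (n : ℝ) ^ (-(1 + 2 * δ) : ℝ) :=
    Real.summable_nat_rpow.2 (by linarith)
  have h1 := (EulerProduct.summable_and_hasSum_smoothNumbers_prod_primesBelow_tsum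
    (f := WV k M (1 / 2 - δ)) (WV_one k M _) (fun {m n} h => WV_mul k M _ h)
    (fun {p} hp => (WV_local k M hδ0 hδ hp).1.norm) N).2
  have h2 : HasSum ((N.smoothNumbers : Set ℕ).indicator (WV k M (1 / 2 - δ)))
      (∏ p ∈ N.primesBelow, ∑' v, WV k M (1 / 2 - δ) (p ^ v)) :=
    (hasSum_subtype_iff_indicator (f := WV k M (1 / 2 - δ)) (s := (N.smoothNumbers : Set ℕ))).1 h1
  have h0 : ∀ i, 0 ≤ (N.smoothNumbers : Set ℕ).indicator (WV k M (1 / 2 - δ)) i := fun i =>
    Set.indicator_nonneg (fun m _ => WV_nonneg k M _ m) i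
  have h3 := sum_le_hasSum S (fun i _ => h0 i) h2
  have h4 : ∑ m ∈ S, WV k M (1 / 2 - δ) m ≤
      ∑ m ∈ S, (N.smoothNumbers : Set ℕ).indicator (WV k M (1 / 2 - δ)) m := by
    refine Finset.sum_le_sum fun m hm => ?_
    rcases Nat.eq_zero_or_pos m with h | h
    · subst h
      have : WV k M (1 / 2 - δ) 0 = 0 := by
        unfold WV VV
        simp
      rw [this]
      exact h0 0
    · rw [Set.indicator_of_mem]
      refine Nat.mem_smoothNumbers_of_lt h ?_
      have : m ≤ S.sup id := Finset.le_sup (f := id) hm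
      omega
  refine h4.trans (h3.trans ?_)
  have hpr : ∀ p ∈ N.primesBelow, p.Prime := fun p hp => Nat.prime_of_mem_primesBelow hp
  have hB := one_le_BB k
  have h5 : ∏ p ∈ N.primesBelow, (if p ∣ M then BB k else 1) ≤ BB k ^ M.primeFactors.card := by
    rw [← Finset.prod_filter, Finset.prod_const]
    refine pow_le_pow_right₀ hB (Finset.card_le_card fun p hp => ?_)
    have hp' := Finset.mem_filter.1 hp
    exact Nat.mem_primeFactors.2 ⟨hpr p hp'.1, hp'.2, by omega⟩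
  calc ∏ p ∈ N.primesBelow, ∑' v, WV k M (1 / 2 - δ) (p ^ v)
      ≤ ∏ p ∈ N.primesBelow, ((if p ∣ M then BB k else 1) *
          Real.exp (CE1 k * (p : ℝ) ^ (-(1 + 2 * δ) : ℝ))) := by
        refine Finset.prod_le_prod (fun p hp => tsum_nonneg fun v => WV_nonneg k M _ _) fun p hp => ?_
        refine (WV_local k M hδ0 hδ (hpr p hp)).2.trans ?_
        have h6 := Real.add_one_le_exp (CE1 k * (p : ℝ) ^ (-(1 + 2 * δ) : ℝ))
        refine mul_le_mul_of_nonneg_left (by linarith) ?_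
        split_ifs <;> linarith
    _ = (∏ p ∈ N.primesBelow, (if p ∣ M then BB k else 1)) *
          Real.exp (∑ p ∈ N.primesBelow, CE1 k * (p : ℝ) ^ (-(1 + 2 * δ) : ℝ)) := by
        rw [Finset.prod_mul_distrib, Real.exp_sum]
    _ ≤ BB k ^ M.primeFactors.card * CC1 k δ := by
        refine mul_le_mul h5 ?_ (Real.exp_pos _).le (by positivity)
        unfold CC1
        refine Real.exp_le_exp.2 ?_
        rw [← Finset.mul_sum]
        exact mul_le_mul_of_nonneg_left (hz.sum_le_tsum _ fun n _ => by positivity) (CE1_nonneg k)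

theorem two_pow_le_tau {M : ℕ} (hM : 1 ≤ M) : (2 : ℝ) ^ M.primeFactors.card ≤ tau M := by
  have hM0 : M ≠ 0 := by omega
  unfold tau
  rw [Nat.card_divisors hM0]
  push_cast
  rw [← Finset.prod_const]
  refine Finset.prod_le_prod (fun _ _ => by norm_num) fun p hp => ?_
  have h1 : 1 ≤ M.factorization p :=
    (Nat.Prime.factorization_pos_of_dvd (Nat.prime_of_mem_primeFactors hp) hM0
      (Nat.dvd_of_mem_primeFactors hp))
  have h2 : (1 : ℝ) ≤ (M.factorization p : ℝ) := by exact_mod_cast h1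
  linarith

theorem B1r : S_B1r := by
  intro k
  refine ⟨fun M b => KK k M * VV k M b,
    fun M b => mul_nonneg (KK_nonneg _ _) (VV_nonneg _ _ _),
    fun M hM β b => alM_le hM β b, ?_⟩
  intro δ ε hδ0 hδ hε
  set J : ℕ := ⌈BB k⌉₊ with hJ
  have hBJ : BB k ≤ 2 ^ J := by
    refine (Nat.le_ceil _).trans ?_
    rw [← hJ]
    exact_mod_cast Nat.lt_two_pow_self.le
  set ε' : ℝ := ε / ((k : ℝ) + J + 1) with hε'
  have hε'0 : 0 < ε' := by rw [hε']; positivity
  obtain ⟨C1, hC1, hdiv⟩ := Pool.Agent.H510R2.divisor_bound ε' hε'0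
  have hCC := CC1_pos k δ
  refine ⟨C1 ^ (k + J) * CC1 k δ, by positivity, ?_⟩
  intro M hM S
  have hM0 : (0 : ℝ) < M := by exact_mod_cast hM
  have hM1 : (1 : ℝ) ≤ M := by exact_mod_cast hM
  have hB := one_le_BB k
  have ht1 : 1 ≤ tau M := one_le_tau (by omega)
  have e1 : ∑ b ∈ S, KK k M * VV k M b * (b : ℝ) ^ (1 / 2 - δ) =
      KK k M * ∑ b ∈ S, WV k M (1 / 2 - δ) b := by
    rw [Finset.mul_sum]
    refine Finset.sum_congr rfl fun b _ => ?_
    unfold WV
    ring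
  have h1 := WV_sum k hM hδ0 hδ S
  have h2 : BB k ^ M.primeFactors.card ≤ tau M ^ J := by
    calc BB k ^ M.primeFactors.card ≤ (2 ^ J) ^ M.primeFactors.card :=
          pow_le_pow_left₀ (by linarith) hBJ _
      _ = (2 ^ M.primeFactors.card) ^ J := by rw [← pow_mul, ← pow_mul, mul_comm]
      _ ≤ tau M ^ J := pow_le_pow_left₀ (by positivity) (two_pow_le_tau hM) _
  have h3 : tau M ^ (k + J) ≤ C1 ^ (k + J) * (M : ℝ) ^ ε := by
    have h4 : tau M ≤ C1 * (M : ℝ) ^ ε' := hdiv M hM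
    calc tau M ^ (k + J) ≤ (C1 * (M : ℝ) ^ ε') ^ (k + J) := pow_le_pow_left₀ (tau_nonneg _) h4 _
      _ = C1 ^ (k + J) * (M : ℝ) ^ (ε' * ((k + J : ℕ) : ℝ)) := by
          rw [mul_pow, ← Real.rpow_natCast ((M : ℝ) ^ ε'), ← Real.rpow_mul hM0.le]
      _ ≤ C1 ^ (k + J) * (M : ℝ) ^ ε := by
          refine mul_le_mul_of_nonneg_left ?_ (by positivity)
          refine Real.rpow_le_rpow_of_exponent_le hM1 ?_
          rw [hε', div_mul_eq_mul_div, div_le_iff₀ (by positivity)]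
          push_cast
          nlinarith
  show ∑ b ∈ S, KK k M * VV k M b * (b : ℝ) ^ (1 / 2 - δ) ≤
    C1 ^ (k + J) * CC1 k δ * (M : ℝ) ^ ε / Real.sqrt (M1 M)
  rw [e1]
  calc KK k M * ∑ b ∈ S, WV k M (1 / 2 - δ) b
      ≤ KK k M * (tau M ^ J * CC1 k δ) := by
        refine mul_le_mul_of_nonneg_left (h1.trans ?_) (KK_nonneg _ _)
        exact mul_le_mul_of_nonneg_right h2 hCC.le
    _ = tau M ^ (k + J) * CC1 k δ / Real.sqrt (M1 M) := by
        unfold KK
        rw [pow_add]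
        ring
    _ ≤ C1 ^ (k + J) * (M : ℝ) ^ ε * CC1 k δ / Real.sqrt (M1 M) := by
        refine div_le_div_of_nonneg_right ?_ (Real.sqrt_nonneg _)
        exact mul_le_mul_of_nonneg_right h3 hCC.le
    _ = C1 ^ (k + J) * CC1 k δ * (M : ℝ) ^ ε / Real.sqrt (M1 M) := by ring

end

end Pool.Agent.H405.MD
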