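import Pool.Agent.H681.MD.Stm2

set_option autoImplicit false

/-!
# Project MD, job B2: the Euler product of the twisted arithmetic factor (helper686)

One prime of `M` is split off at a time: `alM (p^a M') = sp p (E * Mu) * cp {p} (alM M')`, where `sp p F` is the
arithmetic function supported on the powers of `p` with the values given by the power series `F`, and `cp R f` is `f`
restricted to the integers which are not divisible by the primes in `R`.
-/

namespace Pool.Agent.H686.MD

open Complex Filter Topology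
open Pool.Agent.N879.QM Pool.Agent.N879.QM.Eul
open Pool.Agent.H681.MD

noncomputable section

/-! ### Restrictions -/

/-- restriction to the integers which are not divisible by the members of `R` -/
def cp (R : Finset ℕ) (f : ArithmeticFunction ℂ) : ArithmeticFunction ℂ :=
  ⟨fun n => if ∀ q ∈ R, ¬ q ∣ n then f n else 0, by simp⟩

theorem cp_apply (R : Finset ℕ) (f : ArithmeticFunction ℂ) (n : ℕ) :
    cp R f n = if ∀ q ∈ R, ¬ q ∣ n then f n else 0 := rfl

theorem cp_pos {R : Finset ℕ} (f : ArithmeticFunction ℂ) {n : ℕ} (h : ∀ q ∈ R, ¬ q ∣ n) :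
    cp R f n = f n := by rw [cp_apply, if_pos h]

theorem cp_neg {R : Finset ℕ} (f : ArithmeticFunction ℂ) {n : ℕ} (h : ¬ ∀ q ∈ R, ¬ q ∣ n) :
    cp R f n = 0 := by rw [cp_apply, if_neg h]

theorem cp_empty (f : ArithmeticFunction ℂ) : cp ∅ f = f := by
  ext n
  exact cp_pos f (fun q hq => absurd hq (Finset.notMem_empty q))

theorem cp_mul {R : Finset ℕ} (hR : ∀ q ∈ R, q.Prime) (f g : ArithmeticFunction ℂ) :
    cp R (f * g) = cp R f * cp R g := by
  ext n
  by_cases h : ∀ q ∈ R, ¬ q ∣ n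
  · rw [cp_pos _ h, ArithmeticFunction.mul_apply, ArithmeticFunction.mul_apply]
    refine Finset.sum_congr rfl fun x hx => ?_
    have hx' := Nat.mem_divisorsAntidiagonal.1 hx
    rw [cp_pos f (fun q hq hd => h q hq (hd.trans (Dvd.intro _ hx'.1))),
      cp_pos g (fun q hq hd => h q hq (hd.trans (Dvd.intro_left _ hx'.1)))]
  · rw [cp_neg _ h, ArithmeticFunction.mul_apply]
    symm
    refine Finset.sum_eq_zero fun x hx => ?_
    have hx' := Nat.mem_divisorsAntidiagonal.1 hx
    push Not at h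
    obtain ⟨q, hq, hqn⟩ := h
    rw [← hx'.1] at hqn
    rcases (hR q hq).dvd_mul.1 hqn with h1 | h1
    · rw [cp_neg f (fun h2 => h2 q hq h1), zero_mul]
    · rw [cp_neg g (fun h2 => h2 q hq h1), mul_zero]

theorem cp_cp (R : Finset ℕ) (p : ℕ) (f : ArithmeticFunction ℂ) :
    cp R (cp {p} f) = cp (insert p R) f := by
  ext n
  rw [cp_apply, cp_apply, cp_apply]
  by_cases h1 : ∀ q ∈ R, ¬ q ∣ n
  · rw [if_pos h1]
    by_cases h2 : p ∣ n
    · rw [if_neg (fun h => h p (Finset.mem_singleton_self p) h2),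
        if_neg (fun h => h p (Finset.mem_insert_self p R) h2)]
    · rw [if_pos, if_pos]
      · intro q hq
        rcases Finset.mem_insert.1 hq with h | h
        · rw [h]
          exact h2
        · exact h1 q h
      · intro q hq
        rw [Finset.mem_singleton.1 hq]
        exact h2
  · rw [if_neg h1, if_neg]
    intro h
    exact h1 fun q hq => h q (Finset.mem_insert_of_mem hq)

/-! ### Functions supported on the powers of a prime -/

/-- the values of a power series at the powers of `p` -/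
def sp (p : ℕ) (F : PowerSeries ℂ) : ArithmeticFunction ℂ :=
  ⟨fun n => if n = p ^ n.factorization p then PowerSeries.coeff (n.factorization p) F else 0, by simp⟩

theorem sp_apply (p : ℕ) (F : PowerSeries ℂ) (n : ℕ) :
    sp p F n = if n = p ^ n.factorization p then PowerSeries.coeff (n.factorization p) F else 0 := rfl

theorem sp_pow {p : ℕ} (hp : p.Prime) (F : PowerSeries ℂ) (v : ℕ) :
    sp p F (p ^ v) = PowerSeries.coeff v F := by
  rw [sp_apply, hp.factorization_pow, Finsupp.single_eq_same, if_pos rfl]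

theorem sp_ne {p : ℕ} (F : PowerSeries ℂ) {n : ℕ} (h : sp p F n ≠ 0) : ∃ v, n = p ^ v := by
  rw [sp_apply] at h
  by_cases h1 : n = p ^ n.factorization p
  · exact ⟨_, h1⟩
  · rw [if_neg h1] at h
    exact absurd rfl h

theorem sp_zero_of {p : ℕ} (F : PowerSeries ℂ) {n : ℕ} (h : ∀ v, n ≠ p ^ v) : sp p F n = 0 := by
  by_contra h1
  obtain ⟨v, hv⟩ := sp_ne F h1
  exact h v hv

theorem sp_mul {p : ℕ} (hp : p.Prime) (F F' : PowerSeries ℂ) : sp p (F * F') = sp p F * sp p F' := by
  ext n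
  by_cases h : ∃ v, n = p ^ v
  · obtain ⟨v, rfl⟩ := h
    rw [sp_pow hp, ArithmeticFunction.mul_apply, PowerSeries.coeff_mul,
      Nat.sum_divisorsAntidiagonal (fun a b => sp p F a * sp p F' b), Nat.sum_divisors_prime_pow hp,
      Finset.Nat.sum_antidiagonal_eq_sum_range_succ
        (fun a b => PowerSeries.coeff a F * PowerSeries.coeff b F')]
    refine Finset.sum_congr rfl fun x hx => ?_
    have : x ≤ v := by
      have := Finset.mem_range.1 hx
      omega
    rw [Nat.pow_div this hp.pos, sp_pow hp, sp_pow hp]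
  · push Not at h
    rw [sp_zero_of _ h, ArithmeticFunction.mul_apply]
    symm
    refine Finset.sum_eq_zero fun x hx => ?_
    have hx' := Nat.mem_divisorsAntidiagonal.1 hx
    by_contra h1
    obtain ⟨a, ha⟩ := sp_ne F (left_ne_zero_of_mul h1)
    obtain ⟨b, hb⟩ := sp_ne F' (right_ne_zero_of_mul h1)
    refine h (a + b) ?_
    rw [← hx'.1, ha, hb, pow_add]

theorem cp_sp {R : Finset ℕ} (hR : ∀ q ∈ R, q.Prime) {p : ℕ} (hp : p.Prime) (hpR : p ∉ R)
    (F : PowerSeries ℂ) : cp R (sp p F) = sp p F := by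
  ext n
  by_cases h : ∃ v, n = p ^ v
  · obtain ⟨v, rfl⟩ := h
    refine cp_pos _ fun q hq hd => ?_
    have h1 := (Nat.prime_dvd_prime_iff_eq (hR q hq) hp).1 ((hR q hq).dvd_of_dvd_pow hd)
    rw [h1] at hq
    exact hpR hq
  · push Not at h
    rw [cp_apply, sp_zero_of _ h]
    split_ifs <;> rfl

/-- one prime is split off -/
theorem peel {p : ℕ} (hp : p.Prime) (f g : ArithmeticFunction ℂ) (F : PowerSeries ℂ)
    (h : ∀ a m, ¬ p ∣ m → f (p ^ a * m) = PowerSeries.coeff a F * g m) :
    f = sp p F * cp {p} g := by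
  ext n
  rcases eq_or_ne n 0 with hn | hn
  · rw [hn, ArithmeticFunction.map_zero, ArithmeticFunction.map_zero]
  · obtain ⟨a, m, hm, hnm⟩ := Nat.exists_eq_pow_mul_and_not_dvd hn p hp.ne_one
    rw [hnm, h a m hm, ArithmeticFunction.mul_apply,
      Finset.sum_eq_single ((p ^ a, m) : ℕ × ℕ)]
    · rw [sp_pow hp, cp_pos g (fun q hq => by rw [Finset.mem_singleton.1 hq]; exact hm)]
    · rintro ⟨d, e⟩ hx hne
      have hx' := Nat.mem_divisorsAntidiagonal.1 hx
      by_contra h1
      dsimp only at h1 hx'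
      obtain ⟨b, hb⟩ := sp_ne F (left_ne_zero_of_mul h1)
      have he : ¬ p ∣ e := by
        intro hpe
        exact (right_ne_zero_of_mul h1)
          (cp_neg g (fun h2 => h2 p (Finset.mem_singleton_self p) hpe))
      rw [hb] at hx'
      have hm0 : m ≠ 0 := fun h0 => hm (by rw [h0]; exact dvd_zero p)
      have he0 : e ≠ 0 := fun h0 => he (by rw [h0]; exact dvd_zero p)
      have h3 := congrArg (fun n => n.factorization p) hx'.1
      simp only [Nat.factorization_mul (pow_ne_zero _ hp.ne_zero) hm0,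
        Nat.factorization_mul (pow_ne_zero _ hp.ne_zero) he0, hp.factorization_pow,
        Finsupp.add_apply, Finsupp.single_eq_same, Nat.factorization_eq_zero_of_not_dvd hm,
        Nat.factorization_eq_zero_of_not_dvd he, add_zero] at h3
      apply hne
      have h4 : e = m := by
        have h5 := hx'.1
        rw [h3] at h5
        exact Nat.eq_of_mul_eq_mul_left (pow_pos hp.pos a) h5
      rw [hb, h3, h4]
    · intro h1
      exfalso
      apply h1
      rw [Nat.mem_divisorsAntidiagonal]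
      refine ⟨rfl, ?_⟩
      rw [← hnm]
      exact hn

theorem peel_mult {p : ℕ} (hp : p.Prime) {f : ArithmeticFunction ℂ} (hf : f.IsMultiplicative) :
    f = sp p (bell p f) * cp {p} f := by
  refine peel hp f f _ fun a m hm => ?_
  rw [hf.map_mul_of_coprime (Nat.Coprime.pow_left a ((Nat.Prime.coprime_iff_not_dvd hp).2 hm))]
  congr 1
  unfold bell
  rw [PowerSeries.coeff_mk]

/-! ### Sums -/

theorem term_eq (f : ArithmeticFunction ℂ) (n : ℕ) : LSeries.term (fun n => f n) 0 n = f n := by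
  rcases eq_or_ne n 0 with h | h
  · rw [h, LSeries.term_zero, ArithmeticFunction.map_zero]
  · rw [LSeries.term_of_ne_zero h, Complex.cpow_zero, div_one]

theorem conv_sum {f g : ArithmeticFunction ℂ} (hf : Summable fun n => ‖f n‖)
    (hg : Summable fun n => ‖g n‖) : (Summable fun n => ‖(f * g) n‖) ∧
      ∑' n, (f * g) n = (∑' n, f n) * ∑' n, g n := by
  have hf' : LSeriesSummable (fun n => f n) 0 := by
    unfold LSeriesSummable
    exact hf.of_norm.congr fun n => (term_eq f n).symm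
  have hg' : LSeriesSummable (fun n => g n) 0 := by
    unfold LSeriesSummable
    exact hg.of_norm.congr fun n => (term_eq g n).symm
  have h1 := ArithmeticFunction.LSeriesSummable_mul hf' hg'
  have h2 := ArithmeticFunction.LSeries_mul' hf' hg'
  unfold LSeriesSummable at h1
  unfold LSeries at h2
  rw [tsum_congr (term_eq (f * g)), tsum_congr (term_eq f), tsum_congr (term_eq g)] at h2
  exact ⟨(h1.congr fun n => term_eq (f * g) n).norm, h2⟩

theorem sp_sum {p : ℕ} (hp : p.Prime) {F : PowerSeries ℂ} (hF : Sm F) :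
    (Summable fun n => ‖sp p F n‖) ∧ ∑' n, sp p F n = ev F := by
  have hinj : Function.Injective fun v : ℕ => p ^ v := Nat.pow_right_injective hp.two_le
  have h0 : ∀ n, n ∉ Set.range (fun v : ℕ => p ^ v) → sp p F n = 0 := by
    intro n hn
    refine sp_zero_of F fun v hv => hn ⟨v, hv.symm⟩
  constructor
  · refine (hinj.summable_iff (f := fun n => ‖sp p F n‖) fun n hn => by rw [h0 n hn, norm_zero]).1 ?_
    refine hF.congr fun v => ?_
    show _ = ‖sp p F (p ^ v)‖
    rw [sp_pow hp]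
  · have h1 := hinj.tsum_eq (f := fun n => sp p F n) (by
      intro n hn
      by_contra h2
      exact hn (h0 n h2))
    rw [← h1]
    unfold ev
    exact tsum_congr fun v => sp_pow hp F v

/-! ### The factor at a prime divisor of `M` -/

/-- the series at a prime divisor -/
def EE {k : ℕ} (β : Fin k → ℝ) (p a : ℕ) : PowerSeries ℂ :=
  PowerSeries.mk fun w => ((p : ℂ) / (p + 1)) * PowerSeries.coeff (a % 2 + 2 * w) (H β p)

theorem sum_odd {k : ℕ} (β : Fin k → ℝ) {p : ℕ} (hp : p.Prime) :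
    (Summable fun v => ‖PowerSeries.coeff (1 + 2 * v) (H β p)‖) ∧
    ∑' v, PowerSeries.coeff (1 + 2 * v) (H β p) =
      1 / 2 * ((∏ j, (1 - xx β p j)⁻¹) - ∏ j, (1 + xx β p j)⁻¹) := by
  obtain ⟨h1, h2⟩ := sm_H β hp
  obtain ⟨he, he2⟩ := sum_even β hp
  unfold Sm at h1
  unfold ev at h2
  have ho : Summable fun v => ‖PowerSeries.coeff (2 * v + 1) (H β p)‖ :=
    Summable.comp_injective (f := fun v => ‖PowerSeries.coeff v (H β p)‖) h1
      (i := fun v : ℕ => 2 * v + 1) fun a b h => by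
        simp only at h
        omega
  have h3 := tsum_even_add_odd (f := fun v => PowerSeries.coeff v (H β p)) he.of_norm ho.of_norm
  have e : ∀ v : ℕ, 1 + 2 * v = 2 * v + 1 := fun v => by ring
  simp only [e]
  refine ⟨ho, ?_⟩
  rw [he2, h2] at h3
  linear_combination h3

theorem sum_par {k : ℕ} (β : Fin k → ℝ) {p : ℕ} (hp : p.Prime) (a : ℕ) :
    (Summable fun v => ‖PowerSeries.coeff (a % 2 + 2 * v) (H β p)‖) ∧
    ∑' v, PowerSeries.coeff (a % 2 + 2 * v) (H β p) =
      1 / 2 * ((∏ j, (1 - xx β p j)⁻¹) + (-1) ^ a * ∏ j, (1 + xx β p j)⁻¹) := by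
  rcases Nat.even_or_odd a with h | h
  · rw [Nat.even_iff.1 h, h.neg_one_pow, one_mul]
    simp only [zero_add]
    exact sum_even β hp
  · rw [Nat.odd_iff.1 h, h.neg_one_pow]
    obtain ⟨h1, h2⟩ := sum_odd β hp
    refine ⟨h1, h2.trans ?_⟩
    ring

theorem sm_EE {k : ℕ} (β : Fin k → ℝ) {p : ℕ} (hp : p.Prime) (a : ℕ) :
    Sm (EE β p a) ∧ ev (EE β p a) = (1 / 2 * ((∏ j, (1 - xx β p j)⁻¹) +
      (-1) ^ a * ∏ j, (1 + xx β p j)⁻¹)) * (1 + 1 / (p : ℂ))⁻¹ := by
  obtain ⟨h1, h2⟩ := sum_par β hp a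
  unfold Sm ev EE
  simp only [PowerSeries.coeff_mk]
  constructor
  · simp only [norm_mul]
    exact h1.mul_left _
  · rw [tsum_mul_left, h2]
    have hp0 : (p : ℂ) ≠ 0 := by exact_mod_cast hp.ne_zero
    have hp1 : (p : ℂ) + 1 ≠ 0 := by exact_mod_cast Nat.succ_ne_zero p
    have e : (1 + 1 / (p : ℂ)) = (p + 1) / p := by field_simp
    rw [e, inv_div]
    ring

theorem coeff_H {k : ℕ} (β : Fin k → ℝ) {p : ℕ} (hp : p.Prime) (v : ℕ) :
    T (sx β) (p ^ v) = PowerSeries.coeff v (H β p) := by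
  have h2 : PowerSeries.coeff v (bell p (T (sx β))) = T (sx β) (p ^ v) := by
    unfold bell
    rw [PowerSeries.coeff_mk]
  rw [← h2, bell_T hp]
  rfl

theorem gM_apply {k : ℕ} (M : ℕ) (β : Fin k → ℝ) {m : ℕ} (hm : m ≠ 0) :
    gM M β m = (af (M * m) : ℂ) * T (sx β) (M1 M * m ^ 2) := by
  show (if m = 0 then 0 else (af (M * m) : ℂ) * ∑ n ∈ Nat.finMulAntidiag k (M1 M * m ^ 2), cx n β) = _
  rw [if_neg hm]
  rfl

theorem M1_mul {p a M : ℕ} (hp : p.Prime) (ha : 0 < a) (hpM : ¬ p ∣ M) :
    M1 (p ^ a * M) = p ^ (a % 2) * M1 M := by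
  have hM : M ≠ 0 := fun h => hpM (by rw [h]; exact dvd_zero p)
  have hcop : (p ^ a).Coprime M := Nat.Coprime.pow_left a ((Nat.Prime.coprime_iff_not_dvd hp).2 hpM)
  have h1 : (p ^ a * M).primeFactors = insert p M.primeFactors := by
    rw [hcop.primeFactors_mul, Nat.primeFactors_prime_pow ha.ne' hp]
    rfl
  have h2 : ∀ q, (p ^ a * M).factorization q = (if q = p then a else 0) + M.factorization q := by
    intro q
    rw [Nat.factorization_mul (pow_ne_zero _ hp.ne_zero) hM, hp.factorization_pow,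
      Finsupp.add_apply, Finsupp.single_apply]
    by_cases h : p = q
    · rw [if_pos h, if_pos h.symm]
    · rw [if_neg h, if_neg (Ne.symm h)]
  have hp' : p ∉ M.primeFactors := fun h => hpM (Nat.dvd_of_mem_primeFactors h)
  unfold M1
  rw [Finset.prod_filter, Finset.prod_filter, h1, Finset.prod_insert hp']
  congr 1
  · rw [h2, if_pos rfl, Nat.factorization_eq_zero_of_not_dvd hpM, add_zero]
    rcases Nat.even_or_odd a with h | h
    · rw [if_neg (by rw [Nat.not_odd_iff_even]; exact h), Nat.even_iff.1 h, pow_zero]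
    · rw [if_pos h, Nat.odd_iff.1 h, pow_one]
  · refine Finset.prod_congr rfl fun q hq => ?_
    have hqp : q ≠ p := fun h => hp' (by rw [← h]; exact hq)
    rw [h2, if_neg hqp, zero_add]

theorem not_dvd_M1 {p M : ℕ} (hp : p.Prime) (hpM : ¬ p ∣ M) : ¬ p ∣ M1 M := by
  unfold M1
  intro h
  rw [hp.prime.dvd_finsetProd_iff] at h
  obtain ⟨q, hq, hpq⟩ := h
  have hq' := (Finset.mem_filter.1 hq).1
  rw [(Nat.prime_dvd_prime_iff_eq hp (Nat.prime_of_mem_primeFactors hq')).1 hpq] at hpM
  exact hpM (Nat.dvd_of_mem_primeFactors hq')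

theorem af_prime_pow {p a : ℕ} (hp : p.Prime) (ha : a ≠ 0) : af (p ^ a) = (p : ℝ) / (p + 1) := by
  unfold af
  rw [Nat.primeFactors_prime_pow ha hp, Finset.prod_singleton]

theorem gM_peel {k : ℕ} (β : Fin k → ℝ) {p a M : ℕ} (hp : p.Prime) (ha : 0 < a) (hpM : ¬ p ∣ M) :
    gM (p ^ a * M) β = sp p (EE β p a) * cp {p} (gM M β) := by
  refine peel hp _ _ _ fun u m hm => ?_
  have hm0 : m ≠ 0 := fun h => hm (by rw [h]; exact dvd_zero p)
  have hcop : ∀ (b n : ℕ), ¬ p ∣ n → (p ^ b).Coprime n := fun b n hn =>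
    Nat.Coprime.pow_left b ((Nat.Prime.coprime_iff_not_dvd hp).2 hn)
  have hMm : ¬ p ∣ M * m := fun h => (hp.dvd_mul.1 h).elim hpM hm
  have hMm2 : ¬ p ∣ M1 M * m ^ 2 := fun h =>
    (hp.dvd_mul.1 h).elim (not_dvd_M1 hp hpM) fun h2 => hm (hp.dvd_of_dvd_pow h2)
  rw [gM_apply _ β (mul_ne_zero (pow_ne_zero _ hp.ne_zero) hm0), gM_apply _ β hm0, M1_mul hp ha hpM]
  have e1 : p ^ a * M * (p ^ u * m) = p ^ (a + u) * (M * m) := by ring
  have e2 : p ^ (a % 2) * M1 M * (p ^ u * m) ^ 2 = p ^ (a % 2 + 2 * u) * (M1 M * m ^ 2) := by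
    rw [mul_pow, ← pow_mul, mul_comm u 2, pow_add]
    ring
  rw [e1, e2, af_mul (hcop _ _ hMm), af_prime_pow hp (by omega),
    (T_mult _).map_mul_of_coprime (hcop _ _ hMm2), coeff_H β hp]
  unfold EE
  rw [PowerSeries.coeff_mk]
  push_cast
  ring

/-- the product of the Moebius factors -/
def PI {k : ℕ} (β : Fin k → ℝ) : ArithmeticFunction ℂ := ∏ r : Pr k, muA (pp β r)

theorem PI_mult {k : ℕ} (β : Fin k → ℝ) : (PI β).IsMultiplicative :=
  Finset.prod_induction _ (fun f : ArithmeticFunction ℂ => f.IsMultiplicative)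
    (fun _ _ ha hb => ha.mul hb) ArithmeticFunction.isMultiplicative_one fun _ _ => muA_mult _

theorem bell_PI {k : ℕ} (β : Fin k → ℝ) {p : ℕ} (hp : p.Prime) : bell p (PI β) = Mu β p := by
  unfold PI Mu
  rw [bell_prod hp]
  exact Finset.prod_congr rfl fun r _ => bell_mu hp _

theorem alM_peel {k : ℕ} (β : Fin k → ℝ) {p a M : ℕ} (hp : p.Prime) (ha : 0 < a) (hpM : ¬ p ∣ M) :
    alM (p ^ a * M) β = sp p (EE β p a * Mu β p) * cp {p} (alM M β) := by
  have h1 : alM (p ^ a * M) β = gM (p ^ a * M) β * PI β := rfl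
  have h2 : alM M β = gM M β * PI β := rfl
  have h3 := peel_mult hp (PI_mult β)
  rw [bell_PI β hp] at h3
  rw [h1, h2, gM_peel β hp ha hpM, sp_mul hp,
    cp_mul (fun q hq => by rw [Finset.mem_singleton.1 hq]; exact hp)]
  conv_lhs => rw [h3]
  ring

theorem alM_one {k : ℕ} (β : Fin k → ℝ) : alM 1 β = al β := by
  unfold alM al
  congr 1
  ext m
  rcases eq_or_ne m 0 with hm | hm
  · rw [hm, ArithmeticFunction.map_zero, ArithmeticFunction.map_zero]
  · rw [gM_apply _ β hm, gA_apply β hm, one_mul]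
    have : M1 1 = 1 := by
      unfold M1
      rw [Nat.primeFactors_one, Finset.filter_empty, Finset.prod_empty]
    rw [this, one_mul]

/-- the local factor at a prime divisor -/
theorem loc_div {k : ℕ} (β : Fin k → ℝ) {p a M : ℕ} (hp : p.Prime) (ha : 0 < a) (hpM : ¬ p ∣ M) :
    locM (p ^ a * M) (im β) p = ev (EE β p a * Mu β p) := by
  have hM : M ≠ 0 := fun h => hpM (by rw [h]; exact dvd_zero p)
  have h := (sm_EE β hp a).1.mul (sm_Mu β p).1
  rw [h.2, (sm_EE β hp a).2, (sm_Mu β p).2]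
  unfold locM
  have hd : p ∣ p ^ a * M := (dvd_pow_self p ha.ne').mul_right M
  have hf : (p ^ a * M).factorization p = a := by
    rw [Nat.factorization_mul (pow_ne_zero _ hp.ne_zero) hM, hp.factorization_pow,
      Finsupp.add_apply, Finsupp.single_eq_same, Nat.factorization_eq_zero_of_not_dvd hpM, add_zero]
  rw [if_pos hd, hf]
  have e1 : ∀ r : Pr k, (p : ℂ) ^ (-(1 + im β r.1.1 + im β r.1.2)) = yy β p r := fun r => by
    unfold yy pp Pool.Agent.N879.QM.im
    congr 1
    ring
  have e2 : ∀ j : Fin k, (p : ℂ) ^ (-(1 / 2 + im β j)) = xx β p j := fun j => rfl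
  simp only [e1, e2]
  ring

theorem loc_ne {k : ℕ} (β : Fin k → ℝ) {p q a M : ℕ} (hp : p.Prime) (hq : q.Prime) (hqp : q ≠ p)
    (hpM : ¬ p ∣ M) : locM (p ^ a * M) (im β) q = locM M (im β) q := by
  have hM : M ≠ 0 := fun h => hpM (by rw [h]; exact dvd_zero p)
  have hd : q ∣ p ^ a * M ↔ q ∣ M := by
    rw [hq.dvd_mul]
    refine ⟨fun h => h.elim (fun h1 => ?_) id, Or.inr⟩
    exact absurd ((Nat.prime_dvd_prime_iff_eq hq hp).1 (hq.dvd_of_dvd_pow h1)) hqp
  have hf : (p ^ a * M).factorization q = M.factorization q := by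
    rw [Nat.factorization_mul (pow_ne_zero _ hp.ne_zero) hM, hp.factorization_pow,
      Finsupp.add_apply, Finsupp.single_eq_of_ne hqp, zero_add]
  unfold locM
  rw [hf]
  simp only [hd]

/-! ### The Euler product -/

theorem cp_mult {R : Finset ℕ} (hR : ∀ q ∈ R, q.Prime) {f : ArithmeticFunction ℂ}
    (hf : f.IsMultiplicative) : (cp R f).IsMultiplicative := by
  rw [ArithmeticFunction.IsMultiplicative.iff_ne_zero]
  refine ⟨?_, fun {m n} hm hn h => ?_⟩
  · rw [cp_pos f (fun q hq hd => (hR q hq).one_lt.ne' (Nat.dvd_one.1 hd)), hf.map_one]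
  · by_cases h1 : ∀ q ∈ R, ¬ q ∣ m
    · by_cases h2 : ∀ q ∈ R, ¬ q ∣ n
      · rw [cp_pos f h1, cp_pos f h2, cp_pos f, hf.map_mul_of_coprime h]
        intro q hq hd
        exact ((hR q hq).dvd_mul.1 hd).elim (h1 q hq) (h2 q hq)
      · rw [cp_neg f h2, mul_zero, cp_neg f]
        intro h3
        exact h2 fun q hq hd => h3 q hq (hd.mul_left m)
    · rw [cp_neg f h1, zero_mul, cp_neg f]
      intro h3
      exact h1 fun q hq hd => h3 q hq (hd.mul_right n)

theorem cp_norm {R : Finset ℕ} {f : ArithmeticFunction ℂ} (hf : Summable fun n => ‖f n‖) :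
    Summable fun n => ‖cp R f n‖ := by
  refine Summable.of_nonneg_of_le (fun _ => norm_nonneg _) (fun n => ?_) hf
  rw [cp_apply]
  split_ifs
  · exact le_rfl
  · rw [norm_zero]
    exact norm_nonneg _

theorem main {k : ℕ} (β : Fin k → ℝ) : ∀ (M : ℕ), M ≠ 0 → ∀ R : Finset ℕ, (∀ q ∈ R, q.Prime) →
    (∀ q ∈ R, ¬ q ∣ M) → (Summable fun n => ‖cp R (alM M β) n‖) ∧
      HasProd (fun q : Nat.Primes => if (q : ℕ) ∈ R then 1 else locM M (im β) q)
        (∑' n, cp R (alM M β) n) := by
  intro M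
  induction M using Nat.recOnPrimePow with
  | zero => intro h; exact absurd rfl h
  | one =>
    intro _ R hR _
    rw [alM_one]
    have hs : Summable fun n => ‖cp R (al β) n‖ := cp_norm (al_summable β)
    refine ⟨hs, ?_⟩
    have h := (cp_mult hR (al_mult β)).eulerProduct_hasProd hs
    refine h.congr_fun ?_
    intro q
    by_cases hq : (q : ℕ) ∈ R
    · rw [if_pos hq, tsum_eq_single 0]
      · rw [pow_zero, (cp_mult hR (al_mult β)).map_one]
      · intro e he
        refine cp_neg _ fun h1 => h1 q hq (dvd_pow_self _ he)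
    · rw [if_neg hq]
      have h1 : locM 1 (im β) q = loc (im β) q := by
        unfold locM loc
        rw [if_neg (fun h2 => q.2.one_lt.ne' (Nat.dvd_one.1 h2))]
      rw [h1, ← local_id β q.2]
      refine tsum_congr fun e => ?_
      symm
      refine cp_pos _ fun q' hq' hd => ?_
      have h2 := (Nat.prime_dvd_prime_iff_eq (hR q' hq') q.2).1 ((hR q' hq').dvd_of_dvd_pow hd)
      rw [h2] at hq'
      exact hq hq'
  | prime_pow_mul M p a hp hpM ha ih =>
    intro _ R hR hRM
    have hM : M ≠ 0 := fun h => hpM (by rw [h]; exact dvd_zero p)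
    have hpR : p ∉ R := fun h => hRM p h ((dvd_pow_self p ha.ne').mul_right M)
    have hR' : ∀ q ∈ insert p R, q.Prime := by
      intro q hq
      rcases Finset.mem_insert.1 hq with h | h
      · rw [h]; exact hp
      · exact hR q h
    obtain ⟨i1, i2⟩ := ih hM (insert p R) hR' (by
      intro q hq
      rcases Finset.mem_insert.1 hq with h | h
      · rw [h]; exact hpM
      · exact fun hd => hRM q h (hd.mul_left _))
    have hsm := (sm_EE β hp a).1.mul (sm_Mu β p).1
    obtain ⟨s1, s2⟩ := sp_sum hp hsm.1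
    have e : cp R (alM (p ^ a * M) β) =
        sp p (EE β p a * Mu β p) * cp (insert p R) (alM M β) := by
      rw [alM_peel β hp ha hpM, cp_mul hR, cp_sp hR hp hpR, cp_cp]
    obtain ⟨c1, c2⟩ := conv_sum s1 i1
    rw [e]
    refine ⟨c1, ?_⟩
    rw [c2, s2, ← loc_div β hp ha hpM]
    have h1 := (hasProd_ite_eq (⟨p, hp⟩ : Nat.Primes) (locM (p ^ a * M) (im β) p)).mul i2
    refine h1.congr_fun ?_
    intro q
    by_cases hq : q = ⟨p, hp⟩
    · subst hq
      rw [if_pos rfl, if_pos (Finset.mem_insert_self p R), mul_one, if_neg hpR]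
    · have hqp : (q : ℕ) ≠ p := fun h => hq (Subtype.ext h)
      rw [if_neg hq, one_mul]
      by_cases h : (q : ℕ) ∈ R
      · rw [if_pos h, if_pos (Finset.mem_insert_of_mem h)]
      · rw [if_neg h, if_neg (fun h2 => (Finset.mem_insert.1 h2).elim hqp h),
          loc_ne β hp q.2 hqp hpM]

end

end Pool.Agent.H686.MD

open Pool.Agent.H681.MD Pool.Agent.H686.MD in
/-- **B2** -/
theorem Pool.Agent.H686.MD.B2 : S_B2 := by
  intro k M hM β
  obtain ⟨h1, h2⟩ := main β M (Nat.one_le_iff_ne_zero.1 hM) ∅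
    (fun q hq => absurd hq (Finset.notMem_empty q)) (fun q hq => absurd hq (Finset.notMem_empty q))
  rw [cp_empty] at h1 h2
  refine ⟨h1, ?_⟩
  simp only [Finset.notMem_empty, if_false] at h2
  exact h2.tprod_eq
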