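import Pool.Agent.H681.QF.Bx
import Pool.Agent.H681.MD.Stm4

set_option autoImplicit false

/-!
Project MD: the sum over the box with a twist against the partial sums of the coefficients, with the factor
`(M1 M)^(-1/2)` (a copy of the file `B3` of helper706 with the weaker hypothesis `M1 M * N ^ 2 ≤ Y`).
-/

namespace Pool.Agent.H389.MDB3r

open Complex MeasureTheory Set Filter
open scoped BigOperators ENNReal
open Pool.Agent.N879.QM Pool.Agent.N879.QM.Coef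
open Pool.Agent.Y532.QF (chs)
open Pool.Agent.H681.QF.W (wmv)
open Pool.Agent.H681.QF.P (cx_chs)
open Pool.Agent.H681.MD

noncomputable section

variable {k : ℕ}

/-- `M1 M` is the squarefree part of `M` -/
lemma M1_spec {M : ℕ} (hM : 1 ≤ M) : Squarefree (M1 M) ∧ ∃ r : ℕ, 1 ≤ r ∧ M = M1 M * r ^ 2 := by
  obtain ⟨a, b, hb, ha, h1, h2⟩ : ∃ a b : ℕ, 0 < b ∧ 0 < a ∧ b ^ 2 * a = M ∧ Squarefree a := by
    obtain ⟨a, b, ha, hb, h1, h2⟩ := Nat.sq_mul_squarefree_of_pos (n := M) (by omega)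
    exact ⟨a, b, hb, ha, h1, h2⟩
  have hfac : ∀ p, M.factorization p = 2 * b.factorization p + a.factorization p := by
    intro p
    rw [← h1, Nat.factorization_mul (by positivity) (by omega), Nat.factorization_pow]
    simp
  have h3 : M1 M = a := by
    have h4 : M.primeFactors.filter (fun p => Odd (M.factorization p)) = a.primeFactors := by
      ext p
      rw [Finset.mem_filter]
      constructor
      · rintro ⟨hp, hodd⟩
        have hpp := Nat.prime_of_mem_primeFactors hp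
        rw [hfac p] at hodd
        have h5 : a.factorization p ≠ 0 := by
          intro h6
          rw [h6, add_zero] at hodd
          exact (Nat.not_odd_iff_even.2 (even_two_mul _)) hodd
        rw [← Nat.support_factorization, Finsupp.mem_support_iff]
        exact h5
      · intro hp
        have hpp := Nat.prime_of_mem_primeFactors hp
        have hpa := Nat.dvd_of_mem_primeFactors hp
        refine ⟨?_, ?_⟩
        · rw [Nat.mem_primeFactors]
          exact ⟨hpp, by rw [← h1]; exact Dvd.dvd.mul_left hpa _, by omega⟩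
        · have h6 : a.factorization p ≤ 1 := h2.natFactorization_le_one p
          have h7 : a.factorization p ≠ 0 := by
            rw [← Finsupp.mem_support_iff, Nat.support_factorization]
            exact hp
          have h8 : a.factorization p = 1 := by omega
          rw [hfac p, h8]
          exact ⟨b.factorization p, rfl⟩
    unfold M1
    rw [h4]
    exact Nat.prod_primeFactors_of_squarefree h2
  rw [h3]
  exact ⟨h2, b, hb, by rw [← h1]; ring⟩

lemma M1_pos {M : ℕ} (hM : 1 ≤ M) : 1 ≤ M1 M := by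
  have := (M1_spec hM).1.ne_zero
  omega

lemma M1_le {M : ℕ} (hM : 1 ≤ M) : M1 M ≤ M := by
  obtain ⟨_, r, hr, h⟩ := M1_spec hM
  calc M1 M ≤ M1 M * r ^ 2 := Nat.le_mul_of_pos_right _ (by positivity)
    _ = M := h.symm

lemma sq_iff {M P : ℕ} (hM : 1 ≤ M) (hP : 1 ≤ P) :
    IsSquare (M * P) ↔ ∃ m : ℕ, 1 ≤ m ∧ P = M1 M * m ^ 2 := by
  obtain ⟨hsq, r, hr, h⟩ := M1_spec hM
  have hc := M1_pos hM
  constructor
  · rintro ⟨a, ha⟩
    have h1 : r ^ 2 ∣ a ^ 2 := ⟨M1 M * P, by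
      calc a ^ 2 = M * P := by rw [ha, sq]
        _ = (M1 M * r ^ 2) * P := by rw [← h]
        _ = _ := by ring⟩
    obtain ⟨b, hb⟩ := (Nat.pow_dvd_pow_iff two_ne_zero).1 h1
    have h2 : M1 M * P = b ^ 2 := by
      have h3 : r ^ 2 * (M1 M * P) = r ^ 2 * b ^ 2 := by
        calc r ^ 2 * (M1 M * P) = (M1 M * r ^ 2) * P := by ring
          _ = M * P := by rw [← h]
          _ = a * a := ha
          _ = _ := by rw [hb]; ring
      exact Nat.eq_of_mul_eq_mul_left (by positivity) h3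
    have h4 : M1 M ∣ b := by
      have h5 : M1 M ∣ b ^ 2 := ⟨P, h2.symm⟩
      exact (hsq.dvd_pow_iff_dvd two_ne_zero).1 h5
    obtain ⟨m, hm⟩ := h4
    have h6 : P = M1 M * m ^ 2 := by
      have h7 : M1 M * P = M1 M * (M1 M * m ^ 2) := by rw [h2, hm]; ring
      exact Nat.eq_of_mul_eq_mul_left (by omega) h7
    refine ⟨m, ?_, h6⟩
    rw [Nat.one_le_iff_ne_zero]
    intro h0
    rw [h0] at h6
    simp at h6
    omega
  · rintro ⟨m, hm, rfl⟩
    refine ⟨M1 M * r * m, ?_⟩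
    calc M * (M1 M * m ^ 2) = (M1 M * r ^ 2) * (M1 M * m ^ 2) := by rw [← h]
      _ = _ := by ring

lemma sqrt_M1 {M m : ℕ} (hM : 1 ≤ M) : Nat.sqrt (M1 M * m ^ 2 / M1 M) = m := by
  rw [Nat.mul_div_cancel_left _ (M1_pos hM), sq, Nat.sqrt_eq]

lemma af_M1 {M m : ℕ} (hM : 1 ≤ M) (hm : 1 ≤ m) : af (M * (M1 M * m ^ 2)) = af (M * m) := by
  have hc := M1_pos hM
  obtain ⟨_, r, hr, h⟩ := M1_spec hM
  have h1 : (M * (M1 M * m ^ 2)).primeFactors = (M * m).primeFactors := by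
    have hsub : (M1 M).primeFactors ⊆ M.primeFactors := Nat.primeFactors_mono ⟨r ^ 2, h⟩ (by omega)
    rw [Nat.primeFactors_mul (by omega) (by positivity), Nat.primeFactors_mul (by omega) (by positivity),
      Nat.primeFactors_pow m two_ne_zero, Nat.primeFactors_mul (by omega) (by omega), ← Finset.union_assoc,
      Finset.union_eq_left.2 hsub]
  unfold af
  rw [h1]

open Classical in
/-- the tuples of the box beyond the partial sums -/
def TBM (k M Y N : ℕ) : Finset (Fin k → ℕ) :=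
  (tup k Y).filter (fun n => IsSquare (M * ∏ j, n j) ∧ M1 M * N ^ 2 < ∏ j, n j)

open Classical in
lemma GM_box {M N Y : ℕ} (hM : 1 ≤ M) (hNY : M1 M * N ^ 2 ≤ Y) (β : Fin k → ℝ) :
    ∑ m ∈ Finset.Icc 1 N, gM M β m =
    ∑ n ∈ (tup k Y).filter (fun n => IsSquare (M * ∏ j, n j) ∧ ∏ j, n j ≤ M1 M * N ^ 2),
      (af (M * ∏ j, n j) : ℂ) * cx n β := by
  have hc := M1_pos hM
  have h2 : ∀ n ∈ (tup k Y).filter (fun n => IsSquare (M * ∏ j, n j) ∧ ∏ j, n j ≤ M1 M * N ^ 2),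
      Nat.sqrt ((∏ j, n j) / M1 M) ∈ Finset.Icc 1 N := by
    intro n hn
    obtain ⟨hn1, hn2, hn3⟩ := Finset.mem_filter.1 hn
    rw [mem_tup] at hn1
    have h3 : 1 ≤ ∏ j, n j := one_le_prod fun j => (hn1 j).1
    obtain ⟨m, hm, h4⟩ := (sq_iff hM h3).1 hn2
    rw [h4, sqrt_M1 hM, Finset.mem_Icc]
    refine ⟨hm, ?_⟩
    rw [h4] at hn3
    have h5 : m ^ 2 ≤ N ^ 2 := Nat.le_of_mul_le_mul_left hn3 (by omega)
    exact (Nat.pow_le_pow_iff_left two_ne_zero).1 h5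
  rw [← Finset.sum_fiberwise_of_maps_to h2]
  refine Finset.sum_congr rfl fun m hm => ?_
  obtain ⟨hm1, hm2⟩ := Finset.mem_Icc.1 hm
  have e1 : gM M β m = (af (M * m) : ℂ) * ∑ n ∈ Nat.finMulAntidiag k (M1 M * m ^ 2), cx n β := by
    unfold gM
    rw [ArithmeticFunction.coe_mk, if_neg (by omega)]
  rw [e1, Finset.mul_sum]
  refine Finset.sum_congr ?_ ?_
  · ext n
    rw [Nat.mem_finMulAntidiag, Finset.mem_filter, Finset.mem_filter, mem_tup]
    constructor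
    · rintro ⟨h1, h3⟩
      have h0 : ∀ j, 1 ≤ n j := by
        intro j
        rw [Nat.one_le_iff_ne_zero]
        intro h4
        apply h3
        rw [← h1]
        exact Finset.prod_eq_zero (Finset.mem_univ j) h4
      have hle : ∀ j, n j ≤ ∏ j, n j := fun j => Nat.le_of_dvd (Finset.prod_pos fun i _ => h0 i)
        (Finset.dvd_prod_of_mem _ (Finset.mem_univ j))
      have h5 : M1 M * m ^ 2 ≤ M1 M * N ^ 2 := Nat.mul_le_mul_left _ (Nat.pow_le_pow_left hm2 2)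
      refine ⟨⟨fun j => ⟨h0 j, ?_⟩, ?_, ?_⟩, ?_⟩
      · refine (hle j).trans ?_
        rw [h1]
        exact h5.trans hNY
      · rw [sq_iff hM (by rw [h1]; exact Nat.one_le_iff_ne_zero.2 h3)]
        exact ⟨m, hm1, h1⟩
      · rw [h1]; exact h5
      · rw [h1, sqrt_M1 hM]
    · rintro ⟨⟨h1, h3, h4⟩, h5⟩
      have h6 : 1 ≤ ∏ j, n j := one_le_prod fun j => (h1 j).1
      obtain ⟨m', hm', h7⟩ := (sq_iff hM h6).1 h3
      rw [h7, sqrt_M1 hM] at h5
      rw [← h5]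
      refine ⟨h7, ?_⟩
      rw [← h7]
      omega
  · intro n hn
    have h3 : ∏ j, n j = M1 M * m ^ 2 := by
      obtain ⟨h1, h2⟩ := Finset.mem_filter.1 hn
      obtain ⟨h4, h5, _⟩ := Finset.mem_filter.1 h1
      rw [mem_tup] at h4
      obtain ⟨m', hm', h7⟩ := (sq_iff hM (one_le_prod fun j => (h4 j).1)).1 h5
      rw [h7, sqrt_M1 hM] at h2
      rw [h7, h2]
    rw [h3, af_M1 hM hm1]

lemma box_eq {M N Y : ℕ} (hM : 1 ≤ M) (hNY : M1 M * N ^ 2 ≤ Y) (β : Fin k → ℝ) :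
    SM k M Y β - ∑ m ∈ Finset.Icc 1 N, gM M β m =
      ∑ n ∈ TBM k M Y N, (af (M * ∏ j, n j) : ℂ) * cx n β := by
  classical
  rw [GM_box hM hNY, sub_eq_iff_eq_add]
  unfold SM TBM
  rw [← Finset.sum_filter, ← Finset.sum_filter_add_sum_filter_not _ (fun n => M1 M * N ^ 2 < ∏ j, n j),
    Finset.filter_filter, Finset.filter_filter]
  congr 1
  refine Finset.sum_congr ?_ fun _ _ => rfl
  ext n
  simp

lemma sumsq'' (k : ℕ) {δ : ℝ} (hδ : 0 < δ) : ∃ C : ℝ, 0 < C ∧ ∀ M : ℕ, 1 ≤ M → ∀ L : ℕ,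
    ∑ n ∈ (tup k L).filter (fun n => IsSquare (M * ∏ j, n j)), PP n ^ (-(1 / 2 + δ) : ℝ) ≤ C := by
  classical
  obtain ⟨C, hC0, hC⟩ := div_pow k (δ / 4) (by positivity)
  have hs : Summable (fun m : ℕ => (m : ℝ) ^ (-(1 + δ) : ℝ)) :=
    Real.summable_nat_rpow.mpr (by linarith)
  refine ⟨C * (∑' m : ℕ, (m : ℝ) ^ (-(1 + δ) : ℝ)) + 1, ?_, fun M hM L => ?_⟩
  · have : 0 ≤ ∑' m : ℕ, (m : ℝ) ^ (-(1 + δ) : ℝ) := tsum_nonneg fun m => by positivity
    positivity
  have hc := M1_pos hM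
  have hc0 : (0 : ℝ) < M1 M := by exact_mod_cast hc
  have hc1 : (1 : ℝ) ≤ M1 M := by exact_mod_cast hc
  have h1 : ∑ n ∈ (tup k L).filter (fun n => IsSquare (M * ∏ j, n j)), PP n ^ (-(1 / 2 + δ) : ℝ) ≤
      ∑ m ∈ Finset.Icc 1 (L ^ k), ∑ n ∈ (tup k L).filter (fun n => ∏ j, n j = M1 M * m ^ 2),
        PP n ^ (-(1 / 2 + δ) : ℝ) := by
    have h2 : ∀ n ∈ (tup k L).filter (fun n => IsSquare (M * ∏ j, n j)),
        Nat.sqrt ((∏ j, n j) / M1 M) ∈ Finset.Icc 1 (L ^ k) := by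
      intro n hn
      rw [Finset.mem_filter] at hn
      obtain ⟨hn1, hn2⟩ := hn
      rw [mem_tup] at hn1
      have h3 : 1 ≤ ∏ j, n j := one_le_prod fun j => (hn1 j).1
      have h4 : ∏ j, n j ≤ L ^ k := by
        calc ∏ j, n j ≤ ∏ _j : Fin k, L := Finset.prod_le_prod' fun j _ => (hn1 j).2
          _ = L ^ k := by rw [Finset.prod_const, Finset.card_univ, Fintype.card_fin]
      obtain ⟨m, hm, h5⟩ := (sq_iff hM h3).1 hn2
      rw [Finset.mem_Icc]
      refine ⟨?_, ?_⟩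
      · rw [h5, sqrt_M1 hM]; exact hm
      · rw [h5, sqrt_M1 hM]
        rw [h5] at h4
        refine le_trans ?_ h4
        calc m ≤ m ^ 2 := Nat.le_self_pow two_ne_zero m
          _ ≤ M1 M * m ^ 2 := Nat.le_mul_of_pos_left _ hc
    rw [← Finset.sum_fiberwise_of_maps_to h2]
    refine Finset.sum_le_sum fun m hm => ?_
    refine Finset.sum_le_sum_of_subset_of_nonneg ?_ fun n _ _ => ?_
    · intro n hn
      rw [Finset.mem_filter, Finset.mem_filter] at hn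
      rw [Finset.mem_filter]
      refine ⟨hn.1.1, ?_⟩
      have h3 := hn.1.1
      rw [mem_tup] at h3
      obtain ⟨m', hm', h5⟩ := (sq_iff hM (one_le_prod fun j => (h3 j).1)).1 hn.1.2
      have h6 := hn.2
      rw [h5, sqrt_M1 hM] at h6
      rw [h5, h6]
    · unfold PP
      positivity
  refine h1.trans ?_
  have h3 : ∀ m ∈ Finset.Icc 1 (L ^ k), ∑ n ∈ (tup k L).filter (fun n => ∏ j, n j = M1 M * m ^ 2),
        PP n ^ (-(1 / 2 + δ) : ℝ) ≤ C * (m : ℝ) ^ (-(1 + δ) : ℝ) := by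
    intro m hm
    rw [Finset.mem_Icc] at hm
    have hm0 : (0 : ℝ) < m := by exact_mod_cast hm.1
    have hm1 : (1 : ℝ) ≤ m := by exact_mod_cast hm.1
    set Q : ℝ := (M1 M : ℝ) * (m : ℝ) ^ 2 with hQ
    have hQ0 : 0 < Q := by positivity
    have hQm : (m : ℝ) ^ 2 ≤ Q := by
      rw [hQ]
      nlinarith [sq_nonneg (m : ℝ)]
    have h4 : ∀ n ∈ (tup k L).filter (fun n => ∏ j, n j = M1 M * m ^ 2),
        PP n ^ (-(1 / 2 + δ) : ℝ) = Q ^ (-(1 / 2 + δ) : ℝ) := by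
      intro n hn
      rw [Finset.mem_filter] at hn
      unfold PP
      rw [hn.2]
      push_cast
      rfl
    rw [Finset.sum_congr rfl h4, Finset.sum_const, nsmul_eq_mul]
    have hpos : 1 ≤ M1 M * m ^ 2 := Nat.one_le_iff_ne_zero.2 (by
      have := hm.1
      positivity)
    have h5 : (((tup k L).filter (fun n => ∏ j, n j = M1 M * m ^ 2)).card : ℝ) ≤
        C * Q ^ (δ / 4 : ℝ) := by
      refine le_trans ?_ (by have := hC (M1 M * m ^ 2) hpos; push_cast at this; exact this)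
      exact_mod_cast card_fib k L (M1 M * m ^ 2) hpos
    calc (((tup k L).filter (fun n => ∏ j, n j = M1 M * m ^ 2)).card : ℝ) * Q ^ (-(1 / 2 + δ) : ℝ)
        ≤ C * Q ^ (δ / 4 : ℝ) * Q ^ (-(1 / 2 + δ) : ℝ) :=
          mul_le_mul_of_nonneg_right h5 (by positivity)
      _ = C * Q ^ (-(1 / 2 + 3 * δ / 4) : ℝ) := by
          rw [mul_assoc, ← Real.rpow_add hQ0]
          congr 2
          ring
      _ ≤ C * ((m : ℝ) ^ 2) ^ (-(1 / 2 + 3 * δ / 4) : ℝ) := by
          apply mul_le_mul_of_nonneg_left _ hC0.le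
          exact Real.rpow_le_rpow_of_nonpos (by positivity) hQm (by linarith)
      _ = C * (m : ℝ) ^ (-(1 + 3 * δ / 2) : ℝ) := by
          rw [← Real.rpow_natCast (m : ℝ) 2, ← Real.rpow_mul hm0.le]
          congr 2
          push_cast
          ring
      _ ≤ C * (m : ℝ) ^ (-(1 + δ) : ℝ) := by
          apply mul_le_mul_of_nonneg_left _ hC0.le
          exact Real.rpow_le_rpow_of_exponent_le hm1 (by linarith)
  refine (Finset.sum_le_sum h3).trans ?_
  rw [← Finset.mul_sum]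
  have h6 := hs.sum_le_tsum (Finset.Icc 1 (L ^ k)) (fun m _ => by positivity)
  have := mul_le_mul_of_nonneg_left h6 hC0.le
  linarith

/-- the mean square, with the factor `(M1 M)^(-1/2)` -/
theorem B3r : S_B3r := by
  intro k ε hε
  classical
  obtain ⟨C1, hC1, hMV⟩ := Pool.Agent.TH928.GS.t_MV
  set δ : ℝ := min (ε / 2) (1 / 2) with hδ
  have hδ0 : 0 < δ := lt_min (by positivity) (by norm_num)
  have hδ1 : δ ≤ ε / 2 := min_le_left _ _
  have hδ2 : δ ≤ 1 / 2 := min_le_right _ _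
  obtain ⟨C2, hC2, hS⟩ := sumsq'' k hδ0
  refine ⟨(2 * C1) ^ k * 2 ^ k * C2, by positivity, ?_⟩
  intro M N Y A hM hN hNY hYA
  have hc := M1_pos hM
  have hcr : (1 : ℝ) ≤ M1 M := by exact_mod_cast hc
  have hcr0 : (0 : ℝ) < M1 M := by linarith
  have hsq0 : 0 < Real.sqrt (M1 M) := Real.sqrt_pos.2 hcr0
  have hN1 : (1 : ℝ) ≤ N := by exact_mod_cast hN
  have hN0 : (0 : ℝ) < N := by linarith
  have hNY' : N ^ 2 ≤ Y := le_trans (Nat.le_mul_of_pos_left _ (by omega)) hNY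
  have hY1 : 1 ≤ Y := le_trans (Nat.one_le_pow _ _ hN) hNY'
  have hY1r : (1 : ℝ) ≤ Y := by exact_mod_cast hY1
  have hA : 1 ≤ A := hY1r.trans hYA
  have hA0 : 0 < A := by linarith
  set B : ℝ := (M1 M : ℝ) * (N : ℝ) ^ 2 with hB
  have hB0 : 0 < B := by positivity
  have hB1 : 1 ≤ B := by
    rw [hB]
    nlinarith [sq_nonneg ((N : ℝ) - 1), mul_le_mul hcr hN1 zero_le_one (by linarith : (0 : ℝ) ≤ M1 M)]
  have hBA : B ≤ A := by
    refine le_trans ?_ hYA
    rw [hB]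
    exact_mod_cast hNY
  have hmem : ∀ n ∈ TBM k M Y N, (∀ j, 1 ≤ n j ∧ n j ≤ Y) ∧ IsSquare (M * ∏ j, n j) ∧
      M1 M * N ^ 2 < ∏ j, n j := by
    intro n hn
    unfold TBM at hn
    rw [Finset.mem_filter, mem_tup] at hn
    exact hn
  have e1 : ∀ β : Fin k → ℝ, SM k M Y β - ∑ m ∈ Finset.Icc 1 N, gM M β m = ∑ n ∈ TBM k M Y N,
      ((af (M * ∏ j, n j) : ℂ) * ((PP n ^ (-(1 / 2) : ℝ) : ℝ) : ℂ)) * ∏ j, chs (n j) (β j) := by
    intro β
    rw [box_eq hM hNY]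
    refine Finset.sum_congr rfl fun n hn => ?_
    rw [cx_chs (fun j => ((hmem n hn).1 j).1), mul_assoc]
  simp_rw [e1]
  have hmv := wmv hC1 hMV hA k (TBM k M Y N) (fun n => n)
    (fun n => (af (M * ∏ j, n j) : ℂ) * ((PP n ^ (-(1 / 2) : ℝ) : ℝ) : ℂ)) 1
    (fun n hn j => ⟨((hmem n hn).1 j).1, by
      have h1 : (n j : ℝ) ≤ Y := by exact_mod_cast ((hmem n hn).1 j).2
      nlinarith⟩)
    (fun n hn => by
      refine Finset.card_le_one.2 fun a ha b hb => ?_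
      rw [(Finset.mem_filter.1 ha).2, (Finset.mem_filter.1 hb).2])
  refine hmv.trans (ENNReal.ofReal_le_ofReal ?_)
  rw [Nat.cast_one, one_mul]
  have hBh : B ^ (-(1 / 2) : ℝ) = (Real.sqrt (M1 M) * N)⁻¹ := by
    rw [Real.rpow_neg hB0.le, ← Real.sqrt_eq_rpow, hB, Real.sqrt_mul hcr0.le, Real.sqrt_sq hN0.le]
  have h1 : ∀ n ∈ TBM k M Y N, ‖(af (M * ∏ j, n j) : ℂ) * ((PP n ^ (-(1 / 2) : ℝ) : ℝ) : ℂ)‖ ^ 2 *
      ∏ i, (A + (n i : ℝ)) ≤ (2 * A) ^ k * (A ^ ε / (Real.sqrt (M1 M) * N)) * PP n ^ (-(1 / 2 + δ) : ℝ) := by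
    intro n hn
    obtain ⟨hm1, hm2, hm3⟩ := hmem n hn
    have hP := one_le_PP (fun j => (hm1 j).1)
    have hP0 : 0 < PP n := by linarith
    have h2 : ∏ i, (A + (n i : ℝ)) ≤ (2 * A) ^ k := by
      calc ∏ i, (A + (n i : ℝ)) ≤ ∏ _i : Fin k, (2 * A) := by
            refine Finset.prod_le_prod (fun i _ => by positivity) fun i _ => ?_
            have : (n i : ℝ) ≤ Y := by exact_mod_cast (hm1 i).2
            linarith
        _ = (2 * A) ^ k := by simp
    have h3 : ‖(af (M * ∏ j, n j) : ℂ) * ((PP n ^ (-(1 / 2) : ℝ) : ℝ) : ℂ)‖ ^ 2 ≤ PP n ^ (-1 : ℝ) := by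
      rw [norm_mul, Complex.norm_real, Complex.norm_real, Real.norm_of_nonneg (af_nonneg _),
        Real.norm_of_nonneg (by positivity), mul_pow, ← Real.rpow_natCast (PP n ^ _), ← Real.rpow_mul hP0.le]
      have h4 : af (M * ∏ j, n j) ^ 2 ≤ 1 := pow_le_one₀ (af_nonneg _) (af_le_one _)
      have e5 : (-(1 / 2) : ℝ) * ((2 : ℕ) : ℝ) = -1 := by norm_num
      rw [e5]
      calc af (M * ∏ j, n j) ^ 2 * PP n ^ (-1 : ℝ) ≤ 1 * PP n ^ (-1 : ℝ) :=
            mul_le_mul_of_nonneg_right h4 (by positivity)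
        _ = _ := one_mul _
    have h6 : PP n ^ (-1 : ℝ) ≤ (A ^ ε / (Real.sqrt (M1 M) * N)) * PP n ^ (-(1 / 2 + δ) : ℝ) := by
      have e6 : PP n ^ (-1 : ℝ) = PP n ^ (-(1 / 2 - δ) : ℝ) * PP n ^ (-(1 / 2 + δ) : ℝ) := by
        rw [← Real.rpow_add hP0]
        congr 1
        ring
      rw [e6]
      refine mul_le_mul_of_nonneg_right ?_ (by positivity)
      have h7 : B ≤ PP n := by
        unfold PP
        rw [hB]
        exact_mod_cast hm3.le
      calc PP n ^ (-(1 / 2 - δ) : ℝ) ≤ B ^ (-(1 / 2 - δ) : ℝ) :=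
            Real.rpow_le_rpow_of_nonpos hB0 h7 (by linarith)
        _ = B ^ δ * B ^ (-(1 / 2) : ℝ) := by
            rw [← Real.rpow_add hB0]
            congr 1
            ring
        _ ≤ A ^ ε * (Real.sqrt (M1 M) * N)⁻¹ := by
            rw [hBh]
            refine mul_le_mul_of_nonneg_right ?_ (by positivity)
            calc B ^ δ ≤ A ^ δ := Real.rpow_le_rpow hB0.le hBA hδ0.le
              _ ≤ A ^ ε := Real.rpow_le_rpow_of_exponent_le hA (by linarith)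
        _ = A ^ ε / (Real.sqrt (M1 M) * N) := by rw [div_eq_mul_inv]
    calc ‖(af (M * ∏ j, n j) : ℂ) * ((PP n ^ (-(1 / 2) : ℝ) : ℝ) : ℂ)‖ ^ 2 * ∏ i, (A + (n i : ℝ)) ≤
          ((A ^ ε / (Real.sqrt (M1 M) * N)) * PP n ^ (-(1 / 2 + δ) : ℝ)) * (2 * A) ^ k :=
          mul_le_mul (h3.trans h6) h2 (Finset.prod_nonneg fun _ _ => by positivity) (by positivity)
      _ = _ := by ring
  calc (2 * C1) ^ k * ∑ n ∈ TBM k M Y N, ‖(af (M * ∏ j, n j) : ℂ) * ((PP n ^ (-(1 / 2) : ℝ) : ℝ) : ℂ)‖ ^ 2 *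
        ∏ i, (A + (n i : ℝ)) ≤
        (2 * C1) ^ k * ∑ n ∈ TBM k M Y N,
          (2 * A) ^ k * (A ^ ε / (Real.sqrt (M1 M) * N)) * PP n ^ (-(1 / 2 + δ) : ℝ) :=
        mul_le_mul_of_nonneg_left (Finset.sum_le_sum h1) (by positivity)
    _ = (2 * C1) ^ k * ((2 * A) ^ k * (A ^ ε / (Real.sqrt (M1 M) * N))) *
          ∑ n ∈ TBM k M Y N, PP n ^ (-(1 / 2 + δ) : ℝ) := by
        rw [← Finset.mul_sum]
        ring
    _ ≤ (2 * C1) ^ k * ((2 * A) ^ k * (A ^ ε / (Real.sqrt (M1 M) * N))) * C2 := by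
        refine mul_le_mul_of_nonneg_left (le_trans ?_ (hS M hM Y)) (by positivity)
        refine Finset.sum_le_sum_of_subset_of_nonneg ?_ fun n _ _ => by unfold PP; positivity
        intro n hn
        obtain ⟨hm1, hm2, hm3⟩ := hmem n hn
        rw [Finset.mem_filter, mem_tup]
        exact ⟨hm1, hm2⟩
    _ = (2 * C1) ^ k * 2 ^ k * C2 * A ^ k * A ^ ε / (Real.sqrt (M1 M) * N) := by
        rw [mul_pow 2 A]
        ring

end

end Pool.Agent.H389.MDB3r
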