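import Pool.Agent.H681.MD.Asm1
import Pool.Agent.H681.MD.B1r
import Pool.Agent.H681.MD.B2
import Pool.Agent.H681.MD.B3r

set_option autoImplicit false

/-!
Project MD: the assembly, second part: the mean square of the error term, summed over the twists.
-/

namespace Pool.Agent.H681.MD

open MeasureTheory Set Filter Complex Topology
open Pool.Agent.Y752.QF
open Pool.Agent.Y532.QF
open scoped ENNReal

noncomputable section

variable {k : ℕ}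

lemma TT_meas {M : ℕ} (hM : 1 ≤ M) : Measurable fun γ : Fin k → ℝ => TT M γ :=
  meas_MTM Pool.Agent.H686.MD.B2 hM

lemma WE_add' {Z : ℕ} {μ : Measure (Fin k → ℝ)} {G1 G2 G : ℕ → (Fin k → ℝ) → ℂ} {a b : ℝ}
    (ha : 0 ≤ a) (hb : 0 ≤ b) (h1 : ∀ M, 1 ≤ M → Measurable (G1 M)) (h : ∀ M γ, G M γ = G1 M γ + G2 M γ)
    (e1 : WE Z μ G1 ≤ ENNReal.ofReal a) (e2 : WE Z μ G2 ≤ ENNReal.ofReal b) :
    WE Z μ G ≤ ENNReal.ofReal (2 * a + 2 * b) := by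
  refine (WE_add h1 h).trans ?_
  rw [ENNReal.ofReal_add (by positivity) (by positivity), ENNReal.ofReal_mul (by norm_num),
    ENNReal.ofReal_mul (by norm_num)]
  have h2 : ENNReal.ofReal 2 = 2 := by norm_num
  rw [h2]
  exact add_le_add (mul_le_mul_right e1 _) (mul_le_mul_right e2 _)

lemma WE_smul' {Z : ℕ} {μ : Measure (Fin k → ℝ)} (c : ℂ) {G : ℕ → (Fin k → ℝ) → ℂ} {a : ℝ}
    (e1 : WE Z μ G ≤ ENNReal.ofReal a) : WE Z μ (fun M γ => c * G M γ) ≤ ENNReal.ofReal (‖c‖ ^ 2 * a) := by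
  rw [WE_smul, ENNReal.ofReal_mul (by positivity)]
  exact mul_le_mul_right e1 _

lemma pi_bd : 3 / Real.pi ^ 2 ≤ 1 := by
  rw [div_le_one (by positivity)]
  nlinarith [Real.pi_gt_three]

/-- long sums -/
theorem L2 (k : ℕ) (hk : 1 ≤ k) {η A ε κ : ℝ} (hη : 0 < η) (hA : 2 ≤ A) (hε : 0 < ε) (hκ : 0 < κ) :
    ∃ (C X0 : ℝ), 0 < C ∧ 1 ≤ X0 ∧ ∀ (b : Bool) (X n : ℕ) (H : ℝ), X0 ≤ X → (X : ℝ) ^ κ ≤ n → n ≤ X →
    (X : ℝ) ^ (1 + η) ≤ H → H ≤ (X : ℝ) ^ A →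
    WE X (mg k H) (fun M γ => Sm b n M γ - (3 / Real.pi ^ 2 * n : ℝ) * TT M γ) ≤
      ENNReal.ofReal (C * n * (X : ℝ) ^ ε * (1 + (X : ℝ) ^ 2 / H) * H ^ k) := by
  have hη0 : 0 < ε / (4 * (A + 2)) := by positivity
  obtain ⟨C1, X1, hC1, h1⟩ := sqO' k hk η (A / κ) (ε / 4) hη (by positivity)
  obtain ⟨C2, hC2, h2⟩ := sqPs k (A / κ) (ε / 4) (by positivity)
  obtain ⟨C3, A₀, hC3, hA₀, h3⟩ := mtE Pool.Agent.H405.MD.B1r Pool.Agent.H686.MD.B2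
    Pool.Agent.H389.MDB3r.B3r k hη0
  obtain ⟨C4, hC4, h4⟩ := lgp (ε := ε / 4) (by positivity)
  obtain ⟨X2, hX2⟩ : ∃ X2 : ℝ, ∀ X : ℝ, X2 ≤ X → (X1 : ℝ) ≤ X ^ κ := by
    obtain ⟨X2, h5⟩ := ((tendsto_rpow_atTop hκ).eventually_ge_atTop (X1 : ℝ)).exists_forall_of_atTop
    exact ⟨X2, h5⟩
  refine ⟨2 * (C4 * C1) + 4 * C2 + 4 * (C4 * C3), max (max X2 A₀) 1, by positivity, le_max_right _ _, ?_⟩
  intro b X n H hX hXn hnX hH1 hH2
  have hXr : (1 : ℝ) ≤ X := (le_max_right _ _).trans hX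
  have hX1 : 1 ≤ X := by exact_mod_cast hXr
  have hX0 : (0 : ℝ) < X := by linarith
  have hXA : A₀ ≤ (X : ℝ) := (le_max_right _ _).trans ((le_max_left _ _).trans hX)
  have hX1n : X1 ≤ n := by
    have := (hX2 X ((le_max_left _ _).trans ((le_max_left _ _).trans hX))).trans hXn
    exact_mod_cast this
  have hn1r : (1 : ℝ) ≤ n := (Real.one_le_rpow hXr hκ.le).trans hXn
  have hn1 : 1 ≤ n := by exact_mod_cast hn1r
  have hn0 : (0 : ℝ) < n := by linarith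
  have hnXr : (n : ℝ) ≤ X := by exact_mod_cast hnX
  have hH1' : (n : ℝ) ^ (1 + η) ≤ H := (Real.rpow_le_rpow hn0.le hnXr (by linarith)).trans hH1
  have hXH : (X : ℝ) ≤ H := by
    refine le_trans ?_ hH1
    calc (X : ℝ) = (X : ℝ) ^ (1 : ℝ) := (Real.rpow_one _).symm
      _ ≤ (X : ℝ) ^ (1 + η) := Real.rpow_le_rpow_of_exponent_le hXr (by linarith)
  have hHr : 1 ≤ H := hXr.trans hXH
  have hH0 : 0 < H := by linarith
  have hXAn : (X : ℝ) ^ A ≤ (n : ℝ) ^ (A / κ) := by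
    have e1 : (X : ℝ) ^ A = ((X : ℝ) ^ κ) ^ (A / κ) := by
      rw [← Real.rpow_mul hX0.le]
      congr 1
      field_simp
    rw [e1]
    exact Real.rpow_le_rpow (by positivity) hXn (by positivity)
  have hH2' : H ≤ (n : ℝ) ^ (A / κ) := hH2.trans hXAn
  have hnε : (n : ℝ) ^ (ε / 4) ≤ (X : ℝ) ^ (ε / 4) := Real.rpow_le_rpow hn0.le hnXr (by positivity)
  have hX2A : (X : ℝ) ≤ (X : ℝ) ^ A := by
    calc (X : ℝ) = (X : ℝ) ^ (1 : ℝ) := (Real.rpow_one _).symm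
      _ ≤ (X : ℝ) ^ A := Real.rpow_le_rpow_of_exponent_le hXr (by linarith)
  obtain ⟨Y, hY⟩ : ∃ Y : ℕ, Y = ⌊H⌋₊ := ⟨_, rfl⟩
  have hYH : (Y : ℝ) ≤ H := by rw [hY]; exact Nat.floor_le hH0.le
  have hY1 : 1 ≤ Y := by rw [hY]; exact Nat.le_floor (by simpa using hHr)
  have hXe : (X : ℝ) ^ (ε / 4) * (X : ℝ) ^ (ε / 4) ≤ (X : ℝ) ^ ε := by
    rw [← Real.rpow_add hX0]
    exact Real.rpow_le_rpow_of_exponent_le hXr (by linarith)
  have hXe' : (X : ℝ) ^ (ε / 4) ≤ (X : ℝ) ^ ε := Real.rpow_le_rpow_of_exponent_le hXr (by linarith)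
  obtain ⟨D, hD⟩ : ∃ D : ℝ, D = 1 + (X : ℝ) ^ 2 / H := ⟨_, rfl⟩
  rw [← hD]
  have hD1 : 1 ≤ D := by
    have : 0 ≤ (X : ℝ) ^ 2 / H := by positivity
    linarith
  have hnD : 1 + (n : ℝ) ^ 2 / H ≤ D := by
    rw [hD]
    gcongr
  -- first part
  have w1 : WE X (mg k H) (fun M γ => ∑ p ∈ QFs b n, cv p M * (aL p γ - aP Y p γ)) ≤
      ENNReal.ofReal (C4 * C1 * n * (X : ℝ) ^ ε * D * H ^ k) := by
    refine (WE_mono (mg_le H) _).trans ?_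
    refine (WE_le (K := C1 * (X : ℝ) ^ (ε / 4) * D * H ^ k * n) (by positivity) (fun M _ _ => ?_)).trans
      (ENNReal.ofReal_le_ofReal ?_)
    · have g1 := h1 b n H hX1n hH1' hH2' (fun p => cv p M)
      rw [← hY] at g1
      refine g1.trans (ENNReal.ofReal_le_ofReal ?_)
      have g2 : ∑ p ∈ QFs b n, ‖cv p M‖ ^ 2 ≤ n := by
        calc ∑ p ∈ QFs b n, ‖cv p M‖ ^ 2 ≤ ∑ _p ∈ QFs b n, (1 : ℝ) :=
              Finset.sum_le_sum fun p _ => pow_le_one₀ (norm_nonneg _) (cv_le p M)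
          _ = ((QFs b n).card : ℝ) := by simp
          _ ≤ n := by exact_mod_cast card_QFs Pool.Agent.Y845.QF.IN b n
      gcongr
    · calc (1 + Real.log (X : ℝ)) * (C1 * (X : ℝ) ^ (ε / 4) * D * H ^ k * n) ≤
            (C4 * (X : ℝ) ^ (ε / 4)) * (C1 * (X : ℝ) ^ (ε / 4) * D * H ^ k * n) :=
            mul_le_mul_of_nonneg_right (h4 X hX1) (by positivity)
        _ = C4 * C1 * n * ((X : ℝ) ^ (ε / 4) * (X : ℝ) ^ (ε / 4)) * D * H ^ k := by ring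
        _ ≤ _ := by gcongr
  -- second part
  have w2 : WE X (mg k H) (fun M γ => ∑ p ∈ QFs b n, cv p M * aP Y p γ -
      (3 / Real.pi ^ 2 * n : ℝ) * DM k M Y γ) ≤ ENNReal.ofReal (C2 * n * (X : ℝ) ^ ε * D * H ^ k) := by
    refine (WE_mono (mg_le H) _).trans ((h2 b n Y X H hn1 hY1 hYH (hYH.trans hH2') hX1
      (hX2A.trans hXAn)).trans (ENNReal.ofReal_le_ofReal ?_))
    rw [Real.rpow_add hn0, Real.rpow_one]
    calc C2 * ((n : ℝ) * (n : ℝ) ^ (ε / 4)) * H ^ k ≤ C2 * ((n : ℝ) * (X : ℝ) ^ ε) * H ^ k := by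
          gcongr
          exact hnε.trans hXe'
      _ ≤ C2 * ((n : ℝ) * (X : ℝ) ^ ε) * H ^ k * D := le_mul_of_one_le_right (by positivity) hD1
      _ = _ := by ring
  -- third part
  have w3 : WE X (mg k H) (fun M γ => ((3 / Real.pi ^ 2 * n : ℝ) : ℂ) * (DM k M Y γ - TT M γ)) ≤
      ENNReal.ofReal (C4 * C3 * n * (X : ℝ) ^ ε * D * H ^ k) := by
    have g1 := h3 X H hX1 hXH (hXA.trans hXH)
    rw [← hY] at g1
    refine (WE_smul' _ g1).trans (ENNReal.ofReal_le_ofReal ?_)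
    have g2 : ‖((3 / Real.pi ^ 2 * n : ℝ) : ℂ)‖ ^ 2 ≤ (n : ℝ) ^ 2 := by
      rw [Complex.norm_real, Real.norm_of_nonneg (by positivity)]
      refine pow_le_pow_left₀ (by positivity) ?_ 2
      have := pi_bd
      nlinarith
    have g3 : H ^ (ε / (4 * (A + 2)) - 1 / 2) ≤ (X : ℝ) ^ (A * (ε / (4 * (A + 2)))) * (Real.sqrt H)⁻¹ := by
      rw [Real.rpow_sub hH0, div_eq_mul_inv, ← Real.sqrt_eq_rpow]
      refine mul_le_mul_of_nonneg_right ?_ (by positivity)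
      rw [Real.rpow_mul hX0.le]
      exact Real.rpow_le_rpow hH0.le hH2 hη0.le
    have g4 : (X : ℝ) ^ (ε / (4 * (A + 2))) ≤ (X : ℝ) ^ (2 * (ε / (4 * (A + 2)))) :=
      Real.rpow_le_rpow_of_exponent_le hXr (by linarith)
    have g5 : (X : ℝ) ^ (2 * (ε / (4 * (A + 2)))) * (X : ℝ) ^ (A * (ε / (4 * (A + 2)))) = (X : ℝ) ^ (ε / 4) := by
      rw [← Real.rpow_add hX0]
      congr 1
      field_simp
      ring
    have g6 : (n : ℝ) ^ 2 * (Real.sqrt H)⁻¹ ≤ n * D := by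
      have hsH : 0 < Real.sqrt H := Real.sqrt_pos.2 hH0
      have e1 : (X : ℝ) / Real.sqrt H ≤ D := by
        rw [hD]
        have e2 : (X : ℝ) ^ 2 / H = ((X : ℝ) / Real.sqrt H) ^ 2 := by
          rw [_root_.div_pow, Real.sq_sqrt hH0.le]
        rw [e2]
        nlinarith [sq_nonneg ((X : ℝ) / Real.sqrt H - 1)]
      calc (n : ℝ) ^ 2 * (Real.sqrt H)⁻¹ = n * (n / Real.sqrt H) := by
            rw [div_eq_mul_inv]
            ring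
        _ ≤ n * (X / Real.sqrt H) := by gcongr
        _ ≤ n * D := mul_le_mul_of_nonneg_left e1 hn0.le
    calc ‖((3 / Real.pi ^ 2 * n : ℝ) : ℂ)‖ ^ 2 * ((1 + Real.log (X : ℝ)) *
          (C3 * (X : ℝ) ^ (ε / (4 * (A + 2))) * H ^ k * H ^ (ε / (4 * (A + 2)) - 1 / 2)))
        ≤ (n : ℝ) ^ 2 * ((C4 * (X : ℝ) ^ (ε / 4)) *
          (C3 * (X : ℝ) ^ (2 * (ε / (4 * (A + 2)))) * H ^ k *
            ((X : ℝ) ^ (A * (ε / (4 * (A + 2)))) * (Real.sqrt H)⁻¹))) := by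
          have g7 := h4 X hX1
          have g8 : 0 ≤ 1 + Real.log (X : ℝ) := by
            have : 0 ≤ Real.log (X : ℝ) := Real.log_natCast_nonneg _
            linarith
          gcongr
      _ = C4 * C3 * ((n : ℝ) ^ 2 * (Real.sqrt H)⁻¹) * ((X : ℝ) ^ (ε / 4) *
          ((X : ℝ) ^ (2 * (ε / (4 * (A + 2)))) * (X : ℝ) ^ (A * (ε / (4 * (A + 2)))))) * H ^ k := by ring
      _ = C4 * C3 * ((n : ℝ) ^ 2 * (Real.sqrt H)⁻¹) * ((X : ℝ) ^ (ε / 4) * (X : ℝ) ^ (ε / 4)) * H ^ k := by rw [g5]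
      _ ≤ C4 * C3 * (n * D) * (X : ℝ) ^ ε * H ^ k := by gcongr
      _ = _ := by ring
  have w23 := WE_add' (Z := X) (μ := mg k H)
    (G := fun M γ => (∑ p ∈ QFs b n, cv p M * aP Y p γ - (3 / Real.pi ^ 2 * n : ℝ) * DM k M Y γ) +
      ((3 / Real.pi ^ 2 * n : ℝ) : ℂ) * (DM k M Y γ - TT M γ))
    (by positivity) (by positivity)
    (fun M _ => ((continuous_finsetSum _ fun p _ => continuous_const.mul (aP_cont Y p)).sub
      (continuous_const.mul (DM_cont M Y))).measurable) (fun M γ => rfl) w2 w3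
  have w := WE_add' (Z := X) (μ := mg k H)
    (G := fun M γ => Sm b n M γ - (3 / Real.pi ^ 2 * n : ℝ) * TT M γ)
    (G1 := fun M γ => ∑ p ∈ QFs b n, cv p M * (aL p γ - aP Y p γ))
    (by positivity) (by positivity)
    (fun M _ => (continuous_finsetSum _ fun p hp => continuous_const.mul
      ((aL_cont hp).sub (aP_cont Y p))).measurable) (fun M γ => by
      unfold Sm
      have : ∑ p ∈ QFs b n, cv p M * (aL p γ - aP Y p γ) =
          ∑ p ∈ QFs b n, cv p M * aL p γ - ∑ p ∈ QFs b n, cv p M * aP Y p γ := by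
        rw [← Finset.sum_sub_distrib]
        exact Finset.sum_congr rfl fun p _ => by ring
      rw [this]
      ring) w1 w23
  refine w.trans (ENNReal.ofReal_le_ofReal (le_of_eq ?_))
  ring

/-- the main term -/
theorem L3 (k : ℕ) (hk : 1 ≤ k) {η A ε : ℝ} (hη : 0 < η) (hA : 2 ≤ A) (hε : 0 < ε) :
    ∃ (C X0 : ℝ), 0 < C ∧ 1 ≤ X0 ∧ ∀ (X : ℕ) (H : ℝ), X0 ≤ X →
    (X : ℝ) ^ (1 + η) ≤ H → H ≤ (X : ℝ) ^ A →
    WE X (mg k H) (fun M γ => TT M γ) ≤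
      ENNReal.ofReal (C * (X : ℝ) ^ ε * (1 + (X : ℝ) ^ 2 / H) * H ^ k) := by
  obtain ⟨C1, X1, hC1, hX1, h1⟩ := L2 k hk hη hA hε one_pos
  obtain ⟨C2, X2, hC2, hX2, h2⟩ := SmB k hk hη A hε
  refine ⟨(Real.pi ^ 2 / 3) ^ 2 * (2 * C2 + 2 * C1), max X1 X2, by positivity,
    hX1.trans (le_max_left _ _), ?_⟩
  intro X H hX hH1 hH2
  have hXr : (1 : ℝ) ≤ X := hX1.trans ((le_max_left _ _).trans hX)
  have hX0 : (0 : ℝ) < X := by linarith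
  have hH0 : 0 < H := lt_of_lt_of_le (by positivity) hH1
  have hX2n : X2 ≤ X := by exact_mod_cast (le_max_right _ _).trans hX
  have w1 := h1 false X X H ((le_max_left _ _).trans hX) (by rw [Real.rpow_one]) le_rfl hH1 hH2
  have w2 := (WE_mono (mg_le H) _).trans (h2 false X X H hX2n le_rfl hH1 hH2)
  have w3 := WE_smul' (-1) w1
  have w4 := WE_add' (Z := X) (μ := mg k H) (G := fun M γ => ((3 / Real.pi ^ 2 * X : ℝ) : ℂ) * TT M γ)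
    (by positivity) (by positivity) (fun M _ => (Sm_cont false X M).measurable) (fun M γ => by ring) w2 w3
  have w5 := WE_smul' (((3 / Real.pi ^ 2 * X : ℝ) : ℂ)⁻¹) w4
  have hc : ((3 / Real.pi ^ 2 * X : ℝ) : ℂ) ≠ 0 := by
    have : (0 : ℝ) < 3 / Real.pi ^ 2 * X := by positivity
    exact_mod_cast this.ne'
  have e1 : (fun (M : ℕ) (γ : Fin k → ℝ) => (((3 / Real.pi ^ 2 * X : ℝ) : ℂ)⁻¹) *
      (((3 / Real.pi ^ 2 * X : ℝ) : ℂ) * TT M γ)) = fun M γ => TT M γ := by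
    funext M γ
    rw [← mul_assoc, inv_mul_cancel₀ hc, one_mul]
  rw [e1] at w5
  refine w5.trans (ENNReal.ofReal_le_ofReal ?_)
  rw [norm_inv, Complex.norm_real, Real.norm_of_nonneg (by positivity), norm_neg, norm_one]
  have e2 : ((3 / Real.pi ^ 2 * X : ℝ)⁻¹) ^ 2 = (Real.pi ^ 2 / 3) ^ 2 * ((X : ℝ)⁻¹) ^ 2 := by
    rw [mul_inv, inv_div, mul_pow]
  rw [e2]
  obtain ⟨D, hD⟩ : ∃ D : ℝ, D = 1 + (X : ℝ) ^ 2 / H := ⟨_, rfl⟩
  rw [← hD]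
  have hD0 : 0 < D := by rw [hD]; positivity
  have e3 : 2 * (C2 * (X : ℝ) ^ 2 * (X : ℝ) ^ ε * D * H ^ k) + 2 * (1 ^ 2 * (C1 * X * (X : ℝ) ^ ε * D * H ^ k)) ≤
      (X : ℝ) ^ 2 * ((2 * C2 + 2 * C1) * (X : ℝ) ^ ε * D * H ^ k) := by
    have e4 : (X : ℝ) ≤ (X : ℝ) ^ 2 := by nlinarith
    have e5 : C1 * X * (X : ℝ) ^ ε * D * H ^ k ≤ C1 * (X : ℝ) ^ 2 * (X : ℝ) ^ ε * D * H ^ k := by gcongr
    linarith
  calc (Real.pi ^ 2 / 3) ^ 2 * ((X : ℝ)⁻¹) ^ 2 * (2 * (C2 * (X : ℝ) ^ 2 * (X : ℝ) ^ ε * D * H ^ k) +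
        2 * (1 ^ 2 * (C1 * X * (X : ℝ) ^ ε * D * H ^ k))) ≤
        (Real.pi ^ 2 / 3) ^ 2 * ((X : ℝ)⁻¹) ^ 2 * ((X : ℝ) ^ 2 * ((2 * C2 + 2 * C1) * (X : ℝ) ^ ε * D * H ^ k)) :=
        mul_le_mul_of_nonneg_left e3 (by positivity)
    _ = _ := by
        field_simp

/-- all partial sums -/
theorem L4 (k : ℕ) (hk : 1 ≤ k) {η A ε : ℝ} (hη : 0 < η) (hA : 2 ≤ A) (hε : 0 < ε) :
    ∃ (C X0 : ℝ), 0 < C ∧ 1 ≤ X0 ∧ ∀ (b : Bool) (X n : ℕ) (H : ℝ), X0 ≤ X → n ≤ X →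
    (X : ℝ) ^ (1 + η) ≤ H → H ≤ (X : ℝ) ^ A →
    WE X (mg k H) (fun M γ => Sm b n M γ - (3 / Real.pi ^ 2 * n : ℝ) * TT M γ) ≤
      ENNReal.ofReal (C * n * (X : ℝ) ^ ε * (1 + (X : ℝ) ^ 2 / H) * H ^ k) := by
  obtain ⟨C1, X1, hC1, hX1, h1⟩ := L2 k hk (κ := ε / 2) hη hA hε (by positivity)
  obtain ⟨C2, X2, hC2, hX2, h2⟩ := SmB k hk hη A (half_pos hε)
  obtain ⟨C3, X3, hC3, hX3, h3⟩ := L3 k hk hη hA (half_pos hε)
  refine ⟨C1 + (2 * C2 + 2 * C3), max (max X1 X2) X3, by positivity,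
    hX1.trans ((le_max_left _ _).trans (le_max_left _ _)), ?_⟩
  intro b X n H hX hnX hH1 hH2
  have hX1' : X1 ≤ X := (le_max_left _ _).trans ((le_max_left _ _).trans hX)
  have hX2' : X2 ≤ X := by exact_mod_cast (le_max_right _ _).trans ((le_max_left _ _).trans hX)
  have hX3' : X3 ≤ X := (le_max_right _ _).trans hX
  have hXr : (1 : ℝ) ≤ X := hX1.trans hX1'
  have hX0 : (0 : ℝ) < X := by linarith
  have hH0 : 0 < H := lt_of_lt_of_le (by positivity) hH1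
  have hn0 : (0 : ℝ) ≤ n := Nat.cast_nonneg n
  have hX20 : (0 : ℝ) ≤ (X2 : ℝ) := Nat.cast_nonneg _
  obtain ⟨D, hD⟩ : ∃ D : ℝ, D = 1 + (X : ℝ) ^ 2 / H := ⟨_, rfl⟩
  have hD0 : 0 < D := by rw [hD]; positivity
  rcases le_or_gt ((X : ℝ) ^ (ε / 2)) n with h | h
  · refine (h1 b X n H hX1' h hnX hH1 hH2).trans (ENNReal.ofReal_le_ofReal ?_)
    rw [← hD]
    have e0 : 0 ≤ (2 * C2 + 2 * C3) * n * (X : ℝ) ^ ε * D * H ^ k := by positivity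
    calc C1 * n * (X : ℝ) ^ ε * D * H ^ k ≤ C1 * n * (X : ℝ) ^ ε * D * H ^ k +
          (2 * C2 + 2 * C3) * n * (X : ℝ) ^ ε * D * H ^ k := by linarith
      _ = _ := by ring
  · have w2 := (WE_mono (mg_le H) _).trans (h2 b X n H hX2' hnX hH1 hH2)
    have w3 := WE_smul' (-((3 / Real.pi ^ 2 * n : ℝ) : ℂ)) (h3 X H hX3' hH1 hH2)
    have w4 := WE_add' (Z := X) (μ := mg k H)
      (G := fun M γ => Sm b n M γ - (3 / Real.pi ^ 2 * n : ℝ) * TT M γ)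
      (by positivity) (by positivity) (fun M _ => (Sm_cont b n M).measurable) (fun M γ => by ring) w2 w3
    refine w4.trans (ENNReal.ofReal_le_ofReal ?_)
    rw [← hD]
    have g2 : ‖-((3 / Real.pi ^ 2 * n : ℝ) : ℂ)‖ ^ 2 ≤ (n : ℝ) ^ 2 := by
      rw [norm_neg, Complex.norm_real, Real.norm_of_nonneg (by positivity)]
      refine pow_le_pow_left₀ (by positivity) ?_ 2
      have := pi_bd
      nlinarith
    have e3 : (X : ℝ) ^ ε = (X : ℝ) ^ (ε / 2) * (X : ℝ) ^ (ε / 2) := by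
      rw [← Real.rpow_add hX0]
      congr 1
      ring
    have e4 : (n : ℝ) ^ 2 ≤ n * (X : ℝ) ^ (ε / 2) := by nlinarith
    calc 2 * (C2 * (n : ℝ) ^ 2 * (X : ℝ) ^ (ε / 2) * D * H ^ k) +
          2 * (‖-((3 / Real.pi ^ 2 * n : ℝ) : ℂ)‖ ^ 2 * (C3 * (X : ℝ) ^ (ε / 2) * D * H ^ k)) ≤
          2 * (C2 * (n * (X : ℝ) ^ (ε / 2)) * (X : ℝ) ^ (ε / 2) * D * H ^ k) +
          2 * ((n * (X : ℝ) ^ (ε / 2)) * (C3 * (X : ℝ) ^ (ε / 2) * D * H ^ k)) := by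
          have g3 := g2.trans e4
          gcongr
      _ = (2 * C2 + 2 * C3) * n * (X : ℝ) ^ ε * D * H ^ k := by
          rw [e3]
          ring
      _ ≤ _ := by
          have e0 : 0 ≤ C1 * n * (X : ℝ) ^ ε * D * H ^ k := by positivity
          nlinarith

/-- the error term: `|d| < n` -/
def GG (b : Bool) (n M : ℕ) (γ : Fin k → ℝ) : ℂ := Sm b (n - 1) M γ - (3 / Real.pi ^ 2 * n : ℝ) * TT M γ

lemma GG_meas (b : Bool) (n : ℕ) {M : ℕ} (hM : 1 ≤ M) : Measurable fun γ : Fin k → ℝ => GG b n M γ :=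
  (Sm_cont b (n - 1) M).measurable.sub (measurable_const.mul (TT_meas hM))

/-- the mean square of the error term -/
theorem L5 (k : ℕ) (hk : 1 ≤ k) {η A ε : ℝ} (hη : 0 < η) (hA : 2 ≤ A) (hε : 0 < ε) :
    ∃ (C X0 : ℝ), 0 < C ∧ 1 ≤ X0 ∧ ∀ (b : Bool) (X n : ℕ) (H : ℝ), X0 ≤ X → 1 ≤ n → n ≤ X →
    (X : ℝ) ^ (1 + η) ≤ H → H ≤ (X : ℝ) ^ A →
    WE X (mg k H) (fun M γ => GG b n M γ) ≤
      ENNReal.ofReal (C * n * (X : ℝ) ^ ε * (1 + (X : ℝ) ^ 2 / H) * H ^ k) := by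
  obtain ⟨C1, X1, hC1, hX1, h1⟩ := L4 k hk hη hA hε
  obtain ⟨C3, X3, hC3, hX3, h3⟩ := L3 k hk hη hA hε
  refine ⟨2 * C1 + 2 * C3, max X1 X3, by positivity, hX1.trans (le_max_left _ _), ?_⟩
  intro b X n H hX hn hnX hH1 hH2
  have hX1' : X1 ≤ X := (le_max_left _ _).trans hX
  have hX3' : X3 ≤ X := (le_max_right _ _).trans hX
  have hXr : (1 : ℝ) ≤ X := hX1.trans hX1'
  have hX0 : (0 : ℝ) < X := by linarith
  have hH0 : 0 < H := lt_of_lt_of_le (by positivity) hH1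
  have hn1 : (1 : ℝ) ≤ n := by exact_mod_cast hn
  have hc : ((n - 1 : ℕ) : ℝ) = n - 1 := by push_cast [Nat.cast_sub hn]; ring
  have w1 := h1 b X (n - 1) H hX1' (by omega) hH1 hH2
  have w3 := WE_smul' (-((3 / Real.pi ^ 2 : ℝ) : ℂ)) (h3 X H hX3' hH1 hH2)
  have w4 := WE_add' (Z := X) (μ := mg k H) (G := fun M γ => GG b n M γ)
      (G1 := fun M γ => Sm b (n - 1) M γ - (3 / Real.pi ^ 2 * (n - 1 : ℕ) : ℝ) * TT M γ)
      (by positivity) (by positivity)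
      (fun M hM => (Sm_cont b (n - 1) M).measurable.sub (measurable_const.mul (TT_meas hM)))
      (fun M γ => by
        unfold GG
        rw [hc]
        push_cast
        ring) w1 w3
  refine w4.trans (ENNReal.ofReal_le_ofReal ?_)
  obtain ⟨D, hD⟩ : ∃ D : ℝ, D = 1 + (X : ℝ) ^ 2 / H := ⟨_, rfl⟩
  rw [← hD]
  have hD0 : 0 < D := by rw [hD]; positivity
  have g2 : ‖-((3 / Real.pi ^ 2 : ℝ) : ℂ)‖ ^ 2 ≤ 1 := by
    rw [norm_neg, Complex.norm_real, Real.norm_of_nonneg (by positivity)]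
    exact pow_le_one₀ (by positivity) pi_bd
  have hc2 : ((n - 1 : ℕ) : ℝ) ≤ n := by rw [hc]; linarith
  calc 2 * (C1 * ((n - 1 : ℕ) : ℝ) * (X : ℝ) ^ ε * D * H ^ k) +
        2 * (‖-((3 / Real.pi ^ 2 : ℝ) : ℂ)‖ ^ 2 * (C3 * (X : ℝ) ^ ε * D * H ^ k)) ≤
        2 * (C1 * n * (X : ℝ) ^ ε * D * H ^ k) + 2 * (n * (C3 * (X : ℝ) ^ ε * D * H ^ k)) := by
        have g3 := g2.trans hn1
        gcongr
    _ = _ := by ring

end

end Pool.Agent.H681.MD
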