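import Pool.Agent.H681.MD.Asm2

set_option autoImplicit false

/-!
Project MD: the assembly, third part: outside of a small set.
-/

namespace Pool.Agent.H681.MD

open MeasureTheory Set Filter Complex Topology
open Pool.Agent.Y752.QF
open Pool.Agent.Y532.QF
open scoped ENNReal

noncomputable section

variable {k : ℕ}

/-- the weights -/
def wt (X Y n : ℕ) : ℝ := ((n : ℝ) ^ 2)⁻¹ + (if n = X then (X : ℝ)⁻¹ else 0) + (if n = Y then (Y : ℝ)⁻¹ else 0)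

lemma wt_nonneg (X Y n : ℕ) : 0 ≤ wt X Y n := by
  unfold wt
  split_ifs <;> positivity

/-- the quadratic functional of the error terms -/
def SS (b : Bool) (X Y : ℕ) (γ : Fin k → ℝ) : ℝ :=
  ∑ n ∈ Finset.Icc 1 X, wt X Y n * ∑ M ∈ Finset.Icc 1 X, (M : ℝ)⁻¹ * ‖GG b n M γ‖ ^ 2

lemma SS_meas (b : Bool) (X Y : ℕ) : Measurable fun γ : Fin k → ℝ => SS b X Y γ := by
  unfold SS
  refine Finset.measurable_sum _ fun n _ => (Finset.measurable_sum _ fun M hM => ?_).const_mul _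
  exact ((GG_meas b n (Finset.mem_Icc.1 hM).1).norm.pow_const 2).const_mul _

lemma SS_int (b : Bool) (X Y : ℕ) (μ : Measure (Fin k → ℝ)) :
    ∫⁻ γ, ENNReal.ofReal (SS b X Y γ) ∂μ =
      ∑ n ∈ Finset.Icc 1 X, ENNReal.ofReal (wt X Y n) * WE X μ (fun M γ => GG b n M γ) := by
  have e1 : ∀ γ : Fin k → ℝ, ENNReal.ofReal (SS b X Y γ) = ∑ n ∈ Finset.Icc 1 X, ENNReal.ofReal (wt X Y n) *
      ∑ M ∈ Finset.Icc 1 X, ENNReal.ofReal ((M : ℝ)⁻¹) * ENNReal.ofReal (‖GG b n M γ‖ ^ 2) := by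
    intro γ
    unfold SS
    rw [ENNReal.ofReal_sum_of_nonneg (fun n _ => mul_nonneg (wt_nonneg _ _ _)
      (Finset.sum_nonneg fun M _ => by positivity))]
    refine Finset.sum_congr rfl fun n _ => ?_
    rw [ENNReal.ofReal_mul (wt_nonneg _ _ _), ENNReal.ofReal_sum_of_nonneg (fun M _ => by positivity)]
    congr 1
    refine Finset.sum_congr rfl fun M _ => ?_
    rw [ENNReal.ofReal_mul (by positivity)]
  simp_rw [e1]
  have hm : ∀ n, ∀ M ∈ Finset.Icc 1 X, Measurable fun γ : Fin k → ℝ =>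
      ENNReal.ofReal ((M : ℝ)⁻¹) * ENNReal.ofReal (‖GG b n M γ‖ ^ 2) := fun n M hM =>
    ((GG_meas b n (Finset.mem_Icc.1 hM).1).norm.pow_const 2).ennreal_ofReal.const_mul _
  rw [lintegral_finsetSum' _ (fun n _ => ((Finset.measurable_sum _ (hm n)).const_mul _).aemeasurable)]
  refine Finset.sum_congr rfl fun n _ => ?_
  rw [lintegral_const_mul' _ _ ENNReal.ofReal_ne_top,
    lintegral_finsetSum' _ (fun M hM => (hm n M hM).aemeasurable)]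
  congr 1
  unfold WE
  refine Finset.sum_congr rfl fun M _ => ?_
  rw [lintegral_const_mul' _ _ ENNReal.ofReal_ne_top]

/-- the mean value of the functional -/
theorem S1 (k : ℕ) (hk : 1 ≤ k) {η A ε : ℝ} (hη : 0 < η) (hA : 2 ≤ A) (hε : 0 < ε) :
    ∃ (C X0 : ℝ), 0 < C ∧ 1 ≤ X0 ∧ ∀ (b : Bool) (X Y : ℕ) (H : ℝ), X0 ≤ X → 1 ≤ Y → Y ≤ X →
    (X : ℝ) ^ (1 + η) ≤ H → H ≤ (X : ℝ) ^ A →
    ∫⁻ γ, ENNReal.ofReal (SS b X Y γ) ∂(mg k H) ≤
      ENNReal.ofReal (C * (X : ℝ) ^ ε * (1 + (X : ℝ) ^ 2 / H) * H ^ k) := by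
  obtain ⟨C1, X1, hC1, hX1, h1⟩ := L5 k hk hη hA (half_pos hε)
  obtain ⟨C2, hC2, h2⟩ := lgp (half_pos hε)
  refine ⟨3 * C1 * C2, X1, by positivity, hX1, ?_⟩
  intro b X Y H hX hY hYX hH1 hH2
  have hXr : (1 : ℝ) ≤ X := hX1.trans hX
  have hX1n : 1 ≤ X := by exact_mod_cast hXr
  have hX0 : (0 : ℝ) < X := by linarith
  have hH0 : 0 < H := lt_of_lt_of_le (by positivity) hH1
  obtain ⟨D, hD⟩ : ∃ D : ℝ, D = 1 + (X : ℝ) ^ 2 / H := ⟨_, rfl⟩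
  rw [← hD]
  have hD0 : 0 < D := by rw [hD]; positivity
  rw [SS_int]
  have e1 : ∀ n ∈ Finset.Icc 1 X, ENNReal.ofReal (wt X Y n) * WE X (mg k H) (fun M γ => GG b n M γ) ≤
      ENNReal.ofReal (wt X Y n * n * (C1 * (X : ℝ) ^ (ε / 2) * D * H ^ k)) := by
    intro n hn
    obtain ⟨hn1, hn2⟩ := Finset.mem_Icc.1 hn
    refine (mul_le_mul_right (h1 b X n H hX hn1 hn2 hH1 hH2) _).trans ?_
    rw [← ENNReal.ofReal_mul (wt_nonneg _ _ _), ← hD]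
    refine ENNReal.ofReal_le_ofReal (le_of_eq ?_)
    ring
  refine (Finset.sum_le_sum e1).trans ?_
  rw [← ENNReal.ofReal_sum_of_nonneg (fun n _ => mul_nonneg (mul_nonneg (wt_nonneg _ _ _)
    (Nat.cast_nonneg n)) (by positivity)), ← Finset.sum_mul]
  refine ENNReal.ofReal_le_ofReal ?_
  have e2 : ∑ n ∈ Finset.Icc 1 X, wt X Y n * n ≤ 3 * (C2 * (X : ℝ) ^ (ε / 2)) := by
    have g1 : ∀ n ∈ Finset.Icc 1 X, wt X Y n * n = (n : ℝ)⁻¹ + (if n = X then 1 else 0) +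
        (if n = Y then 1 else 0) := by
      intro n hn
      have hn0 : (n : ℝ) ≠ 0 := by
        have := (Finset.mem_Icc.1 hn).1
        positivity
      unfold wt
      rw [add_mul, add_mul]
      congr 1
      · congr 1
        · field_simp
        · split_ifs with h
          · subst h
            exact inv_mul_cancel₀ hn0
          · simp
      · split_ifs with h
        · subst h
          exact inv_mul_cancel₀ hn0
        · simp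
    rw [Finset.sum_congr rfl g1, Finset.sum_add_distrib, Finset.sum_add_distrib,
      Finset.sum_ite_eq' (Finset.Icc 1 X) X, Finset.sum_ite_eq' (Finset.Icc 1 X) Y,
      if_pos (Finset.mem_Icc.2 ⟨hX1n, le_rfl⟩), if_pos (Finset.mem_Icc.2 ⟨hY, hYX⟩)]
    have g2 := Pool.Agent.H681.QF.P.harm X
    have g3 := h2 X hX1n
    have g5 : 0 ≤ Real.log X := Real.log_natCast_nonneg _
    linarith
  have e3 : (X : ℝ) ^ ε = (X : ℝ) ^ (ε / 2) * (X : ℝ) ^ (ε / 2) := by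
    rw [← Real.rpow_add hX0]
    congr 1
    ring
  calc (∑ n ∈ Finset.Icc 1 X, wt X Y n * n) * (C1 * (X : ℝ) ^ (ε / 2) * D * H ^ k) ≤
        3 * (C2 * (X : ℝ) ^ (ε / 2)) * (C1 * (X : ℝ) ^ (ε / 2) * D * H ^ k) :=
        mul_le_mul_of_nonneg_right e2 (by positivity)
    _ = _ := by
        rw [e3]
        ring

lemma cheb1 {Ω : Type*} [MeasurableSpace Ω] {μ : Measure Ω} {g : Ω → ℝ} (hg : Measurable g)
    {B lam : ℝ} (hl : 0 < lam) (h : ∫⁻ x, ENNReal.ofReal (g x) ∂μ ≤ ENNReal.ofReal B) :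
    μ {x | lam < g x} ≤ ENNReal.ofReal (B / lam) := by
  have h2 := meas_ge_le_lintegral_div (μ := μ) hg.ennreal_ofReal.aemeasurable (ε := ENNReal.ofReal lam)
    (by rw [Ne, ENNReal.ofReal_eq_zero, not_le]; positivity) ENNReal.ofReal_ne_top
  refine (measure_mono ?_).trans (h2.trans ?_)
  · intro x hx
    exact ENNReal.ofReal_le_ofReal (le_of_lt hx)
  · rw [ENNReal.ofReal_div_of_pos hl]
    exact ENNReal.div_le_div_right h _

/-- the functional, outside of a small set -/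
theorem S2 (k : ℕ) (hk : 1 ≤ k) {η A ε : ℝ} (hη : 0 < η) (hA : 2 ≤ A) (hε : 0 < ε) :
    ∃ (δ X0 : ℝ), 0 < δ ∧ 1 ≤ X0 ∧ ∀ (b : Bool) (X Y : ℕ) (H : ℝ), X0 ≤ X → 1 ≤ Y → Y ≤ X →
    (X : ℝ) ^ (1 + η) ≤ H → H ≤ (X : ℝ) ^ A →
    volume {γ : Fin k → ℝ | (∀ j, |γ j| ≤ H) ∧ (X : ℝ) ^ ε * (1 + (X : ℝ) ^ 2 / H) < SS b X Y γ} ≤
      ENNReal.ofReal (H ^ k * (X : ℝ) ^ (-δ)) := by
  obtain ⟨C1, X1, hC1, hX1, h1⟩ := S1 k hk hη hA (half_pos hε)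
  obtain ⟨C2, hC2, h2⟩ := Pool.Agent.N879.QM.t_NS k
  have hδ0 : 0 < min (ε / 4) (1 / 4 : ℝ) := lt_min (by positivity) (by norm_num)
  obtain ⟨X2, hX2⟩ : ∃ X2 : ℝ, ∀ X : ℝ, X2 ≤ X → C1 + C2 ≤ X ^ min (ε / 4) (1 / 4 : ℝ) := by
    obtain ⟨X2, h5⟩ := ((tendsto_rpow_atTop hδ0).eventually_ge_atTop (C1 + C2)).exists_forall_of_atTop
    exact ⟨X2, h5⟩
  refine ⟨min (ε / 4) (1 / 4), max X1 X2, hδ0, hX1.trans (le_max_left _ _), ?_⟩
  intro b X Y H hX hY hYX hH1 hH2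
  obtain ⟨δ, hδ⟩ : ∃ δ : ℝ, δ = min (ε / 4) (1 / 4) := ⟨_, rfl⟩
  rw [← hδ]
  have hδε : δ ≤ ε / 4 := by rw [hδ]; exact min_le_left _ _
  have hδ1 : δ ≤ 1 / 4 := by rw [hδ]; exact min_le_right _ _
  have hδ0' : 0 < δ := by rw [hδ]; exact hδ0
  have hX1' : X1 ≤ X := (le_max_left _ _).trans hX
  have hXr : (1 : ℝ) ≤ X := hX1.trans hX1'
  have hX0 : (0 : ℝ) < X := by linarith
  have hH0 : 0 < H := lt_of_lt_of_le (by positivity) hH1
  have hXH : (X : ℝ) ≤ H := by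
    refine le_trans ?_ hH1
    calc (X : ℝ) = (X : ℝ) ^ (1 : ℝ) := (Real.rpow_one _).symm
      _ ≤ (X : ℝ) ^ (1 + η) := Real.rpow_le_rpow_of_exponent_le hXr (by linarith)
  have hHr : 1 ≤ H := hXr.trans hXH
  have c1 := cheb1 (SS_meas b X Y) (lam := (X : ℝ) ^ ε * (1 + (X : ℝ) ^ 2 / H)) (by positivity) (h1 b X Y H hX1' hY hYX hH1 hH2)
  have c2 := h2 H hHr
  rw [mS_cub] at c2
  have hms : MeasurableSet {γ : Fin k → ℝ | (X : ℝ) ^ ε * (1 + (X : ℝ) ^ 2 / H) < SS b X Y γ} :=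
    measurableSet_lt measurable_const (SS_meas b X Y)
  have e1 : {γ : Fin k → ℝ | (∀ j, |γ j| ≤ H) ∧ (X : ℝ) ^ ε * (1 + (X : ℝ) ^ 2 / H) < SS b X Y γ} =
      {γ : Fin k → ℝ | (X : ℝ) ^ ε * (1 + (X : ℝ) ^ 2 / H) < SS b X Y γ} ∩ cbS k H := by
    ext γ
    simp only [mem_ofPred_eq, mem_inter_iff, cbS]
    tauto
  have c3 : volume {γ : Fin k → ℝ | (∀ j, |γ j| ≤ H) ∧ (X : ℝ) ^ ε * (1 + (X : ℝ) ^ 2 / H) < SS b X Y γ} =
      cub k H {γ : Fin k → ℝ | (X : ℝ) ^ ε * (1 + (X : ℝ) ^ 2 / H) < SS b X Y γ} := by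
    rw [e1, cub, Measure.restrict_apply hms]
  rw [c3]
  calc cub k H {γ : Fin k → ℝ | (X : ℝ) ^ ε * (1 + (X : ℝ) ^ 2 / H) < SS b X Y γ} ≤
        cub k H (({γ : Fin k → ℝ | (X : ℝ) ^ ε * (1 + (X : ℝ) ^ 2 / H) < SS b X Y γ} ∩ Pool.Agent.N879.QM.Gd k H) ∪
          (Pool.Agent.N879.QM.Gd k H)ᶜ) := by
        refine measure_mono fun γ hγ => ?_
        by_cases h : γ ∈ Pool.Agent.N879.QM.Gd k H
        · exact Or.inl ⟨hγ, h⟩
        · exact Or.inr h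
    _ ≤ cub k H ({γ : Fin k → ℝ | (X : ℝ) ^ ε * (1 + (X : ℝ) ^ 2 / H) < SS b X Y γ} ∩ Pool.Agent.N879.QM.Gd k H) +
          cub k H (Pool.Agent.N879.QM.Gd k H)ᶜ := measure_union_le _ _
    _ = mg k H {γ : Fin k → ℝ | (X : ℝ) ^ ε * (1 + (X : ℝ) ^ 2 / H) < SS b X Y γ} + cub k H (Pool.Agent.N879.QM.Gd k H)ᶜ := by
        rw [mg, Measure.restrict_apply hms]
    _ ≤ ENNReal.ofReal (C1 * (X : ℝ) ^ (ε / 2) * (1 + (X : ℝ) ^ 2 / H) * H ^ k /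
            ((X : ℝ) ^ ε * (1 + (X : ℝ) ^ 2 / H))) +
          ENNReal.ofReal (C2 * H ^ (k - 1 / 2 : ℝ)) := add_le_add c1 c2
    _ = ENNReal.ofReal (C1 * (X : ℝ) ^ (ε / 2) * (1 + (X : ℝ) ^ 2 / H) * H ^ k /
            ((X : ℝ) ^ ε * (1 + (X : ℝ) ^ 2 / H)) + C2 * H ^ (k - 1 / 2 : ℝ)) :=
        (ENNReal.ofReal_add (by positivity) (by positivity)).symm
    _ ≤ ENNReal.ofReal (H ^ k * (X : ℝ) ^ (-δ)) := by
        refine ENNReal.ofReal_le_ofReal ?_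
        have g1 : (X : ℝ) ^ (ε / 2) / (X : ℝ) ^ ε ≤ (X : ℝ) ^ (-(2 * δ)) := by
          rw [← Real.rpow_sub hX0]
          exact Real.rpow_le_rpow_of_exponent_le hXr (by linarith)
        have g2 : H ^ (k - 1 / 2 : ℝ) ≤ H ^ k * (X : ℝ) ^ (-(2 * δ)) := by
          rw [sub_eq_add_neg, Real.rpow_add hH0, Real.rpow_natCast]
          refine mul_le_mul_of_nonneg_left ?_ (by positivity)
          calc H ^ (-(1 / 2) : ℝ) ≤ (X : ℝ) ^ (-(1 / 2) : ℝ) :=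
                Real.rpow_le_rpow_of_nonpos (by positivity) hXH (by norm_num)
            _ ≤ (X : ℝ) ^ (-(2 * δ)) := Real.rpow_le_rpow_of_exponent_le hXr (by linarith)
        have g3 : C1 + C2 ≤ (X : ℝ) ^ δ := by
          rw [hδ]
          exact hX2 X ((le_max_right _ _).trans hX)
        have g4 : (X : ℝ) ^ δ * (X : ℝ) ^ (-(2 * δ)) = (X : ℝ) ^ (-δ) := by
          rw [← Real.rpow_add hX0]
          congr 1
          ring
        have hD0 : 0 < 1 + (X : ℝ) ^ 2 / H := by positivity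
        calc C1 * (X : ℝ) ^ (ε / 2) * (1 + (X : ℝ) ^ 2 / H) * H ^ k /
              ((X : ℝ) ^ ε * (1 + (X : ℝ) ^ 2 / H)) + C2 * H ^ (k - 1 / 2 : ℝ)
            = C1 * H ^ k * ((X : ℝ) ^ (ε / 2) / (X : ℝ) ^ ε) + C2 * H ^ (k - 1 / 2 : ℝ) := by
              congr 1
              field_simp
          _ ≤ C1 * H ^ k * (X : ℝ) ^ (-(2 * δ)) + C2 * (H ^ k * (X : ℝ) ^ (-(2 * δ))) := by gcongr
          _ = H ^ k * ((C1 + C2) * (X : ℝ) ^ (-(2 * δ))) := by ring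
          _ ≤ H ^ k * ((X : ℝ) ^ δ * (X : ℝ) ^ (-(2 * δ))) := by gcongr
          _ = _ := by rw [g4]

end

end Pool.Agent.H681.MD
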