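import Pool.Agent.H681.MD.Stm
import Pool.Graph.R_pool_sql_team_seeded_1acbe0a2.Y412.QF.Hbe
import Pool.Graph.R_pool_sql_team_seeded_1acbe0a2.Y845.QF.In

set_option autoImplicit false

/-! Project MD (helper681), task HBC: Heath-Brown's large sieve for `QFs b X`. -/

namespace Pool.Agent.H364.MD

open Pool.Agent.Y752.QF
open Pool.Agent.H306R2.RG (FD F8 F4 F1 cf jo Fam CG SFg)
open Pool.Agent.H306R2.RG.LnkC (RPC)
open Pool.Agent.H306R2.RZ (js osf sqf LSB)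
open Pool.Agent.H463R2.RGFIN (Qr Rr ch ch_spec Qr_unique)
open Pool.Agent.Y845.QF
open Pool.Agent.H681.MD

noncomputable section

open Classical in
/-- the indices of the family -/
def DI (b : Bool) (X : ℕ) (i : Fin 4) : Finset ℕ :=
  (Finset.Icc 1 (X / (fam b i).r)).filter (fun d => (fam b i).A d ∧ Squarefree d)

theorem mem_DI {b : Bool} {X : ℕ} {i : Fin 4} {d : ℕ} (h : d ∈ DI b X i) :
    d ∈ Finset.Icc 1 (X / (fam b i).r) ∧ (fam b i).A d ∧ Squarefree d := by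
  classical
  exact Finset.mem_filter.1 h

theorem sum_QFs {R : Type} [AddCommMonoid R] (b : Bool) (X : ℕ) (G : DC → R) :
    ∑ p ∈ QFs b X, G p = ∑ i : Fin 4, ∑ d ∈ DI b X i, G (ch (fam b i) d) := by
  classical
  rw [Finset.sum_sigma' (Finset.univ : Finset (Fin 4)) (fun i => DI b X i)
    (fun i d => G (ch (fam b i) d))]
  symm
  refine Finset.sum_bij (fun x _ => ch (fam b x.1) x.2) ?_ ?_ ?_ ?_
  · rintro ⟨i, d⟩ hx
    obtain ⟨_, hx2⟩ := Finset.mem_sigma.1 hx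
    obtain ⟨hx3, hx4, hx5⟩ := Finset.mem_filter.1 hx2
    rw [Pool.Agent.Y845.QF.mem_QFs]
    refine ch_mem b X i d hx4 hx5 ?_
    have := (Finset.mem_Icc.1 hx3).2
    rw [mul_comm]
    exact (Nat.le_div_iff_mul_le (fam_r_pos b i)).1 this
  · rintro ⟨i, d⟩ hx ⟨j, d'⟩ hy h
    obtain ⟨_, hx2⟩ := Finset.mem_sigma.1 hx
    obtain ⟨hx3, hx4, hx5⟩ := Finset.mem_filter.1 hx2
    obtain ⟨_, hy2⟩ := Finset.mem_sigma.1 hy
    obtain ⟨hy3, hy4, hy5⟩ := Finset.mem_filter.1 hy2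
    have s1 := (ch_spec CGall (fam_Fam b i) (d := d) ⟨hx4, hx5⟩).2.1.1
    have s2 := (ch_spec CGall (fam_Fam b j) (d := d') ⟨hy4, hy5⟩).2.1.1
    dsimp only at h
    rw [h] at s1
    obtain ⟨rfl, rfl⟩ := fam_uniq b i j d d' hx4 hy4 (s1.symm.trans s2)
    rfl
  · intro p hp
    rw [Pool.Agent.Y845.QF.mem_QFs] at hp
    obtain ⟨i, d, h1, h2, h3⟩ := mem_QF b X p hp
    refine ⟨⟨i, d⟩, ?_, ?_⟩
    · rw [Finset.mem_sigma]
      refine ⟨Finset.mem_univ _, Finset.mem_filter.2 ⟨Finset.mem_Icc.2 ⟨?_, ?_⟩, h1, h2⟩⟩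
      · exact (fam_odd b i d h1).pos
      · rw [Nat.le_div_iff_mul_le (fam_r_pos b i), mul_comm, ← h3.1]
        exact hp.2.1
    · exact (Qr_unique hp.1 h3 (ch_spec CGall (fam_Fam b i) (d := d) ⟨h1, h2⟩).2.1).symm
  · rintro ⟨i, d⟩ hx
    rfl

theorem cv_ch (b : Bool) (X : ℕ) (i : Fin 4) (d : ℕ) (hd : d ∈ DI b X i) (m : ℕ) (hm : m ≠ 0) :
    cv (ch (fam b i) d) m = ((cf (fam b i) d m : ℝ) : ℂ) := by
  obtain ⟨hx3, hx4, hx5⟩ := mem_DI hd
  exact (ch_spec CGall (fam_Fam b i) (d := d) ⟨hx4, hx5⟩).2.1.2 m hm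

/-- the odd part -/
def odp (m : ℕ) : ℕ := m / 2 ^ (m.factorization 2)

theorem js_abs (k : ℤ) (n : ℕ) : |js k n| ≤ 1 := by
  unfold js
  rcases jacobiSym.trichotomy k n with h | h | h <;> rw [h] <;> norm_num

theorem js_mul (k l : ℤ) (n : ℕ) : js (k * l) n = js k n * js l n := by
  unfold js
  rw [jacobiSym.mul_left]
  push_cast
  rfl

theorem eta_abs (b : Bool) (i : Fin 4) : |(fam b i).η| ≤ 1 := by
  rcases fam_or b i with h | h | h | h <;> rw [h]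
  · simp [F8]
  · simp [F4]
  · simp [F1]
  · simp [F1]

theorem odp_odd (m : ℕ) (hm : m ≠ 0) : Odd (odp m) := by
  rw [← Nat.not_even_iff_odd, even_iff_two_dvd]
  exact Nat.not_dvd_ordCompl Nat.prime_two hm

/-- pull out the bounded factors -/
theorem norm_le (b : Bool) (i : Fin 4) (D : Finset ℕ) (a : ℕ → ℂ) (m : ℕ) (hm : m ≠ 0) :
    ‖∑ d ∈ D, a d * ((cf (fam b i) d m : ℝ) : ℂ)‖ ^ 2 ≤
      ‖∑ d ∈ D, a d * ((js d (odp m) : ℝ) : ℂ)‖ ^ 2 := by
  have h1 : ∀ d, cf (fam b i) d m = ((fam b i).η ^ (m.factorization 2) *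
      js (fam b i).e (odp m)) * js d (odp m) := by
    intro d
    unfold cf jo
    rw [show m / 2 ^ (m.factorization 2) = odp m from rfl, if_pos (odp_odd m hm), js_mul]
    ring
  have h2 : ∑ d ∈ D, a d * ((cf (fam b i) d m : ℝ) : ℂ) =
      (((fam b i).η ^ (m.factorization 2) * js (fam b i).e (odp m) : ℝ) : ℂ) *
        ∑ d ∈ D, a d * ((js d (odp m) : ℝ) : ℂ) := by
    rw [Finset.mul_sum]
    refine Finset.sum_congr rfl fun d _ => ?_
    rw [h1 d]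
    push_cast
    ring
  rw [h2, norm_mul, Complex.norm_real, Real.norm_eq_abs, mul_pow]
  have h3 : |(fam b i).η ^ (m.factorization 2) * js (fam b i).e (odp m)| ≤ 1 := by
    rw [abs_mul, abs_pow]
    have h4 : |(fam b i).η| ^ (m.factorization 2) ≤ 1 := pow_le_one₀ (abs_nonneg _) (eta_abs b i)
    have h5 := js_abs (fam b i).e (odp m)
    calc |(fam b i).η| ^ (m.factorization 2) * |js (fam b i).e (odp m)| ≤ 1 * 1 :=
          mul_le_mul h4 h5 (abs_nonneg _) (by norm_num)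
      _ = 1 := by norm_num
  have h4 : |(fam b i).η ^ (m.factorization 2) * js (fam b i).e (odp m)| ^ 2 ≤ 1 :=
    pow_le_one₀ (abs_nonneg _) h3
  calc _ ≤ 1 * ‖∑ d ∈ D, a d * ((js d (odp m) : ℝ) : ℂ)‖ ^ 2 :=
        mul_le_mul_of_nonneg_right h4 (by positivity)
    _ = _ := one_mul _

/-- the odd part is at most two to one on squarefree numbers -/
theorem sum_odp (M : ℕ) (T : ℕ → ℝ) (hT : ∀ n, 0 ≤ T n) :
    ∑ m ∈ sqf M, T (odp m) ≤ 2 * ∑ n ∈ osf M, T n := by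
  have h1 : ∀ m ∈ sqf M, m.factorization 2 < 2 ∧ odp m ∈ osf M ∧
      m = 2 ^ (m.factorization 2) * odp m := by
    intro m hm
    obtain ⟨h2, h3⟩ := Finset.mem_filter.1 hm
    obtain ⟨h4, h5⟩ := Finset.mem_Icc.1 h2
    have h0 : m ≠ 0 := by omega
    have h6 : m.factorization 2 ≤ 1 := h3.natFactorization_le_one 2
    have h7 : m = 2 ^ (m.factorization 2) * odp m := (Nat.ordProj_mul_ordCompl_eq_self m 2).symm
    refine ⟨by omega, ?_, h7⟩
    have h8 : odp m ∣ m := Nat.ordCompl_dvd m 2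
    unfold osf
    rw [Finset.mem_filter, Finset.mem_Icc]
    exact ⟨⟨(odp_odd m h0).pos, (Nat.le_of_dvd (by omega) h8).trans h5⟩, odp_odd m h0,
      h3.squarefree_of_dvd h8⟩
  have h2 : ∑ m ∈ sqf M, T (odp m) =
      ∑ y ∈ (sqf M).image (fun m => (m.factorization 2, odp m)), T y.2 := by
    rw [Finset.sum_image]
    intro m hm m' hm' h
    have h3 := (h1 m hm).2.2
    have h4 := (h1 m' hm').2.2
    simp only [Prod.mk.injEq] at h
    rw [h3, h4, h.1, h.2]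
  have h3 : (sqf M).image (fun m => (m.factorization 2, odp m)) ⊆ Finset.range 2 ×ˢ osf M := by
    intro y hy
    obtain ⟨m, hm, rfl⟩ := Finset.mem_image.1 hy
    rw [Finset.mem_product, Finset.mem_range]
    exact ⟨(h1 m hm).1, (h1 m hm).2.1⟩
  rw [h2]
  refine (Finset.sum_le_sum_of_subset_of_nonneg h3 fun _ _ _ => hT _).trans ?_
  rw [Finset.sum_product]
  simp

/-- the dual large sieve, complex coefficients supported on a subset -/
theorem dualC {X M : ℕ} {B : ℝ} (hB0 : 0 ≤ B) (h : LSB X M B) (D : Finset ℕ) (hD : D ⊆ sqf X)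
    (a : ℕ → ℂ) :
    ∑ n ∈ osf M, ‖∑ d ∈ D, a d * ((js d n : ℝ) : ℂ)‖ ^ 2 ≤ B * ∑ d ∈ D, ‖a d‖ ^ 2 := by
  classical
  have key : ∀ b : ℕ → ℝ, ∑ n ∈ osf M, (∑ d ∈ D, b d * js d n) ^ 2 ≤ B * ∑ d ∈ D, b d ^ 2 := by
    intro b
    have h1 := Pool.Agent.Y412.QF.dual hB0 h (fun d => if d ∈ D then b d else 0)
    have h2 : ∀ n, ∑ m ∈ sqf X, (if m ∈ D then b m else 0) * js m n = ∑ d ∈ D, b d * js d n := by
      intro n
      rw [← Finset.sum_subset hD]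
      · exact Finset.sum_congr rfl fun d hd => by rw [if_pos hd]
      · intro d _ hd
        rw [if_neg hd, zero_mul]
    have h3 : ∑ m ∈ sqf X, (if m ∈ D then b m else 0) ^ 2 = ∑ d ∈ D, b d ^ 2 := by
      rw [← Finset.sum_subset hD]
      · exact Finset.sum_congr rfl fun d hd => by rw [if_pos hd]
      · intro d _ hd
        rw [if_neg hd]
        norm_num
    simp only [h2, h3] at h1
    exact h1
  have h1 := key (fun d => (a d).re)
  have h2 := key (fun d => (a d).im)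
  have h3 : ∀ z : ℂ, ‖z‖ ^ 2 = z.re ^ 2 + z.im ^ 2 := by
    intro z
    rw [← Complex.normSq_eq_norm_sq, Complex.normSq_apply]
    ring
  have h4 : ∀ n, ‖∑ d ∈ D, a d * ((js d n : ℝ) : ℂ)‖ ^ 2 =
      (∑ d ∈ D, (a d).re * js d n) ^ 2 + (∑ d ∈ D, (a d).im * js d n) ^ 2 := by
    intro n
    rw [h3, Complex.re_sum, Complex.im_sum]
    simp
  simp only [h4, h3]
  rw [Finset.sum_add_distrib, Finset.sum_add_distrib, mul_add]
  exact add_le_add h1 h2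

theorem HBC : S_HBC := by
  intro ε hε
  obtain ⟨C, hC, h⟩ := Pool.Agent.Y412.QF.HBL ε hε
  refine ⟨8 * C, by positivity, fun b X M hX hM c => ?_⟩
  set B : ℝ := C * ((X : ℝ) * M) ^ ε * (X + M) with hB
  have hB0 : 0 ≤ B := by positivity
  have hL := h X M hX hM
  -- one family
  have h1 : ∀ i : Fin 4, ∑ m ∈ sqf M,
      ‖∑ d ∈ DI b X i, c (ch (fam b i) d) * ((cf (fam b i) d m : ℝ) : ℂ)‖ ^ 2 ≤
      2 * (B * ∑ d ∈ DI b X i, ‖c (ch (fam b i) d)‖ ^ 2) := by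
    intro i
    have hD : DI b X i ⊆ sqf X := by
      intro d hd
      obtain ⟨hx3, hx4, hx5⟩ := mem_DI hd
      obtain ⟨hx6, hx7⟩ := Finset.mem_Icc.1 hx3
      unfold sqf
      rw [Finset.mem_filter, Finset.mem_Icc]
      exact ⟨⟨hx6, hx7.trans (Nat.div_le_self _ _)⟩, hx5⟩
    calc ∑ m ∈ sqf M, ‖∑ d ∈ DI b X i, c (ch (fam b i) d) * ((cf (fam b i) d m : ℝ) : ℂ)‖ ^ 2
        ≤ ∑ m ∈ sqf M, ‖∑ d ∈ DI b X i, c (ch (fam b i) d) * ((js d (odp m) : ℝ) : ℂ)‖ ^ 2 := by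
          refine Finset.sum_le_sum fun m hm => ?_
          have hm0 : m ≠ 0 := by
            have := (Finset.mem_Icc.1 (Finset.mem_filter.1 hm).1).1
            omega
          exact norm_le b i (DI b X i) (fun d => c (ch (fam b i) d)) m hm0
      _ ≤ 2 * ∑ n ∈ osf M, ‖∑ d ∈ DI b X i, c (ch (fam b i) d) * ((js d n : ℝ) : ℂ)‖ ^ 2 :=
          sum_odp M (fun n => ‖∑ d ∈ DI b X i, c (ch (fam b i) d) * ((js d n : ℝ) : ℂ)‖ ^ 2)
            (fun n => by positivity)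
      _ ≤ _ := by
          have := dualC hB0 hL (DI b X i) hD (fun d => c (ch (fam b i) d))
          linarith
  have h2 : ∀ m ∈ sqf M, ‖∑ p ∈ QFs b X, c p * cv p m‖ ^ 2 ≤ 4 * ∑ i : Fin 4,
      ‖∑ d ∈ DI b X i, c (ch (fam b i) d) * ((cf (fam b i) d m : ℝ) : ℂ)‖ ^ 2 := by
    intro m hm
    have hm0 : m ≠ 0 := by
      have := (Finset.mem_Icc.1 (Finset.mem_filter.1 hm).1).1
      omega
    rw [sum_QFs]
    have h3 : ∀ i : Fin 4, ∑ d ∈ DI b X i, c (ch (fam b i) d) * cv (ch (fam b i) d) m =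
        ∑ d ∈ DI b X i, c (ch (fam b i) d) * ((cf (fam b i) d m : ℝ) : ℂ) := by
      intro i
      refine Finset.sum_congr rfl fun d hd => ?_
      rw [cv_ch b X i d hd m hm0]
    simp only [h3]
    have h4 : ‖∑ i : Fin 4, ∑ d ∈ DI b X i, c (ch (fam b i) d) *
        ((cf (fam b i) d m : ℝ) : ℂ)‖ ≤ ∑ i : Fin 4, ‖∑ d ∈ DI b X i, c (ch (fam b i) d) *
        ((cf (fam b i) d m : ℝ) : ℂ)‖ := norm_sum_le _ _
    have h5 := sq_sum_le_card_mul_sum_sq (s := (Finset.univ : Finset (Fin 4)))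
      (f := fun i => ‖∑ d ∈ DI b X i, c (ch (fam b i) d) * ((cf (fam b i) d m : ℝ) : ℂ)‖)
    rw [Finset.card_univ, Fintype.card_fin] at h5
    push_cast at h5
    exact (pow_le_pow_left₀ (norm_nonneg _) h4 2).trans h5
  calc ∑ m ∈ sqf M, ‖∑ p ∈ QFs b X, c p * cv p m‖ ^ 2
      ≤ ∑ m ∈ sqf M, 4 * ∑ i : Fin 4,
        ‖∑ d ∈ DI b X i, c (ch (fam b i) d) * ((cf (fam b i) d m : ℝ) : ℂ)‖ ^ 2 :=
        Finset.sum_le_sum h2
    _ = 4 * ∑ i : Fin 4, ∑ m ∈ sqf M,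
        ‖∑ d ∈ DI b X i, c (ch (fam b i) d) * ((cf (fam b i) d m : ℝ) : ℂ)‖ ^ 2 := by
        rw [← Finset.mul_sum, Finset.sum_comm]
    _ ≤ 4 * ∑ i : Fin 4, 2 * (B * ∑ d ∈ DI b X i, ‖c (ch (fam b i) d)‖ ^ 2) := by
        gcongr with i
        exact h1 i
    _ = 8 * C * ((X : ℝ) * M) ^ ε * (X + M) * ∑ p ∈ QFs b X, ‖c p‖ ^ 2 := by
        rw [sum_QFs b X (fun p => ‖c p‖ ^ 2), ← Finset.mul_sum, ← Finset.mul_sum, hB]
        ring

end

end Pool.Agent.H364.MD
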