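import Pool.Agent.H681.MD.Stm

set_option autoImplicit false

/-! Project MD, part TL: the weighted sum from the large sieve. -/

namespace Pool.Agent.H84.MD

open Finset
open Pool.Agent.Y752.QF (DC cv QFs)
open Pool.Agent.H306R2.RZ (sqf)
open Pool.Agent.H681.MD (S_HBC S_TL)

noncomputable section

/-- Abel summation -/
theorem abel (h : ℕ → ℝ) (W N : ℕ) (hh : ∀ m, 0 ≤ h m) (hWN : W + 1 ≤ N) :
    ∑ m ∈ Ioc W N, h m / m ≤
      ∑ n ∈ Ico (W + 1) N, (∑ m ∈ Icc 1 n, h m) / ((n : ℝ) * (n + 1)) +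
        (∑ m ∈ Icc 1 N, h m) / N := by
  induction N, hWN using Nat.le_induction with
  | base =>
    have e1 : Ioc W (W + 1) = {W + 1} := by
      ext x; simp only [mem_Ioc, mem_singleton]; omega
    rw [e1, sum_singleton, Ico_self, sum_empty, zero_add]
    refine div_le_div_of_nonneg_right ?_ (by positivity)
    exact single_le_sum (f := h) (fun i _ => hh i) (by simp)
  | succ N hN ih =>
    have hN0 : (0 : ℝ) < N := by
      have : 0 < N := by omega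
      exact_mod_cast this
    have e1 : Ioc W (N + 1) = insert (N + 1) (Ioc W N) := by
      ext x; simp only [mem_Ioc, mem_insert]; omega
    have e2 : Icc 1 (N + 1) = insert (N + 1) (Icc 1 N) := by
      ext x; simp only [mem_Icc, mem_insert]; omega
    rw [e1, sum_insert (by simp), sum_Ico_succ_top hN]
    have e3 : ∑ m ∈ Icc 1 (N + 1), h m = h (N + 1) + ∑ m ∈ Icc 1 N, h m := by
      rw [e2, sum_insert (by simp)]
    rw [e3]
    set A := ∑ m ∈ Icc 1 N, h m with hA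
    have key : A / ((N : ℝ) * (N + 1)) + (h (N + 1) + A) / ((N + 1 : ℕ) : ℝ) =
        h (N + 1) / ((N + 1 : ℕ) : ℝ) + A / N := by
      push_cast
      field_simp
      ring
    linarith

/-- the bound for one class -/
theorem one_class (h : ℕ → ℝ) (W N X : ℕ) (D : ℝ) (hD : 0 ≤ D) (hh : ∀ m, 0 ≤ h m)
    (hWN : W + 1 ≤ N) (hA : ∀ n, 1 ≤ n → n ≤ N → ∑ m ∈ Icc 1 n, h m ≤ D * ((X : ℝ) + n)) :
    ∑ m ∈ Ioc W N, h m / m ≤ D * ((X : ℝ) / ((W : ℝ) + 1) + (2 + Real.log N)) := by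
  have h1 := abel h W N hh hWN
  have hN1 : 1 ≤ N := by omega
  have hN0 : (0 : ℝ) < N := by exact_mod_cast hN1
  have h2 : ∑ n ∈ Ico (W + 1) N, (∑ m ∈ Icc 1 n, h m) / ((n : ℝ) * (n + 1)) ≤
      ∑ n ∈ Ico (W + 1) N, D * ((X : ℝ) * (1 / (n : ℝ) - 1 / ((n + 1 : ℕ) : ℝ)) +
        1 / ((n + 1 : ℕ) : ℝ)) := by
    refine sum_le_sum fun n hn => ?_
    rw [mem_Ico] at hn
    have hn0 : (0 : ℝ) < n := by
      have : 0 < n := by omega
      exact_mod_cast this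
    have h3 := hA n (by omega) hn.2.le
    have h4 : (∑ m ∈ Icc 1 n, h m) / ((n : ℝ) * (n + 1)) ≤
        D * ((X : ℝ) + n) / ((n : ℝ) * (n + 1)) :=
      div_le_div_of_nonneg_right h3 (by positivity)
    refine h4.trans (le_of_eq ?_)
    push_cast
    field_simp
    ring
  have h5 : (∑ m ∈ Icc 1 N, h m) / N ≤ D * ((X : ℝ) / N + 1) := by
    have h3 := hA N hN1 le_rfl
    rw [div_le_iff₀ hN0]
    refine h3.trans (le_of_eq ?_)
    field_simp
  have h6 : ∑ n ∈ Ico (W + 1) N, (1 / (n : ℝ) - 1 / ((n + 1 : ℕ) : ℝ)) =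
      1 / ((W : ℝ) + 1) - 1 / N := by
    clear h1 h2 h5 hN1 hN0 hA
    induction N, hWN using Nat.le_induction with
    | base => simp
    | succ N hN ih =>
      rw [sum_Ico_succ_top hN, ih]
      ring
  have h7 : ∑ n ∈ Ico (W + 1) N, 1 / ((n + 1 : ℕ) : ℝ) ≤ 1 + Real.log N := by
    have h8 : (harmonic N : ℝ) ≤ 1 + Real.log N := harmonic_le_one_add_log N
    have h9 : (harmonic N : ℝ) = ∑ n ∈ range N, 1 / ((n + 1 : ℕ) : ℝ) := by
      rw [harmonic]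
      push_cast
      simp
    rw [h9] at h8
    refine le_trans (sum_le_sum_of_subset_of_nonneg ?_ fun i _ _ => by positivity) h8
    intro n hn
    rw [mem_Ico] at hn
    exact mem_range.2 hn.2
  rw [← mul_sum, sum_add_distrib, ← mul_sum, h6] at h2
  have h8 : D * ((X : ℝ) * (1 / ((W : ℝ) + 1) - 1 / N) +
      ∑ n ∈ Ico (W + 1) N, 1 / ((n + 1 : ℕ) : ℝ)) ≤
      D * ((X : ℝ) * (1 / ((W : ℝ) + 1) - 1 / N) + (1 + Real.log N)) := by
    refine mul_le_mul_of_nonneg_left ?_ hD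
    linarith
  have h9 : D * ((X : ℝ) * (1 / ((W : ℝ) + 1) - 1 / N) + (1 + Real.log N)) +
      D * ((X : ℝ) / N + 1) = D * ((X : ℝ) / ((W : ℝ) + 1) + (2 + Real.log N)) := by
    ring
  linarith

/-- sums over the square parts -/
theorem sum_inv (N : ℕ) : ∑ k ∈ range N, 1 / (((k + 1 : ℕ) : ℝ)) ^ 2 ≤ 2 := by
  have h1 : ∀ k ∈ range N, 1 / (((k + 1 : ℕ) : ℝ)) ^ 2 ≤
      2 / ((k : ℝ) + 1) - 2 / (((k + 1 : ℕ) : ℝ) + 1) := by
    intro k _
    push_cast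
    have hk : (0 : ℝ) ≤ k := Nat.cast_nonneg k
    rw [div_sub_div _ _ (by positivity) (by positivity), div_le_div_iff₀ (by positivity)
      (by positivity)]
    nlinarith
  refine (sum_le_sum h1).trans ?_
  rw [sum_range_sub' (fun k : ℕ => 2 / ((k : ℝ) + 1))]
  have : (0 : ℝ) ≤ 2 / ((N : ℝ) + 1) := by positivity
  norm_num
  exact this

theorem sum_min (N Z : ℕ) (hZ : 1 ≤ Z) :
    ∑ k ∈ range N, 1 / ((((k + 1 : ℕ) : ℝ)) ^ 2 * (((Z / (k + 1) ^ 2 : ℕ) : ℝ) + 1)) ≤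
      4 / Real.sqrt Z := by
  have hZ0 : (0 : ℝ) < Z := by exact_mod_cast hZ
  have hs : 0 < Real.sqrt Z := Real.sqrt_pos.2 hZ0
  have hss : Real.sqrt Z * Real.sqrt Z = Z := Real.mul_self_sqrt hZ0.le
  have h1 : ∀ k ∈ range N, 1 / ((((k + 1 : ℕ) : ℝ)) ^ 2 * (((Z / (k + 1) ^ 2 : ℕ) : ℝ) + 1)) ≤
      4 / ((k : ℝ) + Real.sqrt Z) - 4 / (((k + 1 : ℕ) : ℝ) + Real.sqrt Z) := by
    intro k _
    have hk : (0 : ℝ) ≤ k := Nat.cast_nonneg k
    set t := Real.sqrt Z with ht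
    set W := Z / (k + 1) ^ 2 with hW
    have ha : (Z : ℝ) ≤ (((k + 1 : ℕ) : ℝ)) ^ 2 * ((W : ℝ) + 1) := by
      have : Z < (k + 1) ^ 2 * (Z / (k + 1) ^ 2 + 1) :=
        Nat.lt_mul_div_succ Z (by positivity)
      exact_mod_cast this.le
    have hb : (((k + 1 : ℕ) : ℝ)) ^ 2 ≤ (((k + 1 : ℕ) : ℝ)) ^ 2 * ((W : ℝ) + 1) := by
      have : (0 : ℝ) ≤ W := Nat.cast_nonneg W
      nlinarith [sq_nonneg (((k + 1 : ℕ) : ℝ))]
    push_cast at ha hb ⊢
    have hpos : 0 < ((k : ℝ) + 1) ^ 2 * ((W : ℝ) + 1) := by positivity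
    rw [div_sub_div _ _ (by positivity) (by positivity), div_le_div_iff₀ hpos (by positivity)]
    nlinarith [sq_nonneg ((k : ℝ) + 1 - t)]
  refine (sum_le_sum h1).trans ?_
  rw [sum_range_sub' (fun k : ℕ => 4 / ((k : ℝ) + Real.sqrt Z))]
  have : (0 : ℝ) ≤ 4 / ((N : ℝ) + Real.sqrt Z) := by positivity
  norm_num
  exact this

/-- the squares of the sums -/
def GG (b : Bool) (X : ℕ) (c : DC → ℂ) (m : ℕ) : ℝ := ‖∑ p ∈ QFs b X, c p * cv p m‖ ^ 2

theorem GG_nonneg (b : Bool) (X : ℕ) (c : DC → ℂ) (m : ℕ) : 0 ≤ GG b X c m := by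
  unfold GG; positivity

theorem cv_mul (p : DC) (l m : ℕ) : cv p (l ^ 2 * m) = cv p l ^ 2 * cv p m := by
  unfold cv
  push_cast
  rw [map_mul, map_pow]

theorem cv_norm (p : DC) (l : ℕ) : ‖cv p l‖ ≤ 1 := by
  unfold cv
  exact DirichletCharacter.norm_le_one _ _

theorem GG_sq (b : Bool) (X : ℕ) (c : DC → ℂ) (l m : ℕ) :
    GG b X c (l ^ 2 * m) = GG b X (fun p => c p * cv p l ^ 2) m := by
  unfold GG
  congr 2
  refine sum_congr rfl fun p _ => ?_
  rw [cv_mul]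
  ring

theorem norm_sum_le (b : Bool) (X : ℕ) (c : DC → ℂ) (l : ℕ) :
    ∑ p ∈ QFs b X, ‖c p * cv p l ^ 2‖ ^ 2 ≤ ∑ p ∈ QFs b X, ‖c p‖ ^ 2 := by
  refine sum_le_sum fun p _ => ?_
  rw [norm_mul, norm_pow]
  have h1 := cv_norm p l
  have h2 : ‖cv p l‖ ^ 2 ≤ 1 := pow_le_one₀ (norm_nonneg _) h1
  have h3 : ‖c p‖ * ‖cv p l‖ ^ 2 ≤ ‖c p‖ := mul_le_of_le_one_right (norm_nonneg _) h2
  exact pow_le_pow_left₀ (by positivity) h3 2

/-- decomposition of the integers in squares and squarefree numbers -/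
theorem decomp (G : ℕ → ℝ) (hG : ∀ m, 0 ≤ G m) (Z N : ℕ) (hZ : 1 ≤ Z) :
    ∑ m ∈ Ioc Z N, G m / m ≤
      ∑ k ∈ range N, 1 / (((k + 1 : ℕ) : ℝ)) ^ 2 *
        ∑ m ∈ Ioc (Z / (k + 1) ^ 2) N, (if Squarefree m then G ((k + 1) ^ 2 * m) else 0) / m := by
  classical
  choose a b hab hsq using Nat.sq_mul_squarefree
  let v : (_ : ℕ) × ℕ → ℝ := fun q => 1 / (((q.1 + 1 : ℕ) : ℝ)) ^ 2 *
    ((if Squarefree q.2 then G ((q.1 + 1) ^ 2 * q.2) else 0) / q.2)
  have hv : ∀ q, 0 ≤ v q := by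
    intro q
    have h1 := hG ((q.1 + 1) ^ 2 * q.2)
    show 0 ≤ 1 / (((q.1 + 1 : ℕ) : ℝ)) ^ 2 *
      ((if Squarefree q.2 then G ((q.1 + 1) ^ 2 * q.2) else 0) / q.2)
    split_ifs
    · positivity
    · simp
  have hb1 : ∀ m ∈ Ioc Z N, 1 ≤ b m := by
    intro m hm
    rw [mem_Ioc] at hm
    by_contra hc
    have h0 : b m = 0 := by omega
    have := hab m
    rw [h0] at this
    simp at this
    omega
  have hbe : ∀ m ∈ Ioc Z N, b m - 1 + 1 = b m := fun m hm => Nat.sub_add_cancel (hb1 m hm)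
  have hterm : ∀ m ∈ Ioc Z N, G m / m = v ⟨b m - 1, a m⟩ := by
    intro m hm
    have hm' := mem_Ioc.1 hm
    show G m / m = 1 / (((b m - 1 + 1 : ℕ) : ℝ)) ^ 2 *
      ((if Squarefree (a m) then G ((b m - 1 + 1) ^ 2 * a m) else 0) / a m)
    rw [hbe m hm, if_pos (hsq m), hab m]
    have h1 : ((m : ℕ) : ℝ) = (b m : ℝ) ^ 2 * (a m : ℝ) := by
      have := hab m
      exact_mod_cast this.symm
    rw [div_mul_div_comm, one_mul, ← h1]
  have hinj : Set.InjOn (fun m => (⟨b m - 1, a m⟩ : (_ : ℕ) × ℕ)) (Ioc Z N : Set ℕ) := by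
    intro m hm m' hm' h
    have h1 : b m - 1 = b m' - 1 := congrArg Sigma.fst h
    have h2 : a m = a m' := by
      have := congrArg (fun q : (_ : ℕ) × ℕ => q.2) h
      exact this
    have h3 := hb1 m (mem_coe.1 hm)
    have h4 := hb1 m' (mem_coe.1 hm')
    rw [← hab m, ← hab m', h2]
    congr 2
    omega
  have hsub : (Ioc Z N).image (fun m => (⟨b m - 1, a m⟩ : (_ : ℕ) × ℕ)) ⊆
      (range N).sigma (fun k => Ioc (Z / (k + 1) ^ 2) N) := by
    intro q hq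
    obtain ⟨m, hm, rfl⟩ := mem_image.1 hq
    have hm' := mem_Ioc.1 hm
    have hb := hb1 m hm
    have e := hab m
    have ha : 1 ≤ a m := by
      by_contra hc
      have h0 : a m = 0 := by omega
      rw [h0] at e
      simp at e
      omega
    rw [mem_sigma]
    show b m - 1 ∈ range N ∧ a m ∈ Ioc (Z / (b m - 1 + 1) ^ 2) N
    rw [hbe m hm, mem_range, mem_Ioc]
    have h5 : b m ≤ m := by
      calc b m ≤ b m ^ 2 * a m := by nlinarith [Nat.mul_le_mul hb hb]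
        _ = m := e
    have h6 : a m ≤ m := by
      calc a m = 1 * a m := (one_mul _).symm
        _ ≤ b m ^ 2 * a m := Nat.mul_le_mul_right _ (Nat.one_le_pow _ _ hb)
        _ = m := e
    refine ⟨by omega, ?_, by omega⟩
    rw [Nat.div_lt_iff_lt_mul (Nat.pow_pos hb), mul_comm, e]
    exact hm'.1
  calc ∑ m ∈ Ioc Z N, G m / m = ∑ m ∈ Ioc Z N, v ⟨b m - 1, a m⟩ := sum_congr rfl hterm
    _ = ∑ q ∈ (Ioc Z N).image (fun m => (⟨b m - 1, a m⟩ : (_ : ℕ) × ℕ)), v q :=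
        (sum_image (f := v) hinj).symm
    _ ≤ ∑ q ∈ (range N).sigma (fun k => Ioc (Z / (k + 1) ^ 2) N), v q :=
        sum_le_sum_of_subset_of_nonneg hsub fun q _ _ => hv q
    _ = _ := by
        rw [sum_sigma]
        refine sum_congr rfl fun k _ => ?_
        rw [mul_sum]

theorem TL (h : S_HBC) : S_TL := by
  intro B ε hε
  have hB : 0 ≤ |B| := abs_nonneg B
  set δ : ℝ := ε / (1 + 2 * |B|) with hδ
  have hδ0 : 0 < δ := by positivity
  have hδε : (1 + 2 * |B|) * δ = ε := by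
    rw [hδ]; field_simp
  obtain ⟨C, hC, hC'⟩ := h δ hδ0
  refine ⟨C * (8 + 2 / δ), by positivity, ?_⟩
  intro b X Z N hX hZ hN c
  set S := ∑ p ∈ QFs b X, ‖c p‖ ^ 2 with hS
  have hS0 : 0 ≤ S := sum_nonneg fun p _ => by positivity
  have hX1 : (1 : ℝ) ≤ X := by exact_mod_cast hX
  have hX0 : (0 : ℝ) < X := by linarith
  have hZ0 : (0 : ℝ) < Z := by exact_mod_cast hZ
  have hs : 0 < Real.sqrt Z := Real.sqrt_pos.2 hZ0
  by_cases hZN : N ≤ Z
  · rw [Ioc_eq_empty (by omega), sum_empty]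
    positivity
  · have hZN' : Z < N := by omega
    have hN1 : 1 ≤ N := by omega
    have hN1' : (1 : ℝ) ≤ N := by exact_mod_cast hN1
    have hNX : (N : ℝ) ≤ (X : ℝ) ^ |B| :=
      hN.trans (Real.rpow_le_rpow_of_exponent_le hX1 (le_abs_self B))
    set D : ℝ := C * ((X : ℝ) * N) ^ δ * S with hD
    have hD0 : 0 ≤ D := by positivity
    have hA : ∀ k : ℕ, ∀ n, 1 ≤ n → n ≤ N →
        ∑ m ∈ Icc 1 n, (if Squarefree m then GG b X c ((k + 1) ^ 2 * m) else 0) ≤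
          D * ((X : ℝ) + n) := by
      intro k n hn hnN
      have h1 := hC' b X n hX hn (fun p => c p * cv p (k + 1) ^ 2)
      have h2 : ∑ m ∈ Icc 1 n, (if Squarefree m then GG b X c ((k + 1) ^ 2 * m) else 0) =
          ∑ m ∈ sqf n, ‖∑ p ∈ QFs b X, c p * cv p (k + 1) ^ 2 * cv p m‖ ^ 2 := by
        rw [sqf, sum_filter]
        refine sum_congr rfl fun m _ => ?_
        split_ifs
        · rw [GG_sq]
          rfl
        · rfl
      rw [h2]
      refine h1.trans ?_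
      have h3 := norm_sum_le b X c (k + 1)
      have hn' : (n : ℝ) ≤ N := by exact_mod_cast hnN
      have hn0 : (0 : ℝ) ≤ n := Nat.cast_nonneg n
      have h4 : ((X : ℝ) * n) ^ δ ≤ ((X : ℝ) * N) ^ δ :=
        Real.rpow_le_rpow (by positivity) (mul_le_mul_of_nonneg_left hn' hX0.le) hδ0.le
      calc C * ((X : ℝ) * n) ^ δ * (X + n) * ∑ p ∈ QFs b X, ‖c p * cv p (k + 1) ^ 2‖ ^ 2
          ≤ C * ((X : ℝ) * N) ^ δ * (X + n) * S := by gcongr
        _ = D * ((X : ℝ) + n) := by rw [hD]; ring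
    have h5 := decomp (GG b X c) (GG_nonneg b X c) Z N hZ
    have h6 : ∀ k ∈ range N, 1 / (((k + 1 : ℕ) : ℝ)) ^ 2 *
        ∑ m ∈ Ioc (Z / (k + 1) ^ 2) N,
          (if Squarefree m then GG b X c ((k + 1) ^ 2 * m) else 0) / m ≤
        D * X * (1 / ((((k + 1 : ℕ) : ℝ)) ^ 2 * (((Z / (k + 1) ^ 2 : ℕ) : ℝ) + 1))) +
          D * (2 + Real.log N) * (1 / (((k + 1 : ℕ) : ℝ)) ^ 2) := by
      intro k _
      have hW : Z / (k + 1) ^ 2 + 1 ≤ N := by
        have := Nat.div_le_self Z ((k + 1) ^ 2)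
        omega
      have h7 := one_class (fun m => if Squarefree m then GG b X c ((k + 1) ^ 2 * m) else 0)
        (Z / (k + 1) ^ 2) N X D hD0 (fun m => by
          show 0 ≤ (if Squarefree m then GG b X c ((k + 1) ^ 2 * m) else 0)
          split_ifs
          · exact GG_nonneg _ _ _ _
          · exact le_rfl) hW (hA k)
      have h8 : (0 : ℝ) ≤ 1 / (((k + 1 : ℕ) : ℝ)) ^ 2 := by positivity
      refine (mul_le_mul_of_nonneg_left h7 h8).trans (le_of_eq ?_)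
      have h9 : (((Z / (k + 1) ^ 2 : ℕ) : ℝ) + 1) ≠ 0 := by positivity
      have h10 : (((k + 1 : ℕ) : ℝ)) ≠ 0 := by positivity
      field_simp
    have h11 := h5.trans (sum_le_sum h6)
    rw [sum_add_distrib, ← mul_sum, ← mul_sum] at h11
    have h12 := sum_inv N
    have h13 := sum_min N Z hZ
    have hlog0 : 0 ≤ Real.log N := Real.log_nonneg hN1'
    have h14 : D * X * ∑ k ∈ range N,
          1 / ((((k + 1 : ℕ) : ℝ)) ^ 2 * (((Z / (k + 1) ^ 2 : ℕ) : ℝ) + 1)) +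
        D * (2 + Real.log N) * ∑ k ∈ range N, 1 / (((k + 1 : ℕ) : ℝ)) ^ 2 ≤
        D * X * (4 / Real.sqrt Z) + D * (2 + Real.log N) * 2 := by
      refine add_le_add (mul_le_mul_of_nonneg_left h13 (by positivity))
        (mul_le_mul_of_nonneg_left h12 (by positivity))
    have h15 := h11.trans h14
    -- the powers of `X`
    have hP1 : ((X : ℝ) * N) ^ δ ≤ (X : ℝ) ^ ((1 + |B|) * δ) := by
      rw [Real.rpow_mul hX0.le]
      refine Real.rpow_le_rpow (by positivity) ?_ hδ0.le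
      rw [Real.rpow_add hX0, Real.rpow_one]
      exact mul_le_mul_of_nonneg_left hNX hX0.le
    have hP2 : Real.log N ≤ (X : ℝ) ^ (|B| * δ) / δ := by
      have h16 : Real.log N ≤ (N : ℝ) ^ δ / δ := Real.log_le_rpow_div (by positivity) hδ0
      refine h16.trans (div_le_div_of_nonneg_right ?_ hδ0.le)
      rw [Real.rpow_mul hX0.le]
      exact Real.rpow_le_rpow (by positivity) hNX hδ0.le
    have hP3 : (1 : ℝ) ≤ (X : ℝ) ^ (|B| * δ) := Real.one_le_rpow hX1 (by positivity)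
    have hP4 : (X : ℝ) ^ ((1 + |B|) * δ) * (X : ℝ) ^ (|B| * δ) = (X : ℝ) ^ ε := by
      rw [← Real.rpow_add hX0, ← hδε]
      congr 1
      ring
    have hP5 : (0 : ℝ) < (X : ℝ) ^ ((1 + |B|) * δ) := Real.rpow_pos_of_pos hX0 _
    have hD1 : D ≤ C * (X : ℝ) ^ ((1 + |B|) * δ) * S := by
      rw [hD]
      gcongr
    have hD2 : D ≤ C * (X : ℝ) ^ ε * S := by
      refine hD1.trans ?_
      rw [← hP4]
      have : (X : ℝ) ^ ((1 + |B|) * δ) ≤ (X : ℝ) ^ ((1 + |B|) * δ) * (X : ℝ) ^ (|B| * δ) :=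
        le_mul_of_one_le_right hP5.le hP3
      gcongr
    have hD3 : D * Real.log N ≤ C * (X : ℝ) ^ ε * S / δ := by
      calc D * Real.log N ≤ (C * (X : ℝ) ^ ((1 + |B|) * δ) * S) * ((X : ℝ) ^ (|B| * δ) / δ) :=
            mul_le_mul hD1 hP2 hlog0 (by positivity)
        _ = C * ((X : ℝ) ^ ((1 + |B|) * δ) * (X : ℝ) ^ (|B| * δ)) * S / δ := by ring
        _ = C * (X : ℝ) ^ ε * S / δ := by rw [hP4]
    have hE0 : 0 ≤ C * (X : ℝ) ^ ε * S := by positivity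
    have hXZ : 0 ≤ X / Real.sqrt Z := by positivity
    refine (show ∑ m ∈ Ioc Z N, ‖∑ p ∈ QFs b X, c p * cv p m‖ ^ 2 / m =
      ∑ m ∈ Ioc Z N, GG b X c m / m from rfl).trans_le (h15.trans ?_)
    have h20 : D * X * (4 / Real.sqrt Z) ≤ 4 * (C * (X : ℝ) ^ ε * S) * (X / Real.sqrt Z) := by
      calc D * X * (4 / Real.sqrt Z) = 4 * D * (X / Real.sqrt Z) := by ring
        _ ≤ 4 * (C * (X : ℝ) ^ ε * S) * (X / Real.sqrt Z) := by gcongr
    have h21 : D * (2 + Real.log N) * 2 ≤ 4 * (C * (X : ℝ) ^ ε * S) +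
        2 * (C * (X : ℝ) ^ ε * S / δ) := by linarith
    have hd : 0 ≤ 2 / δ := by positivity
    calc D * X * (4 / Real.sqrt Z) + D * (2 + Real.log N) * 2
        ≤ 4 * (C * (X : ℝ) ^ ε * S) * (X / Real.sqrt Z) + (4 * (C * (X : ℝ) ^ ε * S) +
          2 * (C * (X : ℝ) ^ ε * S / δ)) := add_le_add h20 h21
      _ = (C * (X : ℝ) ^ ε * S) * (4 * (X / Real.sqrt Z) + 4 + 2 / δ) := by ring
      _ ≤ (C * (X : ℝ) ^ ε * S) * ((8 + 2 / δ) * (1 + X / Real.sqrt Z)) := by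
          refine mul_le_mul_of_nonneg_left ?_ hE0
          nlinarith [mul_nonneg hd hXZ]
      _ = C * (8 + 2 / δ) * (X : ℝ) ^ ε * (1 + X / Real.sqrt Z) * S := by ring

end

end Pool.Agent.H84.MD
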