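import Pool.Agent.H681.MD.Asm3
import Pool.Agent.H681.MD.RM
import Pool.Agent.H681.MD.HBC
import Pool.Agent.H681.MD.TL

set_option autoImplicit false

/-!
Project MD: the assembly, fourth part: arbitrary coefficients.
-/

namespace Pool.Agent.H681.MD

open MeasureTheory Set Filter Complex Topology
open Pool.Agent.Y752.QF
open Pool.Agent.Y532.QF
open scoped ENNReal

noncomputable section

variable {k : ℕ}

/-- all coefficients -/
theorem CO (k : ℕ) (hk : 1 ≤ k) {η A θ ε : ℝ} (hη : 0 < η) (hθ0 : 0 < θ) (hθ : θ ≤ 2) (hε : 0 < ε) :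
    ∃ (C : ℝ) (X0 : ℕ), 0 < C ∧ 1 ≤ X0 ∧ ∀ (b : Bool) (X : ℕ) (H : ℝ), X0 ≤ X →
    (X : ℝ) ^ (1 + η) ≤ H → (X : ℝ) ^ θ ≤ H → H ≤ (X : ℝ) ^ A → ∀ c : DC → ℂ,
    ∫⁻ γ, ENNReal.ofReal (‖∑ p ∈ QFs b X, c p * (aL p γ - aS ⌊(X : ℝ) ^ θ⌋₊ p γ)‖ ^ 2) ∂(cub k H) ≤
      ENNReal.ofReal (C * (X : ℝ) ^ ε * ((X : ℝ) ^ (1 - θ / 2) + (X : ℝ) ^ 2 / H) * H ^ k *
        ∑ p ∈ QFs b X, ‖c p‖ ^ 2) := by
  obtain ⟨C1, X1, hC1, h1⟩ := sqO' k hk η A ε hη hε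
  obtain ⟨C2, hC2, h2⟩ := sqT (Pool.Agent.H84.MD.TL Pool.Agent.H364.MD.HBC) k A ε hε
  refine ⟨2 * C1 + 6 * C2, max X1 1, by positivity, le_max_right _ _, ?_⟩
  intro b X H hX hH1 hHθ hH2 c
  have hX1' : X1 ≤ X := (le_max_left _ _).trans hX
  have hX1n : 1 ≤ X := (le_max_right _ _).trans hX
  have hXr : (1 : ℝ) ≤ X := by exact_mod_cast hX1n
  have hX0 : (0 : ℝ) < X := by linarith
  have hHr : 1 ≤ H := le_trans (Real.one_le_rpow hXr (by linarith)) hH1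
  have hH0 : 0 < H := by linarith
  have hXθ : 1 ≤ (X : ℝ) ^ θ := Real.one_le_rpow hXr hθ0.le
  obtain ⟨Z, hZ⟩ : ∃ Z : ℕ, Z = ⌊(X : ℝ) ^ θ⌋₊ := ⟨_, rfl⟩
  obtain ⟨Y, hY⟩ : ∃ Y : ℕ, Y = ⌊H⌋₊ := ⟨_, rfl⟩
  rw [← hZ]
  have hZ1 : 1 ≤ Z := by rw [hZ]; exact Nat.le_floor (by simpa using hXθ)
  have hYH : (Y : ℝ) ≤ H := by rw [hY]; exact Nat.floor_le hH0.le
  have hZY : Z ≤ Y := by
    rw [hZ, hY]
    exact Nat.floor_le_floor hHθ
  have g1 := h1 b X H hX1' hH1 hH2 c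
  rw [← hY] at g1
  have g2 := h2 b X Y Z H hX1n hZ1 hZY hYH (hYH.trans hH2) c
  have hS0 : 0 ≤ ∑ p ∈ QFs b X, ‖c p‖ ^ 2 := Finset.sum_nonneg fun _ _ => by positivity
  have m1 : Measurable fun γ : Fin k → ℝ => ∑ p ∈ QFs b X, c p * (aL p γ - aP Y p γ) :=
    (continuous_finsetSum _ fun p hp => continuous_const.mul ((aL_cont hp).sub (aP_cont Y p))).measurable
  have m2 : Measurable fun γ : Fin k → ℝ => ∑ p ∈ QFs b X, c p * (aP Y p γ - aS Z p γ) :=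
    (continuous_finsetSum _ fun p _ => continuous_const.mul ((aP_cont Y p).sub (aS_cont Z p))).measurable
  have g3 := Pool.Agent.N879.QM.lint_add_sq
    (h := fun γ => ∑ p ∈ QFs b X, c p * (aL p γ - aS Z p γ)) m1 m2
    (by positivity) (by positivity) g1 g2 (fun γ => by
      rw [← Finset.sum_add_distrib]
      exact Finset.sum_congr rfl fun p _ => by ring)
  refine g3.trans (ENNReal.ofReal_le_ofReal ?_)
  have hZ0 : (0 : ℝ) < Z := by exact_mod_cast hZ1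
  have hXt : 1 ≤ (X : ℝ) ^ (1 - θ / 2) := Real.one_le_rpow hXr (by linarith)
  have e1 : 1 + (X : ℝ) / Real.sqrt Z ≤ 3 * (X : ℝ) ^ (1 - θ / 2) := by
    have e2 : (X : ℝ) ^ θ ≤ 4 * Z := by
      have := Nat.lt_floor_add_one ((X : ℝ) ^ θ)
      rw [← hZ] at this
      have h3 : (1 : ℝ) ≤ Z := by exact_mod_cast hZ1
      linarith
    have e3 : (X : ℝ) ^ (θ / 2) ≤ 2 * Real.sqrt Z := by
      have e4 : Real.sqrt ((X : ℝ) ^ θ) = (X : ℝ) ^ (θ / 2) := by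
        rw [Real.sqrt_eq_rpow, ← Real.rpow_mul hX0.le]
        congr 1
        ring
      rw [← e4]
      have e5 : Real.sqrt (4 * Z) = 2 * Real.sqrt Z := by
        rw [Real.sqrt_mul (by norm_num)]
        congr 1
        rw [show (4 : ℝ) = 2 ^ 2 by norm_num, Real.sqrt_sq (by norm_num)]
      rw [← e5]
      exact Real.sqrt_le_sqrt e2
    have e6 : (X : ℝ) / Real.sqrt Z ≤ 2 * (X : ℝ) ^ (1 - θ / 2) := by
      rw [div_le_iff₀ (Real.sqrt_pos.2 hZ0)]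
      calc (X : ℝ) = (X : ℝ) ^ (1 - θ / 2) * (X : ℝ) ^ (θ / 2) := by
            rw [← Real.rpow_add hX0]
            have : 1 - θ / 2 + θ / 2 = 1 := by ring
            rw [this, Real.rpow_one]
        _ ≤ (X : ℝ) ^ (1 - θ / 2) * (2 * Real.sqrt Z) := mul_le_mul_of_nonneg_left e3 (by positivity)
        _ = _ := by ring
    linarith
  have hXH : 0 ≤ (X : ℝ) ^ 2 / H := by positivity
  have e7 : 1 + (X : ℝ) ^ 2 / H ≤ (X : ℝ) ^ (1 - θ / 2) + (X : ℝ) ^ 2 / H := by linarith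
  have e8 : 1 + (X : ℝ) / Real.sqrt Z ≤ 3 * ((X : ℝ) ^ (1 - θ / 2) + (X : ℝ) ^ 2 / H) := by linarith
  calc 2 * (C1 * (X : ℝ) ^ ε * (1 + (X : ℝ) ^ 2 / H) * H ^ k * ∑ p ∈ QFs b X, ‖c p‖ ^ 2) +
        2 * (C2 * (X : ℝ) ^ ε * (1 + X / Real.sqrt Z) * H ^ k * ∑ p ∈ QFs b X, ‖c p‖ ^ 2) ≤
        2 * (C1 * (X : ℝ) ^ ε * ((X : ℝ) ^ (1 - θ / 2) + (X : ℝ) ^ 2 / H) * H ^ k * ∑ p ∈ QFs b X, ‖c p‖ ^ 2) +
        2 * (C2 * (X : ℝ) ^ ε * (3 * ((X : ℝ) ^ (1 - θ / 2) + (X : ℝ) ^ 2 / H)) * H ^ k *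
          ∑ p ∈ QFs b X, ‖c p‖ ^ 2) := by
        gcongr
    _ = _ := by ring

/-- all coefficients, all partial sums -/
theorem CM (k : ℕ) (hk : 1 ≤ k) {η A θ ε : ℝ} (hη : 0 < η) (hθ0 : 0 < θ) (hθ : θ ≤ 2) (hε : 0 < ε) :
    ∃ (δ X0 : ℝ), 0 < δ ∧ 1 ≤ X0 ∧ ∀ (b : Bool) (X : ℕ) (H : ℝ), X0 ≤ X →
    (X : ℝ) ^ (1 + η) ≤ H → (X : ℝ) ^ θ ≤ H → H ≤ (X : ℝ) ^ A → ∀ c : DC → ℂ,
    volume {γ : Fin k → ℝ | (∀ j, |γ j| ≤ H) ∧ ∃ x : ℕ,
      (X : ℝ) ^ ε * ((X : ℝ) ^ (1 / 2 - θ / 4) + X / Real.sqrt H) * Real.sqrt (∑ p ∈ QFs b X, ‖c p‖ ^ 2) <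
      ‖∑ p ∈ (QFs b X).filter (fun p => p.1 < x), c p * (aL p γ - aS ⌊(X : ℝ) ^ θ⌋₊ p γ)‖} ≤
      ENNReal.ofReal (H ^ k * (X : ℝ) ^ (-δ)) := by
  classical
  obtain ⟨C1, X1, hC1, hX1, h1⟩ := CO k hk (A := A) hη hθ0 hθ (ε := ε / 2) (by positivity)
  obtain ⟨C2, hC2, h2⟩ := Pool.Agent.H681.QF.P.logpow 2 (ε := ε / 2) (by positivity)
  obtain ⟨X2, hX2⟩ : ∃ X2 : ℝ, ∀ X : ℝ, X2 ≤ X → 4 * C2 * C1 ≤ X ^ (ε / 2) := by
    obtain ⟨X2, h5⟩ := ((tendsto_rpow_atTop (half_pos hε)).eventually_ge_atTop (4 * C2 * C1)).exists_forall_of_atTop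
    exact ⟨X2, h5⟩
  refine ⟨ε / 2, max X1 X2, by positivity, le_trans (by exact_mod_cast hX1) (le_max_left _ _), ?_⟩
  intro b X H hX hH1 hHθ hH2 c
  have hX1' : X1 ≤ X := by exact_mod_cast (le_max_left _ _).trans hX
  have hX1n : 1 ≤ X := hX1.trans hX1'
  have hXr : (1 : ℝ) ≤ X := by exact_mod_cast hX1n
  have hX0 : (0 : ℝ) < X := by linarith
  have hHr : 1 ≤ H := le_trans (Real.one_le_rpow hXr (by linarith)) hH1
  have hH0 : 0 < H := by linarith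
  set S : ℝ := ∑ p ∈ QFs b X, ‖c p‖ ^ 2 with hS
  have hS0 : 0 ≤ S := Finset.sum_nonneg fun _ _ => by positivity
  set Z : ℕ := ⌊(X : ℝ) ^ θ⌋₊ with hZ
  set g : DC → (Fin k → ℝ) → ℂ := fun p γ => if p ∈ QFs b X then aL p γ - aS Z p γ else 0 with hg
  have hgm : ∀ p, Measurable (g p) := by
    intro p
    by_cases hp : p ∈ QFs b X
    · have : g p = fun γ => aL p γ - aS Z p γ := by
        funext γ
        simp only [hg, hp, if_true]
      rw [this]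
      exact ((aL_cont hp).sub (aS_cont Z p)).measurable
    · have : g p = fun _ => 0 := by
        funext γ
        simp only [hg, hp, if_false]
      rw [this]
      exact measurable_const
  have hsum : ∀ (F : Finset DC), F ⊆ QFs b X → ∀ (c : DC → ℂ) (γ : Fin k → ℝ),
      ∑ p ∈ F, c p * g p γ = ∑ p ∈ F, c p * (aL p γ - aS Z p γ) := by
    intro F hF c γ
    refine Finset.sum_congr rfl fun p hp => ?_
    simp only [hg, hF hp, if_true]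
  set L : ℕ := Nat.log 2 X + 1 with hL
  have hqL : ∀ p ∈ QFs b X, p.1 < 2 ^ L := by
    intro p hp
    have h3 := ((mem_QFs Pool.Agent.Y845.QF.IN).1 hp).2.1
    exact lt_of_le_of_lt h3 (Nat.lt_pow_succ_log_self (by norm_num) X)
  set K : ℝ := C1 * (X : ℝ) ^ (ε / 2) * ((X : ℝ) ^ (1 - θ / 2) + (X : ℝ) ^ 2 / H) * H ^ k with hK
  have hK0 : 0 ≤ K := by positivity
  have hRM := Pool.Agent.H663.MD.RM (Fin k → ℝ) (cub k H) DC (QFs b X) g (fun p => p.1) L K hgm hqL hK0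
    (fun c => by
      simp_rw [hsum _ (Finset.Subset.refl _)]
      exact h1 b X H hX1' hH1 hHθ hH2 c) c
  simp_rw [hsum _ (Finset.filter_subset _ _)] at hRM
  have hLr : ((L : ℝ) + 1) ^ 2 ≤ 4 * (C2 * (X : ℝ) ^ (ε / 2)) := by
    have e1 : (L : ℝ) + 1 ≤ 2 * (1 + Real.log X) := by
      have e2 : ((Nat.log 2 X : ℕ) : ℝ) ≤ Real.log X / Real.log 2 := by
        rw [le_div_iff₀ (Real.log_pos (by norm_num)), ← Real.log_pow]
        refine Real.log_le_log (by positivity) ?_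
        exact_mod_cast Nat.pow_log_le_self 2 (by omega)
      have e3 : Real.log X / Real.log 2 ≤ 2 * Real.log X := by
        rw [div_le_iff₀ (Real.log_pos (by norm_num))]
        have := Real.log_two_gt_d9
        have h3 : 0 ≤ Real.log X := Real.log_natCast_nonneg _
        nlinarith
      rw [hL]
      push_cast
      linarith
    have e4 : 0 ≤ (L : ℝ) + 1 := by positivity
    calc ((L : ℝ) + 1) ^ 2 ≤ (2 * (1 + Real.log X)) ^ 2 := pow_le_pow_left₀ e4 e1 2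
      _ = 4 * (1 + Real.log X) ^ 2 := by ring
      _ ≤ _ := mul_le_mul_of_nonneg_left (h2 X hXr) (by norm_num)
  rcases hS0.eq_or_lt with hS00 | hSp
  · -- no coefficients
    have hc : ∀ p ∈ QFs b X, c p = 0 := by
      intro p hp
      have h3 := (Finset.sum_eq_zero_iff_of_nonneg (fun p _ => by positivity)).1 hS00.symm p hp
      have h4 : ‖c p‖ = 0 := by
        have := pow_eq_zero_iff (two_ne_zero) |>.1 h3
        exact this
      exact norm_eq_zero.1 h4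
    have hem : {γ : Fin k → ℝ | (∀ j, |γ j| ≤ H) ∧ ∃ x : ℕ,
        (X : ℝ) ^ ε * ((X : ℝ) ^ (1 / 2 - θ / 4) + X / Real.sqrt H) * Real.sqrt S <
        ‖∑ p ∈ (QFs b X).filter (fun p => p.1 < x), c p * (aL p γ - aS Z p γ)‖} = ∅ := by
      rw [Set.eq_empty_iff_forall_notMem]
      rintro γ ⟨-, x, hx⟩
      have h3 : ∑ p ∈ (QFs b X).filter (fun p => p.1 < x), c p * (aL p γ - aS Z p γ) = 0 := by
        refine Finset.sum_eq_zero fun p hp => ?_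
        rw [hc p (Finset.mem_filter.1 hp).1, zero_mul]
      rw [h3, ← hS00, Real.sqrt_zero, mul_zero, norm_zero] at hx
      exact lt_irrefl _ hx
    rw [hem]
    simp
  · have hlam : 0 < ((X : ℝ) ^ ε * ((X : ℝ) ^ (1 / 2 - θ / 4) + X / Real.sqrt H) * Real.sqrt S) ^ 2 := by positivity
    have hms : Measurable fun γ : Fin k → ℝ => ⨆ x : ℕ, ENNReal.ofReal
        (‖∑ p ∈ (QFs b X).filter (fun p => p.1 < x), c p * (aL p γ - aS Z p γ)‖ ^ 2) := by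
      refine Measurable.iSup fun x => ?_
      refine (Measurable.norm (Finset.measurable_sum _ fun p hp => ?_)).pow_const 2 |>.ennreal_ofReal
      exact ((aL_cont (Finset.mem_filter.1 hp).1).sub (aS_cont Z p)).measurable.const_mul _
    have h3 := meas_ge_le_lintegral_div (μ := cub k H) hms.aemeasurable
      (ε := ENNReal.ofReal (((X : ℝ) ^ ε * ((X : ℝ) ^ (1 / 2 - θ / 4) + X / Real.sqrt H) * Real.sqrt S) ^ 2))
      (by rw [Ne, ENNReal.ofReal_eq_zero, not_le]; exact hlam) ENNReal.ofReal_ne_top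
    have h4 : volume {γ : Fin k → ℝ | (∀ j, |γ j| ≤ H) ∧ ∃ x : ℕ,
        (X : ℝ) ^ ε * ((X : ℝ) ^ (1 / 2 - θ / 4) + X / Real.sqrt H) * Real.sqrt S <
        ‖∑ p ∈ (QFs b X).filter (fun p => p.1 < x), c p * (aL p γ - aS Z p γ)‖} ≤
        cub k H {γ | ENNReal.ofReal (((X : ℝ) ^ ε * ((X : ℝ) ^ (1 / 2 - θ / 4) + X / Real.sqrt H) * Real.sqrt S) ^ 2) ≤
          ⨆ x : ℕ, ENNReal.ofReal
            (‖∑ p ∈ (QFs b X).filter (fun p => p.1 < x), c p * (aL p γ - aS Z p γ)‖ ^ 2)} := by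
      rw [cub, Measure.restrict_apply (measurableSet_le measurable_const hms)]
      refine measure_mono ?_
      rintro γ ⟨g1, x, g2⟩
      refine ⟨?_, g1⟩
      refine le_trans (ENNReal.ofReal_le_ofReal ?_) (le_iSup (fun x : ℕ => ENNReal.ofReal
            (‖∑ p ∈ (QFs b X).filter (fun p => p.1 < x), c p * (aL p γ - aS Z p γ)‖ ^ 2)) x)
      exact pow_le_pow_left₀ (by positivity) g2.le 2
    refine h4.trans (h3.trans ?_)
    refine (ENNReal.div_le_div_right hRM _).trans ?_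
    rw [← ENNReal.ofReal_div_of_pos hlam]
    refine ENNReal.ofReal_le_ofReal ?_
    obtain ⟨E, hE⟩ : ∃ E : ℝ, E = (X : ℝ) ^ (1 - θ / 2) + (X : ℝ) ^ 2 / H := ⟨_, rfl⟩
    have hE0 : 0 < E := by rw [hE]; positivity
    have hsH : 0 < Real.sqrt H := Real.sqrt_pos.2 hH0
    have e5 : (X : ℝ) ^ (2 * ε) * E * S ≤
        ((X : ℝ) ^ ε * ((X : ℝ) ^ (1 / 2 - θ / 4) + X / Real.sqrt H) * Real.sqrt S) ^ 2 := by
      rw [mul_pow, mul_pow, Real.sq_sqrt hS0]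
      have g1 : ((X : ℝ) ^ ε) ^ 2 = (X : ℝ) ^ (2 * ε) := by
        rw [← Real.rpow_natCast, ← Real.rpow_mul hX0.le]
        congr 1
        push_cast
        ring
      have g2 : ((X : ℝ) ^ (1 / 2 - θ / 4)) ^ 2 = (X : ℝ) ^ (1 - θ / 2) := by
        rw [← Real.rpow_natCast, ← Real.rpow_mul hX0.le]
        congr 1
        push_cast
        ring
      have g3 : (X / Real.sqrt H) ^ 2 = (X : ℝ) ^ 2 / H := by
        rw [div_pow, Real.sq_sqrt hH0.le]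
      have g4 : E ≤ ((X : ℝ) ^ (1 / 2 - θ / 4) + X / Real.sqrt H) ^ 2 := by
        rw [hE, ← g2, ← g3]
        have g5 : 0 ≤ (X : ℝ) ^ (1 / 2 - θ / 4) * (X / Real.sqrt H) := by positivity
        nlinarith
      rw [g1]
      gcongr
    rw [div_le_iff₀ hlam]
    have e6 : (X : ℝ) ^ (2 * ε) = (X : ℝ) ^ (ε / 2) * ((X : ℝ) ^ (ε / 2) * ((X : ℝ) ^ (ε / 2) * (X : ℝ) ^ (ε / 2))) := by
      rw [← Real.rpow_add hX0, ← Real.rpow_add hX0, ← Real.rpow_add hX0]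
      congr 1
      ring
    have e7 : (X : ℝ) ^ (-(ε / 2)) * (X : ℝ) ^ (ε / 2) = 1 := by
      rw [← Real.rpow_add hX0]
      simp
    have e8 := hX2 X ((le_max_right _ _).trans hX)
    calc ((L : ℝ) + 1) ^ 2 * K * S ≤ 4 * (C2 * (X : ℝ) ^ (ε / 2)) * K * S := by gcongr
      _ = (4 * C2 * C1) * ((X : ℝ) ^ (ε / 2) * (X : ℝ) ^ (ε / 2) * E * H ^ k * S) := by
          rw [hK, ← hE]
          ring
      _ ≤ (X : ℝ) ^ (ε / 2) * ((X : ℝ) ^ (ε / 2) * (X : ℝ) ^ (ε / 2) * E * H ^ k * S) :=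
          mul_le_mul_of_nonneg_right e8 (by positivity)
      _ = H ^ k * ((X : ℝ) ^ (-(ε / 2)) * (X : ℝ) ^ (ε / 2)) * (E *
          ((X : ℝ) ^ (ε / 2) * ((X : ℝ) ^ (ε / 2) * (X : ℝ) ^ (ε / 2))) * S) := by
          rw [e7]
          ring
      _ = H ^ k * (X : ℝ) ^ (-(ε / 2)) * ((X : ℝ) ^ (2 * ε) * E * S) := by
          rw [e6]
          ring
      _ ≤ _ := mul_le_mul_of_nonneg_left e5 (by positivity)

end

end Pool.Agent.H681.MD
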