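import Pool.Agent.H681.MD.Stm4

/-! Project MD (helper681), part PS2: Abel summation and the Cauchy-Schwarz inequality. -/

set_option autoImplicit false

namespace Pool.Agent.H696.MD

namespace PS2t

open Complex

/-- The increments of `exp` in the left half plane. -/
theorem exp_step (z : ℂ) (hz : z.re ≤ 0) : ‖Complex.exp z - 1‖ ≤ ‖z‖ := by
  have h := Convex.norm_image_sub_le_of_norm_deriv_le (𝕜 := ℂ) (f := Complex.exp) (C := 1)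
    (s := {z : ℂ | z.re ≤ 0}) (x := 0) (y := z) (fun x _ => Complex.differentiableAt_exp)
    (fun x hx => by
      rw [Complex.deriv_exp, Complex.norm_exp]
      exact Real.exp_le_one_iff.2 hx)
    (convex_halfSpace_re_le 0) (by simp) hz
  simpa using h

theorem cpow_exp (n : ℕ) (hn : n ≠ 0) (w : ℂ) :
    (n : ℂ) ^ (-w) = Complex.exp (-(w * (Real.log n : ℂ))) := by
  rw [Complex.cpow_def_of_ne_zero (by exact_mod_cast hn), ← Complex.natCast_log]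
  congr 1
  ring

theorem norm_cpow (n : ℕ) (hn : n ≠ 0) (w : ℂ) : ‖(n : ℂ) ^ (-w)‖ = (n : ℝ) ^ (-w.re) := by
  rw [Complex.norm_natCast_cpow_of_pos (Nat.pos_of_ne_zero hn), Complex.neg_re]

/-- The main step. -/
theorem step (n : ℕ) (hn : 1 ≤ n) (w : ℂ) (h1 : 0 ≤ w.re) :
    ‖((n + 1 : ℕ) : ℂ) ^ (-w) - (n : ℂ) ^ (-w)‖ ≤ ‖w‖ * ((n : ℝ) ^ (-w.re) * (1 / n)) := by
  have hn0 : (0 : ℝ) < n := by exact_mod_cast (show 0 < n by omega)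
  have hn1 : (0 : ℝ) < ((n + 1 : ℕ) : ℝ) := by positivity
  rw [← norm_cpow n (by omega) w, cpow_exp (n + 1) (by omega), cpow_exp n (by omega)]
  obtain ⟨u, hu⟩ : ∃ u, u = Real.log n := ⟨_, rfl⟩
  obtain ⟨v, hv⟩ : ∃ v, v = Real.log ((n + 1 : ℕ) : ℝ) := ⟨_, rfl⟩
  have huv : u ≤ v := by
    rw [hu, hv]
    exact Real.log_le_log hn0 (by push_cast; linarith)
  have hl : v - u ≤ 1 / n := by
    rw [hu, hv, ← Real.log_div hn1.ne' hn0.ne']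
    have h2 := Real.log_le_sub_one_of_pos (div_pos hn1 hn0)
    refine h2.trans (le_of_eq ?_)
    push_cast
    field_simp
    ring
  rw [← hu, ← hv]
  have e1 : Complex.exp (-(w * (v : ℂ))) - Complex.exp (-(w * (u : ℂ))) =
      Complex.exp (-(w * (u : ℂ))) * (Complex.exp (-(w * ((v - u : ℝ) : ℂ))) - 1) := by
    rw [mul_sub, mul_one, ← Complex.exp_add]
    congr 2
    push_cast
    ring
  have e3 : ‖Complex.exp (-(w * ((v - u : ℝ) : ℂ))) - 1‖ ≤ ‖w‖ * (v - u) := by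
    refine (exp_step _ ?_).trans (le_of_eq ?_)
    · have : (-(w * ((v - u : ℝ) : ℂ))).re = -(w.re * (v - u)) := by simp
      rw [this]
      have : 0 ≤ w.re * (v - u) := mul_nonneg h1 (by linarith)
      linarith
    · rw [norm_neg, norm_mul, Complex.norm_real, Real.norm_eq_abs, abs_of_nonneg (by linarith)]
  rw [e1, norm_mul]
  calc ‖Complex.exp (-(w * (u : ℂ)))‖ * ‖Complex.exp (-(w * ((v - u : ℝ) : ℂ))) - 1‖ ≤
      ‖Complex.exp (-(w * (u : ℂ)))‖ * (‖w‖ * (1 / n)) :=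
        mul_le_mul_of_nonneg_left (e3.trans (mul_le_mul_of_nonneg_left hl (norm_nonneg _))) (norm_nonneg _)
    _ = ‖w‖ * (‖Complex.exp (-(w * (u : ℂ)))‖ * (1 / n)) := by ring

theorem harm (Y X : ℕ) (hY : 1 ≤ Y) (hX : Y ≤ X) : ∑ n ∈ Finset.Ico Y X, (1 : ℝ) / n ≤ 1 + Real.log X := by
  have hX0 : 1 ≤ X := hY.trans hX
  have h1 : ∑ n ∈ Finset.Ico Y X, (1 : ℝ) / n ≤ ∑ n ∈ Finset.Icc 1 X, (1 : ℝ) / n := by
    refine Finset.sum_le_sum_of_subset_of_nonneg ?_ ?_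
    · intro n hn
      rw [Finset.mem_Ico] at hn
      rw [Finset.mem_Icc]
      omega
    · intro n _ _
      positivity
  refine h1.trans ?_
  have h2 := harmonic_le_one_add_log X
  rw [harmonic_eq_sum_Icc] at h2
  push_cast at h2
  simpa only [one_div] using h2

theorem ps2 (a : ℕ → ℂ) (R : ℂ) (Y X : ℕ) (hY : 1 ≤ Y) (hYX : Y ≤ X) (w : ℂ) (hw : 1 / 2 ≤ w.re) :
    ‖∑ n ∈ Finset.Ico Y X, a n * (n : ℂ) ^ (-w) - R * ∑ n ∈ Finset.Ico Y X, (n : ℂ) ^ (-w)‖ ^ 2 ≤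
    16 * (1 + ‖w‖) ^ 2 * (Y : ℝ) ^ (1 - 2 * w.re) * (1 + Real.log X) *
      (‖∑ m ∈ Finset.range X, a m - (X : ℂ) * R‖ ^ 2 / X + ‖∑ m ∈ Finset.range Y, a m - (Y : ℂ) * R‖ ^ 2 / Y +
        ∑ n ∈ Finset.Icc 1 X, ‖∑ m ∈ Finset.range n, a m - (n : ℂ) * R‖ ^ 2 / (n : ℝ) ^ 2) := by
  obtain ⟨E, hEd⟩ : ∃ E : ℕ → ℂ, ∀ x, E x = ∑ n ∈ Finset.range x, a n - (x : ℂ) * R :=
    ⟨_, fun _ => rfl⟩
  -- the identity
  have hid : ∀ Z : ℕ, Y ≤ Z →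
      ∑ n ∈ Finset.Ico Y Z, a n * (n : ℂ) ^ (-w) - R * ∑ n ∈ Finset.Ico Y Z, (n : ℂ) ^ (-w) =
      E Z * (Z : ℂ) ^ (-w) - E Y * (Y : ℂ) ^ (-w) -
        ∑ n ∈ Finset.Ico Y Z, E (n + 1) * (((n + 1 : ℕ) : ℂ) ^ (-w) - (n : ℂ) ^ (-w)) := by
    intro Z hZ
    induction Z, hZ using Nat.le_induction with
    | base => simp
    | succ Z hZ ih =>
      rw [Finset.sum_Ico_succ_top hZ, Finset.sum_Ico_succ_top hZ, Finset.sum_Ico_succ_top hZ]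
      have h3 : E (Z + 1) = E Z + a Z - R := by
        rw [hEd, hEd, Finset.sum_range_succ]
        push_cast
        ring
      rw [mul_add]
      have h4 : ∑ n ∈ Finset.Ico Y Z, a n * (n : ℂ) ^ (-w) + a Z * (Z : ℂ) ^ (-w) -
          (R * ∑ n ∈ Finset.Ico Y Z, (n : ℂ) ^ (-w) + R * (Z : ℂ) ^ (-w)) =
          (∑ n ∈ Finset.Ico Y Z, a n * (n : ℂ) ^ (-w) -
            R * ∑ n ∈ Finset.Ico Y Z, (n : ℂ) ^ (-w)) + (a Z - R) * (Z : ℂ) ^ (-w) := by ring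
      rw [h4, ih, h3]
      ring
  rw [hid X hYX, ← hEd X, ← hEd Y]
  have hS : ∑ n ∈ Finset.Icc 1 X, ‖∑ m ∈ Finset.range n, a m - (n : ℂ) * R‖ ^ 2 / (n : ℝ) ^ 2 =
      ∑ n ∈ Finset.Icc 1 X, ‖E n‖ ^ 2 / (n : ℝ) ^ 2 := Finset.sum_congr rfl fun n _ => by rw [hEd]
  rw [hS]
  clear hid hS
  have hY0 : (0 : ℝ) < Y := by exact_mod_cast (show 0 < Y by omega)
  have hX0 : (0 : ℝ) < X := by exact_mod_cast (show 0 < X by omega)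
  have hYX' : (Y : ℝ) ≤ X := by exact_mod_cast hYX
  have hL : 0 ≤ Real.log X := Real.log_natCast_nonneg X
  have hU : ∀ n : ℕ, Y ≤ n → ((n : ℝ) ^ (-w.re)) ^ 2 ≤ (Y : ℝ) ^ (1 - 2 * w.re) / n := by
    intro n hn
    have hn0 : (0 : ℝ) < n := by exact_mod_cast (show 0 < n by omega)
    have hn' : (Y : ℝ) ≤ n := by exact_mod_cast hn
    have h1 : ((n : ℝ) ^ (-w.re)) ^ 2 = (n : ℝ) ^ (1 - 2 * w.re) / n := by
      rw [← Real.rpow_natCast, ← Real.rpow_mul hn0.le, eq_div_iff hn0.ne']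
      nth_rewrite 2 [← Real.rpow_one (n : ℝ)]
      rw [← Real.rpow_add hn0]
      congr 1
      push_cast
      ring
    rw [h1]
    exact div_le_div_of_nonneg_right (Real.rpow_le_rpow_of_nonpos hY0 hn' (by linarith)) hn0.le
  have hYp : 0 ≤ (Y : ℝ) ^ (1 - 2 * w.re) := Real.rpow_nonneg hY0.le _
  -- the boundary terms
  have b1 : ∀ x : ℕ, Y ≤ x → ‖E x * (x : ℂ) ^ (-w)‖ ^ 2 ≤ (Y : ℝ) ^ (1 - 2 * w.re) * (‖E x‖ ^ 2 / x) := by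
    intro x hx
    rw [norm_mul, norm_cpow x (by omega), mul_pow]
    refine (mul_le_mul_of_nonneg_left (hU x hx) (sq_nonneg _)).trans (le_of_eq ?_)
    ring
  -- the sum
  have b4 : ‖∑ n ∈ Finset.Ico Y X, E (n + 1) * (((n + 1 : ℕ) : ℂ) ^ (-w) - (n : ℂ) ^ (-w))‖ ^ 2 ≤
      4 * ‖w‖ ^ 2 * (Y : ℝ) ^ (1 - 2 * w.re) * (1 + Real.log X) * ∑ n ∈ Finset.Icc 1 X, ‖E n‖ ^ 2 / (n : ℝ) ^ 2 := by
    have h3 : ‖∑ n ∈ Finset.Ico Y X, E (n + 1) * (((n + 1 : ℕ) : ℂ) ^ (-w) - (n : ℂ) ^ (-w))‖ ≤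
        ‖w‖ * ∑ n ∈ Finset.Ico Y X, (‖E (n + 1)‖ / ((n + 1 : ℕ) : ℝ)) *
          (((n + 1 : ℕ) : ℝ) * ((n : ℝ) ^ (-w.re) * (1 / n))) := by
      refine (norm_sum_le _ _).trans ?_
      rw [Finset.mul_sum]
      refine Finset.sum_le_sum fun n hn => ?_
      rw [Finset.mem_Ico] at hn
      rw [norm_mul]
      refine (mul_le_mul_of_nonneg_left (step n (by omega) w (by linarith)) (norm_nonneg _)).trans (le_of_eq ?_)
      have hn1 : ((n + 1 : ℕ) : ℝ) ≠ 0 := by positivity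
      field_simp
    have h4 := Finset.sum_mul_sq_le_sq_mul_sq (Finset.Ico Y X) (fun n => ‖E (n + 1)‖ / ((n + 1 : ℕ) : ℝ))
      (fun n => ((n + 1 : ℕ) : ℝ) * ((n : ℝ) ^ (-w.re) * (1 / n)))
    have h5 : ∑ n ∈ Finset.Ico Y X, (‖E (n + 1)‖ / ((n + 1 : ℕ) : ℝ)) ^ 2 ≤
        ∑ n ∈ Finset.Icc 1 X, ‖E n‖ ^ 2 / (n : ℝ) ^ 2 := by
      have h6 : ∑ n ∈ Finset.Ico Y X, (‖E (n + 1)‖ / ((n + 1 : ℕ) : ℝ)) ^ 2 =
          ∑ n ∈ Finset.Ico (Y + 1) (X + 1), ‖E n‖ ^ 2 / (n : ℝ) ^ 2 := by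
        rw [← Finset.sum_Ico_add' (fun n => ‖E n‖ ^ 2 / (n : ℝ) ^ 2) Y X 1]
        refine Finset.sum_congr rfl fun n _ => ?_
        rw [div_pow]
      rw [h6]
      refine Finset.sum_le_sum_of_subset_of_nonneg ?_ ?_
      · intro n hn
        rw [Finset.mem_Ico] at hn
        rw [Finset.mem_Icc]
        omega
      · intro n _ _
        positivity
    have h6 : ∑ n ∈ Finset.Ico Y X, (((n + 1 : ℕ) : ℝ) * ((n : ℝ) ^ (-w.re) * (1 / n))) ^ 2 ≤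
        4 * (Y : ℝ) ^ (1 - 2 * w.re) * (1 + Real.log X) := by
      have h7 : ∀ n ∈ Finset.Ico Y X, (((n + 1 : ℕ) : ℝ) * ((n : ℝ) ^ (-w.re) * (1 / n))) ^ 2 ≤
          4 * (Y : ℝ) ^ (1 - 2 * w.re) * (1 / n) := by
        intro n hn
        rw [Finset.mem_Ico] at hn
        have hn0 : (0 : ℝ) < n := by exact_mod_cast (show 0 < n by omega)
        have hn1 : (1 : ℝ) ≤ n := by exact_mod_cast (show 1 ≤ n by omega)
        have h8 : (((n + 1 : ℕ) : ℝ) * (1 / n)) ^ 2 ≤ 4 := by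
          have h9 : ((n + 1 : ℕ) : ℝ) * (1 / n) ≤ 2 := by
            rw [mul_one_div, div_le_iff₀ hn0]
            push_cast
            linarith
          have h10 : 0 ≤ ((n + 1 : ℕ) : ℝ) * (1 / n) := by positivity
          nlinarith
        calc (((n + 1 : ℕ) : ℝ) * ((n : ℝ) ^ (-w.re) * (1 / n))) ^ 2 =
            (((n + 1 : ℕ) : ℝ) * (1 / n)) ^ 2 * ((n : ℝ) ^ (-w.re)) ^ 2 := by ring
          _ ≤ 4 * ((Y : ℝ) ^ (1 - 2 * w.re) / n) := mul_le_mul h8 (hU n hn.1) (sq_nonneg _) (by norm_num)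
          _ = 4 * (Y : ℝ) ^ (1 - 2 * w.re) * (1 / n) := by ring
      refine (Finset.sum_le_sum h7).trans ?_
      rw [← Finset.mul_sum]
      exact mul_le_mul_of_nonneg_left (harm Y X hY hYX) (by positivity)
    have hS0 : 0 ≤ ∑ n ∈ Finset.Icc 1 X, ‖E n‖ ^ 2 / (n : ℝ) ^ 2 := Finset.sum_nonneg fun n _ => by positivity
    have h7 := mul_le_mul h5 h6 (Finset.sum_nonneg fun n _ => sq_nonneg _) hS0
    calc ‖∑ n ∈ Finset.Ico Y X, E (n + 1) * (((n + 1 : ℕ) : ℂ) ^ (-w) - (n : ℂ) ^ (-w))‖ ^ 2 ≤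
        (‖w‖ * ∑ n ∈ Finset.Ico Y X, (‖E (n + 1)‖ / ((n + 1 : ℕ) : ℝ)) *
          (((n + 1 : ℕ) : ℝ) * ((n : ℝ) ^ (-w.re) * (1 / n)))) ^ 2 := pow_le_pow_left₀ (norm_nonneg _) h3 2
      _ = ‖w‖ ^ 2 * (∑ n ∈ Finset.Ico Y X, (‖E (n + 1)‖ / ((n + 1 : ℕ) : ℝ)) *
          (((n + 1 : ℕ) : ℝ) * ((n : ℝ) ^ (-w.re) * (1 / n)))) ^ 2 := by ring
      _ ≤ ‖w‖ ^ 2 * ((∑ n ∈ Finset.Icc 1 X, ‖E n‖ ^ 2 / (n : ℝ) ^ 2) *
          (4 * (Y : ℝ) ^ (1 - 2 * w.re) * (1 + Real.log X))) :=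
            mul_le_mul_of_nonneg_left (h4.trans h7) (sq_nonneg _)
      _ = _ := by ring
  have b6 := b1 X hYX
  have b7 := b1 Y le_rfl
  obtain ⟨A, hA⟩ : ∃ A, A = E X * (X : ℂ) ^ (-w) := ⟨_, rfl⟩
  obtain ⟨B, hB⟩ : ∃ B, B = E Y * (Y : ℂ) ^ (-w) := ⟨_, rfl⟩
  obtain ⟨D, hD⟩ : ∃ D, D = ∑ n ∈ Finset.Ico Y X, E (n + 1) * (((n + 1 : ℕ) : ℂ) ^ (-w) - (n : ℂ) ^ (-w)) := ⟨_, rfl⟩
  rw [← hA] at b6
  rw [← hB] at b7
  rw [← hD] at b4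
  rw [← hA, ← hB, ← hD]
  have b8 : ‖A - B - D‖ ≤ ‖A‖ + ‖B‖ + ‖D‖ :=
    (norm_sub_le _ _).trans (add_le_add_left (norm_sub_le _ _) _)
  have b9 : ‖A - B - D‖ ^ 2 ≤ 3 * (‖A‖ ^ 2 + ‖B‖ ^ 2 + ‖D‖ ^ 2) := by
    have h3 := pow_le_pow_left₀ (norm_nonneg _) b8 2
    nlinarith [sq_nonneg (‖A‖ - ‖B‖), sq_nonneg (‖A‖ - ‖D‖), sq_nonneg (‖B‖ - ‖D‖)]
  refine b9.trans ?_
  obtain ⟨p, hp⟩ : ∃ p, p = (Y : ℝ) ^ (1 - 2 * w.re) := ⟨_, rfl⟩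
  obtain ⟨s, hs⟩ : ∃ s, s = ∑ n ∈ Finset.Icc 1 X, ‖E n‖ ^ 2 / (n : ℝ) ^ 2 := ⟨_, rfl⟩
  obtain ⟨x, hx⟩ : ∃ x, x = ‖E X‖ ^ 2 / X := ⟨_, rfl⟩
  obtain ⟨y, hy⟩ : ∃ y, y = ‖E Y‖ ^ 2 / Y := ⟨_, rfl⟩
  have hs0 : 0 ≤ s := by rw [hs]; exact Finset.sum_nonneg fun n _ => by positivity
  have hx0 : 0 ≤ x := by rw [hx]; positivity
  have hy0 : 0 ≤ y := by rw [hy]; positivity
  rw [← hp] at b6 b7 b4 hYp
  rw [← hp, ← hs, ← hx, ← hy]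
  rw [← hs] at b4
  rw [← hx] at b6
  rw [← hy] at b7
  have hw0 : 1 ≤ (1 + ‖w‖) ^ 2 := by nlinarith [norm_nonneg w]
  have hw1 : ‖w‖ ^ 2 ≤ (1 + ‖w‖) ^ 2 := by nlinarith [norm_nonneg w]
  have hL1 : 1 ≤ 1 + Real.log X := by linarith
  have c1 : p * x ≤ (1 + ‖w‖) ^ 2 * p * (1 + Real.log X) * x := by
    have : 1 ≤ (1 + ‖w‖) ^ 2 * (1 + Real.log X) := by nlinarith
    nlinarith [mul_nonneg hYp hx0]
  have c2 : p * y ≤ (1 + ‖w‖) ^ 2 * p * (1 + Real.log X) * y := by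
    have : 1 ≤ (1 + ‖w‖) ^ 2 * (1 + Real.log X) := by nlinarith
    nlinarith [mul_nonneg hYp hy0]
  have c3 : 4 * ‖w‖ ^ 2 * p * (1 + Real.log X) * s ≤ 4 * ((1 + ‖w‖) ^ 2 * p * (1 + Real.log X) * s) := by
    have : 0 ≤ p * (1 + Real.log X) * s := by positivity
    nlinarith
  have c4 : 0 ≤ (1 + ‖w‖) ^ 2 * p * (1 + Real.log X) * x := by positivity
  have c5 : 0 ≤ (1 + ‖w‖) ^ 2 * p * (1 + Real.log X) * y := by positivity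
  have c6 : 0 ≤ (1 + ‖w‖) ^ 2 * p * (1 + Real.log X) * s := by positivity
  linarith

end PS2t

/-- **PS2.** -/
theorem PS2 : Pool.Agent.H681.MD.S_PS2 := by
  intro a R Y X hY hYX w hw
  exact PS2t.ps2 a R Y X hY hYX w hw

end Pool.Agent.H696.MD
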