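import Pool.Agent.H681.MD.Asm3
import Pool.Agent.H681.MD.PS2

set_option autoImplicit false

/-!
Project MD: the assembly, fifth part: partial summation.
-/

namespace Pool.Agent.H681.MD

open MeasureTheory Set Filter Complex Topology
open Pool.Agent.Y752.QF
open Pool.Agent.Y532.QF
open scoped ENNReal

noncomputable section

variable {k : ℕ}

/-- Abel summation -/
lemma abel_g (G g : ℕ → ℂ) (Y X : ℕ) (hYX : Y ≤ X) :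
    ∑ n ∈ Finset.Ico Y X, (G (n + 1) - G n) * g n =
      g X * G X - g Y * G Y - ∑ n ∈ Finset.Ico Y X, G (n + 1) * (g (n + 1) - g n) := by
  induction X, hYX using Nat.le_induction with
  | base => simp
  | succ X hX ih =>
    rw [Finset.sum_Ico_succ_top hX, Finset.sum_Ico_succ_top hX, ih]
    ring

/-- partial summation with the Cauchy-Schwarz inequality -/
theorem PSg (G g : ℕ → ℂ) (Y X : ℕ) (hY : 1 ≤ Y) (hYX : Y ≤ X) :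
    ‖∑ n ∈ Finset.Ico Y X, (G (n + 1) - G n) * g n‖ ^ 2 ≤
      3 * (X * ‖g X‖ ^ 2 + Y * ‖g Y‖ ^ 2 + ∑ n ∈ Finset.Ico Y X, ((n : ℝ) + 1) ^ 2 * ‖g (n + 1) - g n‖ ^ 2) *
      (‖G X‖ ^ 2 / X + ‖G Y‖ ^ 2 / Y + ∑ n ∈ Finset.Icc 1 X, ‖G n‖ ^ 2 / (n : ℝ) ^ 2) := by
  have hY0 : (0 : ℝ) < Y := by exact_mod_cast hY
  have hX0 : (0 : ℝ) < X := by exact_mod_cast (hY.trans hYX)
  rw [abel_g G g Y X hYX]
  obtain ⟨P, hP⟩ : ∃ P : ℝ, P = ∑ n ∈ Finset.Ico Y X, ((n : ℝ) + 1) ^ 2 * ‖g (n + 1) - g n‖ ^ 2 := ⟨_, rfl⟩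
  obtain ⟨Q, hQ⟩ : ∃ Q : ℝ, Q = ∑ n ∈ Finset.Icc 1 X, ‖G n‖ ^ 2 / (n : ℝ) ^ 2 := ⟨_, rfl⟩
  have hP0 : 0 ≤ P := by rw [hP]; exact Finset.sum_nonneg fun _ _ => by positivity
  have hQ0 : 0 ≤ Q := by rw [hQ]; exact Finset.sum_nonneg fun _ _ => by positivity
  have h1 : ‖∑ n ∈ Finset.Ico Y X, G (n + 1) * (g (n + 1) - g n)‖ ^ 2 ≤ P * Q := by
    have e1 : ‖∑ n ∈ Finset.Ico Y X, G (n + 1) * (g (n + 1) - g n)‖ ≤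
        ∑ n ∈ Finset.Ico Y X, (((n : ℝ) + 1) * ‖g (n + 1) - g n‖) * (‖G (n + 1)‖ / ((n : ℝ) + 1)) := by
      refine (norm_sum_le _ _).trans (Finset.sum_le_sum fun n _ => le_of_eq ?_)
      rw [norm_mul]
      have : (n : ℝ) + 1 ≠ 0 := by positivity
      field_simp
    have e2 := Finset.sum_mul_sq_le_sq_mul_sq (Finset.Ico Y X)
      (fun n : ℕ => ((n : ℝ) + 1) * ‖g (n + 1) - g n‖) (fun n : ℕ => ‖G (n + 1)‖ / ((n : ℝ) + 1))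
    have e3 : ∑ n ∈ Finset.Ico Y X, (‖G (n + 1)‖ / ((n : ℝ) + 1)) ^ 2 ≤ Q := by
      rw [hQ]
      have e4 : ∑ n ∈ Finset.Ico Y X, (‖G (n + 1)‖ / ((n : ℝ) + 1)) ^ 2 =
          ∑ n ∈ Finset.Ico (Y + 1) (X + 1), ‖G n‖ ^ 2 / (n : ℝ) ^ 2 := by
        rw [Finset.sum_Ico_add' (fun n : ℕ => ‖G n‖ ^ 2 / (n : ℝ) ^ 2) Y X 1 |>.symm]
        refine Finset.sum_congr rfl fun n _ => ?_
        rw [div_pow]
        push_cast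
        rfl
      rw [e4]
      refine Finset.sum_le_sum_of_subset_of_nonneg ?_ fun n _ _ => by positivity
      intro n hn
      rw [Finset.mem_Ico] at hn
      rw [Finset.mem_Icc]
      omega
    have e5 : ∑ n ∈ Finset.Ico Y X, (((n : ℝ) + 1) * ‖g (n + 1) - g n‖) ^ 2 = P := by
      rw [hP]
      exact Finset.sum_congr rfl fun n _ => by rw [mul_pow]
    calc ‖∑ n ∈ Finset.Ico Y X, G (n + 1) * (g (n + 1) - g n)‖ ^ 2 ≤ _ := pow_le_pow_left₀ (norm_nonneg _) e1 2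
      _ ≤ _ := e2
      _ ≤ P * Q := by
          rw [e5]
          exact mul_le_mul_of_nonneg_left e3 hP0
  rw [← hP, ← hQ]
  have h2 : ‖g X * G X - g Y * G Y - ∑ n ∈ Finset.Ico Y X, G (n + 1) * (g (n + 1) - g n)‖ ≤
      ‖g X * G X‖ + ‖g Y * G Y‖ + ‖∑ n ∈ Finset.Ico Y X, G (n + 1) * (g (n + 1) - g n)‖ :=
    (norm_sub_le _ _).trans (add_le_add (norm_sub_le _ _) le_rfl)
  obtain ⟨u, hu⟩ : ∃ u : ℝ, u = ‖g X * G X‖ := ⟨_, rfl⟩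
  obtain ⟨v, hv⟩ : ∃ v : ℝ, v = ‖g Y * G Y‖ := ⟨_, rfl⟩
  obtain ⟨z, hz⟩ : ∃ z : ℝ, z = ‖∑ n ∈ Finset.Ico Y X, G (n + 1) * (g (n + 1) - g n)‖ := ⟨_, rfl⟩
  rw [← hu, ← hv, ← hz] at h2
  rw [← hz] at h1
  have hu0 : 0 ≤ u := by rw [hu]; positivity
  have hv0 : 0 ≤ v := by rw [hv]; positivity
  have hz0 : 0 ≤ z := by rw [hz]; positivity
  have hu2 : u ^ 2 = (X * ‖g X‖ ^ 2) * (‖G X‖ ^ 2 / X) := by
    rw [hu, norm_mul]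
    field_simp
  have hv2 : v ^ 2 = (Y * ‖g Y‖ ^ 2) * (‖G Y‖ ^ 2 / Y) := by
    rw [hv, norm_mul]
    field_simp
  obtain ⟨a1, ha1⟩ : ∃ a1 : ℝ, a1 = X * ‖g X‖ ^ 2 := ⟨_, rfl⟩
  obtain ⟨a2, ha2⟩ : ∃ a2 : ℝ, a2 = Y * ‖g Y‖ ^ 2 := ⟨_, rfl⟩
  obtain ⟨b1, hb1⟩ : ∃ b1 : ℝ, b1 = ‖G X‖ ^ 2 / X := ⟨_, rfl⟩
  obtain ⟨b2, hb2⟩ : ∃ b2 : ℝ, b2 = ‖G Y‖ ^ 2 / Y := ⟨_, rfl⟩
  have ha10 : 0 ≤ a1 := by rw [ha1]; positivity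
  have ha20 : 0 ≤ a2 := by rw [ha2]; positivity
  have hb10 : 0 ≤ b1 := by rw [hb1]; positivity
  have hb20 : 0 ≤ b2 := by rw [hb2]; positivity
  rw [← ha1, ← hb1] at hu2
  rw [← ha2, ← hb2] at hv2
  rw [← ha1, ← ha2, ← hb1, ← hb2]
  calc ‖g X * G X - g Y * G Y - ∑ n ∈ Finset.Ico Y X, G (n + 1) * (g (n + 1) - g n)‖ ^ 2 ≤ (u + v + z) ^ 2 :=
        pow_le_pow_left₀ (norm_nonneg _) h2 2
    _ ≤ 3 * (u ^ 2 + v ^ 2 + z ^ 2) := by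
        nlinarith [sq_nonneg (u - v), sq_nonneg (v - z), sq_nonneg (u - z)]
    _ ≤ 3 * (a1 * b1 + a2 * b2 + P * Q) := by
        rw [hu2, hv2]
        linarith
    _ ≤ 3 * (a1 + a2 + P) * (b1 + b2 + Q) := by
        have e1 : 0 ≤ a1 * b2 := by positivity
        have e2 : 0 ≤ a1 * Q := by positivity
        have e3 : 0 ≤ a2 * b1 := by positivity
        have e4 : 0 ≤ a2 * Q := by positivity
        have e5 : 0 ≤ P * b1 := by positivity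
        have e6 : 0 ≤ P * b2 := by positivity
        nlinarith

lemma SS_eq (b : Bool) (X Y : ℕ) (hY : 1 ≤ Y) (hYX : Y ≤ X) (γ : Fin k → ℝ) :
    SS b X Y γ = ∑ M ∈ Finset.Icc 1 X, (M : ℝ)⁻¹ * (‖GG b X M γ‖ ^ 2 / X + ‖GG b Y M γ‖ ^ 2 / Y +
      ∑ n ∈ Finset.Icc 1 X, ‖GG b n M γ‖ ^ 2 / (n : ℝ) ^ 2) := by
  unfold SS
  simp_rw [Finset.mul_sum]
  rw [Finset.sum_comm]
  refine Finset.sum_congr rfl fun M _ => ?_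
  have e1 : ∀ n ∈ Finset.Icc 1 X, wt X Y n * ((M : ℝ)⁻¹ * ‖GG b n M γ‖ ^ 2) =
      (M : ℝ)⁻¹ * (‖GG b n M γ‖ ^ 2 / (n : ℝ) ^ 2) + (if n = X then (M : ℝ)⁻¹ * (‖GG b X M γ‖ ^ 2 / X) else 0) +
      (if n = Y then (M : ℝ)⁻¹ * (‖GG b Y M γ‖ ^ 2 / Y) else 0) := by
    intro n _
    unfold wt
    split_ifs with h1 h2 h2
    · subst h1; subst h2; ring
    · subst h1; ring
    · subst h2; ring
    · ring
  rw [Finset.sum_congr rfl e1, Finset.sum_add_distrib, Finset.sum_add_distrib,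
    Finset.sum_ite_eq' (Finset.Icc 1 X) X, Finset.sum_ite_eq' (Finset.Icc 1 X) Y,
    if_pos (Finset.mem_Icc.2 ⟨hY.trans hYX, le_rfl⟩), if_pos (Finset.mem_Icc.2 ⟨hY, hYX⟩), ← Finset.mul_sum]
  ring

/-- all weights at once -/
theorem ptG (b : Bool) (X Y : ℕ) (hY : 1 ≤ Y) (hYX : Y ≤ X) (γ : Fin k → ℝ) (a : ℕ → ℕ → ℂ)
    (ha : ∀ M n, 1 ≤ n → ∑ m ∈ Finset.range n, a M m = Sm b (n - 1) M γ) (g : ℕ → ℂ) :
    ∑ M ∈ Finset.Icc 1 X, (M : ℝ)⁻¹ *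
      ‖∑ n ∈ Finset.Ico Y X, (a M n - ((3 / Real.pi ^ 2 : ℝ) : ℂ) * TT M γ) * g n‖ ^ 2 ≤
      3 * (X * ‖g X‖ ^ 2 + Y * ‖g Y‖ ^ 2 + ∑ n ∈ Finset.Ico Y X, ((n : ℝ) + 1) ^ 2 * ‖g (n + 1) - g n‖ ^ 2) *
      SS b X Y γ := by
  rw [SS_eq b X Y hY hYX, Finset.mul_sum]
  refine Finset.sum_le_sum fun M _ => ?_
  have h1 := PSg (fun n => GG b n M γ) g Y X hY hYX
  have e1 : ∑ n ∈ Finset.Ico Y X, (a M n - ((3 / Real.pi ^ 2 : ℝ) : ℂ) * TT M γ) * g n =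
      ∑ n ∈ Finset.Ico Y X, (GG b (n + 1) M γ - GG b n M γ) * g n := by
    refine Finset.sum_congr rfl fun n hn => ?_
    have hn1 : 1 ≤ n := hY.trans (Finset.mem_Ico.1 hn).1
    congr 1
    unfold GG
    rw [← ha M (n + 1) (by omega), ← ha M n hn1, Finset.sum_range_succ]
    push_cast
    ring
  rw [e1]
  calc (M : ℝ)⁻¹ * ‖∑ n ∈ Finset.Ico Y X, (GG b (n + 1) M γ - GG b n M γ) * g n‖ ^ 2 ≤ (M : ℝ)⁻¹ * _ :=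
        mul_le_mul_of_nonneg_left h1 (by positivity)
    _ = _ := by ring

/-- the half plane -/
theorem ptW (b : Bool) (X Y : ℕ) (hY : 1 ≤ Y) (hYX : Y ≤ X) (γ : Fin k → ℝ) (a : ℕ → ℕ → ℂ)
    (ha : ∀ M n, 1 ≤ n → ∑ m ∈ Finset.range n, a M m = Sm b (n - 1) M γ) (w : ℂ) (hw : 1 / 2 ≤ w.re) :
    ∑ M ∈ Finset.Icc 1 X, (M : ℝ)⁻¹ *
      ‖∑ n ∈ Finset.Ico Y X, a M n * (n : ℂ) ^ (-w) - ((3 / Real.pi ^ 2 : ℝ) : ℂ) * TT M γ *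
        ∑ n ∈ Finset.Ico Y X, (n : ℂ) ^ (-w)‖ ^ 2 ≤
      16 * (1 + ‖w‖) ^ 2 * (Y : ℝ) ^ (1 - 2 * w.re) * (1 + Real.log X) * SS b X Y γ := by
  rw [SS_eq b X Y hY hYX, Finset.mul_sum]
  refine Finset.sum_le_sum fun M _ => ?_
  have h1 := Pool.Agent.H696.MD.PS2 (fun n => a M n) (((3 / Real.pi ^ 2 : ℝ) : ℂ) * TT M γ) Y X hY hYX w hw
  have e1 : ∀ n : ℕ, 1 ≤ n → ∑ m ∈ Finset.range n, a M m - (n : ℂ) * (((3 / Real.pi ^ 2 : ℝ) : ℂ) * TT M γ) =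
      GG b n M γ := by
    intro n hn
    unfold GG
    rw [ha M n hn]
    push_cast
    ring
  rw [e1 X (hY.trans hYX), e1 Y hY] at h1
  have e2 : ∑ n ∈ Finset.Icc 1 X, ‖∑ m ∈ Finset.range n, a M m -
      (n : ℂ) * (((3 / Real.pi ^ 2 : ℝ) : ℂ) * TT M γ)‖ ^ 2 / (n : ℝ) ^ 2 =
      ∑ n ∈ Finset.Icc 1 X, ‖GG b n M γ‖ ^ 2 / (n : ℝ) ^ 2 :=
    Finset.sum_congr rfl fun n hn => by rw [e1 n (Finset.mem_Icc.1 hn).1]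
  rw [e2] at h1
  calc (M : ℝ)⁻¹ * ‖∑ n ∈ Finset.Ico Y X, a M n * (n : ℂ) ^ (-w) - ((3 / Real.pi ^ 2 : ℝ) : ℂ) * TT M γ *
        ∑ n ∈ Finset.Ico Y X, (n : ℂ) ^ (-w)‖ ^ 2 ≤ (M : ℝ)⁻¹ * _ :=
        mul_le_mul_of_nonneg_left h1 (by positivity)
    _ = _ := by ring

end

end Pool.Agent.H681.MD
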