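import Pool.Agent.H681.MD.Asm4
import Pool.Agent.H681.MD.Asm5
import Pool.Agent.H681.QF.Brg

set_option autoImplicit false

/-!
Project MD: the families `QFs` and the characters of conductor `q` and sign `s`.
-/

namespace Pool.Agent.H681.MD

open MeasureTheory Set Filter Complex Topology
open Pool.Agent.Y752.QF
open Pool.Agent.Y532.QF
open Pool.Agent.N879.QM (Fq)
open scoped ENNReal

noncomputable section

variable {k : ℕ}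

/-- the coefficient of conductor `q` -/
def cf (s : ℤ) (M : ℕ) (γ : Fin k → ℝ) (q : ℕ) : ℂ :=
  ∑ᶠ χ ∈ Fq s q, cv ⟨q, χ⟩ M * aL ⟨q, χ⟩ γ

lemma cf_sum (b : Bool) (s : ℤ) (hs : s = if b then -1 else 1) (M n : ℕ) (hn : 1 ≤ n) (γ : Fin k → ℝ) :
    ∑ q ∈ Finset.Ico 2 n, cf s M γ q = Sm b (n - 1) M γ := by
  have h1 := Pool.Agent.H681.QF.fam_sum b s hs (n - 1) (fun p => cv p M * aL p γ)
  rw [Nat.sub_add_cancel hn] at h1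
  unfold Sm cf
  rw [h1]

lemma rng (f : ℕ → ℂ) (n : ℕ) :
    ∑ m ∈ Finset.range n, (if m < 2 then 0 else f m) = ∑ m ∈ Finset.Ico 2 n, f m := by
  rw [← Finset.sum_filter_add_sum_filter_not (Finset.range n) (fun m => m < 2)]
  have e1 : ∑ m ∈ (Finset.range n).filter (fun m => m < 2), (if m < 2 then 0 else f m) = 0 := by
    refine Finset.sum_eq_zero fun m hm => ?_
    rw [if_pos (Finset.mem_filter.1 hm).2]
  have e2 : (Finset.range n).filter (fun m => ¬ m < 2) = Finset.Ico 2 n := by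
    ext m
    simp only [Finset.mem_filter, Finset.mem_range, Finset.mem_Ico]
    omega
  rw [e1, zero_add, e2]
  refine Finset.sum_congr rfl fun m hm => ?_
  rw [if_neg (by have := (Finset.mem_Ico.1 hm).1; omega)]

/-- outside of a small set: all weights, the half plane -/
theorem genT (k : ℕ) (hk : 1 ≤ k) {η A ε : ℝ} (hη : 0 < η) (hε : 0 < ε) :
    ∃ (δ X0 : ℝ), 0 < δ ∧ ∀ (b : Bool) (s : ℤ) (X Y : ℕ) (H : ℝ), (s = if b then -1 else 1) → X0 ≤ X →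
    2 ≤ Y → Y ≤ X → (X : ℝ) ^ (1 + η) ≤ H → H ≤ (X : ℝ) ^ A →
    volume {γ : Fin k → ℝ | (∀ j, |γ j| ≤ H) ∧ ¬ (
      (∀ g : ℕ → ℂ, ∑ M ∈ Finset.Icc 1 X, (M : ℝ)⁻¹ *
        ‖∑ q ∈ Finset.Ico Y X, g q * (cf s M γ q - ((3 / Real.pi ^ 2 : ℝ) : ℂ) * TT M γ)‖ ^ 2 ≤
        (X : ℝ) ^ ε * (1 + (X : ℝ) ^ 2 / H) * (X * ‖g X‖ ^ 2 + Y * ‖g Y‖ ^ 2 +
          ∑ n ∈ Finset.Ico Y X, ((n : ℝ) + 1) ^ 2 * ‖g (n + 1) - g n‖ ^ 2)) ∧
      ∀ w : ℂ, 1 / 2 ≤ w.re → ∑ M ∈ Finset.Icc 1 X, (M : ℝ)⁻¹ *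
        ‖∑ q ∈ Finset.Ico Y X, cf s M γ q * (q : ℂ) ^ (-w) - ((3 / Real.pi ^ 2 : ℝ) : ℂ) * TT M γ *
          ∑ n ∈ Finset.Ico Y X, (n : ℂ) ^ (-w)‖ ^ 2 ≤
        (X : ℝ) ^ ε * (1 + (X : ℝ) ^ 2 / H) * ((1 + ‖w‖) ^ 2 * (Y : ℝ) ^ (1 - 2 * w.re)))} ≤
      ENNReal.ofReal (H ^ k * (X : ℝ) ^ (-δ)) := by
  obtain ⟨δ, X1, hδ, hX1, h1⟩ := S2 k hk (A := max A 2) hη (le_max_right _ _) (half_pos hε)
  obtain ⟨C2, hC2, h2⟩ := Pool.Agent.H681.QF.P.logpow 1 (ε := ε / 4) (by positivity)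
  obtain ⟨X2, hX2⟩ : ∃ X2 : ℝ, ∀ X : ℝ, X2 ≤ X → 16 * C2 ≤ X ^ (ε / 4) := by
    obtain ⟨X2, h5⟩ := ((tendsto_rpow_atTop (y := ε / 4) (by positivity)).eventually_ge_atTop
      (16 * C2)).exists_forall_of_atTop
    exact ⟨X2, h5⟩
  refine ⟨δ, max X1 X2, hδ, ?_⟩
  intro b s X Y H hs hX hY hYX hH1 hH2
  have hX1' : X1 ≤ X := (le_max_left _ _).trans hX
  have hX2' : X2 ≤ X := (le_max_right _ _).trans hX
  have hXr : (1 : ℝ) ≤ X := hX1.trans hX1'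
  have hX0 : (0 : ℝ) < X := by linarith
  have hY1 : 1 ≤ Y := by omega
  have hH2' : H ≤ (X : ℝ) ^ max A 2 :=
    hH2.trans (Real.rpow_le_rpow_of_exponent_le hXr (le_max_left _ _))
  refine (measure_mono ?_).trans (h1 b X Y H hX1' hY1 hYX hH1 hH2')
  rintro γ ⟨g1, g2⟩
  refine ⟨g1, ?_⟩
  by_contra hcon
  rw [not_lt] at hcon
  apply g2
  have hH0 : 0 < H := lt_of_lt_of_le (by positivity) hH1
  obtain ⟨D, hD⟩ : ∃ D : ℝ, D = 1 + (X : ℝ) ^ 2 / H := ⟨_, rfl⟩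
  have hD0 : 0 < D := by rw [hD]; positivity
  rw [← hD] at hcon ⊢
  have ha : ∀ M n, 1 ≤ n → ∑ m ∈ Finset.range n, (fun M m => if m < 2 then 0 else cf s M γ m) M m =
      Sm b (n - 1) M γ := by
    intro M n hn
    rw [← cf_sum b s hs M n hn γ]
    exact rng (cf s M γ) n
  have hq2 : ∀ q ∈ Finset.Ico Y X, ∀ M, (fun M m => if m < 2 then 0 else cf s M γ m) M q = cf s M γ q := by
    intro q hq M
    have h3 := (Finset.mem_Ico.1 hq).1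
    have h4 : ¬ q < 2 := by omega
    simp only [h4, if_false]
  have e1 : (X : ℝ) ^ ε = (X : ℝ) ^ (ε / 2) * ((X : ℝ) ^ (ε / 4) * (X : ℝ) ^ (ε / 4)) := by
    rw [← Real.rpow_add hX0, ← Real.rpow_add hX0]
    congr 1
    ring
  have e2 := hX2 X hX2'
  have e3 : 1 ≤ (X : ℝ) ^ (ε / 4) := Real.one_le_rpow hXr (by positivity)
  have e4 := h2 X hXr
  rw [pow_one] at e4
  have hlog : 0 ≤ Real.log X := Real.log_natCast_nonneg _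
  constructor
  · intro g
    have h3 := ptG b X Y hY1 hYX γ _ ha g
    have e5 : ∀ M, ∑ q ∈ Finset.Ico Y X, g q * (cf s M γ q - ((3 / Real.pi ^ 2 : ℝ) : ℂ) * TT M γ) =
        ∑ n ∈ Finset.Ico Y X, ((fun M m => if m < 2 then 0 else cf s M γ m) M n -
          ((3 / Real.pi ^ 2 : ℝ) : ℂ) * TT M γ) * g n := by
      intro M
      refine Finset.sum_congr rfl fun q hq => ?_
      rw [hq2 q hq M, mul_comm]
    simp_rw [e5]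
    refine h3.trans ?_
    have e6 : 0 ≤ X * ‖g X‖ ^ 2 + Y * ‖g Y‖ ^ 2 +
        ∑ n ∈ Finset.Ico Y X, ((n : ℝ) + 1) ^ 2 * ‖g (n + 1) - g n‖ ^ 2 :=
      add_nonneg (by positivity) (Finset.sum_nonneg fun _ _ => by positivity)
    obtain ⟨E, hE⟩ : ∃ E : ℝ, E = X * ‖g X‖ ^ 2 + Y * ‖g Y‖ ^ 2 +
        ∑ n ∈ Finset.Ico Y X, ((n : ℝ) + 1) ^ 2 * ‖g (n + 1) - g n‖ ^ 2 := ⟨_, rfl⟩
    rw [← hE] at e6 ⊢
    have e7 : 3 * (X : ℝ) ^ (ε / 2) ≤ (X : ℝ) ^ ε := by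
      rw [e1]
      have e8 : 3 ≤ (X : ℝ) ^ (ε / 4) * (X : ℝ) ^ (ε / 4) := by nlinarith
      have e9 : 0 < (X : ℝ) ^ (ε / 2) := by positivity
      nlinarith
    calc 3 * E * SS b X Y γ ≤ 3 * E * ((X : ℝ) ^ (ε / 2) * D) := mul_le_mul_of_nonneg_left hcon (by positivity)
      _ = 3 * (X : ℝ) ^ (ε / 2) * (D * E) := by ring
      _ ≤ (X : ℝ) ^ ε * (D * E) := mul_le_mul_of_nonneg_right e7 (by positivity)
      _ = _ := by ring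
  · intro w hw
    have h3 := ptW b X Y hY1 hYX γ _ ha w hw
    have e5 : ∀ M, ∑ q ∈ Finset.Ico Y X, cf s M γ q * (q : ℂ) ^ (-w) =
        ∑ n ∈ Finset.Ico Y X, (fun M m => if m < 2 then 0 else cf s M γ m) M n * (n : ℂ) ^ (-w) := by
      intro M
      refine Finset.sum_congr rfl fun q hq => ?_
      rw [hq2 q hq M]
    simp_rw [e5]
    refine h3.trans ?_
    have hY0 : 0 ≤ (Y : ℝ) ^ (1 - 2 * w.re) := by positivity
    have e7 : 16 * (1 + Real.log X) * (X : ℝ) ^ (ε / 2) ≤ (X : ℝ) ^ ε := by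
      rw [e1]
      have e9 : 0 < (X : ℝ) ^ (ε / 2) := by positivity
      have e8 : 16 * (1 + Real.log X) ≤ (X : ℝ) ^ (ε / 4) * (X : ℝ) ^ (ε / 4) := by
        calc 16 * (1 + Real.log X) ≤ 16 * (C2 * (X : ℝ) ^ (ε / 4)) :=
              mul_le_mul_of_nonneg_left e4 (by norm_num)
          _ = 16 * C2 * (X : ℝ) ^ (ε / 4) := by ring
          _ ≤ (X : ℝ) ^ (ε / 4) * (X : ℝ) ^ (ε / 4) := mul_le_mul_of_nonneg_right e2 (by positivity)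
      nlinarith
    calc 16 * (1 + ‖w‖) ^ 2 * (Y : ℝ) ^ (1 - 2 * w.re) * (1 + Real.log X) * SS b X Y γ ≤
          16 * (1 + ‖w‖) ^ 2 * (Y : ℝ) ^ (1 - 2 * w.re) * (1 + Real.log X) * ((X : ℝ) ^ (ε / 2) * D) :=
          mul_le_mul_of_nonneg_left hcon (by positivity)
      _ = (16 * (1 + Real.log X) * (X : ℝ) ^ (ε / 2)) * (D * ((1 + ‖w‖) ^ 2 * (Y : ℝ) ^ (1 - 2 * w.re))) := by ring
      _ ≤ (X : ℝ) ^ ε * (D * ((1 + ‖w‖) ^ 2 * (Y : ℝ) ^ (1 - 2 * w.re))) :=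
          mul_le_mul_of_nonneg_right e7 (by positivity)
      _ = _ := by ring

lemma QFs_filter (b : Bool) {x X : ℕ} (h : x ≤ X + 1) :
    (QFs b X).filter (fun p => p.1 < x) = QFs b (x - 1) := by
  ext p
  rw [Finset.mem_filter, mem_QFs Pool.Agent.Y845.QF.IN, mem_QFs Pool.Agent.Y845.QF.IN]
  unfold QFset
  constructor
  · rintro ⟨⟨h1, h2, h3⟩, h4⟩
    exact ⟨h1, by omega, h3⟩
  · rintro ⟨h1, h2, h3⟩
    have h5 : p.1 ≠ 0 := h1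
    have h6 : p.1 ≤ x - 1 := h2
    exact ⟨⟨h1, by omega, h3⟩, by omega⟩

lemma coef_le (b : Bool) (X : ℕ) (β : ℕ → ℂ) :
    ∑ p ∈ QFs b X, ‖(if p.1 < X then β p.1 else 0)‖ ^ 2 ≤ ∑ q ∈ Finset.Ico 2 X, ‖β q‖ ^ 2 := by
  classical
  have e1 : ∑ p ∈ QFs b X, ‖(if p.1 < X then β p.1 else 0)‖ ^ 2 =
      ∑ p ∈ (QFs b X).filter (fun p => p.1 < X), ‖β p.1‖ ^ 2 := by
    rw [Finset.sum_filter]
    refine Finset.sum_congr rfl fun p _ => ?_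
    split_ifs
    · rfl
    · simp
  rw [e1]
  have hinj : Set.InjOn (fun p : DC => p.1) ((QFs b X).filter (fun p => p.1 < X) : Finset DC) := by
    intro p hp p' hp' hpp
    rw [Finset.mem_coe, Finset.mem_filter, mem_QFs Pool.Agent.Y845.QF.IN] at hp hp'
    exact (Pool.Agent.Y845.QF.IN b X).2 p hp.1 p' hp'.1 hpp
  rw [← Finset.sum_image (f := fun q : ℕ => ‖β q‖ ^ 2) hinj]
  refine Finset.sum_le_sum_of_subset_of_nonneg ?_ fun _ _ _ => by positivity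
  intro q hq
  obtain ⟨p, hp, rfl⟩ := Finset.mem_image.1 hq
  rw [Finset.mem_filter, mem_QFs Pool.Agent.Y845.QF.IN] at hp
  obtain ⟨⟨h1, h2, h3, h4, h5, h6⟩, h7⟩ := hp
  rw [Finset.mem_Ico]
  refine ⟨?_, h7⟩
  by_contra hlt
  obtain ⟨q, χ⟩ := p
  simp only at h1 h5 hlt
  have : q = 1 := by omega
  subst this
  exact h5 (Subsingleton.elim _ _)

/-- outside of a small set: arbitrary coefficients -/
theorem genC (k : ℕ) (hk : 1 ≤ k) {η A θ ε : ℝ} (hη : 0 < η) (hθ0 : 0 < θ) (hθ : θ ≤ 2) (hε : 0 < ε) :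
    ∃ (δ X0 : ℝ), 0 < δ ∧ ∀ (b : Bool) (s : ℤ) (X : ℕ) (H : ℝ), (s = if b then -1 else 1) → X0 ≤ X →
    (X : ℝ) ^ (1 + η) ≤ H → (X : ℝ) ^ θ ≤ H → H ≤ (X : ℝ) ^ A → ∀ β : ℕ → ℂ,
    volume {γ : Fin k → ℝ | (∀ j, |γ j| ≤ H) ∧ ∃ x ≤ X,
      (X : ℝ) ^ ε * ((X : ℝ) ^ (1 / 2 - θ / 4) + X / Real.sqrt H) * Real.sqrt (∑ q ∈ Finset.Ico 2 X, ‖β q‖ ^ 2) <
      ‖∑ q ∈ Finset.Ico 2 x, ∑ᶠ χ ∈ Fq s q, β q * (aL ⟨q, χ⟩ γ - aS ⌊(X : ℝ) ^ θ⌋₊ ⟨q, χ⟩ γ)‖} ≤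
      ENNReal.ofReal (H ^ k * (X : ℝ) ^ (-δ)) := by
  classical
  obtain ⟨δ, X1, hδ, hX1, h1⟩ := CM k hk (A := A) hη hθ0 hθ hε
  refine ⟨δ, X1, hδ, ?_⟩
  intro b s X H hs hX hH1 hHθ hH2 β
  have hXr : (1 : ℝ) ≤ X := hX1.trans hX
  have hX0 : (0 : ℝ) < X := by linarith
  refine (measure_mono ?_).trans (h1 b X H hX hH1 hHθ hH2 (fun p => if p.1 < X then β p.1 else 0))
  rintro γ ⟨g1, x, hx, g2⟩
  refine ⟨g1, x, ?_⟩
  have e1 : ∑ p ∈ (QFs b X).filter (fun p => p.1 < x), (if p.1 < X then β p.1 else 0) *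
      (aL p γ - aS ⌊(X : ℝ) ^ θ⌋₊ p γ) =
      ∑ q ∈ Finset.Ico 2 x, ∑ᶠ χ ∈ Fq s q, β q * (aL ⟨q, χ⟩ γ - aS ⌊(X : ℝ) ^ θ⌋₊ ⟨q, χ⟩ γ) := by
    have e2 : ∑ p ∈ (QFs b X).filter (fun p => p.1 < x), (if p.1 < X then β p.1 else 0) *
        (aL p γ - aS ⌊(X : ℝ) ^ θ⌋₊ p γ) =
        ∑ p ∈ QFs b (x - 1), β p.1 * (aL p γ - aS ⌊(X : ℝ) ^ θ⌋₊ p γ) := by
      rw [← QFs_filter b (x := x) (X := X) (by omega)]
      refine Finset.sum_congr rfl fun p hp => ?_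
      rw [if_pos (lt_of_lt_of_le (Finset.mem_filter.1 hp).2 hx)]
    rw [e2]
    rw [Pool.Agent.H681.QF.fam_sum b s hs (x - 1) (fun p => β p.1 * (aL p γ - aS ⌊(X : ℝ) ^ θ⌋₊ p γ))]
    refine Finset.sum_congr ?_ fun _ _ => rfl
    ext q
    rw [Finset.mem_Ico, Finset.mem_Ico]
    omega
  rw [e1]
  refine lt_of_le_of_lt ?_ g2
  refine mul_le_mul_of_nonneg_left (Real.sqrt_le_sqrt (coef_le b X β)) (by positivity)

end

end Pool.Agent.H681.MD
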