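import Pool.Graph.R_pool_sql_team_seeded_63374d34.N879.QM.Eul

set_option autoImplicit false

/-! Project MD (helper681), second wave: the main term with a twist `M`: the Dirichlet series
`T_M = ∑_{M n_1 ⋯ n_k = □} a(M n_1 ⋯ n_k) ∏ n_j^{-s_j}` on the critical line. Notation of project QM
(N879/QM/Stm.lean, Eul.lean). -/

namespace Pool.Agent.H681.MD

open Complex MeasureTheory Set Filter
open Pool.Agent.N879.QM
open scoped ENNReal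

noncomputable section

/-- the product of the primes which divide `M` to an odd power: `M = M1 M * □` -/
def M1 (M : ℕ) : ℕ := ∏ p ∈ M.primeFactors.filter (fun p => Odd (M.factorization p)), p

/-- `m ↦ a(M m) ∑_{n_1 ⋯ n_k = M1 m²} ∏ n_j^{-s_j}`, `s_j = 1/2 + i β_j` -/
def gM {k : ℕ} (M : ℕ) (β : Fin k → ℝ) : ArithmeticFunction ℂ :=
  ⟨fun m => if m = 0 then 0 else (af (M * m) : ℂ) * ∑ n ∈ Nat.finMulAntidiag k (M1 M * m ^ 2), cx n β, by simp⟩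

/-- the coefficients of the arithmetic factor -/
def alM {k : ℕ} (M : ℕ) (β : Fin k → ℝ) : ArithmeticFunction ℂ := gM M β * ∏ r : Pr k, muA (pp β r)

/-- the local factor -/
def locM {k : ℕ} (M : ℕ) (z : Fin k → ℂ) (p : ℕ) : ℂ :=
  (∏ r : Pr k, (1 - (p : ℂ) ^ (-(1 + z r.1.1 + z r.1.2)))) *
    (if p ∣ M then 1 / 2 * ((∏ j, (1 - (p : ℂ) ^ (-(1 / 2 + z j)))⁻¹) +
        (-1) ^ (M.factorization p) * ∏ j, (1 + (p : ℂ) ^ (-(1 / 2 + z j)))⁻¹)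
      else 1 / 2 * ((∏ j, (1 - (p : ℂ) ^ (-(1 / 2 + z j)))⁻¹) +
        ∏ j, (1 + (p : ℂ) ^ (-(1 / 2 + z j)))⁻¹) + 1 / (p : ℂ)) * (1 + 1 / (p : ℂ))⁻¹

/-- the arithmetic factor -/
def AkM {k : ℕ} (M : ℕ) (z : Fin k → ℂ) : ℂ := ∏' p : Nat.Primes, locM M z p

/-- B1: a majorant of the coefficients, independent of `β` -/
def S_B1 : Prop := ∀ k : ℕ, ∃ U : ℕ → ℕ → ℝ, (∀ M b, 0 ≤ U M b) ∧
  (∀ M : ℕ, 1 ≤ M → ∀ (β : Fin k → ℝ) (b : ℕ), ‖alM M β b‖ ≤ U M b) ∧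
  ∀ δ ε : ℝ, 0 < δ → δ ≤ 1 / 4 → 0 < ε → ∃ C : ℝ, 0 < C ∧ ∀ M : ℕ, 1 ≤ M → ∀ S : Finset ℕ,
    ∑ b ∈ S, U M b * (b : ℝ) ^ (1 / 2 - δ) ≤ C * (M : ℝ) ^ ε

/-- B2: the Euler product of the arithmetic factor on the critical line -/
def S_B2 : Prop := ∀ (k M : ℕ), 1 ≤ M → ∀ β : Fin k → ℝ, (Summable fun b : ℕ => ‖alM M β b‖) ∧
  AkM M (im β) = ∑' b : ℕ, alM M β b

open Classical in
/-- the diagonal sum over the box with a twist -/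
def SM (k M Y : ℕ) (β : Fin k → ℝ) : ℂ :=
  ∑ n ∈ tup k Y, if IsSquare (M * ∏ j, n j) then (af (M * ∏ j, n j) : ℂ) * cx n β else 0

/-- B3: the box sum and the partial sum of the coefficients -/
def S_B3 : Prop := ∀ (k : ℕ) (ε : ℝ), 0 < ε → ∃ C : ℝ, 0 < C ∧ ∀ (M N Y : ℕ) (A : ℝ), 1 ≤ M → 1 ≤ N →
  M * N ^ 2 ≤ Y → (Y : ℝ) ≤ A →
  ∫⁻ β, ENNReal.ofReal (‖SM k M Y β - ∑ m ∈ Finset.Icc 1 N, gM M β m‖ ^ 2) ∂(mS k A) ≤
    ENNReal.ofReal (C * A ^ k * A ^ ε / N)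

end

end Pool.Agent.H681.MD
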