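import Pool.Agent.H681.QF.Fe
import Pool.Agent.H681.MD.Stm2

set_option autoImplicit false

/-!
Project MD: hyperbolic sums of convolutions against the product of zeta values, in mean square (the proof of
`Sint` and `Gint` in Pool/Agent/H681/QF/Fe.lean for general coefficients).
-/

namespace Pool.Agent.H681.MD

open Complex MeasureTheory Set Filter
open scoped BigOperators ENNReal
open Pool.Agent.N879.QM Pool.Agent.N879.QM.Coef
open Pool.Agent.H681.QF.P

noncomputable section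

variable {k : ℕ}

/-- weights -/
def WW (U : ℕ → ℝ) (a : ℝ) (b : ℕ) : ℝ := U b * (b : ℝ) ^ a

/-- the sum of the differences -/
theorem SintM (k : ℕ) : ∃ A₀ : ℝ, 3 ≤ A₀ ∧ ∀ ε : ℝ, 0 < ε → ∃ C : ℝ, 0 < C ∧
    ∀ (al : (Fin k → ℝ) → ℕ → ℂ) (U : ℕ → ℝ) (K : ℝ), 0 < K → (∀ b, 0 ≤ U b) → (∀ β b, ‖al β b‖ ≤ U b) →
    (∀ S : Finset ℕ, ∑ b ∈ S, U b * (b : ℝ) ^ (1 / 2 - min (ε / 4) (1 / 4)) ≤ K) →
    ∀ (N : ℕ) (A : ℝ), A₀ ≤ A →
    1 ≤ N → (N : ℝ) ^ 2 ≤ A →
    ∫⁻ β in Gd k A, ENNReal.ofReal (‖∑ b ∈ Finset.Icc 1 N, al β b * DD Finset.univ (N / b) β‖ ^ 2) ∂(mS k A) ≤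
      ENNReal.ofReal (C * K ^ 2 * A ^ k * A ^ ε / N) := by
  obtain ⟨A₀, hA₀, hD⟩ := Dint k
  refine ⟨A₀, hA₀, fun ε hε => ?_⟩
  set δ : ℝ := min (ε / 4) (1 / 4) with hδ
  have hδ0 : 0 < δ := lt_min (by positivity) (by norm_num)
  have hδ1 : δ ≤ ε / 4 := min_le_left _ _
  have hδ2 : δ ≤ 1 / 4 := min_le_right _ _
  obtain ⟨C, hC, hD⟩ := hD Finset.univ (ε / 2) (by positivity)
  refine ⟨2 * C, by positivity, ?_⟩
  intro al U K hK0 U_nonneg al_le_U WU_sum N A hA hN hNA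
  have hWn : ∀ (a : ℝ) (b : ℕ), 0 ≤ WW U a b := fun a b => mul_nonneg (U_nonneg b) (by positivity)
  have hA3 : 3 ≤ A := hA₀.trans hA
  have hA1 : 1 ≤ A := by linarith
  have hA0 : 0 < A := by linarith
  have hN1 : (1 : ℝ) ≤ N := by exact_mod_cast hN
  have hN0 : (0 : ℝ) < N := by linarith
  have hNA' : (N : ℝ) ≤ A := by nlinarith
  obtain ⟨a, ha⟩ : ∃ a : ℝ, a = 1 / 2 - δ := ⟨_, rfl⟩
  -- pointwise
  have hpt : ∀ β : Fin k → ℝ, ‖∑ b ∈ Finset.Icc 1 N, al β b * DD Finset.univ (N / b) β‖ ^ 2 ≤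
      K * ∑ b ∈ Finset.Icc 1 N, WW U (-a) b * ‖DD Finset.univ (N / b) β‖ ^ 2 := by
    intro β
    have h1 : ‖∑ b ∈ Finset.Icc 1 N, al β b * DD Finset.univ (N / b) β‖ ≤
        ∑ b ∈ Finset.Icc 1 N, U b * ‖DD Finset.univ (N / b) β‖ := by
      refine (norm_sum_le _ _).trans (Finset.sum_le_sum fun b _ => ?_)
      rw [norm_mul]
      exact mul_le_mul_of_nonneg_right (al_le_U β b) (norm_nonneg _)
    have h2 : (∑ b ∈ Finset.Icc 1 N, U b * ‖DD Finset.univ (N / b) β‖) ^ 2 ≤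
        (∑ b ∈ Finset.Icc 1 N, WW U a b) *
          ∑ b ∈ Finset.Icc 1 N, WW U (-a) b * ‖DD Finset.univ (N / b) β‖ ^ 2 := by
      refine Finset.sum_sq_le_sum_mul_sum_of_sq_le_mul _ (fun b _ => hWn a b)
        (fun b _ => mul_nonneg (hWn _ b) (by positivity)) fun b hb => le_of_eq ?_
      have hb0 : (0 : ℝ) < b := by exact_mod_cast (Finset.mem_Icc.1 hb).1
      have e : (b : ℝ) ^ a * (b : ℝ) ^ (-a) = 1 := by
        rw [← Real.rpow_add hb0, add_neg_cancel, Real.rpow_zero]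
      unfold WW
      calc (U b * ‖DD Finset.univ (N / b) β‖) ^ 2 = U b ^ 2 * 1 * ‖DD Finset.univ (N / b) β‖ ^ 2 := by ring
        _ = _ := by rw [← e]; ring
    have h3 : ∑ b ∈ Finset.Icc 1 N, WW U a b ≤ K := by
      rw [ha]
      exact WU_sum _
    refine (pow_le_pow_left₀ (norm_nonneg _) h1 2).trans (h2.trans ?_)
    refine mul_le_mul_of_nonneg_right h3 (Finset.sum_nonneg fun b _ => mul_nonneg (hWn _ b) (by positivity))
  -- integrate
  have hfl : ∀ b ∈ Finset.Icc 1 N, 1 ≤ N / b ∧ (((N / b : ℕ) : ℝ)) ^ 2 ≤ A ∧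
      (1 : ℝ) / ((N / b : ℕ) : ℝ) ≤ 2 * b / N := by
    intro b hb
    obtain ⟨hb1, hb2⟩ := Finset.mem_Icc.1 hb
    have h1 : 1 ≤ N / b := Nat.div_pos hb2 hb1
    have h2 : ((N / b : ℕ) : ℝ) ≤ N := by exact_mod_cast Nat.div_le_self N b
    have h3 : N ≤ 2 * (N / b) * b := by
      have h4 : N < (N / b + 1) * b := by
        have := Nat.lt_mul_div_succ N hb1
        rw [mul_comm]
        exact this
      nlinarith
    refine ⟨h1, (pow_le_pow_left₀ (by positivity) h2 2).trans hNA, ?_⟩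
    have h5 : (0 : ℝ) < ((N / b : ℕ) : ℝ) := by exact_mod_cast h1
    rw [div_le_div_iff₀ h5 hN0, one_mul]
    have h6 : ((N : ℕ) : ℝ) ≤ 2 * ((N / b : ℕ) : ℝ) * (b : ℝ) := by exact_mod_cast h3
    calc (N : ℝ) ≤ 2 * ((N / b : ℕ) : ℝ) * (b : ℝ) := h6
      _ = 2 * b * ((N / b : ℕ) : ℝ) := by ring
  calc ∫⁻ β in Gd k A, ENNReal.ofReal (‖∑ b ∈ Finset.Icc 1 N, al β b * DD Finset.univ (N / b) β‖ ^ 2) ∂(mS k A)
      ≤ ∫⁻ β in Gd k A, ENNReal.ofReal K * ∑ b ∈ Finset.Icc 1 N, ENNReal.ofReal (WW U (-a) b) *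
          ENNReal.ofReal (‖DD Finset.univ (N / b) β‖ ^ 2) ∂(mS k A) := by
        refine lintegral_mono fun β => ?_
        refine (ENNReal.ofReal_le_ofReal (hpt β)).trans (le_of_eq ?_)
        rw [ENNReal.ofReal_mul hK0.le, ENNReal.ofReal_sum_of_nonneg fun b _ =>
          mul_nonneg (hWn _ b) (by positivity)]
        congr 1
        exact Finset.sum_congr rfl fun b _ => ENNReal.ofReal_mul (hWn _ b)
    _ = ENNReal.ofReal K * ∑ b ∈ Finset.Icc 1 N, ENNReal.ofReal (WW U (-a) b) *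
          ∫⁻ β in Gd k A, ENNReal.ofReal (‖DD Finset.univ (N / b) β‖ ^ 2) ∂(mS k A) := by
        rw [lintegral_const_mul' _ _ ENNReal.ofReal_ne_top, lintegral_finsetSum]
        · congr 1
          refine Finset.sum_congr rfl fun b _ => ?_
          rw [lintegral_const_mul' _ _ ENNReal.ofReal_ne_top]
        · intro b _
          exact ((meas_DD _ _).norm.pow_const 2).ennreal_ofReal.const_mul _
    _ ≤ ENNReal.ofReal K * ∑ b ∈ Finset.Icc 1 N, ENNReal.ofReal (WW U (-a) b) *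
          ENNReal.ofReal (C * A ^ k * A ^ (ε / 2) * (2 * b / N)) := by
        refine mul_le_mul' le_rfl (Finset.sum_le_sum fun b hb => mul_le_mul' le_rfl ?_)
        obtain ⟨h1, h2, h3⟩ := hfl b hb
        refine (hD (N / b) A hA h1 h2).trans (ENNReal.ofReal_le_ofReal ?_)
        rw [div_eq_mul_one_div]
        exact mul_le_mul_of_nonneg_left h3 (by positivity)
    _ = ENNReal.ofReal (K * ∑ b ∈ Finset.Icc 1 N, WW U (-a) b * (C * A ^ k * A ^ (ε / 2) * (2 * b / N))) := by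
        rw [ENNReal.ofReal_mul hK0.le, ENNReal.ofReal_sum_of_nonneg fun b _ =>
          mul_nonneg (hWn _ b) (by positivity)]
        congr 1
        exact Finset.sum_congr rfl fun b _ => (ENNReal.ofReal_mul (hWn _ b)).symm
    _ ≤ ENNReal.ofReal (2 * C * K ^ 2 * A ^ k * A ^ ε / N) := by
        refine ENNReal.ofReal_le_ofReal ?_
        have h1 : ∀ b ∈ Finset.Icc 1 N, WW U (-a) b * (C * A ^ k * A ^ (ε / 2) * (2 * b / N)) ≤
            (2 * C * A ^ k * A ^ ε / N) * WW U a b := by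
          intro b hb
          obtain ⟨hb1, hb2⟩ := Finset.mem_Icc.1 hb
          have hb0 : (0 : ℝ) < b := by exact_mod_cast hb1
          have hbN : (b : ℝ) ≤ N := by exact_mod_cast hb2
          have e1 : (b : ℝ) ^ (-a) * b = (b : ℝ) ^ (2 * δ) * (b : ℝ) ^ a := by
            nth_rewrite 2 [← Real.rpow_one (b : ℝ)]
            rw [← Real.rpow_add hb0, ← Real.rpow_add hb0]
            congr 1
            rw [ha]
            ring
          have e2 : (b : ℝ) ^ (2 * δ) ≤ A ^ (ε / 2) := by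
            calc (b : ℝ) ^ (2 * δ) ≤ A ^ (2 * δ) := Real.rpow_le_rpow hb0.le (hbN.trans hNA') (by positivity)
              _ ≤ A ^ (ε / 2) := Real.rpow_le_rpow_of_exponent_le hA1 (by linarith)
          have hU := U_nonneg b
          unfold WW
          calc U b * (b : ℝ) ^ (-a) * (C * A ^ k * A ^ (ε / 2) * (2 * b / N)) =
                (2 * C * A ^ k * A ^ (ε / 2) / N) * U b * ((b : ℝ) ^ (-a) * b) := by ring
            _ = (2 * C * A ^ k * A ^ (ε / 2) / N) * U b * ((b : ℝ) ^ (2 * δ) * (b : ℝ) ^ a) := by rw [e1]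
            _ ≤ (2 * C * A ^ k * A ^ (ε / 2) / N) * U b * (A ^ (ε / 2) * (b : ℝ) ^ a) := by gcongr
            _ = (2 * C * A ^ k * (A ^ (ε / 2) * A ^ (ε / 2)) / N) * (U b * (b : ℝ) ^ a) := by ring
            _ = _ := by
                rw [← Real.rpow_add hA0]
                congr 4
                ring
        calc K * ∑ b ∈ Finset.Icc 1 N, WW U (-a) b * (C * A ^ k * A ^ (ε / 2) * (2 * b / N)) ≤
              K * ∑ b ∈ Finset.Icc 1 N, (2 * C * A ^ k * A ^ ε / N) * WW U a b :=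
              mul_le_mul_of_nonneg_left (Finset.sum_le_sum h1) hK0.le
          _ = K * ((2 * C * A ^ k * A ^ ε / N) * ∑ b ∈ Finset.Icc 1 N, WW U a b) := by rw [← Finset.mul_sum]
          _ ≤ K * ((2 * C * A ^ k * A ^ ε / N) * K) := by
              have h3 : ∑ b ∈ Finset.Icc 1 N, WW U a b ≤ K := by
                rw [ha]
                exact WU_sum _
              gcongr
          _ = _ := by ring

/-- the main term and the partial sums, in mean square -/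
theorem GintM (k : ℕ) : ∃ A₀ : ℝ, 3 ≤ A₀ ∧ ∀ ε : ℝ, 0 < ε → ∃ C : ℝ, 0 < C ∧
    ∀ (al : (Fin k → ℝ) → ℕ → ℂ) (Lm : (Fin k → ℝ) → ℂ) (U : ℕ → ℝ) (K : ℝ),
    (∀ b, Measurable fun β => al β b) → Measurable Lm → 0 < K → (∀ b, 0 ≤ U b) → (∀ β b, ‖al β b‖ ≤ U b) →
    (∀ S : Finset ℕ, ∑ b ∈ S, U b * (b : ℝ) ^ (1 / 2 - min (ε / 4) (1 / 4)) ≤ K) →
    (∀ β (N : ℕ), 1 ≤ N → ‖Lm β - ∑ b ∈ Finset.Icc 1 N, al β b‖ ≤ K * (N : ℝ) ^ (-(1 / 2 - min (ε / 4) (1 / 4)) : ℝ)) →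
    ∀ (N : ℕ) (A : ℝ), A₀ ≤ A → 1 ≤ N → (N : ℝ) ^ 2 ≤ A →
    ∫⁻ β in Gd k A, ENNReal.ofReal (‖Lm β * ∏ r : Pr k, riemannZeta (pp β r) -
      ∑ b ∈ Finset.Icc 1 N, al β b * PS Finset.univ (N / b) β‖ ^ 2) ∂(mS k A) ≤
      ENNReal.ofReal (C * K ^ 2 * A ^ k * A ^ ε / N) := by
  obtain ⟨A₁, hA₁, hS⟩ := SintM k
  obtain ⟨CZ, A₂, hCZ, hA₂, hZ⟩ := Zint
  refine ⟨max A₁ A₂, hA₁.trans (le_max_left _ _), fun ε hε => ?_⟩
  obtain ⟨C1, hC1, h1⟩ := hS ε hε
  set P : ℕ := Fintype.card (Pr k) with hP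
  obtain ⟨C2, hC2, h2⟩ := logpow (P * 2) (half_pos hε)
  set δ : ℝ := min (ε / 4) (1 / 4) with hδ
  have hδ0 : 0 < δ := lt_min (by positivity) (by norm_num)
  have hδ1 : δ ≤ ε / 4 := min_le_left _ _
  have hδ2 : δ ≤ 1 / 4 := min_le_right _ _
  refine ⟨2 * (CZ ^ (P * 2) * C2 * 2 ^ k) + 2 * C1, by positivity, ?_⟩
  intro al Lm U K meas_al hLm hK0 U_nonneg al_le_U WU_sum al_tail N A hA hN hNA
  have hAA : A₁ ≤ A := (le_max_left _ _).trans hA
  have hAB : A₂ ≤ A := (le_max_right _ _).trans hA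
  have hA3 : 3 ≤ A := hA₁.trans hAA
  have hA1 : 1 ≤ A := by linarith
  have hA0 : 0 < A := by linarith
  have hN1 : (1 : ℝ) ≤ N := by exact_mod_cast hN
  have hN0 : (0 : ℝ) < N := by linarith
  have hNA' : (N : ℝ) ≤ A := by nlinarith
  have hL : 0 ≤ 1 + Real.log A := by
    have := Real.log_nonneg hA1
    linarith
  have hGm := Gd_meas k A
  -- the tail
  have b1 : ∫⁻ β in Gd k A, ENNReal.ofReal (‖(Lm β - ∑ b ∈ Finset.Icc 1 N, al β b) *
      ∏ r : Pr k, riemannZeta (pp β r)‖ ^ 2) ∂(mS k A) ≤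
      ENNReal.ofReal (K ^ 2 * CZ ^ (P * 2) * C2 * 2 ^ k * A ^ k * A ^ ε / N) := by
    have hpt : ∀ β ∈ Gd k A, ENNReal.ofReal (‖(Lm β - ∑ b ∈ Finset.Icc 1 N, al β b) *
        ∏ r : Pr k, riemannZeta (pp β r)‖ ^ 2) ≤
        ENNReal.ofReal (K ^ 2 * CZ ^ (P * 2) * C2 * A ^ ε / N) := by
      intro β hβ
      refine ENNReal.ofReal_le_ofReal ?_
      have c1 := al_tail β N hN

      have c2 : ‖∏ r : Pr k, riemannZeta (pp β r)‖ ≤ (CZ * (1 + Real.log A)) ^ P := by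
        rw [norm_prod]
        calc ∏ r : Pr k, ‖riemannZeta (pp β r)‖ ≤ ∏ _r : Pr k, (CZ * (1 + Real.log A)) := by
              refine Finset.prod_le_prod (fun r _ => norm_nonneg _) fun r _ => ?_
              exact (hZ k r 1 A hAB le_rfl (by
                rw [Nat.cast_one]
                exact Real.one_le_rpow hA1 (by norm_num))).1 β hβ
          _ = _ := by rw [Finset.prod_const, Finset.card_univ]
      rw [norm_mul, mul_pow]
      have c3 : ‖Lm β - ∑ m ∈ Finset.Icc 1 N, al β m‖ ^ 2 ≤ K ^ 2 * (A ^ (ε / 2) / N) := by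
        refine (pow_le_pow_left₀ (norm_nonneg _) c1 2).trans ?_
        rw [mul_pow]
        refine mul_le_mul_of_nonneg_left ?_ (by positivity)
        rw [← Real.rpow_natCast, ← Real.rpow_mul hN0.le]
        have e1 : -(1 / 2 - δ) * ((2 : ℕ) : ℝ) = 2 * δ + (-1) := by push_cast; ring
        rw [e1, Real.rpow_add hN0, Real.rpow_neg_one, div_eq_mul_inv]
        refine mul_le_mul_of_nonneg_right ?_ (by positivity)
        calc (N : ℝ) ^ (2 * δ) ≤ A ^ (2 * δ) := Real.rpow_le_rpow hN0.le hNA' (by positivity)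
          _ ≤ A ^ (ε / 2) := Real.rpow_le_rpow_of_exponent_le hA1 (by linarith)
      have c4 : ‖∏ r : Pr k, riemannZeta (pp β r)‖ ^ 2 ≤ CZ ^ (P * 2) * (C2 * A ^ (ε / 2)) := by
        refine (pow_le_pow_left₀ (norm_nonneg _) c2 2).trans ?_
        rw [← pow_mul, mul_pow]
        exact mul_le_mul_of_nonneg_left (h2 A hA1) (by positivity)
      calc ‖Lm β - ∑ m ∈ Finset.Icc 1 N, al β m‖ ^ 2 * ‖∏ r : Pr k, riemannZeta (pp β r)‖ ^ 2 ≤
            (K ^ 2 * (A ^ (ε / 2) / N)) * (CZ ^ (P * 2) * (C2 * A ^ (ε / 2))) :=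
            mul_le_mul c3 c4 (by positivity) (by positivity)
        _ = K ^ 2 * CZ ^ (P * 2) * C2 * (A ^ (ε / 2) * A ^ (ε / 2)) / N := by ring
        _ = _ := by
            rw [← Real.rpow_add hA0]
            congr 3
            ring
    calc _ ≤ ∫⁻ _β in Gd k A, ENNReal.ofReal (K ^ 2 * CZ ^ (P * 2) * C2 * A ^ ε / N) ∂(mS k A) :=
          setLIntegral_mono' hGm hpt
      _ = ENNReal.ofReal (K ^ 2 * CZ ^ (P * 2) * C2 * A ^ ε / N) * mS k A (Gd k A) := by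
          rw [setLIntegral_const]
      _ ≤ ENNReal.ofReal (K ^ 2 * CZ ^ (P * 2) * C2 * A ^ ε / N) * ENNReal.ofReal ((2 * A) ^ k) := by
          refine mul_le_mul' le_rfl ((measure_mono (subset_univ _)).trans (le_of_eq ?_))
          rw [Zr.mS_univ, ENNReal.ofReal_pow (by positivity)]
      _ = _ := by
          rw [← ENNReal.ofReal_mul (by positivity), mul_pow]
          congr 1
          ring
  have b2 := h1 al U K hK0 U_nonneg al_le_U WU_sum N A hAA hN hNA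
  have m1 : Measurable fun β : Fin k → ℝ => (Lm β - ∑ b ∈ Finset.Icc 1 N, al β b) *
      ∏ r : Pr k, riemannZeta (pp β r) :=
    (hLm.sub (Finset.measurable_sum _ fun b _ => meas_al b)).mul
      (Finset.measurable_prod _ fun r _ => meas_zeta.comp (meas_pp r))
  have m2 : Measurable fun β : Fin k → ℝ => ∑ b ∈ Finset.Icc 1 N, al β b * DD Finset.univ (N / b) β :=
    Finset.measurable_sum _ fun b _ => (meas_al b).mul (meas_DD _ _)
  have b3 := lint_add_sq (h := fun β => Lm β * ∏ r : Pr k, riemannZeta (pp β r) -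
      ∑ b ∈ Finset.Icc 1 N, al β b * PS Finset.univ (N / b) β) m1 m2 (by positivity) (by positivity) b1 b2
    fun β => by
      have h2 : ∑ b ∈ Finset.Icc 1 N, al β b * DD Finset.univ (N / b) β =
          (∑ b ∈ Finset.Icc 1 N, al β b) * ∏ r : Pr k, riemannZeta (pp β r) -
            ∑ b ∈ Finset.Icc 1 N, al β b * PS Finset.univ (N / b) β := by
        rw [Finset.sum_mul, ← Finset.sum_sub_distrib]
        refine Finset.sum_congr rfl fun b _ => ?_
        unfold DD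
        ring
      rw [h2]
      ring
  refine b3.trans (ENNReal.ofReal_le_ofReal (le_of_eq ?_))
  ring


end

end Pool.Agent.H681.MD
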