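import Pool.Graph.R_pool_sql_team_seeded_1acbe0a2.Y752.QF.Final3
import Pool.Graph.R_seed8.H306R2.RZ.Defs4

set_option autoImplicit false

/-! Project MD (helper681): sums of `∏_j L(1/2 + i t_j, χ_d)` with arbitrary coefficients, for almost
all shift vectors. Statements of some parts. -/

namespace Pool.Agent.H681.MD

open MeasureTheory Set Filter Complex
open Pool.Agent.Y752.QF
open Pool.Agent.H306R2.RZ (sqf)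
open scoped ENNReal

noncomputable section

/-- RM (Rademacher-Menshov): a bound for all coefficient vectors implies a bound for the maximal
partial sum, with a factor `(L + 1)^2`. -/
def S_RM : Prop := ∀ (Ω : Type) [MeasurableSpace Ω] (μ : Measure Ω) (ι : Type) (F : Finset ι)
  (g : ι → Ω → ℂ) (q : ι → ℕ) (L : ℕ) (K : ℝ), (∀ i, Measurable (g i)) → (∀ i ∈ F, q i < 2 ^ L) → 0 ≤ K →
  (∀ c : ι → ℂ, ∫⁻ ω, ENNReal.ofReal (‖∑ i ∈ F, c i * g i ω‖ ^ 2) ∂μ ≤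
    ENNReal.ofReal (K * ∑ i ∈ F, ‖c i‖ ^ 2)) →
  ∀ c : ι → ℂ, ∫⁻ ω, (⨆ x : ℕ, ENNReal.ofReal (‖∑ i ∈ F.filter (fun i => q i < x), c i * g i ω‖ ^ 2)) ∂μ ≤
    ENNReal.ofReal (((L : ℝ) + 1) ^ 2 * K * ∑ i ∈ F, ‖c i‖ ^ 2)

/-- HBC: Heath-Brown's large sieve for the family `QFs b X`, arbitrary coefficients. -/
def S_HBC : Prop := ∀ ε : ℝ, 0 < ε → ∃ C : ℝ, 0 < C ∧ ∀ (b : Bool) (X M : ℕ), 1 ≤ X → 1 ≤ M →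
  ∀ c : DC → ℂ, ∑ m ∈ sqf M, ‖∑ p ∈ QFs b X, c p * cv p m‖ ^ 2 ≤
    C * ((X : ℝ) * M) ^ ε * (X + M) * ∑ p ∈ QFs b X, ‖c p‖ ^ 2

/-- TL: the weighted sum over `Z < m ≤ N` (all `m`). -/
def S_TL : Prop := ∀ B ε : ℝ, 0 < ε → ∃ C : ℝ, 0 < C ∧ ∀ (b : Bool) (X Z N : ℕ), 1 ≤ X → 1 ≤ Z →
  (N : ℝ) ≤ (X : ℝ) ^ B → ∀ c : DC → ℂ,
  ∑ m ∈ Finset.Ioc Z N, ‖∑ p ∈ QFs b X, c p * cv p m‖ ^ 2 / m ≤
    C * (X : ℝ) ^ ε * (1 + X / Real.sqrt Z) * ∑ p ∈ QFs b X, ‖c p‖ ^ 2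

/-- PS: partial summation. -/
def S_PS : Prop := ∀ (a : ℕ → ℂ) (R : ℂ) (Y X : ℕ) (η : ℝ), 2 ≤ Y → Y ≤ X → 0 ≤ η →
  (∀ x : ℕ, Y ≤ x → x ≤ X → ‖∑ n ∈ Finset.range x, a n - (x : ℂ) * R‖ ≤ (x : ℝ) ^ η) →
  ∀ w : ℂ, η < w.re → w.re ≤ 2 →
  ‖∑ n ∈ Finset.Ico Y X, a n * (n : ℂ) ^ (-w) - R * ∑ n ∈ Finset.Ico Y X, (n : ℂ) ^ (-w)‖ ≤
    16 * (1 + ‖w‖ / (w.re - η)) * (Y : ℝ) ^ (η - w.re)

end

end Pool.Agent.H681.MD
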