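import Pool.Graph.R_pool_sql_team_seeded_1acbe0a2.Y532.QF.Pl3
import Pool.Agent.H681.MD.Stm

set_option autoImplicit false

/-!
Project MD: mean values of polynomials in several variables whose coefficients depend on the product.
-/

namespace Pool.Agent.H681.MD

open MeasureTheory Set Filter Complex Topology
open Pool.Agent.TH612.GS (mP)
open Pool.Agent.Y752.QF
open Pool.Agent.Y532.QF
open scoped ENNReal

noncomputable section

lemma pw_split {k : ℕ} {Y : ℕ} {n : Fin k → ℕ} (hn : n ∈ Fintype.piFinset (fun _ : Fin k => Finset.Icc 1 Y))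
    (γ : Fin k → ℝ) : ∏ j, (n j : ℂ) ^ (-(1 / 2 + I * (γ j : ℂ))) =
        (∏ j, (n j : ℂ) ^ (-(1 / 2) : ℂ)) * ∏ j, chs (n j) (γ j) := by
  rw [← Finset.prod_mul_distrib]
  refine Finset.prod_congr rfl fun j _ => ?_
  have hj := (Finset.mem_Icc.1 (Fintype.mem_piFinset.1 hn j)).1
  have hj0 : (n j : ℂ) ≠ 0 := by exact_mod_cast (by omega : n j ≠ 0)
  unfold chs
  rw [neg_add, Complex.cpow_add _ _ hj0]

/-- coefficients depending on the product -/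
theorem gmv (k : ℕ) (B ε : ℝ) (hε : 0 < ε) : ∃ C : ℝ, 0 < C ∧ ∀ (σ : Fin k → Bool) (X Y : ℕ) (H : ℝ),
    1 ≤ X → 1 ≤ Y → (Y : ℝ) ≤ H → (Y : ℝ) ≤ (X : ℝ) ^ B → ∀ v : ℕ → ℂ,
    ∫⁻ γ, ENNReal.ofReal (‖∑ n ∈ Fintype.piFinset (fun _ : Fin k => Finset.Icc 1 Y),
      v (∏ j, n j) * ∏ j, (n j : ℂ) ^ (-(1 / 2 + I * (sv σ γ j : ℂ)))‖ ^ 2) ∂(mP (Fin k) H) ≤
    ENNReal.ofReal (C * (X : ℝ) ^ ε * H ^ k * ∑ m ∈ Finset.Icc 1 (Y ^ k), ‖v m‖ ^ 2 / m) := by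
  obtain ⟨C1, hC1, hMV⟩ := Pool.Agent.TH928.GS.t_MV
  set A' : ℝ := max B 0 with hA'
  have hA0 : 0 ≤ A' := le_max_right _ _
  set δ : ℝ := ε / (A' * k * k + 1) with hδ
  have hden : 0 < A' * k * k + 1 := by positivity
  have hδ0 : 0 < δ := div_pos (by positivity) hden
  obtain ⟨C3, hC3, hdiv⟩ := Pool.Agent.H510R2.divisor_bound δ hδ0
  refine ⟨(2 * C1) ^ k * C3 ^ k, by positivity, ?_⟩
  intro σ X Y H hX hY hYH hYX v
  have hX1 : (1 : ℝ) ≤ X := by exact_mod_cast hX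
  have hX0 : (0 : ℝ) < X := by linarith
  have hY1 : (1 : ℝ) ≤ Y := by exact_mod_cast hY
  have hH : 1 ≤ H := hY1.trans hYH
  have hH0 : 0 < H := by linarith
  have hYX' : (Y : ℝ) ≤ (X : ℝ) ^ A' :=
    hYX.trans (Real.rpow_le_rpow_of_exponent_le hX1 (le_max_left _ _))
  have heq : ∀ γ : Fin k → ℝ, ∑ n ∈ Fintype.piFinset (fun _ : Fin k => Finset.Icc 1 Y),
      v (∏ j, n j) * ∏ j, (n j : ℂ) ^ (-(1 / 2 + I * (sv σ γ j : ℂ))) =
      ∑ n ∈ Fintype.piFinset (fun _ : Fin k => Finset.Icc 1 Y),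
      (v (∏ j, n j) * ∏ j, (n j : ℂ) ^ (-(1 / 2) : ℂ)) * ∏ j, chs (n j) (sv σ γ j) := by
    intro γ
    refine Finset.sum_congr rfl fun n hn => ?_
    rw [pw_split hn, mul_assoc]
  simp_rw [heq]
  refine (P3.tlss hC1 hMV hH k σ (Fintype.piFinset (fun _ : Fin k => Finset.Icc 1 Y))
    (fun n => n) _ 1 ?_ ?_).trans (ENNReal.ofReal_le_ofReal ?_)
  · intro n hn i
    have hj := Finset.mem_Icc.1 (Fintype.mem_piFinset.1 hn i)
    exact ⟨hj.1, le_trans (by exact_mod_cast hj.2) hYH⟩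
  · intro n hn
    refine le_trans (Finset.card_le_card (t := {n}) ?_) (by simp)
    intro n' hn'
    rw [Finset.mem_singleton]
    exact (Finset.mem_filter.1 hn').2
  -- the coefficients
  set s := Fintype.piFinset (fun _ : Fin k => Finset.Icc 1 Y) with hs
  have hcoef : ∀ n ∈ s, ‖v (∏ j, n j) * ∏ j, (n j : ℂ) ^ (-(1 / 2) : ℂ)‖ ^ 2 =
      ‖v (∏ j, n j)‖ ^ 2 / ((∏ j, n j : ℕ) : ℝ) := by
    intro n hn
    rw [norm_mul, mul_pow, norm_prod, div_eq_mul_inv (‖v (∏ j, n j)‖ ^ 2)]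
    congr 1
    rw [← Finset.prod_pow, Nat.cast_prod, ← Finset.prod_inv_distrib]
    refine Finset.prod_congr rfl fun j _ => ?_
    have hj := (Finset.mem_Icc.1 (Fintype.mem_piFinset.1 hn j)).1
    have hj0 : (0 : ℝ) < n j := by exact_mod_cast hj
    rw [Complex.norm_natCast_cpow_of_pos (by omega)]
    have h1 : (-(1 / 2) : ℂ).re = -(1 / 2) := by norm_num
    rw [h1, ← Real.rpow_natCast, ← Real.rpow_mul hj0.le, ← Real.rpow_neg_one]
    congr 1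
    norm_num
  rw [Finset.sum_congr rfl hcoef]
  -- fibres of the product
  have hmaps : ∀ n ∈ s, (∏ j, n j) ∈ Finset.Icc 1 (Y ^ k) := by
    intro n hn
    rw [Finset.mem_Icc]
    constructor
    · have h1 : 0 < ∏ j, n j := Finset.prod_pos fun j _ =>
        Nat.lt_of_lt_of_le Nat.one_pos (Finset.mem_Icc.1 (Fintype.mem_piFinset.1 hn j)).1
      exact h1
    · calc ∏ j, n j ≤ ∏ _j : Fin k, Y := Finset.prod_le_prod' fun j _ =>
          (Finset.mem_Icc.1 (Fintype.mem_piFinset.1 hn j)).2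
        _ = Y ^ k := by simp
  have hYk : (((Y ^ k : ℕ)) : ℝ) ≤ (X : ℝ) ^ (A' * k) := by
    push_cast
    rw [Real.rpow_mul hX0.le, Real.rpow_natCast]
    exact pow_le_pow_left₀ (by linarith) hYX' k
  rw [← Finset.sum_fiberwise_of_maps_to hmaps]
  have hfib : ∀ m ∈ Finset.Icc 1 (Y ^ k), ∑ n ∈ s.filter (fun n => ∏ j, n j = m),
      ‖v (∏ j, n j)‖ ^ 2 / ((∏ j, n j : ℕ) : ℝ) ≤
        C3 ^ k * (X : ℝ) ^ ε * (‖v m‖ ^ 2 / m) := by
    intro m hm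
    obtain ⟨hm1, hm2⟩ := Finset.mem_Icc.1 hm
    have e1 : ∀ n ∈ s.filter (fun n => ∏ j, n j = m),
        ‖v (∏ j, n j)‖ ^ 2 / ((∏ j, n j : ℕ) : ℝ) = ‖v m‖ ^ 2 / m := by
      intro n hn
      rw [(Finset.mem_filter.1 hn).2]
    rw [Finset.sum_congr rfl e1, Finset.sum_const, nsmul_eq_mul]
    refine mul_le_mul_of_nonneg_right ?_ (by positivity)
    have e2 : (s.filter (fun n => ∏ j, n j = m)).card ≤ m.divisors.card ^ k := by
      have e3 : s.filter (fun n => ∏ j, n j = m) ⊆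
          Fintype.piFinset (fun _ : Fin k => m.divisors) := by
        intro n hn
        rw [Fintype.mem_piFinset]
        intro j
        rw [Nat.mem_divisors]
        refine ⟨?_, by omega⟩
        rw [← (Finset.mem_filter.1 hn).2]
        exact Finset.dvd_prod_of_mem n (Finset.mem_univ j)
      refine (Finset.card_le_card e3).trans ?_
      rw [Fintype.card_piFinset]
      simp
    have hmX : (m : ℝ) ≤ (X : ℝ) ^ (A' * k) := le_trans (by exact_mod_cast hm2) hYk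
    calc ((s.filter (fun n => ∏ j, n j = m)).card : ℝ) ≤ (m.divisors.card : ℝ) ^ k := by
          exact_mod_cast e2
      _ ≤ (C3 * (m : ℝ) ^ δ) ^ k := pow_le_pow_left₀ (by positivity) (hdiv m hm1) k
      _ ≤ (C3 * ((X : ℝ) ^ (A' * k)) ^ δ) ^ k := by
          refine pow_le_pow_left₀ (by positivity) (mul_le_mul_of_nonneg_left ?_ hC3.le) k
          exact Real.rpow_le_rpow (by positivity) hmX hδ0.le
      _ = C3 ^ k * (X : ℝ) ^ (A' * k * δ * k) := by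
          rw [mul_pow, ← Real.rpow_mul hX0.le, ← Real.rpow_natCast ((X : ℝ) ^ (A' * k * δ)),
            ← Real.rpow_mul hX0.le]
      _ ≤ C3 ^ k * (X : ℝ) ^ ε := by
          refine mul_le_mul_of_nonneg_left ?_ (by positivity)
          refine Real.rpow_le_rpow_of_exponent_le hX1 ?_
          have e4 : A' * k * δ * k = ε * (A' * k * k / (A' * k * k + 1)) := by
            rw [hδ]
            field_simp
          rw [e4]
          have e5 : A' * k * k / (A' * k * k + 1) ≤ 1 := by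
            rw [div_le_one hden]
            linarith
          nlinarith
  have hsum := Finset.sum_le_sum hfib
  rw [← Finset.mul_sum] at hsum
  calc (2 * C1 * H) ^ k * (((1 : ℕ) : ℝ) * ∑ m ∈ Finset.Icc 1 (Y ^ k),
        ∑ n ∈ s.filter (fun n => ∏ j, n j = m),
          ‖v (∏ j, n j)‖ ^ 2 / ((∏ j, n j : ℕ) : ℝ))
      ≤ (2 * C1 * H) ^ k * (((1 : ℕ) : ℝ) * (C3 ^ k * (X : ℝ) ^ ε *
          ∑ m ∈ Finset.Icc 1 (Y ^ k), ‖v m‖ ^ 2 / m)) := by
        refine mul_le_mul_of_nonneg_left (mul_le_mul_of_nonneg_left ?_ (by positivity))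
          (by positivity)
        exact hsum
    _ = _ := by
        rw [mul_pow]
        push_cast
        ring

/-- the product of the polynomials -/
lemma prod_PY {k : ℕ} (Y : ℕ) (p : DC) (γ : Fin k → ℝ) : ∏ j, PY Y p (γ j) =
    ∑ n ∈ Fintype.piFinset (fun _ : Fin k => Finset.Icc 1 Y),
      cv p (∏ j, n j) * ∏ j, (n j : ℂ) ^ (-(1 / 2 + I * (γ j : ℂ))) := by
  unfold PY
  rw [Finset.prod_univ_sum]
  refine Finset.sum_congr rfl fun n _ => ?_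
  rw [Finset.prod_mul_distrib, cv_prod]

/-- the diagonal sum with a twist -/
def DM (k M Y : ℕ) (γ : Fin k → ℝ) : ℂ :=
  ∑ n ∈ Fintype.piFinset (fun _ : Fin k => Finset.Icc 1 Y),
    ((if IsSquare (M * ∏ j, n j) then hw (M * ∏ j, n j) else 0 : ℝ) : ℂ) *
      ∏ j, (n j : ℂ) ^ (-(1 / 2 + I * (γ j : ℂ)))

lemma diffM (b : Bool) (x Y M : ℕ) {k : ℕ} (γ : Fin k → ℝ) :
    ∑ p ∈ QFs b x, cv p M * ∏ j, PY Y p (γ j) - (3 / Real.pi ^ 2 * x : ℝ) * DM k M Y γ =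
      ∑ n ∈ Fintype.piFinset (fun _ : Fin k => Finset.Icc 1 Y),
        Ee b x (M * ∏ j, n j) * ∏ j, (n j : ℂ) ^ (-(1 / 2 + I * (γ j : ℂ))) := by
  have h1 : ∀ p ∈ QFs b x, cv p M * ∏ j, PY Y p (γ j) =
      ∑ n ∈ Fintype.piFinset (fun _ : Fin k => Finset.Icc 1 Y),
        cv p (M * ∏ j, n j) * ∏ j, (n j : ℂ) ^ (-(1 / 2 + I * (γ j : ℂ))) := by
    intro p _
    rw [prod_PY, Finset.mul_sum]
    refine Finset.sum_congr rfl fun n _ => ?_
    rw [cv_mul, mul_assoc]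
  rw [Finset.sum_congr rfl h1, Finset.sum_comm]
  unfold DM
  rw [Finset.mul_sum, ← Finset.sum_sub_distrib]
  refine Finset.sum_congr rfl fun n hn => ?_
  rw [← Finset.sum_mul, ← mul_assoc, ← sub_mul]
  congr 1
  unfold Ee mm
  push_cast
  ring

/-- polynomials with a twist: mean square -/
theorem PLM (hES : S_ESK 1) (k : ℕ) (B ε : ℝ) (hε : 0 < ε) : ∃ C : ℝ, 0 < C ∧ ∀ (σ : Fin k → Bool)
    (b : Bool) (x Y M : ℕ) (H : ℝ), 1 ≤ x → 1 ≤ Y → (Y : ℝ) ≤ H → (Y : ℝ) ≤ (x : ℝ) ^ B → 1 ≤ M →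
    (M : ℝ) ≤ (x : ℝ) ^ B →
    ∫⁻ γ, ENNReal.ofReal (‖∑ p ∈ QFs b x, cv p M * ∏ j, PY Y p (sv σ γ j) -
      (3 / Real.pi ^ 2 * x : ℝ) * DM k M Y (sv σ γ)‖ ^ 2) ∂(mP (Fin k) H) ≤
    ENNReal.ofReal (C * M * (x : ℝ) ^ (1 + ε) * H ^ k) := by
  obtain ⟨C1, hC1, h1⟩ := gmv k B (ε / 2) (by positivity)
  obtain ⟨C2, hC2, h2⟩ := hES (|B| * (k + 1)) (ε / 2) (by positivity)
  refine ⟨C1 * C2, by positivity, ?_⟩
  intro σ b x Y M H hx hY hYH hYx hM hMx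
  have hx1 : (1 : ℝ) ≤ x := by exact_mod_cast hx
  have hx0 : (0 : ℝ) < x := by linarith
  have hY1 : (1 : ℝ) ≤ Y := by exact_mod_cast hY
  have hM1 : (1 : ℝ) ≤ M := by exact_mod_cast hM
  have hH0 : 0 < H := by linarith
  simp_rw [diffM]
  refine (h1 σ x Y H hx hY hYH hYx (fun m => Ee b x (M * m))).trans (ENNReal.ofReal_le_ofReal ?_)
  have hZ : ((M * Y ^ k : ℕ) : ℝ) ≤ (x : ℝ) ^ (|B| * (k + 1)) := by
    have e1 : (M : ℝ) ≤ (x : ℝ) ^ |B| := hMx.trans (Real.rpow_le_rpow_of_exponent_le hx1 (le_abs_self B))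
    have e2 : (Y : ℝ) ≤ (x : ℝ) ^ |B| := hYx.trans (Real.rpow_le_rpow_of_exponent_le hx1 (le_abs_self B))
    push_cast
    rw [Real.rpow_mul hx0.le]
    calc (M : ℝ) * (Y : ℝ) ^ k ≤ (x : ℝ) ^ |B| * ((x : ℝ) ^ |B|) ^ k := by gcongr
      _ = ((x : ℝ) ^ |B|) ^ ((k : ℝ) + 1) := by
          rw [Real.rpow_add (by positivity), Real.rpow_one, Real.rpow_natCast, mul_comm]
  have h3 := h2 b x (M * Y ^ k) hx hZ
  have h4 : ∑ m ∈ Finset.Icc 1 (Y ^ k), ‖Ee b x (M * m)‖ ^ 2 / m ≤ M * (C2 * (x : ℝ) ^ (1 + ε / 2)) := by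
    refine le_trans ?_ (mul_le_mul_of_nonneg_left h3 (by positivity))
    have e1 : ∀ m ∈ Finset.Icc 1 (Y ^ k), ‖Ee b x (M * m)‖ ^ 2 / m =
        M * (‖Ee b x (M * m)‖ ^ 2 / ((M * m : ℕ) : ℝ)) := by
      intro m hm
      have hm0 : (0 : ℝ) < m := by exact_mod_cast (Finset.mem_Icc.1 hm).1
      have hM0 : (0 : ℝ) < M := by linarith
      push_cast
      field_simp
    rw [Finset.sum_congr rfl e1, ← Finset.mul_sum]
    refine mul_le_mul_of_nonneg_left ?_ (by positivity)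
    have hinj : Set.InjOn (fun m : ℕ => M * m) (Finset.Icc 1 (Y ^ k) : Finset ℕ) := by
      intro a _ c _ hac
      exact Nat.eq_of_mul_eq_mul_left (by omega) hac
    rw [← Finset.sum_image (f := fun m : ℕ => ‖Ee b x m‖ ^ 2 / (m : ℝ)) hinj]
    refine Finset.sum_le_sum_of_subset_of_nonneg ?_ fun m _ _ => by positivity
    intro m hm
    obtain ⟨a, ha, rfl⟩ := Finset.mem_image.1 hm
    obtain ⟨ha1, ha2⟩ := Finset.mem_Icc.1 ha
    rw [Finset.mem_Icc]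
    refine ⟨?_, Nat.mul_le_mul_left M ha2⟩
    exact Nat.one_le_iff_ne_zero.2 (Nat.mul_ne_zero (by omega) (by omega))
  have e5 : (x : ℝ) ^ (1 + ε) = (x : ℝ) ^ (ε / 2) * (x : ℝ) ^ (1 + ε / 2) := by
    rw [← Real.rpow_add hx0]
    congr 1
    ring
  calc C1 * (x : ℝ) ^ (ε / 2) * H ^ k * ∑ m ∈ Finset.Icc 1 (Y ^ k), ‖Ee b x (M * m)‖ ^ 2 / m
      ≤ C1 * (x : ℝ) ^ (ε / 2) * H ^ k * (M * (C2 * (x : ℝ) ^ (1 + ε / 2))) := by gcongr
    _ = _ := by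
        rw [e5]
        ring

end

end Pool.Agent.H681.MD
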