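import Pool.Agent.H681.MD.FeM

set_option autoImplicit false

/-!
Project MD: the box sum with a twist against the main term, in mean square.
-/

namespace Pool.Agent.H681.MD

open Complex MeasureTheory Set Filter
open scoped BigOperators ENNReal
open Pool.Agent.N879.QM Pool.Agent.N879.QM.Coef
open Pool.Agent.H681.QF.P

noncomputable section

variable {k : ℕ}

/-- the main term -/
def MTM (M : ℕ) (z : Fin k → ℂ) : ℂ := AkM M z * ∏ r : Pr k, riemannZeta (1 + z r.1.1 + z r.1.2)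

/-- partial sums of the coefficients -/
def GNM (M N : ℕ) (β : Fin k → ℝ) : ℂ := ∑ m ∈ Finset.Icc 1 N, gM M β m

lemma gM_alM (M : ℕ) (β : Fin k → ℝ) : gM M β = alM M β * ∏ r : Pr k, Eul.pw (-(pp β r)) := by
  unfold alM
  rw [mul_assoc, ← Finset.prod_mul_distrib]
  simp_rw [mu_pw]
  simp

theorem GNM_eq (M N : ℕ) (β : Fin k → ℝ) :
    GNM M N β = ∑ b ∈ Finset.Icc 1 N, alM M β b * PS Finset.univ (N / b) β := by
  classical
  unfold GNM
  have h0 := psum N (alM M β) (fun r : Pr k => Eul.pw (-(pp β r)))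
  rw [← gM_alM] at h0
  rw [h0]
  refine Finset.sum_congr rfl fun b hb => ?_
  have hb1 := (Finset.mem_Icc.1 hb).1
  unfold PS
  rw [Finset.mul_sum, ← Finset.sum_filter]
  refine Finset.sum_congr ?_ ?_
  · ext f
    rw [Finset.mem_filter, Finset.mem_filter, Fintype.mem_piFinset, mem_piF]
    simp only [Finset.mem_Icc, Finset.mem_univ, not_true_eq_false, forall_true_left, false_implies, and_true]
    rw [Nat.le_div_iff_mul_le (by omega), mul_comm b]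
    constructor
    · rintro ⟨h1, h2⟩
      refine ⟨fun r => ⟨(h1 r).1, ?_⟩, h2⟩
      rw [Nat.le_div_iff_mul_le (by omega)]
      refine le_trans (Nat.mul_le_mul_right b ?_) h2
      exact Nat.le_of_dvd (Finset.prod_pos fun i _ => (h1 i).1) (Finset.dvd_prod_of_mem _ (Finset.mem_univ r))
    · rintro ⟨h1, h2⟩
      exact ⟨fun r => ⟨(h1 r).1, (h1 r).2.trans (Nat.div_le_self _ _)⟩, h2⟩
  · intro f hf
    have hf1 := (Finset.mem_filter.1 hf).1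
    have hp := piF_pos hf1
    congr 1
    unfold Ph
    refine Finset.prod_congr rfl fun r _ => ?_
    rw [Eul.pw_apply _ (by have := hp r; omega)]
    rfl

lemma meas_gM (M m : ℕ) : Measurable fun β : Fin k → ℝ => gM M β m := by
  have e : (fun β : Fin k → ℝ => gM M β m) = fun β =>
      if m = 0 then 0 else (af (M * m) : ℂ) * ∑ n ∈ Nat.finMulAntidiag k (M1 M * m ^ 2), cx n β := by
    funext β
    rfl
  rw [e]
  by_cases h : m = 0
  · simp only [h, if_true]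
    exact measurable_const
  · simp only [h, if_false]
    exact measurable_const.mul (Finset.measurable_sum _ fun n _ => meas_cx n)

lemma meas_alM (M m : ℕ) : Measurable fun β : Fin k → ℝ => alM M β m := by
  classical
  unfold alM
  exact meas_mul (meas_gM M) (meas_prod Finset.univ) m

lemma meas_GNM (M N : ℕ) : Measurable fun β : Fin k → ℝ => GNM M N β := by
  unfold GNM
  exact Finset.measurable_sum _ fun m _ => meas_gM M m

lemma meas_AkM (h2 : S_B2) {M : ℕ} (hM : 1 ≤ M) : Measurable fun β : Fin k → ℝ => AkM M (im β) := by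
  refine measurable_of_tendsto_metrizable (f := fun (N : ℕ) (β : Fin k → ℝ) =>
    ∑ m ∈ Finset.range N, alM M β m) (fun N => Finset.measurable_sum _ fun m _ => meas_alM M m) ?_
  rw [tendsto_pi_nhds]
  intro β
  obtain ⟨e1, e2⟩ := h2 k M hM β
  rw [e2]
  exact e1.of_norm.hasSum.tendsto_sum_nat

lemma meas_MTM (h2 : S_B2) {M : ℕ} (hM : 1 ≤ M) : Measurable fun β : Fin k → ℝ => MTM M (im β) := by
  unfold MTM
  refine (meas_AkM h2 hM).mul (Finset.measurable_prod _ fun r _ => meas_zeta.comp ?_)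
  have : Continuous fun β : Fin k → ℝ => (1 + im β r.1.1 + im β r.1.2 : ℂ) := by
    unfold Pool.Agent.N879.QM.im
    fun_prop
  exact this.measurable

lemma meas_SM (M Y : ℕ) : Measurable fun β : Fin k → ℝ => SM k M Y β := by
  classical
  unfold SM
  refine Finset.measurable_sum _ fun n _ => ?_
  split_ifs
  · exact measurable_const.mul (meas_cx n)
  · exact measurable_const

/-- the tail -/
theorem alM_tail (h2 : S_B2) {M : ℕ} (hM : 1 ≤ M) {U : ℕ → ℝ} {K δ : ℝ} (hδ : δ ≤ 1 / 4) (hU0 : ∀ b, 0 ≤ U b)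
    (hU : ∀ (β : Fin k → ℝ) (b : ℕ), ‖alM M β b‖ ≤ U b)
    (hK : ∀ S : Finset ℕ, ∑ b ∈ S, U b * (b : ℝ) ^ (1 / 2 - δ) ≤ K) (β : Fin k → ℝ) {N : ℕ} (hN : 1 ≤ N) :
    ‖AkM M (im β) - ∑ b ∈ Finset.Icc 1 N, alM M β b‖ ≤ K * (N : ℝ) ^ (-(1 / 2 - δ) : ℝ) := by
  classical
  obtain ⟨e1, e2⟩ := h2 k M hM β
  have hs : Summable fun m => alM M β m := e1.of_norm
  have h1 := hs.sum_add_tsum_compl (s := Finset.Icc 1 N)
  rw [e2, ← h1, add_sub_cancel_left]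
  have hN0 : (0 : ℝ) < N := by exact_mod_cast hN
  have hWn : ∀ b : ℕ, 0 ≤ U b * (b : ℝ) ^ (1 / 2 - δ) := fun b => mul_nonneg (hU0 b) (by positivity)
  have hWs : Summable (fun b : ℕ => U b * (b : ℝ) ^ (1 / 2 - δ)) := summable_of_sum_le hWn hK
  have hWt : ∑' b : ℕ, U b * (b : ℝ) ^ (1 / 2 - δ) ≤ K := hWs.tsum_le_of_sum_le hK
  have h2' : ∀ m : ((Finset.Icc 1 N : Finset ℕ) : Set ℕ)ᶜ.Elem, ‖alM M β m‖ ≤
      (N : ℝ) ^ (-(1 / 2 - δ) : ℝ) * (U m * ((m : ℕ) : ℝ) ^ (1 / 2 - δ)) := by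
    rintro ⟨m, hm⟩
    simp only
    rcases Nat.eq_zero_or_pos m with h | h
    · subst h
      have e0 : alM M β 0 = 0 := ArithmeticFunction.map_zero
      rw [e0, norm_zero]
      exact mul_nonneg (by positivity) (hWn 0)
    · have h3 : N < m := by
        by_contra h4
        exact hm (Finset.mem_coe.2 (Finset.mem_Icc.2 ⟨h, by omega⟩))
      have h4 : (N : ℝ) ^ (1 / 2 - δ) ≤ (m : ℝ) ^ (1 / 2 - δ) :=
        Real.rpow_le_rpow hN0.le (by exact_mod_cast h3.le) (by linarith)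
      rw [Real.rpow_neg hN0.le]
      have h5 : 0 < (N : ℝ) ^ (1 / 2 - δ) := Real.rpow_pos_of_pos hN0 _
      rw [inv_mul_eq_div, le_div_iff₀ h5]
      exact mul_le_mul (hU β m) h4 h5.le (hU0 m)
  have h3 : Summable fun m : ((Finset.Icc 1 N : Finset ℕ) : Set ℕ)ᶜ.Elem => ‖alM M β m‖ := e1.subtype _
  have h4 : Summable fun m : ((Finset.Icc 1 N : Finset ℕ) : Set ℕ)ᶜ.Elem => U m * ((m : ℕ) : ℝ) ^ (1 / 2 - δ) :=
    hWs.subtype _
  have h6 : ∑' m : ((Finset.Icc 1 N : Finset ℕ) : Set ℕ)ᶜ.Elem, U m * ((m : ℕ) : ℝ) ^ (1 / 2 - δ) ≤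
      ∑' b : ℕ, U b * (b : ℝ) ^ (1 / 2 - δ) :=
    Summable.tsum_subtype_le (fun b : ℕ => U b * (b : ℝ) ^ (1 / 2 - δ)) _ hWn hWs
  calc ‖∑' m : ((Finset.Icc 1 N : Finset ℕ) : Set ℕ)ᶜ.Elem, alM M β m‖
      ≤ ∑' m : ((Finset.Icc 1 N : Finset ℕ) : Set ℕ)ᶜ.Elem, ‖alM M β m‖ :=
        norm_tsum_le_tsum_norm h3
    _ ≤ ∑' m : ((Finset.Icc 1 N : Finset ℕ) : Set ℕ)ᶜ.Elem,
          (N : ℝ) ^ (-(1 / 2 - δ) : ℝ) * (U m * ((m : ℕ) : ℝ) ^ (1 / 2 - δ)) :=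
        Summable.tsum_le_tsum h2' h3 (h4.mul_left _)
    _ = (N : ℝ) ^ (-(1 / 2 - δ) : ℝ) *
          ∑' m : ((Finset.Icc 1 N : Finset ℕ) : Set ℕ)ᶜ.Elem, U m * ((m : ℕ) : ℝ) ^ (1 / 2 - δ) := tsum_mul_left
    _ ≤ (N : ℝ) ^ (-(1 / 2 - δ) : ℝ) * K := mul_le_mul_of_nonneg_left (h6.trans hWt) (by positivity)
    _ = K * (N : ℝ) ^ (-(1 / 2 - δ) : ℝ) := mul_comm _ _

/-- the box and the main term, in mean square -/
theorem FintM (hB1 : S_B1) (hB2 : S_B2) (hB3 : S_B3) (k : ℕ) : ∃ A₀ : ℝ, 3 ≤ A₀ ∧ ∀ ε : ℝ, 0 < ε →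
    ∃ C : ℝ, 0 < C ∧ ∀ (M : ℕ) (A : ℝ), 1 ≤ M → A₀ ≤ A → (M : ℝ) ≤ A →
    ∫⁻ β in Gd k A, ENNReal.ofReal (‖SM k M ⌊A⌋₊ β - MTM M (im β)‖ ^ 2) ∂(mS k A) ≤
      ENNReal.ofReal (C * M * A ^ k * A ^ (ε - 1 / 2)) := by
  obtain ⟨U, hU0, hU, hUS⟩ := hB1 k
  obtain ⟨A₀, hA₀, hG⟩ := GintM k
  refine ⟨A₀, hA₀, fun ε hε => ?_⟩
  obtain ⟨C1, hC1, h1⟩ := hG ε hε
  obtain ⟨C2, hC2, h2⟩ := hB3 k ε hε
  have hδ0 : 0 < min (ε / 4) (1 / 4 : ℝ) := lt_min (by positivity) (by norm_num)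
  obtain ⟨C3, hC3, h3⟩ := hUS (min (ε / 4) (1 / 4)) (1 / 4) hδ0 (min_le_right _ _) (by norm_num)
  refine ⟨(2 * C2 + 2 * (C1 * C3 ^ 2)) * 2, by positivity, ?_⟩
  intro M A hM hA hMA
  have hA3 : 3 ≤ A := hA₀.trans hA
  have hA1 : 1 ≤ A := by linarith
  have hA0 : 0 < A := by linarith
  have hM1 : (1 : ℝ) ≤ M := by exact_mod_cast hM
  have hM0 : (0 : ℝ) < M := by linarith
  obtain ⟨R, hR⟩ : ∃ R : ℝ, R = A / M := ⟨_, rfl⟩
  have hR1 : 1 ≤ R := by rw [hR, le_div_iff₀ hM0]; linarith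
  have hR0 : 0 < R := by linarith
  set N : ℕ := ⌊√R⌋₊ with hN
  have hs1 : 1 ≤ √R := Real.one_le_sqrt.2 hR1
  have hN1 : 1 ≤ N := Nat.le_floor (by simpa using hs1)
  have hN1r : (1 : ℝ) ≤ N := by exact_mod_cast hN1
  have hN0 : (0 : ℝ) < N := by linarith
  have hNs : (N : ℝ) ≤ √R := Nat.floor_le (by positivity)
  have hNR : (N : ℝ) ^ 2 ≤ R := by
    calc (N : ℝ) ^ 2 ≤ √R ^ 2 := pow_le_pow_left₀ hN0.le hNs 2
      _ = R := Real.sq_sqrt hR0.le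
  have hRA : R ≤ A := by
    rw [hR, div_le_iff₀ hM0]
    nlinarith
  have hNA : (N : ℝ) ^ 2 ≤ A := hNR.trans hRA
  have hNY : M * N ^ 2 ≤ ⌊A⌋₊ := by
    refine Nat.le_floor ?_
    push_cast
    calc (M : ℝ) * (N : ℝ) ^ 2 ≤ M * R := mul_le_mul_of_nonneg_left hNR hM0.le
      _ = A := by rw [hR]; field_simp
  have hYA : ((⌊A⌋₊ : ℕ) : ℝ) ≤ A := Nat.floor_le hA0.le
  have hs2 : √R / 2 ≤ N := by
    have := Nat.lt_floor_add_one √R
    rw [← hN] at this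
    linarith
  have hK0 : 0 < C3 * (M : ℝ) ^ (1 / 4 : ℝ) := by positivity
  have b1 := h1 (fun β b => alM M β b) (fun β => AkM M (im β)) (U M) (C3 * (M : ℝ) ^ (1 / 4 : ℝ))
    (fun b => meas_alM M b) (meas_AkM hB2 hM) hK0 (hU0 M) (hU M hM) (h3 M hM)
    (fun β N' hN' => alM_tail hB2 hM (min_le_right _ _) (hU0 M) (hU M hM) (h3 M hM) β hN') N A hA hN1 hNA
  have b2 : ∫⁻ β in Gd k A, ENNReal.ofReal (‖SM k M ⌊A⌋₊ β - GNM M N β‖ ^ 2) ∂(mS k A) ≤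
      ENNReal.ofReal (C2 * A ^ k * A ^ ε / N) := (setLIntegral_le_lintegral _ _).trans (h2 M N ⌊A⌋₊ A hM hN1 hNY hYA)
  have hMT : ∀ β : Fin k → ℝ, MTM M (im β) = AkM M (im β) * ∏ r : Pr k, riemannZeta (pp β r) := by
    intro β
    unfold MTM
    congr 1
    refine Finset.prod_congr rfl fun r _ => ?_
    congr 1
    unfold pp Pool.Agent.N879.QM.im
    ring
  have b1' : ∫⁻ β in Gd k A, ENNReal.ofReal (‖GNM M N β - MTM M (im β)‖ ^ 2) ∂(mS k A) ≤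
      ENNReal.ofReal (C1 * (C3 * (M : ℝ) ^ (1 / 4 : ℝ)) ^ 2 * A ^ k * A ^ ε / N) := by
    refine le_trans (le_of_eq ?_) b1
    refine lintegral_congr fun β => ?_
    rw [norm_sub_rev, hMT, GNM_eq]
  have b3 := lint_add_sq (h := fun β => SM k M ⌊A⌋₊ β - MTM M (im β)) ((meas_SM M _).sub (meas_GNM M N))
    ((meas_GNM M N).sub (meas_MTM hB2 hM)) (by positivity) (by positivity) b2 b1' fun β => by
      simp only [Pi.sub_apply]
      ring
  refine b3.trans (ENNReal.ofReal_le_ofReal ?_)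
  have e0 : ((M : ℝ) ^ (1 / 4 : ℝ)) ^ 2 = √M := by
    rw [← Real.rpow_natCast, ← Real.rpow_mul hM0.le, Real.sqrt_eq_rpow]
    norm_num
  have h4 : A ^ ε / N ≤ 2 * (√M * A ^ (ε - 1 / 2)) := by
    rw [div_le_iff₀ hN0]
    have e1 : A ^ (ε - 1 / 2) * √A = A ^ ε := by
      rw [Real.sqrt_eq_rpow, ← Real.rpow_add hA0]
      congr 1
      ring
    have e2 : √M * √R = √A := by
      rw [← Real.sqrt_mul hM0.le, hR]
      congr 1
      field_simp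
    calc A ^ ε = 2 * (√M * A ^ (ε - 1 / 2)) * (√R / 2) := by
          rw [← e1, ← e2]
          ring
      _ ≤ 2 * (√M * A ^ (ε - 1 / 2)) * N := mul_le_mul_of_nonneg_left hs2 (by positivity)
  have hsM : 1 ≤ √M := Real.one_le_sqrt.2 hM1
  have hsM2 : √M * √M = M := Real.mul_self_sqrt hM0.le
  calc 2 * (C2 * A ^ k * A ^ ε / N) + 2 * (C1 * (C3 * (M : ℝ) ^ (1 / 4 : ℝ)) ^ 2 * A ^ k * A ^ ε / N) =
        (2 * C2 + 2 * (C1 * C3 ^ 2) * √M) * A ^ k * (A ^ ε / N) := by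
        rw [mul_pow, e0]
        ring
    _ ≤ (2 * C2 * √M + 2 * (C1 * C3 ^ 2) * √M) * A ^ k * (2 * (√M * A ^ (ε - 1 / 2))) := by
        have e3 : 2 * C2 + 2 * (C1 * C3 ^ 2) * √M ≤ 2 * C2 * √M + 2 * (C1 * C3 ^ 2) * √M := by
          have : 2 * C2 ≤ 2 * C2 * √M := le_mul_of_one_le_right (by positivity) hsM
          linarith
        gcongr
    _ = (2 * C2 + 2 * (C1 * C3 ^ 2)) * 2 * (√M * √M) * A ^ k * A ^ (ε - 1 / 2) := by ring
    _ = _ := by rw [hsM2]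

end

end Pool.Agent.H681.MD
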