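import Pool.Agent.H681.QF.All
import Pool.Agent.H681.MD.Stm

set_option autoImplicit false

/-!
Project MD: the products of `L`-values and the products of Dirichlet polynomials, mean square over
the shifts, arbitrary coefficients. The proof is that of `partA3` in the library (Y752/QF/Final3.lean).
-/

namespace Pool.Agent.H681.MD

open MeasureTheory Set Filter Complex Topology
open Pool.Agent.TH612.GS (mP zN SepA)
open Pool.Agent.TH521.GS (mor)
open Pool.Agent.Y752.QF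
open scoped ENNReal

noncomputable section

theorem opA (k : ℕ) (hk : 1 ≤ k) (η A ε : ℝ) (hη : 0 < η) (hε : 0 < ε) :
    ∃ (C : ℝ) (X0 : ℕ), 0 < C ∧
    ∀ (σ : Fin k → Bool) (b : Bool) (X : ℕ) (H : ℝ), X0 ≤ X → (X : ℝ) ^ (1 + η) ≤ H →
    H ≤ (X : ℝ) ^ A → ∀ c : DC → ℂ,
    ∫⁻ γ, ENNReal.ofReal (‖∑ p ∈ QFs b X, c p * (∏ j, LL p (1 / 2 + I * (sv σ γ j : ℂ)) -
        ∏ j, PY ⌊H⌋₊ p (sv σ γ j))‖ ^ 2) ∂(mP (Fin k) H) ≤
      ENNReal.ofReal (C * (X : ℝ) ^ ε * (1 + (X : ℝ) ^ 2 / H) * H ^ k * ∑ p ∈ QFs b X, ‖c p‖ ^ 2) := by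
  classical
  have hIN := Pool.Agent.Y845.QF.IN
  have hCJ := Pool.Agent.Y401.QF.CJ Pool.Agent.H681.QF.t_L1
  have hk0 : (0:ℝ) < (k:ℝ) + 1 := by positivity
  set ε1 : ℝ := ε / (k + 1) with hε1'
  have hε10 : 0 < ε1 := by positivity
  have hkε : (k : ℝ) * ε1 ≤ ε := by
    rw [hε1', mul_div_assoc', div_le_iff₀ (by positivity)]
    nlinarith
  obtain ⟨C1, X1, hC1, h1⟩ := Pool.Agent.H681.QF.t_OP η A ε1 hη hε10
  obtain ⟨C2, X2, hC2, h2⟩ := (Pool.Agent.Y975.QF.WIN Pool.Agent.H681.QF.t_OP) η A ε1 hη hε10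
  set C3 : ℝ := 4 ^ k * (3 * C1) * C2 ^ (k - 1) with hC3
  have hC30 : 0 < C3 := by positivity
  refine ⟨C3, X1 + X2 + 2, hC30, ?_⟩
  intro σ b X H hX hH1 hH2 c
  have hX2' : 2 ≤ X := by omega
  have hX1' : 1 ≤ X := by omega
  have hXr : (2:ℝ) ≤ X := by exact_mod_cast hX2'
  have hX0 : (0:ℝ) < X := by linarith
  have hX1r : (1:ℝ) ≤ X := by linarith
  set F := QFs b X with hF
  have hcard : (F.card : ℝ) ≤ X := by exact_mod_cast card_QFs hIN b X
  have hXH : (X : ℝ) ≤ H := by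
    refine le_trans ?_ hH1
    conv_lhs => rw [← Real.rpow_one (X : ℝ)]
    exact Real.rpow_le_rpow_of_exponent_le hX1r (by linarith)
  have hHpos : 0 < H := by linarith
  have hH1r : 1 ≤ H := by linarith
  set Y : ℕ := ⌊H⌋₊ with hY
  have hYH : (Y : ℝ) ≤ H := Nat.floor_le hHpos.le
  have hYX : X ≤ Y := Nat.le_floor hXH
  have hY1 : 1 ≤ Y := hX1'.trans hYX
  have hYr : (X : ℝ) ≤ Y := by exact_mod_cast hYX
  have hY0 : (0:ℝ) < Y := by linarith
  have hYge : H / 2 ≤ Y := by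
    have := Nat.lt_floor_add_one H
    rw [← hY] at this
    linarith
  -- part 1
  set K : ℝ := C1 * (X : ℝ) ^ ε1 * (1 + F.card * X / Y) * H with hK
  have hK0 : 0 ≤ K := by positivity
  set V : ℝ := C2 * (X : ℝ) ^ ε1 * H with hV
  have hV0 : 0 ≤ V := by positivity
  have hmem : ∀ p ∈ F, p.1 ≠ 0 ∧ p.1 ≤ X ∧ p.2.IsPrimitive ∧ p.2 ≠ 1 := by
    intro p hp
    rw [hF, mem_QFs hIN] at hp
    exact ⟨hp.1, hp.2.1, hp.2.2.1, hp.2.2.2.2.1⟩
  have hreal : ∀ p ∈ F, p.2 ^ 2 = 1 := by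
    intro p hp
    rw [hF, mem_QFs hIN] at hp
    exact hp.2.2.2.1
  have hinj : ∀ p ∈ F, ∀ p' ∈ F, p.1 = p'.1 → p = p' := by
    intro p hp p' hp' h
    rw [hF, mem_QFs hIN] at hp hp'
    exact (hIN b X).2 p hp p' hp' h
  set f : Fin k → DC → ℝ → ℂ := fun j p u =>
    if p ∈ F then LL p (1 / 2 + I * (((if σ j then 1 else -1) * u : ℝ) : ℂ)) else 0 with hf
  set g : Fin k → DC → ℝ → ℂ := fun j p u => PY Y p ((if σ j then 1 else -1) * u) with hg
  have hfF : ∀ j, ∀ p ∈ F, f j p = fun u : ℝ =>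
      LL p (1 / 2 + I * (((if σ j then 1 else -1) * u : ℝ) : ℂ)) := by
    intro j p hp
    funext u
    rw [hf]
    simp only [hp, if_true]
  have hfc : ∀ j p, Continuous (f j p) := by
    intro j p
    by_cases hp : p ∈ F
    · rw [hfF j p hp]
      exact (LL_cont (hmem p hp).1 (hmem p hp).2.2.2).comp (continuous_const.mul continuous_id)
    · have : f j p = fun _ => 0 := by
        funext u
        rw [hf]
        simp only [hp, if_false]
      rw [this]
      exact continuous_const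
  have hgc : ∀ j p, Continuous (g j p) := by
    intro j p
    rw [hg]
    exact (PY_cont Y p).comp (continuous_const.mul continuous_id)
  have hft : ∀ j, σ j = true → ∀ p ∈ F, ∀ u : ℝ, f j p u = LL p (1 / 2 + I * (u : ℂ)) ∧
      g j p u = PY Y p u := by
    intro j hj p hp u
    rw [hfF j p hp, hg]
    simp only [hj, if_true, one_mul, and_self]
  have hff : ∀ j, σ j = false → ∀ p ∈ F, ∀ u : ℝ,
      f j p u = (starRingEnd ℂ) (LL p (1 / 2 + I * (u : ℂ))) ∧
      g j p u = (starRingEnd ℂ) (PY Y p u) := by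
    intro j hj p hp u
    obtain ⟨q1, q2⟩ := hCJ p u (hmem p hp).1 (hmem p hp).2.2.2 (hreal p hp)
    rw [hfF j p hp, hg, ← q1, ← q2 Y]
    simp only [hj, Bool.false_eq_true, if_false, neg_mul, one_mul, and_self]
  have hop : ∀ j, ∀ w : DC → ℂ, ∫ u in (0:ℝ)..H, ‖∑ p ∈ F, w p * (f j p u - g j p u)‖ ^ 2 ≤
      K * ∑ p ∈ F, ‖w p‖ ^ 2 := by
    intro j w
    cases hj : σ j with
    | true =>
      have h := h1 X H Y (by omega) hH1 hH2 hY1 hYH F hmem hinj w
      refine le_trans (le_of_eq ?_) h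
      apply intervalIntegral.integral_congr
      intro u _
      dsimp only
      congr 2
      refine Finset.sum_congr rfl fun p hp => ?_
      rw [(hft j hj p hp u).1, (hft j hj p hp u).2]
    | false =>
      have h := h1 X H Y (by omega) hH1 hH2 hY1 hYH F hmem hinj (fun p => (starRingEnd ℂ) (w p))
      simp only [RCLike.norm_conj] at h
      refine le_trans (le_of_eq ?_) h
      apply intervalIntegral.integral_congr
      intro u _
      dsimp only
      rw [← RCLike.norm_conj]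
      congr 2
      rw [map_sum]
      refine Finset.sum_congr rfl fun p hp => ?_
      rw [(hff j hj p hp u).1, (hff j hj p hp u).2, map_mul, map_sub, Complex.conj_conj, Complex.conj_conj]
  have hwf : ∀ j, ∀ p ∈ F, ∫ u in (0:ℝ)..H, ‖f j p u‖ ^ 2 ≤ V := by
    intro j p hp
    obtain ⟨q1, q2, q3, q4⟩ := hmem p hp
    have h := (h2 X H Y (by omega) hH1 hH2 hYX hYH p q1 q2 q3 q4).1
    refine le_trans (le_of_eq ?_) h
    apply intervalIntegral.integral_congr
    intro u _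
    dsimp only
    cases hj : σ j with
    | true => rw [(hft j hj p hp u).1]
    | false => rw [(hff j hj p hp u).1, RCLike.norm_conj]
  have hwg : ∀ j, ∀ p ∈ F, ∫ u in (0:ℝ)..H, ‖g j p u‖ ^ 2 ≤ V := by
    intro j p hp
    obtain ⟨q1, q2, q3, q4⟩ := hmem p hp
    have h := (h2 X H Y (by omega) hH1 hH2 hYX hYH p q1 q2 q3 q4).2
    refine le_trans (le_of_eq ?_) h
    apply intervalIntegral.integral_congr
    intro u _
    dsimp only
    cases hj : σ j with
    | true => rw [(hft j hj p hp u).2]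
    | false => rw [(hff j hj p hp u).2, RCLike.norm_conj]
  have r1 := Pool.Agent.Y434.QF.REP3 H K V hHpos.le hK0 hV0 k F f g hfc hgc hop hwf hwg c
  have hKle : K ≤ 3 * C1 * (X : ℝ) ^ ε1 * (1 + X ^ 2 / H) * H := by
    have e1 : (F.card : ℝ) * X / Y ≤ 2 * (X ^ 2 / H) := by
      rw [div_le_iff₀ hY0]
      calc (F.card : ℝ) * X ≤ X * X := by gcongr
        _ = 2 * (X ^ 2 / H) * (H / 2) := by
            field_simp
        _ ≤ _ := by gcongr
    have e2 : 0 < (X:ℝ) ^ 2 / H := by positivity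
    calc K ≤ C1 * (X : ℝ) ^ ε1 * (3 * (1 + X ^ 2 / H)) * H := by
          rw [hK]
          gcongr
          linarith
      _ = _ := by ring
  have hc0 : 0 ≤ ∑ p ∈ F, ‖c p‖ ^ 2 := Finset.sum_nonneg fun _ _ => by positivity
  have hMle : 4 ^ k * K * V ^ (k - 1) * ∑ p ∈ F, ‖c p‖ ^ 2 ≤
      C3 * (X : ℝ) ^ ε * (1 + X ^ 2 / H) * H ^ k * ∑ p ∈ F, ‖c p‖ ^ 2 := by
    refine mul_le_mul_of_nonneg_right ?_ hc0
    have e2 : V ^ (k - 1) = C2 ^ (k - 1) * (X : ℝ) ^ (ε1 * (k - 1)) * H ^ (k - 1) := by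
      rw [hV, mul_pow, mul_pow]
      congr 2
      rw [← Real.rpow_natCast, ← Real.rpow_mul hX0.le]
      congr 2
      push_cast [Nat.cast_sub hk]
      ring
    have e3 : H ^ (k - 1) * H = H ^ k := by
      rw [← pow_succ]
      congr 1
      omega
    have e4 : (X : ℝ) ^ ε1 * (X : ℝ) ^ (ε1 * (k - 1)) ≤ (X : ℝ) ^ ε := by
      rw [← Real.rpow_add hX0]
      exact Real.rpow_le_rpow_of_exponent_le hX1r (by nlinarith)
    calc 4 ^ k * K * V ^ (k - 1)
        ≤ 4 ^ k * (3 * C1 * (X : ℝ) ^ ε1 * (1 + X ^ 2 / H) * H) *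
          (C2 ^ (k - 1) * (X : ℝ) ^ (ε1 * (k - 1)) * H ^ (k - 1)) := by
          rw [e2]
          gcongr
      _ = C3 * ((X : ℝ) ^ ε1 * (X : ℝ) ^ (ε1 * (k - 1))) * (1 + X ^ 2 / H) * (H ^ (k - 1) * H) := by
          rw [hC3]
          ring
      _ ≤ C3 * (X : ℝ) ^ ε * (1 + X ^ 2 / H) * (H ^ (k - 1) * H) := by gcongr
      _ = _ := by rw [e3]
  refine le_trans (le_of_eq ?_) (r1.trans (ENNReal.ofReal_le_ofReal hMle))
  refine lintegral_congr fun γ => ?_
  congr 3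
  refine Finset.sum_congr rfl fun p hp => ?_
  congr 2
  · refine Finset.prod_congr rfl fun j _ => ?_
    rw [hfF j p hp]
    dsimp only
    rw [sv_apply]
  · refine Finset.prod_congr rfl fun j _ => ?_
    rw [hg]
    dsimp only
    rw [sv_apply]

end

end Pool.Agent.H681.MD
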