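import Pool.Agent.H681.MD.Op
import Pool.Agent.H681.MD.Gmv
import Pool.Agent.H681.QF.Rm

set_option autoImplicit false

/-!
Project MD: mean squares over the cube `[-H, H]^k`.
-/

namespace Pool.Agent.H681.MD

open MeasureTheory Set Filter Complex Topology
open Pool.Agent.TH612.GS (mP)
open Pool.Agent.Y752.QF
open Pool.Agent.Y532.QF
open scoped ENNReal

noncomputable section

variable {k : ℕ}

/-- the cube -/
def cbS (k : ℕ) (H : ℝ) : Set (Fin k → ℝ) := {γ | ∀ j, |γ j| ≤ H}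

/-- Lebesgue measure on the cube -/
def cub (k : ℕ) (H : ℝ) : Measure (Fin k → ℝ) := volume.restrict (cbS k H)

lemma meas_cbS (H : ℝ) : MeasurableSet (cbS k H) := by
  have : cbS k H = ⋂ j, {γ : Fin k → ℝ | |γ j| ≤ H} := by
    ext γ
    simp [cbS]
  rw [this]
  exact MeasurableSet.iInter fun j => measurableSet_le ((measurable_pi_apply j).abs) measurable_const

lemma cub_le (H : ℝ) {f : (Fin k → ℝ) → ℝ≥0∞} (hf : Measurable f) :
    ∫⁻ γ, f γ ∂(cub k H) ≤ ∑ σ : Fin k → Bool, ∫⁻ γ, f (sv σ γ) ∂(mP (Fin k) H) := by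
  have h1 : cub k H ≤ ∑ σ : Fin k → Bool, (mP (Fin k) H).map (fun γ => sv σ γ) := by
    rw [Measure.le_iff]
    intro B hB
    rw [cub, Measure.restrict_apply hB, Measure.finsetSum_apply]
    refine le_trans (measure_mono ?_) ((Pool.Agent.H681.QF.cube_le (k := k) (H := H) hB).trans
      (le_of_eq (Finset.sum_congr rfl fun σ _ => ?_)))
    · rintro γ ⟨h1, h2⟩
      exact ⟨h2, h1⟩
    · rw [Measure.map_apply (sv_cont σ).measurable hB]
      rfl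
  refine (lintegral_mono' h1 le_rfl).trans (le_of_eq ?_)
  rw [lintegral_finsetSum_measure]
  refine Finset.sum_congr rfl fun σ _ => ?_
  rw [lintegral_map hf (sv_cont σ).measurable]

lemma cub_sq {G : (Fin k → ℝ) → ℂ} (hG : Continuous G) {H K : ℝ} (_hK : 0 ≤ K)
    (h : ∀ σ : Fin k → Bool, ∫⁻ γ, ENNReal.ofReal (‖G (sv σ γ)‖ ^ 2) ∂(mP (Fin k) H) ≤ ENNReal.ofReal K) :
    ∫⁻ γ, ENNReal.ofReal (‖G γ‖ ^ 2) ∂(cub k H) ≤ ENNReal.ofReal (2 ^ k * K) := by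
  refine (cub_le H (hG.norm.pow 2).measurable.ennreal_ofReal).trans ?_
  refine (Finset.sum_le_sum fun σ _ => h σ).trans (le_of_eq ?_)
  rw [Finset.sum_const, Finset.card_univ, Fintype.card_fun, Fintype.card_bool, Fintype.card_fin,
    nsmul_eq_mul, ENNReal.ofReal_mul (by positivity), ENNReal.ofReal_pow (by norm_num)]
  norm_num

/-- product of `L`-values -/
def aL (p : DC) (γ : Fin k → ℝ) : ℂ := ∏ j, LL p (1 / 2 + I * (γ j : ℂ))

/-- product of polynomials -/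
def aP (Y : ℕ) (p : DC) (γ : Fin k → ℝ) : ℂ := ∏ j, PY Y p (γ j)

/-- the polynomial over the hyperbolic region -/
def aS (Z : ℕ) (p : DC) (γ : Fin k → ℝ) : ℂ :=
  ∑ n ∈ (Fintype.piFinset (fun _ : Fin k => Finset.Icc 1 Z)).filter (fun n => ∏ j, n j ≤ Z),
    cv p (∏ j, n j) * ∏ j, (n j : ℂ) ^ (-(1 / 2 + I * (γ j : ℂ)))

lemma aL_cont {b : Bool} {X : ℕ} {p : DC} (hp : p ∈ QFs b X) : Continuous fun γ : Fin k → ℝ => aL p γ := by
  obtain ⟨h0, -, -, -, h1, -⟩ := (mem_QFs Pool.Agent.Y845.QF.IN).1 hp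
  exact continuous_finsetProd _ fun j _ => (LL_cont h0 h1).comp (continuous_apply j)

lemma aP_cont (Y : ℕ) (p : DC) : Continuous fun γ : Fin k → ℝ => aP Y p γ :=
  continuous_finsetProd _ fun j _ => (PY_cont Y p).comp (continuous_apply j)

lemma pw_cont {Y : ℕ} {n : Fin k → ℕ} (hn : n ∈ Fintype.piFinset (fun _ : Fin k => Finset.Icc 1 Y)) :
    Continuous fun γ : Fin k → ℝ => ∏ j, (n j : ℂ) ^ (-(1 / 2 + I * (γ j : ℂ))) := by
  refine continuous_finsetProd _ fun j _ => ?_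
  have hn1 : (n j : ℂ) ≠ 0 := by
    have := (Finset.mem_Icc.1 (Fintype.mem_piFinset.1 hn j)).1
    exact_mod_cast (by omega : n j ≠ 0)
  exact Continuous.const_cpow (by fun_prop) (Or.inl hn1)

lemma aS_cont (Z : ℕ) (p : DC) : Continuous fun γ : Fin k → ℝ => aS Z p γ :=
  continuous_finsetSum _ fun _ hn => continuous_const.mul (pw_cont (Finset.mem_filter.1 hn).1)

lemma DM_cont (M Y : ℕ) : Continuous fun γ : Fin k → ℝ => DM k M Y γ :=
  continuous_finsetSum _ fun _ hn => continuous_const.mul (pw_cont hn)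

/-- `L`-values and polynomials -/
theorem sqO (k : ℕ) (hk : 1 ≤ k) (A ε : ℝ) (hε : 0 < ε) : ∃ (C : ℝ) (X0 : ℕ), 0 < C ∧
    ∀ (b : Bool) (X : ℕ) (H : ℝ), X0 ≤ X → (X : ℝ) ^ 2 ≤ H → H ≤ (X : ℝ) ^ A → ∀ c : DC → ℂ,
    ∫⁻ γ, ENNReal.ofReal (‖∑ p ∈ QFs b X, c p * (aL p γ - aP ⌊H⌋₊ p γ)‖ ^ 2) ∂(cub k H) ≤
      ENNReal.ofReal (C * (X : ℝ) ^ ε * H ^ k * ∑ p ∈ QFs b X, ‖c p‖ ^ 2) := by
  obtain ⟨C, X0, hC, h⟩ := opA k hk 1 A ε one_pos hε
  refine ⟨2 ^ k * (2 * C), X0 + 1, by positivity, ?_⟩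
  intro b X H hX hH1 hH2 c
  have hX1 : (1 : ℝ) ≤ X := by exact_mod_cast (by omega : 1 ≤ X)
  have hX0 : (0 : ℝ) < X := by linarith
  have hH0 : 0 < H := lt_of_lt_of_le (by positivity) hH1
  have hc0 : 0 ≤ ∑ p ∈ QFs b X, ‖c p‖ ^ 2 := Finset.sum_nonneg fun _ _ => by positivity
  have hG : Continuous fun γ : Fin k → ℝ => ∑ p ∈ QFs b X, c p * (aL p γ - aP ⌊H⌋₊ p γ) :=
    continuous_finsetSum _ fun p hp => continuous_const.mul ((aL_cont hp).sub (aP_cont _ p))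
  have h1 := cub_sq hG (H := H) (K := 2 * C * (X : ℝ) ^ ε * H ^ k * ∑ p ∈ QFs b X, ‖c p‖ ^ 2)
    (by positivity) (fun σ => by
      have h2 := h σ b X H (by omega) (by
        have : (X : ℝ) ^ ((1 : ℝ) + 1) = (X : ℝ) ^ 2 := by
          rw [← Real.rpow_natCast]
          norm_num
        rw [this]
        exact hH1) hH2 c
      refine le_trans (le_of_eq ?_) (h2.trans (ENNReal.ofReal_le_ofReal ?_))
      · rfl
      · have e1 : (X : ℝ) ^ 2 / H ≤ 1 := by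
          rw [div_le_one hH0]
          exact hH1
        have e2 : 0 ≤ C * (X : ℝ) ^ ε * H ^ k := by positivity
        have e3 : C * (X : ℝ) ^ ε * (1 + (X : ℝ) ^ 2 / H) * H ^ k ≤ 2 * C * (X : ℝ) ^ ε * H ^ k := by
          nlinarith
        exact mul_le_mul_of_nonneg_right e3 hc0)
  refine h1.trans (le_of_eq ?_)
  congr 1
  ring

/-- `L`-values and polynomials, smaller cubes -/
theorem sqO' (k : ℕ) (hk : 1 ≤ k) (η A ε : ℝ) (hη : 0 < η) (hε : 0 < ε) : ∃ (C : ℝ) (X0 : ℕ), 0 < C ∧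
    ∀ (b : Bool) (X : ℕ) (H : ℝ), X0 ≤ X → (X : ℝ) ^ (1 + η) ≤ H → H ≤ (X : ℝ) ^ A → ∀ c : DC → ℂ,
    ∫⁻ γ, ENNReal.ofReal (‖∑ p ∈ QFs b X, c p * (aL p γ - aP ⌊H⌋₊ p γ)‖ ^ 2) ∂(cub k H) ≤
      ENNReal.ofReal (C * (X : ℝ) ^ ε * (1 + (X : ℝ) ^ 2 / H) * H ^ k * ∑ p ∈ QFs b X, ‖c p‖ ^ 2) := by
  obtain ⟨C, X0, hC, h⟩ := opA k hk η A ε hη hε
  refine ⟨2 ^ k * C, X0 + 1, by positivity, ?_⟩
  intro b X H hX hH1 hH2 c
  have hX1 : (1 : ℝ) ≤ X := by exact_mod_cast (by omega : 1 ≤ X)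
  have hX0 : (0 : ℝ) < X := by linarith
  have hH0 : 0 < H := lt_of_lt_of_le (by positivity) hH1
  have hc0 : 0 ≤ ∑ p ∈ QFs b X, ‖c p‖ ^ 2 := Finset.sum_nonneg fun _ _ => by positivity
  have hG : Continuous fun γ : Fin k → ℝ => ∑ p ∈ QFs b X, c p * (aL p γ - aP ⌊H⌋₊ p γ) :=
    continuous_finsetSum _ fun p hp => continuous_const.mul ((aL_cont hp).sub (aP_cont _ p))
  have h1 := cub_sq hG (H := H) (K := C * (X : ℝ) ^ ε * (1 + (X : ℝ) ^ 2 / H) * H ^ k * ∑ p ∈ QFs b X, ‖c p‖ ^ 2)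
    (by positivity) (fun σ => h σ b X H (by omega) hH1 hH2 c)
  refine h1.trans (le_of_eq ?_)
  congr 1
  ring

theorem t_ESK : S_ESK 1 := Pool.Agent.Y700.QF.ES1
    (Pool.Agent.Y492.QF.NS2 (Pool.Agent.Y412.QF.HBE Pool.Agent.Y412.QF.HBL) Pool.Agent.Y492.QF.PVC)
    (Pool.Agent.Y369.QF.ARC Pool.Agent.Y845.QF.FM Pool.Agent.Y900.QF.SQF Pool.Agent.Y900.QF.NSQC)
    Pool.Agent.Y845.QF.FM

/-- polynomials with a twist -/
theorem sqP (k : ℕ) (B ε : ℝ) (hε : 0 < ε) : ∃ C : ℝ, 0 < C ∧ ∀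
    (b : Bool) (x Y M : ℕ) (H : ℝ), 1 ≤ x → 1 ≤ Y → (Y : ℝ) ≤ H → (Y : ℝ) ≤ (x : ℝ) ^ B → 1 ≤ M →
    (M : ℝ) ≤ (x : ℝ) ^ B →
    ∫⁻ γ, ENNReal.ofReal (‖∑ p ∈ QFs b x, cv p M * aP Y p γ -
      (3 / Real.pi ^ 2 * x : ℝ) * DM k M Y γ‖ ^ 2) ∂(cub k H) ≤
    ENNReal.ofReal (C * M * (x : ℝ) ^ (1 + ε) * H ^ k) := by
  obtain ⟨C, hC, h⟩ := PLM t_ESK k B ε hε
  refine ⟨2 ^ k * C, by positivity, ?_⟩
  intro b x Y M H hx hY hYH hYx hM hMx
  have hY1 : (1 : ℝ) ≤ Y := by exact_mod_cast hY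
  have hH0 : 0 < H := by linarith
  have hG : Continuous fun γ : Fin k → ℝ => ∑ p ∈ QFs b x, cv p M * aP Y p γ -
      (3 / Real.pi ^ 2 * x : ℝ) * DM k M Y γ :=
    (continuous_finsetSum _ fun p _ => continuous_const.mul (aP_cont Y p)).sub
      (continuous_const.mul (DM_cont M Y))
  refine (cub_sq hG (H := H) (K := C * M * (x : ℝ) ^ (1 + ε) * H ^ k) (by positivity)
    (fun σ => h σ b x Y M H hx hY hYH hYx hM hMx)).trans (le_of_eq ?_)
  congr 1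
  ring

lemma cv_le (p : DC) (n : ℕ) : ‖cv p n‖ ≤ 1 := DirichletCharacter.norm_le_one p.2 _

/-- one product of polynomials -/
theorem sqW (k : ℕ) (B ε : ℝ) (hε : 0 < ε) : ∃ C : ℝ, 0 < C ∧ ∀ (X Y : ℕ) (H : ℝ) (p : DC),
    1 ≤ X → 1 ≤ Y → (Y : ℝ) ≤ H → (Y : ℝ) ≤ (X : ℝ) ^ B →
    ∫⁻ γ, ENNReal.ofReal (‖aP Y p γ‖ ^ 2) ∂(cub k H) ≤ ENNReal.ofReal (C * (X : ℝ) ^ ε * H ^ k) := by
  obtain ⟨C1, hC1, h1⟩ := gmv k B (ε / 2) (by positivity)
  have hd : 0 < ε / 2 / (|B| * k + 1) := by positivity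
  obtain ⟨C2, hC2, h2⟩ := Pool.Agent.H681.QF.P.logpow 1 hd
  refine ⟨2 ^ k * (C1 * C2), by positivity, ?_⟩
  intro X Y H p hX hY hYH hYX
  have hX1 : (1 : ℝ) ≤ X := by exact_mod_cast hX
  have hX0 : (0 : ℝ) < X := by linarith
  have hY1 : (1 : ℝ) ≤ Y := by exact_mod_cast hY
  have hH0 : 0 < H := by linarith
  refine (cub_sq (aP_cont Y p) (H := H) (K := C1 * (X : ℝ) ^ (ε / 2) * H ^ k * (C2 * (X : ℝ) ^ (ε / 2)))
    (by positivity) (fun σ => ?_)).trans (le_of_eq ?_)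
  · have h3 := h1 σ X Y H hX hY hYH hYX (fun m => cv p m)
    unfold aP
    simp_rw [prod_PY]
    refine h3.trans (ENNReal.ofReal_le_ofReal ?_)
    refine mul_le_mul_of_nonneg_left ?_ (by positivity)
    calc ∑ m ∈ Finset.Icc 1 (Y ^ k), ‖cv p m‖ ^ 2 / m ≤ ∑ m ∈ Finset.Icc 1 (Y ^ k), ((m : ℝ))⁻¹ := by
          refine Finset.sum_le_sum fun m hm => ?_
          rw [div_eq_mul_inv]
          have e1 : ‖cv p m‖ ^ 2 ≤ 1 := pow_le_one₀ (norm_nonneg _) (cv_le p m)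
          have e2 : (0 : ℝ) ≤ ((m : ℝ))⁻¹ := by positivity
          nlinarith
      _ ≤ 1 + Real.log ((Y ^ k : ℕ) : ℝ) := Pool.Agent.H681.QF.P.harm (Y ^ k)
      _ = (1 + Real.log ((Y ^ k : ℕ) : ℝ)) ^ 1 := (pow_one _).symm
      _ ≤ C2 * ((Y ^ k : ℕ) : ℝ) ^ (ε / 2 / (|B| * k + 1)) := by
          refine h2 _ ?_
          push_cast
          exact one_le_pow₀ hY1
      _ ≤ C2 * (X : ℝ) ^ (ε / 2) := by
          refine mul_le_mul_of_nonneg_left ?_ (by linarith)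
          have e1 : ((Y ^ k : ℕ) : ℝ) ≤ (X : ℝ) ^ (|B| * k) := by
            push_cast
            rw [Real.rpow_mul hX0.le, Real.rpow_natCast]
            exact pow_le_pow_left₀ (by linarith)
              (hYX.trans (Real.rpow_le_rpow_of_exponent_le hX1 (le_abs_self B))) k
          calc ((Y ^ k : ℕ) : ℝ) ^ (ε / 2 / (|B| * k + 1)) ≤
                ((X : ℝ) ^ (|B| * k)) ^ (ε / 2 / (|B| * k + 1)) :=
                Real.rpow_le_rpow (by positivity) e1 (by positivity)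
            _ = (X : ℝ) ^ (|B| * k * (ε / 2 / (|B| * k + 1))) := by rw [← Real.rpow_mul hX0.le]
            _ ≤ (X : ℝ) ^ (ε / 2) := by
                refine Real.rpow_le_rpow_of_exponent_le hX1 ?_
                rw [mul_div_assoc', div_le_iff₀ (by positivity)]
                nlinarith
  · have e5 : (X : ℝ) ^ ε = (X : ℝ) ^ (ε / 2) * (X : ℝ) ^ (ε / 2) := by
      rw [← Real.rpow_add hX0]
      congr 1
      ring
    congr 1
    rw [e5]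
    ring

/-- truncation at `Z` -/
theorem sqT (hTL : S_TL) (k : ℕ) (B ε : ℝ) (hε : 0 < ε) : ∃ C : ℝ, 0 < C ∧ ∀ (b : Bool) (X Y Z : ℕ) (H : ℝ),
    1 ≤ X → 1 ≤ Z → Z ≤ Y → (Y : ℝ) ≤ H → (Y : ℝ) ≤ (X : ℝ) ^ B → ∀ c : DC → ℂ,
    ∫⁻ γ, ENNReal.ofReal (‖∑ p ∈ QFs b X, c p * (aP Y p γ - aS Z p γ)‖ ^ 2) ∂(cub k H) ≤
      ENNReal.ofReal (C * (X : ℝ) ^ ε * (1 + X / Real.sqrt Z) * H ^ k * ∑ p ∈ QFs b X, ‖c p‖ ^ 2) := by
  classical
  obtain ⟨C1, hC1, h1⟩ := gmv k B (ε / 2) (by positivity)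
  obtain ⟨C2, hC2, h2⟩ := hTL (|B| * k) (ε / 2) (by positivity)
  refine ⟨2 ^ k * (C1 * C2), by positivity, ?_⟩
  intro b X Y Z H hX hZ hZY hYH hYX c
  have hX1 : (1 : ℝ) ≤ X := by exact_mod_cast hX
  have hX0 : (0 : ℝ) < X := by linarith
  have hY1' : 1 ≤ Y := hZ.trans hZY
  have hY1 : (1 : ℝ) ≤ Y := by exact_mod_cast hY1'
  have hH0 : 0 < H := by linarith
  have hc0 : 0 ≤ ∑ p ∈ QFs b X, ‖c p‖ ^ 2 := Finset.sum_nonneg fun _ _ => by positivity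
  have hdiff : ∀ γ : Fin k → ℝ, ∑ p ∈ QFs b X, c p * (aP Y p γ - aS Z p γ) =
      ∑ n ∈ Fintype.piFinset (fun _ : Fin k => Finset.Icc 1 Y),
        (fun m => if m ≤ Z then 0 else ∑ p ∈ QFs b X, c p * cv p m) (∏ j, n j) *
          ∏ j, (n j : ℂ) ^ (-(1 / 2 + I * (γ j : ℂ))) := by
    intro γ
    have e1 : ∀ p : DC, aP Y p γ - aS Z p γ = ∑ n ∈ Fintype.piFinset (fun _ : Fin k => Finset.Icc 1 Y),
        (if ∏ j, n j ≤ Z then 0 else cv p (∏ j, n j)) * ∏ j, (n j : ℂ) ^ (-(1 / 2 + I * (γ j : ℂ))) := by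
      intro p
      have e2 : (Fintype.piFinset (fun _ : Fin k => Finset.Icc 1 Z)).filter (fun n => ∏ j, n j ≤ Z) =
          (Fintype.piFinset (fun _ : Fin k => Finset.Icc 1 Y)).filter (fun n => ∏ j, n j ≤ Z) := by
        ext n
        simp only [Finset.mem_filter, Fintype.mem_piFinset, Finset.mem_Icc]
        constructor
        · rintro ⟨g1, g2⟩
          exact ⟨fun j => ⟨(g1 j).1, (g1 j).2.trans hZY⟩, g2⟩
        · rintro ⟨g1, g2⟩
          refine ⟨fun j => ⟨(g1 j).1, le_trans ?_ g2⟩, g2⟩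
          exact Nat.le_of_dvd (Finset.prod_pos fun i _ => (g1 i).1)
            (Finset.dvd_prod_of_mem n (Finset.mem_univ j))
      unfold aP aS
      rw [prod_PY, e2, Finset.sum_filter, ← Finset.sum_sub_distrib]
      refine Finset.sum_congr rfl fun n _ => ?_
      split_ifs
      · rw [sub_self, zero_mul]
      · rw [sub_zero]
    simp_rw [e1, Finset.mul_sum]
    rw [Finset.sum_comm]
    refine Finset.sum_congr rfl fun n _ => ?_
    by_cases hn : ∏ j, n j ≤ Z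
    · simp only [hn, if_true, zero_mul, mul_zero, Finset.sum_const_zero]
    · simp only [hn, if_false]
      rw [Finset.sum_mul]
      exact Finset.sum_congr rfl fun p _ => by ring
  have hG : Continuous fun γ : Fin k → ℝ => ∑ p ∈ QFs b X, c p * (aP Y p γ - aS Z p γ) :=
    continuous_finsetSum _ fun p _ => continuous_const.mul ((aP_cont Y p).sub (aS_cont Z p))
  have hYk : (((Y ^ k : ℕ)) : ℝ) ≤ (X : ℝ) ^ (|B| * k) := by
    push_cast
    rw [Real.rpow_mul hX0.le, Real.rpow_natCast]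
    exact pow_le_pow_left₀ (by linarith)
      (hYX.trans (Real.rpow_le_rpow_of_exponent_le hX1 (le_abs_self B))) k
  refine (cub_sq hG (H := H) (K := C1 * (X : ℝ) ^ (ε / 2) * H ^ k * (C2 * (X : ℝ) ^ (ε / 2) *
    (1 + X / Real.sqrt Z) * ∑ p ∈ QFs b X, ‖c p‖ ^ 2)) (by positivity) (fun σ => ?_)).trans (le_of_eq ?_)
  · have h3 := h1 σ X Y H hX hY1' hYH hYX (fun m => if m ≤ Z then 0 else ∑ p ∈ QFs b X, c p * cv p m)
    have h4 : ∀ γ : Fin k → ℝ, (fun γ : Fin k → ℝ => ∑ p ∈ QFs b X, c p * (aP Y p γ - aS Z p γ)) (sv σ γ) =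
        ∑ n ∈ Fintype.piFinset (fun _ : Fin k => Finset.Icc 1 Y),
        (fun m => if m ≤ Z then 0 else ∑ p ∈ QFs b X, c p * cv p m) (∏ j, n j) *
          ∏ j, (n j : ℂ) ^ (-(1 / 2 + I * (sv σ γ j : ℂ))) := fun γ => hdiff (sv σ γ)
    simp_rw [h4]
    refine h3.trans (ENNReal.ofReal_le_ofReal ?_)
    refine mul_le_mul_of_nonneg_left ?_ (by positivity)
    refine le_trans ?_ (h2 b X Z (Y ^ k) hX hZ hYk c)
    have e1 : ∀ m ∈ Finset.Icc 1 (Y ^ k), m ∉ Finset.Ioc Z (Y ^ k) →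
        ‖(fun m : ℕ => if m ≤ Z then (0 : ℂ) else ∑ p ∈ QFs b X, c p * cv p m) m‖ ^ 2 / (m : ℝ) = 0 := by
      intro m hm hm2
      have hmZ : m ≤ Z := by
        by_contra hcon
        exact hm2 (Finset.mem_Ioc.2 ⟨not_le.1 hcon, (Finset.mem_Icc.1 hm).2⟩)
      simp only [hmZ, if_true, norm_zero]
      norm_num
    have e2 : Finset.Ioc Z (Y ^ k) ⊆ Finset.Icc 1 (Y ^ k) := by
      intro m hm
      rw [Finset.mem_Ioc] at hm
      rw [Finset.mem_Icc]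
      exact ⟨by omega, hm.2⟩
    rw [← Finset.sum_subset e2 e1]
    refine le_of_eq (Finset.sum_congr rfl fun m hm => ?_)
    have hmZ : ¬ m ≤ Z := not_le.2 (Finset.mem_Ioc.1 hm).1
    simp only [hmZ, if_false]
  · have e5 : (X : ℝ) ^ ε = (X : ℝ) ^ (ε / 2) * (X : ℝ) ^ (ε / 2) := by
      rw [← Real.rpow_add hX0]
      congr 1
      ring
    congr 1
    rw [e5]
    ring

end

end Pool.Agent.H681.MD
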