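import Pool.Agent.H681.MD.Stm2

set_option autoImplicit false

/-! Project MD (helper681): in the region of absolute convergence the main term is the series `T_M` of the page. -/

namespace Pool.Agent.H681.MD

open Complex MeasureTheory Set Filter
open Pool.Agent.N879.QM

noncomputable section

open Classical in
/-- TM: for `Re z_j > 1/2` (`s_j = 1/2 + z_j`, `Re s_j > 1`) the sum of `a(M n_1 ⋯ n_k) ∏ n_j^{-s_j}` over the
tuples `n` of positive integers such that `M n_1 ⋯ n_k` is a square is `A_{k,M}(z) ∏_{i ≤ j} ζ(1 + z_i + z_j)`. -/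
def S_TM : Prop := ∀ (k M : ℕ) (z : Fin k → ℂ), 1 ≤ M → (∀ j, 1 / 2 < (z j).re) →
  HasSum (fun n : Fin k → ℕ => if (∀ j, n j ≠ 0) ∧ IsSquare (M * ∏ j, n j) then
    (af (M * ∏ j, n j) : ℂ) * ∏ j, (n j : ℂ) ^ (-(1 / 2 + z j)) else 0)
    (AkM M z * ∏ r : Pr k, riemannZeta (1 + z r.1.1 + z r.1.2))

end

end Pool.Agent.H681.MD
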