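import Pool.Agent.H681.MD.Sq

set_option autoImplicit false

/-!
Project MD: sums over the twist `M` with weights `1/M`.
-/

namespace Pool.Agent.H681.MD

open MeasureTheory Set Filter Complex Topology
open Pool.Agent.TH612.GS (mP)
open Pool.Agent.Y752.QF
open Pool.Agent.Y532.QF
open scoped ENNReal

noncomputable section

variable {k : ℕ}

lemma dbl (Z W : ℕ) (f : ℕ → ℝ) (hf : ∀ l, 0 ≤ f l) :
    ∑ a ∈ Finset.Icc 1 Z, ∑ c ∈ Finset.Icc 1 W, f (a * c) ≤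
      ∑ l ∈ Finset.Icc 1 (Z * W), (l.divisors.card : ℝ) * f l := by
  classical
  rw [← Finset.sum_product']
  have hmaps : ∀ p ∈ Finset.Icc 1 Z ×ˢ Finset.Icc 1 W, p.1 * p.2 ∈ Finset.Icc 1 (Z * W) := by
    rintro ⟨a, c⟩ h
    rw [Finset.mem_product, Finset.mem_Icc, Finset.mem_Icc] at h
    rw [Finset.mem_Icc]
    exact ⟨Nat.mul_pos h.1.1 h.2.1, Nat.mul_le_mul h.1.2 h.2.2⟩
  rw [← Finset.sum_fiberwise_of_maps_to hmaps]
  refine Finset.sum_le_sum fun l hl => ?_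
  have e1 : ∀ p ∈ (Finset.Icc 1 Z ×ˢ Finset.Icc 1 W).filter (fun p => p.1 * p.2 = l),
      f (p.1 * p.2) = f l := by
    intro p hp
    rw [(Finset.mem_filter.1 hp).2]
  rw [Finset.sum_congr rfl e1, Finset.sum_const, nsmul_eq_mul]
  refine mul_le_mul_of_nonneg_right ?_ (hf l)
  have hl1 := (Finset.mem_Icc.1 hl).1
  have : ((Finset.Icc 1 Z ×ˢ Finset.Icc 1 W).filter (fun p => p.1 * p.2 = l)).card ≤ l.divisors.card := by
    refine Finset.card_le_card_of_injOn Prod.fst ?_ ?_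
    · rintro ⟨a, c⟩ h
      have h2 := (Finset.mem_filter.1 (Finset.mem_coe.1 h)).2
      exact Finset.mem_coe.2 (Nat.mem_divisors.2 ⟨⟨c, h2.symm⟩, by omega⟩)
    · rintro ⟨a, c⟩ h ⟨a', c'⟩ h' e
      have h1 := (Finset.mem_filter.1 (Finset.mem_coe.1 h)).1
      have h2 := (Finset.mem_filter.1 (Finset.mem_coe.1 h)).2
      have h3 := (Finset.mem_filter.1 (Finset.mem_coe.1 h')).2
      rw [Finset.mem_product, Finset.mem_Icc, Finset.mem_Icc] at h1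
      simp only at e h1 h2 h3
      subst e
      exact Prod.ext rfl (Nat.eq_of_mul_eq_mul_left h1.1.1 (h2.trans h3.symm))
  exact_mod_cast this

/-- polynomials with a twist: mean square, summed over the twist -/
theorem PLMs (hES : S_ESK 1) (k : ℕ) (B ε : ℝ) (hε : 0 < ε) : ∃ C : ℝ, 0 < C ∧ ∀ (σ : Fin k → Bool)
    (b : Bool) (x Y Z : ℕ) (H : ℝ), 1 ≤ x → 1 ≤ Y → (Y : ℝ) ≤ H → (Y : ℝ) ≤ (x : ℝ) ^ B → 1 ≤ Z →
    (Z : ℝ) ≤ (x : ℝ) ^ B →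
    ∑ M ∈ Finset.Icc 1 Z, ENNReal.ofReal ((M : ℝ)⁻¹) *
      ∫⁻ γ, ENNReal.ofReal (‖∑ p ∈ QFs b x, cv p M * ∏ j, PY Y p (sv σ γ j) -
      (3 / Real.pi ^ 2 * x : ℝ) * DM k M Y (sv σ γ)‖ ^ 2) ∂(mP (Fin k) H) ≤
    ENNReal.ofReal (C * (x : ℝ) ^ (1 + ε) * H ^ k) := by
  obtain ⟨C1, hC1, h1⟩ := gmv k B (ε / 3) (by positivity)
  obtain ⟨C2, hC2, h2⟩ := hES (|B| * (k + 1)) (ε / 3) (by positivity)
  have hδ : 0 < ε / 3 / (|B| * (k + 1) + 1) := by positivity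
  obtain ⟨C3, hC3, hdiv⟩ := Pool.Agent.H510R2.divisor_bound (ε / 3 / (|B| * (k + 1) + 1)) hδ
  refine ⟨C1 * C2 * C3, by positivity, ?_⟩
  intro σ b x Y Z H hx hY hYH hYx hZ hZx
  have hx1 : (1 : ℝ) ≤ x := by exact_mod_cast hx
  have hx0 : (0 : ℝ) < x := by linarith
  have hY1 : (1 : ℝ) ≤ Y := by exact_mod_cast hY
  have hZ1 : (1 : ℝ) ≤ Z := by exact_mod_cast hZ
  have hH0 : 0 < H := by linarith
  simp_rw [diffM]
  have hZY : ((Z * Y ^ k : ℕ) : ℝ) ≤ (x : ℝ) ^ (|B| * (k + 1)) := by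
    have e1 : (Z : ℝ) ≤ (x : ℝ) ^ |B| := hZx.trans (Real.rpow_le_rpow_of_exponent_le hx1 (le_abs_self B))
    have e2 : (Y : ℝ) ≤ (x : ℝ) ^ |B| := hYx.trans (Real.rpow_le_rpow_of_exponent_le hx1 (le_abs_self B))
    push_cast
    rw [Real.rpow_mul hx0.le]
    calc (Z : ℝ) * (Y : ℝ) ^ k ≤ (x : ℝ) ^ |B| * ((x : ℝ) ^ |B|) ^ k := by gcongr
      _ = ((x : ℝ) ^ |B|) ^ ((k : ℝ) + 1) := by
          rw [Real.rpow_add (by positivity), Real.rpow_one, Real.rpow_natCast, mul_comm]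
  have h3 := h2 b x (Z * Y ^ k) hx hZY
  have hb : ∀ M ∈ Finset.Icc 1 Z, ENNReal.ofReal ((M : ℝ)⁻¹) *
      ∫⁻ γ, ENNReal.ofReal (‖∑ n ∈ Fintype.piFinset (fun _ : Fin k => Finset.Icc 1 Y),
        Ee b x (M * ∏ j, n j) * ∏ j, (n j : ℂ) ^ (-(1 / 2 + I * (sv σ γ j : ℂ)))‖ ^ 2) ∂(mP (Fin k) H) ≤
      ENNReal.ofReal (C1 * (x : ℝ) ^ (ε / 3) * H ^ k *
        ∑ m ∈ Finset.Icc 1 (Y ^ k), ‖Ee b x (M * m)‖ ^ 2 / ((M * m : ℕ) : ℝ)) := by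
    intro M hM
    have hM0 : (0 : ℝ) < M := by exact_mod_cast (Finset.mem_Icc.1 hM).1
    refine (mul_le_mul_right (h1 σ x Y H hx hY hYH hYx (fun m => Ee b x (M * m))) _).trans ?_
    rw [← ENNReal.ofReal_mul (by positivity)]
    refine ENNReal.ofReal_le_ofReal (le_of_eq ?_)
    rw [Finset.mul_sum, Finset.mul_sum, Finset.mul_sum]
    refine Finset.sum_congr rfl fun m hm => ?_
    have hm0 : (0 : ℝ) < m := by exact_mod_cast (Finset.mem_Icc.1 hm).1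
    push_cast
    field_simp
  refine (Finset.sum_le_sum hb).trans ?_
  rw [← ENNReal.ofReal_sum_of_nonneg (fun M _ => by positivity), ← Finset.mul_sum]
  refine ENNReal.ofReal_le_ofReal ?_
  have h4 := dbl Z (Y ^ k) (fun l => ‖Ee b x l‖ ^ 2 / (l : ℝ)) (fun l => by positivity)
  have h5 : ∑ l ∈ Finset.Icc 1 (Z * Y ^ k), (l.divisors.card : ℝ) * (‖Ee b x l‖ ^ 2 / (l : ℝ)) ≤
      C3 * (x : ℝ) ^ (ε / 3) * (C2 * (x : ℝ) ^ (1 + ε / 3)) := by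
    refine le_trans ?_ (mul_le_mul_of_nonneg_left h3 (by positivity))
    rw [Finset.mul_sum]
    refine Finset.sum_le_sum fun l hl => ?_
    refine mul_le_mul_of_nonneg_right ?_ (by positivity)
    have hl1 := (Finset.mem_Icc.1 hl).1
    refine (hdiv l hl1).trans (mul_le_mul_of_nonneg_left ?_ hC3.le)
    have hlx : (l : ℝ) ≤ (x : ℝ) ^ (|B| * (k + 1)) :=
      le_trans (by exact_mod_cast (Finset.mem_Icc.1 hl).2) hZY
    calc (l : ℝ) ^ (ε / 3 / (|B| * (k + 1) + 1)) ≤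
          ((x : ℝ) ^ (|B| * (k + 1))) ^ (ε / 3 / (|B| * (k + 1) + 1)) :=
          Real.rpow_le_rpow (by positivity) hlx hδ.le
      _ = (x : ℝ) ^ (|B| * (k + 1) * (ε / 3 / (|B| * (k + 1) + 1))) := by rw [← Real.rpow_mul hx0.le]
      _ ≤ (x : ℝ) ^ (ε / 3) := by
          refine Real.rpow_le_rpow_of_exponent_le hx1 ?_
          rw [mul_div_assoc', div_le_iff₀ (by positivity)]
          have : 0 ≤ |B| * (k + 1) := by positivity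
          nlinarith
  have e5 : (x : ℝ) ^ (1 + ε) = (x : ℝ) ^ (ε / 3) * ((x : ℝ) ^ (ε / 3) * (x : ℝ) ^ (1 + ε / 3)) := by
    rw [← Real.rpow_add hx0, ← Real.rpow_add hx0]
    congr 1
    ring
  calc C1 * (x : ℝ) ^ (ε / 3) * H ^ k * ∑ M ∈ Finset.Icc 1 Z,
        ∑ m ∈ Finset.Icc 1 (Y ^ k), ‖Ee b x (M * m)‖ ^ 2 / ((M * m : ℕ) : ℝ)
      ≤ C1 * (x : ℝ) ^ (ε / 3) * H ^ k * (C3 * (x : ℝ) ^ (ε / 3) * (C2 * (x : ℝ) ^ (1 + ε / 3))) :=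
        mul_le_mul_of_nonneg_left (h4.trans h5) (by positivity)
    _ = _ := by
        rw [e5]
        ring

/-- the weighted sum over the twists -/
def WE (Z : ℕ) (μ : Measure (Fin k → ℝ)) (G : ℕ → (Fin k → ℝ) → ℂ) : ℝ≥0∞ :=
  ∑ M ∈ Finset.Icc 1 Z, ENNReal.ofReal ((M : ℝ)⁻¹) * ∫⁻ γ, ENNReal.ofReal (‖G M γ‖ ^ 2) ∂μ

theorem sqPs (k : ℕ) (B ε : ℝ) (hε : 0 < ε) : ∃ C : ℝ, 0 < C ∧ ∀
    (b : Bool) (x Y Z : ℕ) (H : ℝ), 1 ≤ x → 1 ≤ Y → (Y : ℝ) ≤ H → (Y : ℝ) ≤ (x : ℝ) ^ B → 1 ≤ Z →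
    (Z : ℝ) ≤ (x : ℝ) ^ B →
    WE Z (cub k H) (fun M γ => ∑ p ∈ QFs b x, cv p M * aP Y p γ - (3 / Real.pi ^ 2 * x : ℝ) * DM k M Y γ) ≤
    ENNReal.ofReal (C * (x : ℝ) ^ (1 + ε) * H ^ k) := by
  obtain ⟨C, hC, h⟩ := PLMs t_ESK k B ε hε
  refine ⟨2 ^ k * C, by positivity, ?_⟩
  intro b x Y Z H hx hY hYH hYx hZ hZx
  have hY1 : (1 : ℝ) ≤ Y := by exact_mod_cast hY
  have hH0 : 0 < H := by linarith
  have hG : ∀ M : ℕ, Continuous fun γ : Fin k → ℝ => ∑ p ∈ QFs b x, cv p M * aP Y p γ -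
      (3 / Real.pi ^ 2 * x : ℝ) * DM k M Y γ := fun M =>
    (continuous_finsetSum _ fun p _ => continuous_const.mul (aP_cont Y p)).sub
      (continuous_const.mul (DM_cont M Y))
  unfold WE
  have h1 : ∀ M ∈ Finset.Icc 1 Z, ENNReal.ofReal ((M : ℝ)⁻¹) *
      ∫⁻ γ, ENNReal.ofReal (‖∑ p ∈ QFs b x, cv p M * aP Y p γ -
        (3 / Real.pi ^ 2 * x : ℝ) * DM k M Y γ‖ ^ 2) ∂(cub k H) ≤
      ∑ σ : Fin k → Bool, ENNReal.ofReal ((M : ℝ)⁻¹) *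
        ∫⁻ γ, ENNReal.ofReal (‖∑ p ∈ QFs b x, cv p M * aP Y p (sv σ γ) -
        (3 / Real.pi ^ 2 * x : ℝ) * DM k M Y (sv σ γ)‖ ^ 2) ∂(mP (Fin k) H) := by
    intro M _
    rw [← Finset.mul_sum]
    exact mul_le_mul_right (cub_le H ((hG M).norm.pow 2).measurable.ennreal_ofReal) _
  refine (Finset.sum_le_sum h1).trans ?_
  rw [Finset.sum_comm]
  refine (Finset.sum_le_sum fun σ _ => h σ b x Y Z H hx hY hYH hYx hZ hZx).trans (le_of_eq ?_)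
  rw [Finset.sum_const, Finset.card_univ, Fintype.card_fun, Fintype.card_bool, Fintype.card_fin,
    nsmul_eq_mul]
  have e : (2 ^ k * C * (x : ℝ) ^ (1 + ε) * H ^ k : ℝ) = 2 ^ k * (C * (x : ℝ) ^ (1 + ε) * H ^ k) := by ring
  rw [e, ENNReal.ofReal_mul (p := (2 : ℝ) ^ k) (by positivity), ENNReal.ofReal_pow (by norm_num)]
  norm_num

end

end Pool.Agent.H681.MD
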