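import Pool.Agent.H681.MD.Stm3

set_option autoImplicit false

/-! Project MD (helper681), part TM (helper176): the Euler product of the twisted main term in the region of
absolute convergence. -/

namespace Pool.Agent.H176.MD

open Complex Filter Topology Set
open Pool.Agent.N879.QM
open Pool.Agent.N879.QM.Eul
open Pool.Agent.H681.MD

noncomputable section

/-! ### Euler products of functions of the exponents -/

/-- a product over the primes of `s` of functions of the exponents -/
def fs (Φ : ℕ → ℕ → ℂ) (s : Finset ℕ) (m : ℕ) : ℂ := ∏ p ∈ s with p.Prime, Φ p (m.factorization p)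

theorem fs_insert (Φ : ℕ → ℕ → ℂ) {s : Finset ℕ} {p : ℕ} (hp : p.Prime) (hps : p ∉ s) (e : ℕ) {m : ℕ}
    (hm : m ∈ Nat.factoredNumbers s) : fs Φ (insert p s) (p ^ e * m) = Φ p e * fs Φ s m := by
  have hm0 : m ≠ 0 := Nat.ne_zero_of_mem_factoredNumbers hm
  have hpe : p ^ e ≠ 0 := pow_ne_zero e hp.ne_zero
  have hpm : m.factorization p = 0 := by
    refine Nat.factorization_eq_zero_of_not_dvd ?_
    exact (Nat.Prime.coprime_iff_not_dvd hp).1 (hp.factoredNumbers_coprime hps hm)
  unfold fs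
  rw [Finset.filter_insert, if_pos hp, Finset.prod_insert (fun h => hps (Finset.mem_filter.1 h).1)]
  congr 1
  · rw [Nat.factorization_mul hpe hm0, Finsupp.add_apply, hpm, add_zero, hp.factorization_pow,
      Finsupp.single_eq_same]
  · refine Finset.prod_congr rfl fun q hq => ?_
    have hqp : p ≠ q := by
      rintro rfl
      exact hps (Finset.mem_filter.1 hq).1
    rw [Nat.factorization_mul hpe hm0, Finsupp.add_apply, hp.factorization_pow,
      Finsupp.single_apply, if_neg hqp, zero_add]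

theorem fs_hasSum (Φ : ℕ → ℕ → ℂ) (hΦ : ∀ p : ℕ, p.Prime → Summable fun v => ‖Φ p v‖) (s : Finset ℕ) :
    (Summable fun m : Nat.factoredNumbers s => ‖fs Φ s m‖) ∧
      HasSum (fun m : Nat.factoredNumbers s => fs Φ s m) (∏ p ∈ s with p.Prime, ∑' v, Φ p v) := by
  induction s using Finset.induction with
  | empty =>
    have h1 : ∀ m : ℕ, fs Φ ∅ m = 1 := fun m => by
      unfold fs
      simp
    rw [Nat.factoredNumbers_empty]
    simp only [h1, Finset.filter_empty, Finset.prod_empty]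
    exact ⟨(Set.finite_singleton 1).summable (fun _ => ‖(1 : ℂ)‖), hasSum_singleton 1 (fun _ => (1 : ℂ))⟩
  | insert p s hp ih =>
    by_cases hpp : p.Prime
    · have hp' : p ∉ s.filter (fun q => q.Prime) := fun h => hp (Finset.mem_filter.1 h).1
      rw [Finset.filter_insert, if_pos hpp, Finset.prod_insert hp']
      have e1 : ∀ x : ℕ × Nat.factoredNumbers s,
          fs Φ (insert p s) (Nat.equivProdNatFactoredNumbers hpp hp x) = Φ p x.1 * fs Φ s x.2 := fun x => by
        rw [Nat.equivProdNatFactoredNumbers_apply', fs_insert Φ hpp hp x.1 x.2.2]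
      have s1 : Summable fun x : ℕ × Nat.factoredNumbers s => ‖Φ p x.1‖ * ‖fs Φ s x.2‖ :=
        Summable.mul_of_nonneg (hΦ p hpp) ih.1 (fun _ => norm_nonneg _) (fun _ => norm_nonneg _)
      constructor
      · rw [← (Nat.equivProdNatFactoredNumbers hpp hp).summable_iff]
        refine s1.congr fun x => ?_
        rw [Function.comp_apply, e1, norm_mul]
      · rw [← (Nat.equivProdNatFactoredNumbers hpp hp).hasSum_iff]
        have s2 : Summable fun x : ℕ × Nat.factoredNumbers s => Φ p x.1 * fs Φ s x.2 :=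
          Summable.of_norm (s1.congr fun x => (norm_mul _ _).symm)
        have h3 := (hΦ p hpp).of_norm.hasSum.mul ih.2 s2
        refine h3.congr_fun ?_
        intro x
        rw [Function.comp_apply, e1]
    · have e1 : fs Φ (insert p s) = fs Φ s := by
        funext m
        unfold fs
        rw [Finset.filter_insert, if_neg hpp]
      rw [e1, Nat.factoredNumbers_insert s hpp, Finset.filter_insert, if_neg hpp]
      exact ih

theorem euler (Φ : ℕ → ℕ → ℂ) (f : ℕ → ℂ) (P : Finset ℕ)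
    (hΦ : ∀ p : ℕ, p.Prime → Summable fun v => ‖Φ p v‖) (hf : Summable fun m => ‖f m‖) (hf0 : f 0 = 0)
    (h : ∀ s : Finset ℕ, P ⊆ s → ∀ m ∈ Nat.factoredNumbers s, f m = fs Φ s m) :
    HasProd (fun p : Nat.Primes => ∑' v, Φ p v) (∑' m, f m) := by
  let F : ℕ → ℂ := fun n => ∑' v, Φ n v
  change HasProd (F ∘ Subtype.val (p := (· ∈ {x | Nat.Prime x}))) _
  rw [hasProd_subtype_iff_mulIndicator, HasProd, SummationFilter.unconditional,
    Metric.tendsto_atTop]
  intro ε hε
  obtain ⟨N₀, hN₀⟩ := EulerProduct.norm_tsum_factoredNumbers_sub_tsum_lt hf.of_norm hf0 hε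
  refine ⟨Finset.range N₀ ∪ P, fun s hs => ?_⟩
  have h1 : ∏ p ∈ s, {p | Nat.Prime p}.mulIndicator F p = ∏ p ∈ s with p.Prime, F p :=
    Finset.prod_mulIndicator_eq_prod_filter s (fun _ => F) _ id
  have hP : P ⊆ s := fun x hx => hs (Finset.mem_union_right _ hx)
  have h2 : ∏ p ∈ s with p.Prime, F p = ∑' m : Nat.factoredNumbers s, f m := by
    rw [← (fs_hasSum Φ hΦ s).2.tsum_eq]
    exact tsum_congr fun m => (h s hP m m.2).symm
  rw [h1, h2, dist_eq_norm, norm_sub_rev]
  exact hN₀ s fun p hp => hs (Finset.mem_union_left _ (Finset.mem_range.mpr (Nat.lt_of_mem_primesBelow hp)))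

/-! ### Squares -/

theorem isSquare_of_even {n : ℕ} (hn : n ≠ 0) (h : ∀ p, Even (n.factorization p)) : IsSquare n := by
  refine ⟨n.factorization.prod fun p v => p ^ (v / 2), ?_⟩
  conv_lhs => rw [← Nat.prod_factorization_pow_eq_self hn]
  rw [← Finsupp.prod_mul]
  refine Finsupp.prod_congr fun p _ => ?_
  obtain ⟨c, hc⟩ := h p
  rw [hc, ← pow_add]
  congr 1
  omega

theorem even_of_isSquare {n : ℕ} (hn : n ≠ 0) (h : IsSquare n) (p : ℕ) : Even (n.factorization p) := by
  obtain ⟨x, rfl⟩ := h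
  have hx : x ≠ 0 := by
    rintro rfl
    exact hn rfl
  rw [Nat.factorization_mul hx hx, Finsupp.add_apply]
  exact ⟨_, rfl⟩

/-! ### The coefficients -/

open Classical in
/-- the weight of the product -/
def hh (M m : ℕ) : ℂ := if IsSquare (M * m) then (af (M * m) : ℂ) else 0

/-- the function of the exponents -/
def Phi (M : ℕ) {k : ℕ} (s : Fin k → ℂ) (p v : ℕ) : ℂ :=
  (if Even (M.factorization p + v) then 1 else 0) *
    ((if p ∣ M ∨ v ≠ 0 then (p : ℂ) / (p + 1) else 1) * T s (p ^ v))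

theorem af_le (n : ℕ) : |af n| ≤ 1 := by
  unfold af
  rw [Finset.abs_prod]
  refine Finset.prod_le_one (fun _ _ => abs_nonneg _) fun p _ => ?_
  rw [abs_of_nonneg (by positivity), div_le_one (by positivity)]
  linarith

theorem hh_le (M m : ℕ) : ‖hh M m‖ ≤ 1 := by
  unfold hh
  split_ifs
  · rw [Complex.norm_real, Real.norm_eq_abs]
    exact af_le _
  · simp

theorem hh_T {M k : ℕ} (hM : M ≠ 0) (s : Fin k → ℂ) {S : Finset ℕ} (hS : M.primeFactors ⊆ S) {m : ℕ}
    (hm : m ∈ Nat.factoredNumbers S) : hh M m * T s m = fs (Phi M s) S m := by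
  have hm0 : m ≠ 0 := Nat.ne_zero_of_mem_factoredNumbers hm
  have hMm : M * m ≠ 0 := mul_ne_zero hM hm0
  have hmS : m.primeFactors ⊆ S.filter (fun p => p.Prime) := fun p hp =>
    Finset.mem_filter.2 ⟨Nat.primeFactors_subset_of_mem_factoredNumbers hm hp, Nat.prime_of_mem_primeFactors hp⟩
  have hMS : M.primeFactors ⊆ S.filter (fun p => p.Prime) := fun p hp =>
    Finset.mem_filter.2 ⟨hS hp, Nat.prime_of_mem_primeFactors hp⟩
  have hMmS : (M * m).primeFactors ⊆ S.filter (fun p => p.Prime) := by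
    rw [Nat.primeFactors_mul hM hm0]
    exact Finset.union_subset hMS hmS
  unfold fs Phi
  rw [Finset.prod_mul_distrib, Finset.prod_mul_distrib]
  have h1 : ∏ p ∈ S.filter (fun p => p.Prime), T s (p ^ m.factorization p) = T s m := by
    rw [(T_mult s).multiplicative_factorization (T s) hm0, Finsupp.prod]
    refine (Finset.prod_subset hmS fun p _ hp => ?_).symm
    rw [Finsupp.notMem_support_iff.1 hp, pow_zero, (T_mult s).map_one]
  have h2 : ∏ p ∈ S.filter (fun p => p.Prime),
      (if p ∣ M ∨ m.factorization p ≠ 0 then (p : ℂ) / (p + 1) else 1) = (af (M * m) : ℂ) := by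
    unfold af
    rw [Complex.ofReal_prod]
    rw [← Finset.prod_subset hMmS]
    · refine Finset.prod_congr rfl fun p hp => ?_
      rw [if_pos]
      · push_cast
        rfl
      · have hpp := Nat.prime_of_mem_primeFactors hp
        rw [Nat.primeFactors_mul hM hm0, Finset.mem_union] at hp
        rcases hp with hp | hp
        · exact Or.inl (Nat.dvd_of_mem_primeFactors hp)
        · refine Or.inr ?_
          have h3 := hpp.factorization_pos_of_dvd hm0 (Nat.dvd_of_mem_primeFactors hp)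
          omega
    · intro p hp hp'
      have hpp : p.Prime := (Finset.mem_filter.1 hp).2
      rw [if_neg]
      rintro (h | h)
      · exact hp' (Nat.mem_primeFactors.2 ⟨hpp, h.mul_right m, hMm⟩)
      · refine hp' (Nat.mem_primeFactors.2 ⟨hpp, Dvd.dvd.mul_left ?_ M, hMm⟩)
        exact Nat.dvd_of_factorization_pos h
  have h3 : ∏ p ∈ S.filter (fun p => p.Prime),
      (if Even (M.factorization p + m.factorization p) then (1 : ℂ) else 0) =
      if IsSquare (M * m) then 1 else 0 := by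
    by_cases hq : IsSquare (M * m)
    · rw [if_pos hq]
      refine Finset.prod_eq_one fun p _ => ?_
      have := even_of_isSquare hMm hq p
      rw [Nat.factorization_mul hM hm0, Finsupp.add_apply] at this
      rw [if_pos this]
    · rw [if_neg hq]
      have : ∃ p, ¬ Even ((M * m).factorization p) := by
        by_contra hc
        push Not at hc
        exact hq (isSquare_of_even hMm hc)
      obtain ⟨p, hp⟩ := this
      refine Finset.prod_eq_zero (i := p) ?_ ?_
      · refine hMmS ?_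
        rw [← Nat.support_factorization]
        refine Finsupp.mem_support_iff.2 fun h0 => ?_
        rw [h0] at hp
        exact hp (by simp)
      · rw [Nat.factorization_mul hM hm0, Finsupp.add_apply] at hp
        rw [if_neg hp]
  rw [h1, h2, h3]
  unfold hh
  by_cases hq : IsSquare (M * m)
  · rw [if_pos hq, if_pos hq, one_mul]
  · rw [if_neg hq, if_neg hq, zero_mul, zero_mul]

/-! ### Sums over tuples -/

theorem summable_tuple : ∀ {k : ℕ} (u : Fin k → ℕ → ℝ), (∀ j n, 0 ≤ u j n) → (∀ j, Summable (u j)) →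
    Summable fun n : Fin k → ℕ => ∏ j, u j (n j)
  | 0, u, _, _ => Summable.of_finite
  | k + 1, u, h0, hs => by
      rw [← (Fin.consEquiv (fun _ : Fin (k + 1) => ℕ)).summable_iff]
      have h1 := summable_tuple (fun j : Fin k => u j.succ) (fun j n => h0 j.succ n) (fun j => hs j.succ)
      have h2 : Summable fun x : ℕ × (Fin k → ℕ) => u 0 x.1 * ∏ j : Fin k, u j.succ (x.2 j) :=
        Summable.mul_of_nonneg (hs 0) h1 (h0 0) fun x => Finset.prod_nonneg fun j _ => h0 _ _
      refine h2.congr fun x => ?_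
      rw [Function.comp_apply, Fin.prod_univ_succ]
      rfl

/-- the product -/
def pr {k : ℕ} (n : Fin k → ℕ) : ℕ := ∏ j, n j

/-- the terms -/
def W {k : ℕ} (s : Fin k → ℂ) (n : Fin k → ℕ) : ℂ := ∏ j, pw (s j) (n j)

theorem W_zero {k : ℕ} (s : Fin k → ℂ) {n : Fin k → ℕ} (h : ¬ ∀ j, n j ≠ 0) : W s n = 0 := by
  push Not at h
  obtain ⟨j, hj⟩ := h
  unfold W
  refine Finset.prod_eq_zero (Finset.mem_univ j) ?_
  rw [hj]
  exact (pw (s j)).map_zero

theorem W_eq {k : ℕ} (s : Fin k → ℂ) {n : Fin k → ℕ} (h : ∀ j, n j ≠ 0) : W s n = ∏ j, (n j : ℂ) ^ (s j) := by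
  unfold W
  exact Finset.prod_congr rfl fun j _ => pw_apply (s j) (h j)

theorem summable_W {k : ℕ} (s : Fin k → ℂ) (hs : ∀ j, (s j).re < -1) : Summable fun n => ‖W s n‖ := by
  have h1 : ∀ j, Summable fun n : ℕ => ‖pw (s j) n‖ := by
    intro j
    refine Summable.of_nonneg_of_le (fun _ => norm_nonneg _) (fun n => ?_) (Real.summable_nat_rpow.2 (hs j))
    rcases Nat.eq_zero_or_pos n with h | h
    · subst h
      rw [(pw (s j)).map_zero, norm_zero]
      positivity
    · rw [pw_apply (s j) (by omega), Complex.norm_natCast_cpow_of_pos h]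
  refine (summable_tuple (fun j n => ‖pw (s j) n‖) (fun _ _ => norm_nonneg _) h1).congr fun n => ?_
  unfold W
  rw [norm_prod]

theorem fiber {k : ℕ} (s : Fin k → ℂ) (m : ℕ) : ∑' b : (pr (k := k)) ⁻¹' {m}, W s b = T s m := by
  rcases Nat.eq_zero_or_pos m with h | h
  · subst h
    rw [(T s).map_zero]
    have : ∀ b : (pr (k := k)) ⁻¹' {0}, W s b = 0 := by
      rintro ⟨b, hb⟩
      have hb' : ∏ j, b j = 0 := hb
      obtain ⟨j, _, hj⟩ := Finset.prod_eq_zero_iff.1 hb'
      exact W_zero s fun h => h j hj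
    rw [tsum_congr this, tsum_zero]
  · have e : (pr (k := k)) ⁻¹' {m} = (↑(Nat.finMulAntidiag k m) : Set (Fin k → ℕ)) := by
      ext b
      rw [Set.mem_preimage, Set.mem_singleton_iff, Finset.mem_coe, Nat.mem_finMulAntidiag]
      unfold pr
      constructor
      · exact fun h' => ⟨h', by omega⟩
      · exact fun h' => h'.1
    rw [e, Finset.tsum_subtype', T_apply]
    refine Finset.sum_congr rfl fun b hb => W_eq s fun j hj => ?_
    have h2 := (Nat.mem_finMulAntidiag.1 hb).1
    rw [Finset.prod_eq_zero (Finset.mem_univ j) hj] at h2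
    omega

theorem summable_T {k : ℕ} (s : Fin k → ℂ) (hs : ∀ j, (s j).re < -1) : Summable fun m => ‖T s m‖ := by
  have h1 := (summable_W s hs).hasSum.tsum_fiberwise (pr (k := k))
  refine Summable.of_nonneg_of_le (fun _ => norm_nonneg _) (fun m => ?_) h1.summable
  rw [← fiber s m]
  exact norm_tsum_le_tsum_norm ((summable_W s hs).subtype _)

theorem tuple_sum {k : ℕ} (s : Fin k → ℂ) (hs : ∀ j, (s j).re < -1) (h : ℕ → ℂ) (hh : ∀ m, ‖h m‖ ≤ 1) :
    HasSum (fun n : Fin k → ℕ => h (pr n) * W s n) (∑' m, h m * T s m) := by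
  have h1 : Summable fun n : Fin k → ℕ => h (pr n) * W s n := by
    refine Summable.of_norm_bounded (summable_W s hs) fun n => ?_
    rw [norm_mul]
    exact mul_le_of_le_one_left (norm_nonneg _) (hh _)
  have h2 := h1.hasSum.tsum_fiberwise (pr (k := k))
  have h3 : (fun m => ∑' b : (pr (k := k)) ⁻¹' {m}, h (pr (b : Fin k → ℕ)) * W s b) = fun m => h m * T s m := by
    funext m
    rw [← fiber s m, ← tsum_mul_left]
    refine tsum_congr fun b => ?_
    have hb : pr (b : Fin k → ℕ) = m := b.2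
    rw [hb]
  rw [h3] at h2
  rw [h2.tsum_eq]
  exact h1.hasSum

/-! ### Local sums -/

theorem T_pow {k : ℕ} (s : Fin k → ℂ) {p : ℕ} (hp : p.Prime) (v : ℕ) :
    T s (p ^ v) = PowerSeries.coeff v (∏ j, gs ((p : ℂ) ^ (s j))) := by
  rw [← bell_T hp s]
  unfold bell
  rw [PowerSeries.coeff_mk]

theorem local_T {k : ℕ} (s : Fin k → ℂ) {p : ℕ} (hp : p.Prime) (hx : ∀ j, ‖(p : ℂ) ^ (s j)‖ < 1) :
    (Summable fun v => ‖T s (p ^ v)‖) ∧ HasSum (fun v => T s (p ^ v)) (∏ j, (1 - (p : ℂ) ^ (s j))⁻¹) ∧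
    HasSum (fun v : ℕ => (-1 : ℂ) ^ v * T s (p ^ v)) (∏ j, (1 + (p : ℂ) ^ (s j))⁻¹) := by
  simp only [T_pow s hp]
  have h := sm_prod Finset.univ (fun j => gs ((p : ℂ) ^ (s j))) fun j _ => (sm_gs (hx j)).1
  have h' := sm_prod Finset.univ (fun j => gs (-(p : ℂ) ^ (s j))) fun j _ =>
    (sm_gs (by rw [norm_neg]; exact hx j)).1
  have e : ∏ j, gs (-(p : ℂ) ^ (s j)) = PowerSeries.rescale (-1 : ℂ) (∏ j, gs ((p : ℂ) ^ (s j))) := by
    rw [map_prod]
    exact Finset.prod_congr rfl fun j _ => gs_neg _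
  unfold Sm ev at h h'
  have e1 : ∏ j, ev (gs ((p : ℂ) ^ (s j))) = ∏ j, (1 - (p : ℂ) ^ (s j))⁻¹ :=
    Finset.prod_congr rfl fun j _ => (sm_gs (hx j)).2
  have e2 : ∏ j, ev (gs (-(p : ℂ) ^ (s j))) = ∏ j, (1 + (p : ℂ) ^ (s j))⁻¹ := by
    refine Finset.prod_congr rfl fun j _ => ?_
    rw [(sm_gs (x := -(p : ℂ) ^ (s j)) (by rw [norm_neg]; exact hx j)).2, sub_neg_eq_add]
  unfold ev at e1 e2
  refine ⟨h.1, ?_, ?_⟩
  · rw [← e1, ← h.2]
    exact h.1.of_norm.hasSum
  · rw [← e2, ← h'.2]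
    have h3 := h'.1.of_norm.hasSum
    rw [e] at h3 ⊢
    simp only [PowerSeries.coeff_rescale] at h3 ⊢
    exact h3

theorem ite_even (w v : ℕ) : (if Even (w + v) then (1 : ℂ) else 0) = 1 / 2 * (1 + (-1) ^ w * (-1) ^ v) := by
  rw [← pow_add]
  split_ifs with h
  · rw [h.neg_one_pow]
    norm_num
  · rw [(Nat.not_even_iff_odd.1 h).neg_one_pow]
    norm_num

theorem local_Phi {k M : ℕ} (s : Fin k → ℂ) {p : ℕ} (hp : p.Prime) (hx : ∀ j, ‖(p : ℂ) ^ (s j)‖ < 1) :
    (Summable fun v => ‖Phi M s p v‖) ∧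
    ∑' v, Phi M s p v = (if p ∣ M then 1 / 2 * ((∏ j, (1 - (p : ℂ) ^ (s j))⁻¹) +
        (-1) ^ (M.factorization p) * ∏ j, (1 + (p : ℂ) ^ (s j))⁻¹)
      else 1 / 2 * ((∏ j, (1 - (p : ℂ) ^ (s j))⁻¹) + ∏ j, (1 + (p : ℂ) ^ (s j))⁻¹) + 1 / (p : ℂ)) *
      (1 + 1 / (p : ℂ))⁻¹ := by
  obtain ⟨h1, h2, h3⟩ := local_T s hp hx
  have hp0 : (p : ℂ) ≠ 0 := by exact_mod_cast hp.ne_zero
  have hp1 : (p : ℂ) + 1 ≠ 0 := by exact_mod_cast (Nat.succ_ne_zero p)
  constructor
  · refine Summable.of_nonneg_of_le (fun _ => norm_nonneg _) (fun v => ?_) h1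
    unfold Phi
    rw [norm_mul, norm_mul]
    have a1 : ‖(if Even (M.factorization p + v) then (1 : ℂ) else 0)‖ ≤ 1 := by
      split_ifs <;> simp
    have a2 : ‖(if p ∣ M ∨ v ≠ 0 then (p : ℂ) / (p + 1) else 1)‖ ≤ 1 := by
      split_ifs
      · have e1 : (p : ℂ) / (p + 1) = (((p : ℝ) / (p + 1) : ℝ) : ℂ) := by push_cast; rfl
        rw [e1, Complex.norm_real, Real.norm_eq_abs, abs_of_nonneg (by positivity),
          div_le_one (by positivity)]
        linarith
      · simp
    calc _ ≤ 1 * (1 * ‖T s (p ^ v)‖) := by gcongr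
      _ = _ := by ring
  · by_cases hM : p ∣ M
    · rw [if_pos hM]
      have h4 := ((h2.add (h3.mul_left ((-1 : ℂ) ^ (M.factorization p)))).mul_left (1 / 2)).mul_right
        ((1 + 1 / (p : ℂ))⁻¹)
      rw [← h4.tsum_eq]
      refine tsum_congr fun v => ?_
      unfold Phi
      rw [if_pos (Or.inl hM), ite_even]
      field_simp
    · rw [if_neg hM]
      have h4 := ((h2.add h3).mul_left (1 / 2)).mul_right ((1 + 1 / (p : ℂ))⁻¹)
      have h5 := h4.add (hasSum_ite_eq (0 : ℕ) (1 / (p : ℂ) * (1 + 1 / (p : ℂ))⁻¹))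
      rw [add_mul, ← h5.tsum_eq]
      refine tsum_congr fun v => ?_
      have hv : M.factorization p = 0 := Nat.factorization_eq_zero_of_not_dvd hM
      unfold Phi
      rw [hv, ite_even]
      by_cases h0 : v = 0
      · subst h0
        rw [if_neg (by simp [hM]), if_pos rfl]
        simp only [pow_zero, (T_mult s).map_one]
        field_simp
        ring
      · rw [if_pos (Or.inr h0), if_neg h0]
        field_simp
        ring

/-! ### The theorem -/

theorem TM : S_TM := by
  intro k M z hM hz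
  have hM0 : M ≠ 0 := by omega
  have hs : ∀ j, (-(1 / 2 + z j)).re < -1 := by
    intro j
    have := hz j
    simp only [neg_re, add_re, div_ofNat_re, one_re]
    linarith
  have hx : ∀ p : ℕ, p.Prime → ∀ j, ‖(p : ℂ) ^ (-(1 / 2 + z j))‖ < 1 := by
    intro p hp j
    rw [Complex.norm_natCast_cpow_of_pos hp.pos]
    exact Real.rpow_lt_one_of_one_lt_of_neg (by exact_mod_cast hp.one_lt) (by have := hs j; linarith)
  have h1 := tuple_sum (fun j => -(1 / 2 + z j)) hs (hh M) (hh_le M)
  have h2 : HasProd (fun p : Nat.Primes => ∑' v, Phi M (fun j => -(1 / 2 + z j)) p v)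
      (∑' m, hh M m * T (fun j => -(1 / 2 + z j)) m) := by
    refine euler _ _ M.primeFactors (fun p hp => (local_Phi _ hp (hx p hp)).1) ?_ ?_
      (fun S hS m hm => hh_T hM0 _ hS hm)
    · refine Summable.of_nonneg_of_le (fun _ => norm_nonneg _) (fun m => ?_)
        (summable_T (fun j => -(1 / 2 + z j)) hs)
      rw [norm_mul]
      exact mul_le_of_le_one_left (norm_nonneg _) (hh_le M m)
    · rw [(T _).map_zero, mul_zero]
  have hr : ∀ r : Pr k, 1 < (1 + z r.1.1 + z r.1.2).re := by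
    intro r
    have h3 := hz r.1.1
    have h4 := hz r.1.2
    simp only [add_re, one_re]
    linarith
  have h3 : ∀ r : Pr k, HasProd (fun p : Nat.Primes => 1 - (p : ℂ) ^ (-(1 + z r.1.1 + z r.1.2)))
      (riemannZeta (1 + z r.1.1 + z r.1.2))⁻¹ := by
    intro r
    have h4 := riemannZeta_eulerProduct_hasProd (hr r)
    have h5 : riemannZeta (1 + z r.1.1 + z r.1.2) ≠ 0 := riemannZeta_ne_zero_of_one_lt_re (hr r)
    have h6 := h4.inv₀ h5
    refine h6.congr_fun ?_
    intro p
    rw [inv_inv]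
  have h4 := hasProd_prod (s := Finset.univ) fun (r : Pr k) _ => h3 r
  have h5 := h4.mul h2
  have h6 : AkM M z = (∏ r : Pr k, (riemannZeta (1 + z r.1.1 + z r.1.2))⁻¹) *
      ∑' m, hh M m * T (fun j => -(1 / 2 + z j)) m := by
    unfold AkM
    rw [← h5.tprod_eq]
    refine tprod_congr fun p => ?_
    rw [(local_Phi (M := M) (fun j => -(1 / 2 + z j)) p.2 (hx p p.2)).2]
    unfold locM
    ring
  have h7 : AkM M z * ∏ r : Pr k, riemannZeta (1 + z r.1.1 + z r.1.2) =
      ∑' m, hh M m * T (fun j => -(1 / 2 + z j)) m := by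
    rw [h6, Finset.prod_inv_distrib]
    have h8 : ∏ r : Pr k, riemannZeta (1 + z r.1.1 + z r.1.2) ≠ 0 :=
      Finset.prod_ne_zero_iff.2 fun r _ => riemannZeta_ne_zero_of_one_lt_re (hr r)
    field_simp
  rw [h7]
  refine h1.congr_fun ?_
  intro n
  by_cases hn : ∀ j, n j ≠ 0
  · rw [W_eq _ hn]
    unfold hh pr
    by_cases hq : IsSquare (M * ∏ j, n j)
    · rw [if_pos hq, if_pos ⟨hn, hq⟩]
    · rw [if_neg hq, if_neg (fun h => hq h.2), zero_mul]
  · rw [W_zero _ hn, if_neg (fun h => hn h.1), mul_zero]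

end

end Pool.Agent.H176.MD
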